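import Pool.Agent.H.MP_89f84f_ag.q3.NsC

set_option autoImplicit false

open Complex Topology Filter Asymptotics Metric Set

namespace Q2T

namespace PerData

variable (S : PerData)

/-- The complex torus `ℂ² / Λ` is simple: two lattice vectors on a complex line of `ℂ²` are linearly dependent over `ℤ`.  (An elliptic curve in
`ℂ² / Λ` is a complex line which contains two independent lattice vectors.) -/
def Simple : Prop := ∀ x ∈ S.Lat, ∀ y ∈ S.Lat, ∀ c : ℂ, y = c • x → ∃ a b : ℤ, (a ≠ 0 ∨ b ≠ 0) ∧ (a : ℂ) • x = (b : ℂ) • y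

private theorem NsS_smul_left (H : Matrix (Fin 2) (Fin 2) ℂ) (t : ℂ) (z w : C2) :
    hm H (t • z) w = t * hm H z w := by
  simp only [hm, Fin.sum_univ_two, Pi.smul_apply, smul_eq_mul]
  ring

private theorem NsS_smul_right (H : Matrix (Fin 2) (Fin 2) ℂ) (t : ℂ) (z w : C2) :
    hm H z (t • w) = (starRingEnd ℂ) t * hm H z w := by
  simp only [hm, Fin.sum_univ_two, Pi.smul_apply, smul_eq_mul, map_mul]
  ring

private theorem NsS_rank {H : Matrix (Fin 2) (Fin 2) ℂ} (hd : H.det = 0) (z w z' w' : C2) :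
    hm H z w * hm H z' w' = hm H z w' * hm H z' w := by
  rw [Matrix.det_fin_two] at hd
  simp only [hm, Fin.sum_univ_two]
  linear_combination (z 0 * z' 1 - z 1 * z' 0) * ((starRingEnd ℂ) (w 0) * (starRingEnd ℂ) (w' 1) -
    (starRingEnd ℂ) (w' 0) * (starRingEnd ℂ) (w 1)) * hd

private theorem NsS_two {H : Matrix (Fin 2) (Fin 2) ℂ} (hH : H.IsHermitian) (a b : C2) :
    2 * I * (((hm H a b).im : ℝ) : ℂ) = hm H a b - hm H b a := by
  rw [← hm_conj hH a b, Complex.sub_conj]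
  push_cast
  ring

private theorem NsS_rad {H : Matrix (Fin 2) (Fin 2) ℂ} (hH : H.IsHermitian) (hd : H.det = 0)
    (a b c w : C2) :
    hm H ((((hm H a b).im : ℝ) : ℂ) • c + (((hm H b c).im : ℝ) : ℂ) • a +
      (((hm H c a).im : ℝ) : ℂ) • b) w = 0 := by
  rw [hm_add_left, hm_add_left, NsS_smul_left, NsS_smul_left, NsS_smul_left]
  have h1 := NsS_two hH a b
  have h2 := NsS_two hH b c
  have h3 := NsS_two hH c a
  have r1 := NsS_rank hd a b c w
  have r2 := NsS_rank hd b a c w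
  have r3 := NsS_rank hd b c a w
  have hI : (2 * I : ℂ) ≠ 0 := by simp
  refine (mul_eq_zero.1 (?_ : (2 * I) * _ = 0)).resolve_left hI
  linear_combination hm H c w * h1 + hm H a w * h2 + hm H b w * h3 + r1 - r2 + r3

private theorem NsS_line {H : Matrix (Fin 2) (Fin 2) ℂ} (h0 : H ≠ 0) {x y : C2}
    (hx : ∀ w, hm H x w = 0) (hy : ∀ w, hm H y w = 0) (hx0 : x ≠ 0) : ∃ c : ℂ, y = c • x := by
  have a0 : H 0 0 * x 0 + H 1 0 * x 1 = 0 := by
    have := hx ![1, 0]
    simpa [hm, Fin.sum_univ_two] using this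
  have a1 : H 0 1 * x 0 + H 1 1 * x 1 = 0 := by
    have := hx ![0, 1]
    simpa [hm, Fin.sum_univ_two] using this
  have b0 : H 0 0 * y 0 + H 1 0 * y 1 = 0 := by
    have := hy ![1, 0]
    simpa [hm, Fin.sum_univ_two] using this
  have b1 : H 0 1 * y 0 + H 1 1 * y 1 = 0 := by
    have := hy ![0, 1]
    simpa [hm, Fin.sum_univ_two] using this
  have hdet : x 0 * y 1 - x 1 * y 0 = 0 := by
    by_contra hne
    apply h0
    ext i j
    fin_cases i <;> fin_cases j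
    · refine (mul_eq_zero.1 (?_ : (x 0 * y 1 - x 1 * y 0) * H 0 0 = 0)).resolve_left hne
      linear_combination y 1 * a0 - x 1 * b0
    · refine (mul_eq_zero.1 (?_ : (x 0 * y 1 - x 1 * y 0) * H 0 1 = 0)).resolve_left hne
      linear_combination y 1 * a1 - x 1 * b1
    · refine (mul_eq_zero.1 (?_ : (x 0 * y 1 - x 1 * y 0) * H 1 0 = 0)).resolve_left hne
      linear_combination x 0 * b0 - y 0 * a0
    · refine (mul_eq_zero.1 (?_ : (x 0 * y 1 - x 1 * y 0) * H 1 1 = 0)).resolve_left hne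
      linear_combination x 0 * b1 - y 0 * a1
  by_cases h : x 0 = 0
  · have h1 : x 1 ≠ 0 := by
      intro h1
      apply hx0
      funext i
      fin_cases i
      · exact h
      · exact h1
    refine ⟨y 1 / x 1, ?_⟩
    funext i
    fin_cases i
    · show y 0 = y 1 / x 1 * x 0
      rw [h, mul_zero]
      rw [h, zero_mul, zero_sub, neg_eq_zero] at hdet
      exact (mul_eq_zero.1 hdet).resolve_left h1
    · show y 1 = y 1 / x 1 * x 1
      field_simp
  · refine ⟨y 0 / x 0, ?_⟩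
    funext i
    fin_cases i
    · show y 0 = y 0 / x 0 * x 0
      field_simp
    · show y 1 = y 0 / x 0 * x 1
      field_simp
      linear_combination hdet

private theorem NsS_mem {S : PerData} {x : C2} (hx : x ∈ S.Lat) (k : ℤ) : (k : ℂ) • x ∈ S.Lat := by
  rw [Int.cast_smul_eq_zsmul]
  exact S.Lat.zsmul_mem hx k

private theorem NsS_key {S : PerData} (hS : S.Simple) {H : Matrix (Fin 2) (Fin 2) ℂ}
    (hH : H ∈ S.NS) (hd : H.det = 0) (h0 : H ≠ 0) (e : Fin 4 → C2) (he : ∀ i, e i ∈ S.Lat)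
    (hi : ∀ n : Fin 4 → ℤ, ∑ i, (n i : ℂ) • e i = 0 → n = 0) : (hm H (e 0) (e 1)).im = 0 := by
  obtain ⟨k01, h01⟩ := hH.2 _ (he 0) _ (he 1)
  obtain ⟨k12, h12⟩ := hH.2 _ (he 1) _ (he 2)
  obtain ⟨k20, h20⟩ := hH.2 _ (he 2) _ (he 0)
  obtain ⟨k13, h13⟩ := hH.2 _ (he 1) _ (he 3)
  obtain ⟨k30, h30⟩ := hH.2 _ (he 3) _ (he 0)
  have hx := fun w => NsS_rad hH.1 hd (e 0) (e 1) (e 2) w
  have hy := fun w => NsS_rad hH.1 hd (e 0) (e 1) (e 3) w
  rw [h01, h12, h20] at hx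
  rw [h01, h13, h30] at hy
  rw [h01]
  by_contra hne
  have hne' : k01 ≠ 0 := by
    rintro rfl
    simp at hne
  obtain ⟨x, hxd⟩ : ∃ x, x = (((k01 : ℤ) : ℝ) : ℂ) • e 2 + (((k12 : ℤ) : ℝ) : ℂ) • e 0 +
    (((k20 : ℤ) : ℝ) : ℂ) • e 1 := ⟨_, rfl⟩
  obtain ⟨y, hyd⟩ : ∃ y, y = (((k01 : ℤ) : ℝ) : ℂ) • e 3 + (((k13 : ℤ) : ℝ) : ℂ) • e 0 +
    (((k30 : ℤ) : ℝ) : ℂ) • e 1 := ⟨_, rfl⟩
  rw [← hxd] at hx
  rw [← hyd] at hy
  simp only [Complex.ofReal_intCast] at hxd hyd
  have hxL : x ∈ S.Lat := by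
    rw [hxd]
    exact S.Lat.add_mem (S.Lat.add_mem (NsS_mem (he 2) _) (NsS_mem (he 0) _)) (NsS_mem (he 1) _)
  have hyL : y ∈ S.Lat := by
    rw [hyd]
    exact S.Lat.add_mem (S.Lat.add_mem (NsS_mem (he 3) _) (NsS_mem (he 0) _)) (NsS_mem (he 1) _)
  have hx0 : x ≠ 0 := by
    intro hx0
    have h1 := hi ![k12, k20, k01, 0] (by
      simp only [Fin.sum_univ_four]
      show (k12 : ℂ) • e 0 + (k20 : ℂ) • e 1 + (k01 : ℂ) • e 2 + ((0 : ℤ) : ℂ) • e 3 = 0
      rw [hxd] at hx0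
      rw [← hx0, Int.cast_zero, zero_smul]
      abel)
    exact hne' (congrFun h1 2)
  obtain ⟨c, hc⟩ := NsS_line h0 hx hy hx0
  obtain ⟨a, b, hab, h2⟩ := hS x hxL y hyL c hc
  have h3 := hi ![a * k12 - b * k13, a * k20 - b * k30, a * k01, -(b * k01)] (by
    simp only [Fin.sum_univ_four]
    show ((a * k12 - b * k13 : ℤ) : ℂ) • e 0 + ((a * k20 - b * k30 : ℤ) : ℂ) • e 1 +
      ((a * k01 : ℤ) : ℂ) • e 2 + ((-(b * k01) : ℤ) : ℂ) • e 3 = 0
    rw [hxd, hyd] at h2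
    have h4 := sub_eq_zero.2 h2
    rw [← h4]
    push_cast
    module)
  have h4 : a * k01 = 0 := congrFun h3 2
  have h5 : -(b * k01) = 0 := congrFun h3 3
  have h6 : a = 0 := (mul_eq_zero.1 h4).resolve_right hne'
  have h7 : b = 0 := (mul_eq_zero.1 (neg_eq_zero.1 h5)).resolve_right hne'
  rcases hab with h | h
  · exact h h6
  · exact h h7

private theorem NsS_zero_of_lat (S : PerData) (g : C2 →ₗ[ℝ] ℝ) (hg : ∀ x ∈ S.Lat, g x = 0) : g = 0 := by
  obtain ⟨K, hK, hcov⟩ := S.RestL_fund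
  have hc : Continuous g := g.continuous_of_finiteDimensional
  obtain ⟨C, hC⟩ := hK.exists_bound_of_continuousOn hc.continuousOn
  have hb : ∀ z, ‖g z‖ ≤ C := by
    intro z
    obtain ⟨x, hx, hzx⟩ := hcov z
    have h1 : g z = g (z - x) := by rw [map_sub, hg x hx, sub_zero]
    rw [h1]
    exact hC _ hzx
  refine LinearMap.ext fun z => ?_
  rw [LinearMap.zero_apply]
  by_contra hne
  have h1 : 0 < ‖g z‖ := norm_pos_iff.2 hne
  obtain ⟨n, hn⟩ := exists_nat_gt (C / ‖g z‖)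
  rw [div_lt_iff₀ h1] at hn
  have h2 := hb ((n : ℝ) • z)
  rw [map_smul, norm_smul, Real.norm_natCast] at h2
  linarith

private noncomputable def NsS_L (H : Matrix (Fin 2) (Fin 2) ℂ) (w : C2) : C2 →ₗ[ℝ] ℝ where
  toFun z := (hm H z w).im
  map_add' z x := by rw [hm_add_left, Complex.add_im]
  map_smul' t z := by
    have h : (t • z : C2) = (t : ℂ) • z := by
      funext i
      simp
    rw [h, NsS_smul_left, Complex.im_ofReal_mul]
    rfl

private theorem NsS_zero (S : PerData) {H : Matrix (Fin 2) (Fin 2) ℂ} (hH : H.IsHermitian)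
    (h : ∀ x ∈ S.Lat, ∀ y ∈ S.Lat, (hm H x y).im = 0) : H = 0 := by
  have h1 : ∀ y ∈ S.Lat, ∀ z, (hm H z y).im = 0 := by
    intro y hy z
    have := NsS_zero_of_lat S (NsS_L H y) (fun x hx => h x hx y hy)
    exact LinearMap.congr_fun this z
  have h2 : ∀ z w, (hm H z w).im = 0 := by
    intro z w
    have h3 := NsS_zero_of_lat S (NsS_L H z) (fun x hx => by
      show (hm H x z).im = 0
      rw [← hm_conj hH z x, Complex.conj_im, h1 x hx z, neg_zero])
    have h4 : (hm H w z).im = 0 := LinearMap.congr_fun h3 w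
    rw [← hm_conj hH w z, Complex.conj_im, h4, neg_zero]
  apply hm_ext
  intro z w
  rw [hm_zero]
  apply Complex.ext
  · have h5 := h2 (I • z) w
    rw [NsS_smul_left, Complex.I_mul_im] at h5
    exact h5
  · exact h2 z w

/-- Simple surfaces have no degenerate classes.
PROOF: let `H ∈ NS`, `H ≠ 0`, `det H = 0`.  There is `v ≠ 0` with `hm H v w = 0` for all `w`.  The integral alternating form
`E x y = Im (hm H x y)` on `Lat` (rank four, basis `tv e_0, tv e_1, dv e_0, dv e_1`) has a real radical of dimension two: it contains `ℂ v`, and it is not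
everything (`H ≠ 0`; `Im (hm H x y) = 0` for all `y` implies `hm H x y = 0` for all `y`, replace `y` by `i y`; so the radical is `{x | hm H x · = 0}`, a
complex line).  A rational `4 × 4` matrix whose real kernel has dimension two has a rational kernel of dimension two (the rank does not change
under field extension), so there are two `ℤ`-independent lattice vectors in the complex line `ℂ v`; they are complex multiples of each
other.  Contradiction with `Simple`. -/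
theorem Simple.aniso {S : PerData} (hS : S.Simple) : S.Aniso := by
  intro H hH hd
  by_contra h0
  apply h0
  obtain ⟨e, hedef⟩ : ∃ e : Fin 4 → C2, e = ![S.tv ![1, 0], S.tv ![0, 1], S.dv ![1, 0],
    S.dv ![0, 1]] := ⟨_, rfl⟩
  have e0 : e 0 = S.tv ![1, 0] := by rw [hedef]; rfl
  have e1 : e 1 = S.tv ![0, 1] := by rw [hedef]; rfl
  have e2 : e 2 = S.dv ![1, 0] := by rw [hedef]; rfl
  have e3 : e 3 = S.dv ![0, 1] := by rw [hedef]; rfl
  have hcomb : ∀ p q : Z2, S.tv p + S.dv q = (p 0 : ℂ) • e 0 + (p 1 : ℂ) • e 1 +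
      (q 0 : ℂ) • e 2 + (q 1 : ℂ) • e 3 := by
    intro p q
    rw [e0, e1, e2, e3]
    funext i
    fin_cases i
    · show (S.τ 0 0 * (p 0 : ℂ) + S.τ 0 1 * (p 1 : ℂ)) + (q 0 : ℂ) =
        (p 0 : ℂ) * (S.τ 0 0 * ((1 : ℤ) : ℂ) + S.τ 0 1 * ((0 : ℤ) : ℂ)) +
        (p 1 : ℂ) * (S.τ 0 0 * ((0 : ℤ) : ℂ) + S.τ 0 1 * ((1 : ℤ) : ℂ)) +
        (q 0 : ℂ) * ((1 : ℤ) : ℂ) + (q 1 : ℂ) * ((0 : ℤ) : ℂ)
      push_cast
      ring
    · show (S.τ 1 0 * (p 0 : ℂ) + S.τ 1 1 * (p 1 : ℂ)) + (S.d : ℂ) * (q 1 : ℂ) =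
        (p 0 : ℂ) * (S.τ 1 0 * ((1 : ℤ) : ℂ) + S.τ 1 1 * ((0 : ℤ) : ℂ)) +
        (p 1 : ℂ) * (S.τ 1 0 * ((0 : ℤ) : ℂ) + S.τ 1 1 * ((1 : ℤ) : ℂ)) +
        (q 0 : ℂ) * ((S.d : ℂ) * ((0 : ℤ) : ℂ)) + (q 1 : ℂ) * ((S.d : ℂ) * ((1 : ℤ) : ℂ))
      push_cast
      ring
  have he : ∀ i, e i ∈ S.Lat := by
    intro i
    fin_cases i
    · exact ⟨![1, 0], 0, by show e 0 = _; rw [e0, S.dv_zero, add_zero]⟩
    · exact ⟨![0, 1], 0, by show e 1 = _; rw [e1, S.dv_zero, add_zero]⟩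
    · exact ⟨0, ![1, 0], by show e 2 = _; rw [e2, S.tv_zero, zero_add]⟩
    · exact ⟨0, ![0, 1], by show e 3 = _; rw [e3, S.tv_zero, zero_add]⟩
  have hi : ∀ n : Fin 4 → ℤ, ∑ i, (n i : ℂ) • e i = 0 → n = 0 := by
    intro n hn
    obtain ⟨c, hc, hgr⟩ := S.lat_growth
    have h1 := hgr ![n 0, n 1] ![n 2, n 3]
    have h2 : S.tv ![n 0, n 1] + S.dv ![n 2, n 3] = 0 := by
      rw [hcomb, ← hn, Fin.sum_univ_four]
      rfl
    rw [h2, norm_zero] at h1
    have h3 : ‖(![n 0, n 1] : Z2)‖ + ‖(![n 2, n 3] : Z2)‖ ≤ 0 := by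
      by_contra hh
      rw [not_le] at hh
      have := mul_pos hc hh
      linarith
    have h4 := norm_nonneg (![n 0, n 1] : Z2)
    have h5 := norm_nonneg (![n 2, n 3] : Z2)
    have h6 : (![n 0, n 1] : Z2) = 0 := norm_eq_zero.1 (by linarith)
    have h7 : (![n 2, n 3] : Z2) = 0 := norm_eq_zero.1 (by linarith)
    funext i
    fin_cases i
    · exact congrFun h6 0
    · exact congrFun h6 1
    · exact congrFun h7 0
    · exact congrFun h7 1
  have hperm : ∀ i j : Fin 4, i ≠ j → ∃ σ : Equiv.Perm (Fin 4), σ 0 = i ∧ σ 1 = j := by decide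
  have hk : ∀ i j, (hm H (e i) (e j)).im = 0 := by
    intro i j
    by_cases hij : i = j
    · rw [hij]
      exact hm_self_im hH.1 _
    obtain ⟨σ, h1, h2⟩ := hperm i j hij
    have h3 := NsS_key hS hH hd h0 (fun l => e (σ l)) (fun l => he _) (by
      intro n hn
      have h4 := hi (fun l => n (σ.symm l)) (by
        rw [← hn, ← Equiv.sum_comp σ]
        simp)
      funext l
      have h5 := congrFun h4 (σ l)
      simpa using h5)
    rw [← h1, ← h2]
    exact h3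
  refine NsS_zero S hH.1 ?_
  rintro _ ⟨p, q, rfl⟩ _ ⟨p', q', rfl⟩
  rw [hcomb, hcomb]
  simp only [hm_add_left, hm_add_right, NsS_smul_left, NsS_smul_right, Complex.add_im,
    Complex.mul_im, Complex.conj_re, Complex.conj_im, Complex.intCast_re, Complex.intCast_im, hk]
  ring

end PerData

end Q2T
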