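import Mathlib

set_option autoImplicit false

/-!
# Quadratic points on simple abelian surfaces: the definitions (MP_89f84f_ag)

All definitions which the theorem of `Pool/Agent/Results/MP_89f84f_ag/SimpleSurfaces.lean` uses.
-/

open AlgebraicGeometry CategoryTheory

noncomputable section

namespace Pool.Agent.H.MP_89f84f_ag.SimpleSurfaces

/-- `ℂ²`. -/
abbrev C2 : Type := Fin 2 → ℂ

/-- A symmetric matrix `τ = (τ11 τ12; τ12 τ22)` with positive definite imaginary part, and an integer `d ≥ 1`. -/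
structure Period where
  τ11 : ℂ
  τ12 : ℂ
  τ22 : ℂ
  d : ℕ
  d_pos : 0 < d
  im_pos : 0 < τ11.im
  im_det : τ12.im ^ 2 < τ11.im * τ22.im

/-- The lattice `Λ ⊆ ℂ²` with the basis `(τ11, τ12)`, `(τ12, τ22)`, `(1, 0)`, `(0, d)`. -/
def Lat (S : Period) : Set C2 :=
  {z | ∃ p q r s : ℤ, z 0 = S.τ11 * p + S.τ12 * q + r ∧ z 1 = S.τ12 * p + S.τ22 * q + S.d * s}

/-- `ℂ² / Λ` is simple: two lattice vectors on a complex line are linearly dependent over `ℤ`. -/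
def Simple (S : Period) : Prop :=
  ∀ x ∈ Lat S, ∀ y ∈ Lat S, ∀ t : ℂ, y = t • x → ∃ m n : ℤ, (m ≠ 0 ∨ n ≠ 0) ∧ (m : ℂ) • x = (n : ℂ) • y

/-- The form `H (z, w) = ∑ H i j z_i conj (w_j)`. -/
def hm (H : Matrix (Fin 2) (Fin 2) ℂ) (z w : C2) : ℂ :=
  ∑ i, ∑ j, H i j * (z i * (starRingEnd ℂ) (w j))

/-- The Néron-Severi group of `ℂ² / Λ`: the Hermitian matrices `H` with `Im H (x, y) ∈ ℤ` for all `x, y ∈ Λ`. -/
def NS (S : Period) : Set (Matrix (Fin 2) (Fin 2) ℂ) :=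
  {H | H.IsHermitian ∧ ∀ x ∈ Lat S, ∀ y ∈ Lat S, ∃ n : ℤ, (hm H x y).im = n}

/-- The matrix `H0 = (Im τ)⁻¹`, a polarisation of type `(1, d)`. -/
def H0 (S : Period) : Matrix (Fin 2) (Fin 2) ℂ :=
  (S.τ11.im * S.τ22.im - S.τ12.im ^ 2 : ℂ)⁻¹ •
    !![(S.τ22.im : ℂ), -(S.τ12.im : ℂ); -(S.τ12.im : ℂ), (S.τ11.im : ℂ)]

/-- The sections of the totally symmetric line bundle with class `2 Γ` on `ℂ² / Λ`, as canonical theta functions: the entire
functions `f` with `f (z + x) = exp (π (2 Γ (z, x) + Γ (x, x))) f z` for all `x ∈ Λ`. -/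
def Theta (S : Period) (Γ : Matrix (Fin 2) (Fin 2) ℂ) : Set (C2 → ℂ) :=
  {f | Differentiable ℂ f ∧ ∀ x ∈ Lat S, ∀ z,
    f (z + x) = Complex.exp (Real.pi * (2 * hm Γ z x + hm Γ x x)) * f z}

/-- `W` is a `k`-form of `V`: the set of the `k`-linear combinations of a basis of `V`. -/
def IsForm (k : Subfield ℂ) (V W : Set (C2 → ℂ)) : Prop :=
  ∃ (N : ℕ) (e : Fin N → C2 → ℂ), (∀ i, e i ∈ V) ∧
    (∀ f ∈ V, ∃! c : Fin N → ℂ, ∀ z, f z = ∑ i, c i * e i z) ∧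
    W = {f | ∃ c : Fin N → ℂ, (∀ i, c i ∈ k) ∧ ∀ z, f z = ∑ i, c i * e i z}

/-- The derivative of `f` in the direction `v`. -/
def der (v : C2) (f : C2 → ℂ) (z : C2) : ℂ := deriv (fun t : ℂ => f (z + t • v)) 0

/-- A `k`-structure on `ℂ² / Λ` for which all classes are defined over `k`. -/
structure KStr (S : Period) (k : Subfield ℂ) where
  /-- the `k`-forms -/
  R : Matrix (Fin 2) (Fin 2) ℂ → Set (C2 → ℂ)
  form : ∀ Γ ∈ NS S, IsForm k (Theta S Γ) (R Γ)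
  mul : ∀ Γ ∈ NS S, ∀ Γ' ∈ NS S, ∀ f ∈ R Γ, ∀ g ∈ R Γ', (fun z => f z * g z) ∈ R (Γ + Γ')
  zero : ∀ Γ ∈ NS S, ∀ f ∈ R Γ, f 0 ∈ k
  nmul : ∀ Γ ∈ NS S, ∀ f ∈ R Γ, ∀ n : ℤ, (fun z => f ((n : ℂ) • z)) ∈ R ((n : ℂ) ^ 2 • Γ)
  frame : ∃ v w : C2, v 0 * w 1 ≠ v 1 * w 0 ∧ ∀ Γ ∈ NS S, ∀ f ∈ R Γ, ∀ g ∈ R Γ,
    (fun z => f z * der v g z - g z * der v f z) ∈ R ((2 : ℂ) • Γ) ∧
    (fun z => f z * der w g z - g z * der w f z) ∈ R ((2 : ℂ) • Γ)

/-- The `k`-algebra of functions on the set `f ≠ 0` which is generated by all `g / f ^ n`, `g ∈ K.R (n m H0)`. -/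
def Coord {S : Period} {k : Subfield ℂ} (K : KStr S k) (m : ℕ) (f : C2 → ℂ) : Subalgebra k ({z : C2 // f z ≠ 0} → ℂ) :=
  Algebra.adjoin k {h | ∃ (n : ℕ) (g : C2 → ℂ), g ∈ K.R (((n * m : ℕ) : ℂ) • H0 S) ∧ ∀ z, h z = g z / f z ^ n}

/-- The points of degree two of a `k`-scheme (as in `S00297`): those which are the image of `Spec L` for a field
extension `L` of degree two, but not of `Spec k`. -/
def QuadPts (k : Type) [Field k] (A : Over (Spec (CommRingCat.of k))) : Set A.left :=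
  {x : A.left |
    (∃ (L : Type) (_ : Field L) (_ : Algebra k L),
      Module.finrank k L = 2 ∧
      ∃ g : Spec (CommRingCat.of L) ⟶ A.left,
        g ≫ A.hom = Spec.map (CommRingCat.ofHom (algebraMap k L)) ∧
        ∃ p, g.base p = x) ∧
    ¬ ∃ s : Spec (CommRingCat.of k) ⟶ A.left, s ≫ A.hom = 𝟙 _ ∧ ∃ p, s.base p = x}

/-- The points of degree two are dense in every `k`-scheme `A` which contains `Spec B` as a dense open subscheme. -/
def QuadDense (k : Type) [Field k] (B : Type) [CommRing B] [Algebra k B] : Prop :=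
  ∀ (A : Over (Spec (CommRingCat.of k))) (j : Spec (CommRingCat.of B) ⟶ A.left), IsOpenImmersion j →
    j ≫ A.hom = Spec.map (CommRingCat.ofHom (algebraMap k B)) → Dense (Set.range j.base) → Dense (QuadPts k A)

end Pool.Agent.H.MP_89f84f_ag.SimpleSurfaces
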