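import Pool.Agent.H.MP_89f84f_ag.q3.CuB

set_option autoImplicit false

open Complex Topology Filter Asymptotics Metric Set Module

namespace Q2T

namespace PerData

variable {S : PerData}

private theorem ChB_fin (n : ℤ) (ε : ℂ) :
    FiniteDimensional ℂ (S.Th n 0 0 ⊓ Par ε : Submodule ℂ (C2 → ℂ)) := by
  have := S.finite_th n 0 0
  exact Submodule.finiteDimensional_inf_left _ _

private theorem ChB_ent (n : ℤ) (ε : ℂ) : (S.Th n 0 0 ⊓ Par ε : Submodule ℂ (C2 → ℂ)) ≤ Ent :=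
  fun _ hf => hf.1.1

/-- The multiples of `s` of level `n` and zero characteristics. -/
private theorem ChB_one {a b : ℕ} {s : C2 → ℂ} (C : S.Curve2 a b s) (n : ℤ) {Y : ℕ} (hY : b ≤ Y) :
    finrank ℂ ((S.Th n 0 0 ⊓ Par 1 ⊓ Van Y 0) ⊓ Mult s : Submodule ℂ (C2 → ℂ)) ≤
      finrank ℂ (S.Th (n - a) (-hc) (-hc) ⊓ Par (-1) ⊓ Van (Y - b) 0 : Submodule ℂ (C2 → ℂ)) := by
  have h := S.finrank_mult_le2 (n := n) (α' := 0) (β' := 0) (ε' := 1) (Y := Y) C.mem C.ne C.odd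
    (Or.inr rfl) C.van' hY
  rw [zero_sub, one_mul] at h
  exact h

/-- Restriction and division of functions with the characteristics `-hc`. -/
private theorem ChB_two {a b : ℕ} {s : C2 → ℂ} (C : S.Curve2 a b s) {n : ℤ} (hn : 1 ≤ n) {Y k : ℕ}
    (hY : b ≤ Y) (h : 2 * (S.d : ℤ) * a * n < b * Y + 2 * k + 2) :
    finrank ℂ (S.Th n (-hc) (-hc) ⊓ Par (-1) ⊓ Van Y 0 : Submodule ℂ (C2 → ℂ)) ≤
      finrank ℂ (S.Th (n - a) 0 0 ⊓ Par 1 ⊓ Van (Y - b) 0 : Submodule ℂ (C2 → ℂ)) + k := by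
  have ha := C.ha
  obtain ⟨-, hb⟩ := C.three_le
  have hc1 : (-hc : Fin 2 → ℝ) 1 = 0 := by
    simp [hc]
  have h1 := S.finrank_restrict2 (u := (a : ℤ)) (n := n) (α' := -hc) (β' := -hc) (ε := -1)
    (ε' := -1) (m := b) (Y := Y) (by omega) hn C.mem C.ne C.dich C.odd C.van (by omega)
    (S.Th n (-hc) (-hc) ⊓ Par (-1) ⊓ Van Y 0) le_rfl C.halfZ (by
      intro f hf i
      have h2 := hc_half (S := S) hc1 hc1 hf.1.1 hf.1.2
      fin_cases i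
      · exact h2.1
      · exact h2.2) k (by push_cast; exact h)
  have h2 := S.finrank_mult_le2 (n := n) (α' := -hc) (β' := -hc) (ε' := -1) (Y := Y) C.mem C.ne
    C.odd (Or.inr rfl) C.van' hY
  have e1 : S.Th (n - a) (-hc - hc) (-hc - hc) = S.Th (n - a) 0 0 := by
    have h3 : ∀ i, ∃ k : ℤ, (-hc - hc : Fin 2 → ℝ) i = (0 : Fin 2 → ℝ) i + k := by
      intro i
      fin_cases i
      · exact ⟨-1, by simp [hc]; norm_num⟩
      · exact ⟨0, by simp [hc]⟩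
    exact S.th_congr (n - a) h3 h3
  have e2 : (-1 : ℂ) * -1 = 1 := by norm_num
  rw [e1, e2] at h2
  omega

/-- One step of the chain: even functions of level `2 n` and even order `≥ Y`, restricted to the curve and then divided by `s` twice.
PROOF: `Y` is even, so `K = 2 δ + 1`, `4 a d n = b Y + 2 δ`.  (1) `finrank_restrict2` (`u = a`, level `2 n`, `l = 0`, `m = b`, `k = δ + 1`):
`2 d a (2 n) = b Y + 2 δ < b Y + 2 (δ + 1)`.  (2) `finrank_mult_le2`: the multiples of `s` inject into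
`G' = Th (2 n - a) (-hc) (-hc) ⊓ Par (-1) ⊓ Van (Y - b)`.  (3) `finrank_restrict2` for `G'` with the two half periods (`halfZ`, `hc_half`;
`l = 2`, `k = δ`): `2 d a (2 n - a) = b Y + 2 δ - b² + 1 < b (Y - b) + 2 δ + 2`.  (4) `finrank_mult_le2`: the multiples of `s` in `G'` inject into
`Th (2 n - a - a) (-hc - hc) (-hc - hc) ⊓ Par 1 ⊓ Van (Y - b - b)`, equal to `Th (2 (n - a)) 0 0 ...` (`th_congr`).
The sum is `(δ + 1) + δ = K`. -/
theorem Curve2.step {a b : ℕ} {s : C2 → ℂ} (C : S.Curve2 a b s) {n : ℤ} (hn : (a : ℤ) < n) {Y K : ℕ} (hY : 2 * b ≤ Y)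
    (hev : Even Y) (hK : 4 * (a : ℤ) * S.d * n + 1 = b * Y + K) :
    finrank ℂ (S.Th (2 * n) 0 0 ⊓ Par 1 ⊓ Van Y 0 : Submodule ℂ (C2 → ℂ)) ≤
      finrank ℂ (S.Th (2 * (n - a)) 0 0 ⊓ Par 1 ⊓ Van (Y - 2 * b) 0 : Submodule ℂ (C2 → ℂ)) + K := by
  have ha := C.ha
  obtain ⟨-, hb⟩ := C.three_le
  obtain ⟨y, hy⟩ := hev
  obtain ⟨δ, hδ⟩ : ∃ δ : ℕ, K = 2 * δ + 1 := by
    have h0 : (b : ℤ) * Y = 2 * (b * y) := by
      rw [hy]
      push_cast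
      ring
    obtain ⟨r, hr⟩ : ∃ r : ℤ, r = 2 * a * S.d * n - b * y := ⟨_, rfl⟩
    have h1 : (K : ℤ) = 2 * r + 1 := by
      rw [hr]
      linarith
    refine ⟨r.toNat, ?_⟩
    omega
  have hK' : 4 * (a : ℤ) * S.d * n = b * Y + 2 * δ := by
    rw [hδ] at hK
    push_cast at hK
    linarith
  have hp : (b : ℤ) ^ 2 = 2 * S.d * a ^ 2 + 1 := by exact_mod_cast C.pell
  have h1 := S.finrank_restrict2 (u := (a : ℤ)) (n := 2 * n) (α' := 0) (β' := 0) (ε := -1)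
    (ε' := 1) (m := b) (Y := Y) (l := 0) (by omega) (by omega) C.mem C.ne C.dich C.odd C.van
    (by omega) (S.Th (2 * n) 0 0 ⊓ Par 1 ⊓ Van Y 0) le_rfl (w := Fin.elim0)
    ⟨fun i => i.elim0, fun i => i.elim0⟩ (fun _ _ i => i.elim0) (δ + 1) (by
      push_cast
      linarith)
  have h2 := ChB_one C (2 * n) (Y := Y) (by omega)
  have h3 := ChB_two C (n := 2 * n - a) (by omega) (Y := Y - b) (k := δ) (by omega) (by
    have h4 : ((Y - b : ℕ) : ℤ) = Y - b := by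
      rw [Nat.cast_sub (by omega)]
    rw [h4]
    nlinarith)
  have e1 : 2 * n - (a : ℤ) - a = 2 * (n - a) := by ring
  have e2 : Y - b - b = Y - 2 * b := by omega
  rw [e1, e2] at h3
  omega

/-- The numbers of the pencil. -/
theorem Curve2.exists_numbers {a b : ℕ} {s : C2 → ℂ} (C : S.Curve2 a b s) :
    ∃ j x y : ℕ, 1 ≤ j ∧ j + b + 2 = b ^ 2 ∧ x = a * (j + 1) ∧ y = 2 + 2 * j * b ∧
      4 * a * S.d * x = b * y + 2 := by
  have ha := C.ha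
  obtain ⟨-, hb⟩ := C.three_le
  have h1 : b + 3 ≤ b ^ 2 := by nlinarith
  refine ⟨b ^ 2 - b - 2, a * (b ^ 2 - b - 2 + 1), 2 + 2 * (b ^ 2 - b - 2) * b, by omega, by omega,
    rfl, rfl, ?_⟩
  obtain ⟨j, hj⟩ : ∃ j, j = b ^ 2 - b - 2 := ⟨_, rfl⟩
  rw [← hj]
  have hj' : j + b + 2 = b ^ 2 := by omega
  have hjz : (j : ℤ) + b + 2 = b ^ 2 := by exact_mod_cast hj'
  have hp : (b : ℤ) ^ 2 = 2 * S.d * a ^ 2 + 1 := by exact_mod_cast C.pell
  have : 4 * (a : ℤ) * S.d * (a * (j + 1)) = b * (2 + 2 * j * b) + 2 := by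
    linear_combination (-2) * hjz - 2 * ((j : ℤ) + 1) * hp
  exact_mod_cast this

/-- The chain. -/
private theorem ChB_chain {a b : ℕ} {s : C2 → ℂ} (C : S.Curve2 a b s) {j : ℕ}
    (h1 : j + b + 2 = b ^ 2) (i : ℕ) (hi : i ≤ j) :
    (finrank ℂ (S.Th (2 * ((a * (i + 1) : ℕ) : ℤ)) 0 0 ⊓ Par 1 ⊓ Van (2 + 2 * i * b) 0 :
      Submodule ℂ (C2 → ℂ)) : ℤ) ≤ b ^ 2 + i * (2 * j + 2) - i ^ 2 := by
  have ha := C.ha
  obtain ⟨-, hb⟩ := C.three_le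
  have h1z : (j : ℤ) + b + 2 = b ^ 2 := by exact_mod_cast h1
  have hpz : (b : ℤ) ^ 2 = 2 * S.d * a ^ 2 + 1 := by exact_mod_cast C.pell
  induction i with
  | zero =>
    have e : ((a * (0 + 1) : ℕ) : ℤ) = (a : ℤ) := by push_cast; ring
    have e' : 2 + 2 * 0 * b = 2 := by ring
    rw [e, e']
    have := ChB_fin (S := S) (2 * (a : ℤ)) 1
    have h2 := S.finrank_even (x := (a : ℤ)) (by omega)
    have h3 : finrank ℂ (S.Th (2 * (a : ℤ)) 0 0 ⊓ Par 1 ⊓ Van 2 0 :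
      Submodule ℂ (C2 → ℂ)) < finrank ℂ (S.Th (2 * (a : ℤ)) 0 0 ⊓ Par 1 :
        Submodule ℂ (C2 → ℂ)) := by
      apply Submodule.finrank_lt_finrank_of_lt
      refine lt_of_le_of_ne inf_le_left fun he => ?_
      obtain ⟨f, hf, hf0⟩ := S.exists_even_ne_zero (x := (a : ℤ)) (by omega) 0
      rw [← he] at hf
      apply hf0
      exact (van_one_iff hf.1.1.1 0).1 (van_mono (by norm_num) 0 hf.2)
    have h4 : (finrank ℂ (S.Th (2 * (a : ℤ)) 0 0 ⊓ Par 1 ⊓ Van 2 0 :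
      Submodule ℂ (C2 → ℂ)) : ℤ) < finrank ℂ (S.Th (2 * (a : ℤ)) 0 0 ⊓ Par 1 :
        Submodule ℂ (C2 → ℂ)) := by exact_mod_cast h3
    rw [h2] at h4
    push_cast
    linarith
  | succ i ih =>
    have ih' := ih (by omega)
    obtain ⟨k, hk⟩ : ∃ k, j = i + 1 + k := ⟨j - (i + 1), by omega⟩
    have hkz : (j : ℤ) = i + 1 + k := by exact_mod_cast hk
    have hY : 2 * b ≤ 2 + 2 * (i + 1) * b := by nlinarith
    have h2 := C.step (n := ((a * (i + 1 + 1) : ℕ) : ℤ)) (by push_cast; nlinarith)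
      (Y := 2 + 2 * (i + 1) * b) (K := 2 * k + 3) hY ⟨1 + (i + 1) * b, by ring⟩ (by
        push_cast
        linear_combination (-2) * h1z - 2 * ((i : ℤ) + 2) * hpz + 2 * hkz)
    have e1 : ((a * (i + 1 + 1) : ℕ) : ℤ) - a = ((a * (i + 1) : ℕ) : ℤ) := by push_cast; ring
    have e2 : 2 + 2 * (i + 1) * b - 2 * b = 2 + 2 * i * b := by
      have : 2 + 2 * (i + 1) * b = (2 + 2 * i * b) + 2 * b := by ring
      omega
    rw [e1, e2] at h2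
    have h3 : (finrank ℂ (S.Th (2 * ((a * (i + 1 + 1) : ℕ) : ℤ)) 0 0 ⊓ Par 1 ⊓
        Van (2 + 2 * (i + 1) * b) 0 : Submodule ℂ (C2 → ℂ)) : ℤ) ≤
        (finrank ℂ (S.Th (2 * ((a * (i + 1) : ℕ) : ℤ)) 0 0 ⊓ Par 1 ⊓ Van (2 + 2 * i * b) 0 :
      Submodule ℂ (C2 → ℂ)) : ℤ) + (2 * k + 3) := by exact_mod_cast h2
    push_cast at h3 ih' ⊢
    nlinarith

/-- The space of the pencil: even functions of level `2 x`, order `≥ y`, modulo multiples of `s`, has dimension at least 2.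
PROOF: `G i` = even functions of level `2 a (1 + i)` and order `≥ 2 + 2 i b`.  `finrank (G 0) ≤ 2 d a² + 1 = b²` (`finrank_even` gives
`2 d a² + 2` without the condition at `0`, and not all even functions vanish at `0`, `exists_even_ne_zero`).
`finrank (G i) ≤ finrank (G (i - 1)) + (2 (j - i) + 3)` for `1 ≤ i < j` (`Curve2.step`: `K = 4 d a² (1 + i) - 2 b - 2 i b² + 1 = 2 b² - 2 b - 2 i - 1`), so
`finrank (G (j - 1)) ≤ b² + (j - 1) j + 3 (j - 1)`.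
The multiples of `s` in `G j` inject into `G' = Th (2 x - a) (-hc) (-hc) ⊓ Par (-1) ⊓ Van (y - b)` (`finrank_mult_le2`), and
`finrank G' ≤ finrank (G (j - 1)) + 1` as in (3), (4) of `Curve2.step` with `δ = 1`
(`2 d a (2 x - a) = b y + 2 - b² + 1 < b (y - b) + 2 + 2`).
`finrank (G j) ≥ 2 d x² + 2 - (1 + j b)²` (`finrank_even`, `finrank_le_van_even`) `= b² + j² + 2 j`; the difference is `2`. -/
theorem Curve2.pencil_space {a b : ℕ} {s : C2 → ℂ} (C : S.Curve2 a b s) {j x y : ℕ} (hj : 1 ≤ j)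
    (h1 : j + b + 2 = b ^ 2) (hx : x = a * (j + 1)) (hy : y = 2 + 2 * j * b) :
    finrank ℂ ((S.Th (2 * x) 0 0 ⊓ Par 1 ⊓ Van y 0) ⊓ Mult s : Submodule ℂ (C2 → ℂ)) + 2 ≤
      finrank ℂ (S.Th (2 * x) 0 0 ⊓ Par 1 ⊓ Van y 0 : Submodule ℂ (C2 → ℂ)) := by
  have ha := C.ha
  obtain ⟨-, hb⟩ := C.three_le
  have h1z : (j : ℤ) + b + 2 = b ^ 2 := by exact_mod_cast h1
  have hpz : (b : ℤ) ^ 2 = 2 * S.d * a ^ 2 + 1 := by exact_mod_cast C.pell
  obtain ⟨i, rfl⟩ : ∃ i, j = i + 1 := ⟨j - 1, by omega⟩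
  have hY : 2 * b ≤ 2 + 2 * (i + 1) * b := by nlinarith
  have hxz : (x : ℤ) = a * (i + 1 + 1) := by rw [hx]; push_cast; ring
  have hyz : (y : ℤ) = 2 + 2 * (i + 1) * b := by rw [hy]; push_cast; ring
  have h2 := ChB_one C (2 * (x : ℤ)) (Y := y) (by omega)
  have h3 := ChB_two C (n := 2 * (x : ℤ) - a) (by rw [hxz]; nlinarith) (Y := y - b) (k := 1)
    (by omega) (by
      have h4 : ((y - b : ℕ) : ℤ) = y - b := by
        rw [Nat.cast_sub (by omega)]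
      rw [h4, hxz, hyz]
      push_cast at h1z ⊢
      have h5 : 2 * (S.d : ℤ) * a * (2 * (a * (i + 1 + 1)) - a) + 1 =
          b * (2 + 2 * (i + 1) * b - b) + 2 * 1 + 2 := by
        linear_combination (-2) * h1z - (2 * (i : ℤ) + 3) * hpz
      linarith)
  have e1 : 2 * (x : ℤ) - a - a = 2 * ((a * (i + 1) : ℕ) : ℤ) := by
    rw [hxz]
    push_cast
    ring
  have e2 : y - b - b = 2 + 2 * i * b := by
    have : 2 + 2 * (i + 1) * b = (2 + 2 * i * b) + 2 * b := by ring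
    omega
  rw [e1, e2] at h3
  have h4 := ChB_chain C h1 i (by omega)
  have := ChB_fin (S := S) (2 * (x : ℤ)) 1
  have h5 := finrank_le_van_even (S.Th (2 * (x : ℤ)) 0 0 ⊓ Par 1) (ChB_ent _ _) inf_le_right
    (1 + (i + 1) * b)
  have h6 := S.finrank_even (x := (x : ℤ)) (by rw [hxz]; nlinarith)
  have e3 : 2 * (1 + (i + 1) * b) = y := by rw [hy]; ring
  rw [e3] at h5
  have h5z : (finrank ℂ (S.Th (2 * (x : ℤ)) 0 0 ⊓ Par 1 : Submodule ℂ (C2 → ℂ)) : ℤ) ≤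
      finrank ℂ (S.Th (2 * (x : ℤ)) 0 0 ⊓ Par 1 ⊓ Van y 0 : Submodule ℂ (C2 → ℂ)) +
        (1 + (i + 1) * b) ^ 2 := by exact_mod_cast h5
  rw [h6] at h5z
  have h7 : finrank ℂ ((S.Th (2 * (x : ℤ)) 0 0 ⊓ Par 1 ⊓ Van y 0) ⊓ Mult s :
      Submodule ℂ (C2 → ℂ)) ≤ finrank ℂ (S.Th (2 * ((a * (i + 1) : ℕ) : ℤ)) 0 0 ⊓ Par 1 ⊓
        Van (2 + 2 * i * b) 0 : Submodule ℂ (C2 → ℂ)) + 1 := h2.trans h3
  have h7z : (finrank ℂ ((S.Th (2 * (x : ℤ)) 0 0 ⊓ Par 1 ⊓ Van y 0) ⊓ Mult s :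
      Submodule ℂ (C2 → ℂ)) : ℤ) ≤ finrank ℂ (S.Th (2 * ((a * (i + 1) : ℕ) : ℤ)) 0 0 ⊓ Par 1 ⊓
        Van (2 + 2 * i * b) 0 : Submodule ℂ (C2 → ℂ)) + 1 := by exact_mod_cast h7
  push_cast at h1z h4
  have key : 2 * (S.d : ℤ) * x ^ 2 + 2 - (1 + (i + 1) * b) ^ 2 =
      b ^ 2 + i * (2 * (i + 1) + 2) - i ^ 2 + 1 + 2 := by
    rw [hxz]
    linear_combination (-2 * ((i : ℤ) + 1)) * h1z - ((i : ℤ) + 2) ^ 2 * hpz
  have fin : (finrank ℂ ((S.Th (2 * (x : ℤ)) 0 0 ⊓ Par 1 ⊓ Van y 0) ⊓ Mult s :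
      Submodule ℂ (C2 → ℂ)) : ℤ) + 2 ≤
        finrank ℂ (S.Th (2 * (x : ℤ)) 0 0 ⊓ Par 1 ⊓ Van y 0 : Submodule ℂ (C2 → ℂ)) := by
    push_cast at h7z
    linarith
  exact_mod_cast fin

end PerData

end Q2T
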