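import Pool.Agent.H.MP_89f84f_ag.q3.PnB
import Pool.Agent.H.MP_89f84f_ag.q2.Cof

set_option autoImplicit false

open Complex Topology Filter Asymptotics Metric Set Module

namespace Q2T

namespace PerData

variable {S : PerData}

/-- Finitely many lattice points in a ball. -/
private theorem CoB_fin (S : PerData) (R : ℝ) : ((S.Lat : Set C2) ∩ closedBall 0 R).Finite := by
  obtain ⟨c, hc, h⟩ := S.lat_growth
  have hK : ((closedBall (0 : Z2) (R / c)) ×ˢ (closedBall (0 : Z2) (R / c))).Finite :=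
    Set.Finite.prod (isCompact_closedBall _ _).finite_of_discrete
      (isCompact_closedBall _ _).finite_of_discrete
  refine (hK.image (fun pq : Z2 × Z2 => S.tv pq.1 + S.dv pq.2)).subset ?_
  rintro w ⟨⟨p, q, rfl⟩, hw⟩
  have h1 := h p q
  have h2 : ‖S.tv p + S.dv q‖ ≤ R := by rwa [mem_closedBall, dist_zero_right] at hw
  have h4 : ‖p‖ + ‖q‖ ≤ R / c := by
    rw [le_div_iff₀ hc]
    linarith
  refine ⟨(p, q), ⟨?_, ?_⟩, rfl⟩
  · rw [mem_closedBall, dist_zero_right]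
    linarith [norm_nonneg q]
  · rw [mem_closedBall, dist_zero_right]
    linarith [norm_nonneg p]

/-- The lattice is closed. -/
private theorem CoB_closed (S : PerData) : IsClosed (S.Lat : Set C2) := by
  refine isClosed_of_closure_subset fun z hz => ?_
  have hfin : ((S.Lat : Set C2) ∩ ball z 1).Finite := by
    refine (CoB_fin S (‖z‖ + 1)).subset ?_
    rintro w ⟨hw1, hw⟩
    refine ⟨hw1, ?_⟩
    rw [mem_ball, dist_eq_norm] at hw
    rw [mem_closedBall, dist_zero_right]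
    have h3 := norm_add_le (w - z) z
    rw [sub_add_cancel] at h3
    linarith
  have h5 : z ∈ closure ((S.Lat : Set C2) ∩ ball z 1) := by
    rw [mem_closure_iff_nhds] at hz ⊢
    intro t ht
    obtain ⟨w, hw1, hw2⟩ := hz (t ∩ ball z 1) (inter_mem ht (ball_mem_nhds z one_pos))
    exact ⟨w, hw1.1, hw2, hw1.2⟩
  rw [hfin.isClosed.closure_eq] at h5
  exact h5.1

/-- Finitely many half lattice points in a compact set. -/
private theorem CoB_half (S : PerData) {K : Set C2} (hK : IsCompact K) :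
    {z : C2 | z ∈ K ∧ (2 : ℂ) • z ∈ S.Lat}.Finite := by
  obtain ⟨R, hR⟩ := hK.isBounded.subset_closedBall (0 : C2)
  have hinj : Function.Injective fun z : C2 => (2 : ℂ) • z := smul_right_injective C2 two_ne_zero
  refine ((CoB_fin S (2 * R)).preimage (f := fun z : C2 => (2 : ℂ) • z) hinj.injOn).subset ?_
  rintro z ⟨hz1, hz2⟩
  refine ⟨hz2, ?_⟩
  have h1 := hR hz1
  rw [mem_closedBall, dist_zero_right] at h1 ⊢
  show ‖(2 : ℂ) • z‖ ≤ 2 * R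
  rw [norm_smul, Complex.norm_ofNat]
  linarith

/-- Translation of attained points by the lattice. -/
private theorem CoB_trans {x : ℕ} {s t₁ t₂ : C2 → ℂ} {u : ℤ} {α β : Fin 2 → ℝ} (hs : s ∈ S.Th u α β)
    (h1 : t₁ ∈ S.Th (2 * x) 0 0) (h2 : t₂ ∈ S.Th (2 * x) 0 0) {c : ℂ} {Q : C2}
    (h : S.At s t₁ t₂ c Q) (p q : Z2) : S.At s t₁ t₂ c (Q + S.tv p + S.dv q) := by
  obtain ⟨hQ2, hQs, hQt, hQc⟩ := h
  refine ⟨fun hm => hQ2 ?_, ?_, ?_, ?_⟩
  · have e1 : S.tv p + S.dv q ∈ S.Lat := ⟨p, q, rfl⟩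
    have e2 := S.Lat.sub_mem hm (S.Lat.add_mem e1 e1)
    have e3 : (2 : ℂ) • (Q + S.tv p + S.dv q) - ((S.tv p + S.dv q) + (S.tv p + S.dv q)) =
        (2 : ℂ) • Q := by
      rw [two_smul, two_smul]
      abel
    rwa [e3] at e2
  · rw [hs.2, hQs, mul_zero]
  · rw [h2.2]
    exact mul_ne_zero (J_ne_zero S _ _ _ _ _ _) hQt
  · rw [h1.2, h2.2, hQc]
    ring

/-- A compact set containing representatives modulo the lattice. -/
private theorem CoB_compact (S : PerData) : ∃ K : Set C2, IsCompact K ∧ ∀ z : C2, ∃ p q : Z2,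
    z + S.tv p + S.dv q ∈ K := by
  obtain ⟨F, hF⟩ : ∃ F : (Fin 2 → ℝ) × (Fin 2 → ℝ) → C2, F = fun v =>
      fun i => (S.τ i 0 * (v.1 0 : ℂ) + S.τ i 1 * (v.1 1 : ℂ)) +
        (![((v.2 0 : ℝ) : ℂ), (S.d : ℂ) * ((v.2 1 : ℝ) : ℂ)] : C2) i := ⟨_, rfl⟩
  have hFc : Continuous F := by
    rw [hF]
    refine continuous_pi fun i => ?_
    fin_cases i
    · show Continuous fun v : (Fin 2 → ℝ) × (Fin 2 → ℝ) =>
        (S.τ 0 0 * (v.1 0 : ℂ) + S.τ 0 1 * (v.1 1 : ℂ)) + ((v.2 0 : ℝ) : ℂ)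
      fun_prop
    · show Continuous fun v : (Fin 2 → ℝ) × (Fin 2 → ℝ) =>
        (S.τ 1 0 * (v.1 0 : ℂ) + S.τ 1 1 * (v.1 1 : ℂ)) + (S.d : ℂ) * ((v.2 1 : ℝ) : ℂ)
      fun_prop
  refine ⟨F '' (Set.Icc 0 1 ×ˢ Set.Icc 0 1), (isCompact_Icc.prod isCompact_Icc).image hFc, fun z => ?_⟩
  obtain ⟨ξ, η, hz⟩ := S.exists_real_coords z
  refine ⟨fun i => -⌊ξ i⌋, fun i => -⌊η i⌋, ⟨(fun i => Int.fract (ξ i), fun i => Int.fract (η i)), ⟨?_, ?_⟩, ?_⟩⟩
  · exact ⟨fun i => Int.fract_nonneg _, fun i => (Int.fract_lt_one _).le⟩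
  · exact ⟨fun i => Int.fract_nonneg _, fun i => (Int.fract_lt_one _).le⟩
  · have fr : ∀ r : ℝ, ((Int.fract r : ℝ) : ℂ) = (r : ℂ) - ((⌊r⌋ : ℤ) : ℂ) := fun r => by
      rw [← Int.self_sub_floor]
      push_cast
      rfl
    rw [hF, hz]
    funext i
    fin_cases i
    · show (S.τ 0 0 * ((Int.fract (ξ 0) : ℝ) : ℂ) + S.τ 0 1 * ((Int.fract (ξ 1) : ℝ) : ℂ)) +
        ((Int.fract (η 0) : ℝ) : ℂ) = ((S.τ 0 0 * (ξ 0 : ℂ) + S.τ 0 1 * (ξ 1 : ℂ)) + (η 0 : ℂ)) +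
        (S.τ 0 0 * ((-⌊ξ 0⌋ : ℤ) : ℂ) + S.τ 0 1 * ((-⌊ξ 1⌋ : ℤ) : ℂ)) + ((-⌊η 0⌋ : ℤ) : ℂ)
      rw [fr, fr, fr]
      push_cast
      ring
    · show (S.τ 1 0 * ((Int.fract (ξ 0) : ℝ) : ℂ) + S.τ 1 1 * ((Int.fract (ξ 1) : ℝ) : ℂ)) +
        (S.d : ℂ) * ((Int.fract (η 1) : ℝ) : ℂ) =
        ((S.τ 1 0 * (ξ 0 : ℂ) + S.τ 1 1 * (ξ 1 : ℂ)) + (S.d : ℂ) * (η 1 : ℂ)) +
        (S.τ 1 0 * ((-⌊ξ 0⌋ : ℤ) : ℂ) + S.τ 1 1 * ((-⌊ξ 1⌋ : ℤ) : ℂ)) +
        (S.d : ℂ) * ((-⌊η 1⌋ : ℤ) : ℂ)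
      rw [fr, fr, fr]
      push_cast
      ring

/-- Value of a form at an attained point. -/
private theorem CoB_val {s t₁ t₂ : C2 → ℂ} {L : ℕ} (k : Fin (L + 1) → ℂ) {c : ℂ} {Q : C2}
    (hQ : S.At s t₁ t₂ c Q) :
    (∑ i, k i • (t₁ ^ (i : ℕ) * t₂ ^ (L - (i : ℕ)))) Q = t₂ Q ^ L * ∑ i, k i * c ^ (i : ℕ) := by
  rw [Finset.sum_apply, Finset.mul_sum]
  refine Finset.sum_congr rfl fun i _ => ?_
  rw [Pi.smul_apply, smul_eq_mul, Pi.mul_apply, Pi.pow_apply, Pi.pow_apply, hQ.2.2.2, mul_pow]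
  have h2 : t₂ Q ^ L = t₂ Q ^ (i : ℕ) * t₂ Q ^ (L - (i : ℕ)) := by
    rw [← pow_add]
    congr 1
    have := i.2
    omega
  rw [h2]
  ring

private theorem CoB_th_pow (S : PerData) {u : ℤ} {f : C2 → ℂ} (hf : f ∈ S.Th u 0 0) (i : ℕ) :
    f ^ i ∈ S.Th (i * u) 0 0 := by
  induction i with
  | zero =>
    have h := S.th_one
    rw [pow_zero]
    have e : ((0 : ℕ) : ℤ) * u = 0 := by simp
    rw [e]
    exact h
  | succ i ih =>
    rw [pow_succ]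
    have h := S.th_mul ih hf
    rw [add_zero] at h
    have e : ((i + 1 : ℕ) : ℤ) * u = i * u + u := by push_cast; ring
    rw [e]
    exact h

/-- Forms are theta functions. -/
private theorem CoB_form {x : ℕ} {t₁ t₂ : C2 → ℂ}
    (h1 : t₁ ∈ S.Th (2 * x) 0 0) (h2 : t₂ ∈ S.Th (2 * x) 0 0) {L : ℕ} (k : Fin (L + 1) → ℂ) :
    ∑ i, k i • (t₁ ^ (i : ℕ) * t₂ ^ (L - (i : ℕ))) ∈ S.Th (L * (2 * x)) 0 0 := by
  refine Submodule.sum_mem _ fun i _ => Submodule.smul_mem _ _ ?_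
  have hi : (i : ℕ) + (L - (i : ℕ)) = L := by
    have := i.2
    omega
  have h3 := S.th_mul (CoB_th_pow S h1 (i : ℕ)) (CoB_th_pow S h2 (L - (i : ℕ)))
  rw [add_zero] at h3
  have e : ((i : ℕ) : ℤ) * (2 * (x : ℤ)) + ((L - (i : ℕ) : ℕ) : ℤ) * (2 * (x : ℤ)) = L * (2 * x) := by
    have h4 : ((i : ℕ) : ℤ) + ((L - (i : ℕ) : ℕ) : ℤ) = L := by exact_mod_cast hi
    linear_combination (2 * (x : ℤ)) * h4
  rw [e] at h3
  exact h3

/-- Attained values form an open set.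
PROOF: as `Pen.isOpen_at` in q2/Cof.lean. -/
theorem Pen2.isOpen_at {a b x y : ℕ} {s t₁ t₂ : C2 → ℂ} (P : S.Pen2 a b x y s t₁ t₂) :
    IsOpen {c : ℂ | ∃ Q, S.At s t₁ t₂ c Q} := by
  rw [isOpen_iff_mem_nhds]
  rintro c₀ ⟨Q, hQ2, hQs, hQt, hQc⟩
  have hnm : t₁ + (-c₀) • t₂ ∉ Mult s := by
    intro h
    have h1 : (1 : ℂ) • t₁ + (-c₀) • t₂ ∈ Mult s := by rwa [one_smul]
    exact one_ne_zero (P.indep 1 (-c₀) h1).1
  have hTh : t₁ + (-c₀) • t₂ ∈ S.Th (2 * x) 0 0 :=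
    add_mem P.m₁ (Submodule.smul_mem _ _ P.m₂)
  have hne : t₁ + (-c₀) • t₂ ≠ 0 := by
    intro h
    rw [h] at hnm
    exact hnm (zero_mem _)
  have hco : Copr s (t₁ + (-c₀) • t₂) := by
    rcases P.cur.dich _ _ _ _ hTh hne with h | h
    · exact absurd h hnm
    · exact h
  have hU : {z : C2 | (2 : ℂ) • z ∉ S.Lat ∧ t₂ z ≠ 0} ∈ 𝓝 Q := by
    have h1 : IsOpen {z : C2 | (2 : ℂ) • z ∉ S.Lat} := by
      have h2 : IsClosed ((fun z : C2 => (2 : ℂ) • z) ⁻¹' (S.Lat : Set C2)) :=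
        (CoB_closed S).preimage (continuous_const_smul (2 : ℂ))
      exact h2.isOpen_compl
    have h2 : IsOpen {z : C2 | t₂ z ≠ 0} := isOpen_ne_fun P.m₂.1.continuous continuous_const
    exact (h1.inter h2).mem_nhds ⟨hQ2, hQt⟩
  have hQ0 : (t₁ + (-c₀) • t₂) Q = 0 := by
    rw [Pi.add_apply, Pi.smul_apply, smul_eq_mul, hQc]
    ring
  have key := stab P.cur.mem.1 hTh.1 (T₁ := -t₂) P.m₂.1.neg P.cur.ne hQs hQ0 (hco Q) hU
  have ht : Tendsto (fun c' : ℂ => c' - c₀) (𝓝 c₀) (𝓝 0) := by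
    have h1 : Tendsto (fun c' : ℂ => c' - c₀) (𝓝 c₀) (𝓝 (c₀ - c₀)) :=
      (continuous_id.sub continuous_const).tendsto c₀
    rwa [sub_self] at h1
  filter_upwards [ht.eventually key] with c' hc'
  obtain ⟨Q', ⟨hQ'2, hQ't⟩, hQ's, hQ'c⟩ := hc'
  refine ⟨Q', hQ'2, hQ's, hQ't, ?_⟩
  rw [Pi.add_apply, Pi.smul_apply, smul_eq_mul, Pi.neg_apply] at hQ'c
  linear_combination hQ'c

/-- Limits of attained values are attained, with finitely many exceptions.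
PROOF: (compare `Pen.finite_limits` in q2/Cof.lean.)  `e` even of level `4 x` with `e 0 ≠ 0` (`exists_even_ne_zero`), `f = t₁²`;
`exists_rel` with `n = 2 x`: `t₁² q (t₁, t₂) - e p (t₁, t₂) ∈ Mult s`, `(q, p) ≠ 0`.  `p ≠ 0`: otherwise `t₁² q (t₁, t₂) ∈ Mult s`, so
`q (t₁, t₂) ∈ Mult s` (`dich_prime`; `t₁ ∉ Mult s` by `indep`) and `q = 0` (`form_unique`).  At an attained `c`, `Q`: `t₁ Q = c t₂ Q`, so with
`q(c) = ∑ q i c^i`, `p(c) = ∑ p i c^i`: `t₁(Q)² q(c) = e(Q) p(c)` (divide by `t₂(Q)^L`).  Let `c_n → c` be attained at `Q_n`, which we may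
take in a compact set (translate by `Lat`; `val_ratio` or the same computation), `Q_n → Q` along a subsequence; `s Q = 0`, `t₁ Q = c t₂ Q`.
If `Q ∉ Lat` then `t₂ Q ≠ 0` (`base_free`), `c = t₁ Q / t₂ Q`; if moreover `2 Q ∉ Lat`, `c` is attained.  If `2 Q ∈ Lat`: there are finitely many
such `Q` in a compact set, hence finitely many such `c`.  If `Q ∈ Lat`: `e Q ≠ 0`, `t₁ Q = 0` (`ypos`), so `p(c) = 0`. -/
theorem Pen2.finite_limits {a b x y : ℕ} {s t₁ t₂ : C2 → ℂ} (P : S.Pen2 a b x y s t₁ t₂) :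
    (closure {c : ℂ | ∃ Q, S.At s t₁ t₂ c Q} \ {c : ℂ | ∃ Q, S.At s t₁ t₂ c Q}).Finite := by
  have hx1 : 1 ≤ x := P.x_pos.1
  obtain ⟨e, ⟨heT, heP⟩, he0⟩ := S.exists_even_ne_zero (x := 2 * (x : ℤ)) (by omega) 0
  obtain ⟨L, hL⟩ : ∃ L : ℕ, L = 2 * S.d * a * (2 * x) := ⟨_, rfl⟩
  have hf : t₁ * t₁ ∈ S.Th (2 * ((2 * x : ℕ) : ℤ)) 0 0 := by
    have h1 := S.th_mul P.m₁ P.m₁
    rw [add_zero] at h1
    convert h1 using 2
    push_cast
    ring
  have hfP : t₁ * t₁ ∈ Par 1 := fun z => by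
    simp only [Pi.mul_apply]
    rw [P.p₁ z]
    ring
  have hg : e ∈ S.Th (2 * ((2 * x : ℕ) : ℤ)) 0 0 := by
    have e1 : (2 * ((2 * x : ℕ) : ℤ)) = 2 * (2 * (x : ℤ)) := by push_cast; ring
    rw [e1]
    exact heT
  obtain ⟨q, p, hqp, hrel⟩ := P.exists_rel (n := 2 * x) (by omega) hf hfP hg heP hL
  have ht1M : t₁ ∉ Mult s := by
    intro h1
    have h3 : (1 : ℂ) • t₁ + (0 : ℂ) • t₂ ∈ Mult s := by rwa [one_smul, zero_smul, add_zero]
    exact one_ne_zero (P.indep 1 0 h3).1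
  have hp0' : p ≠ 0 := by
    rintro rfl
    have hq0 : q ≠ 0 := by
      rcases hqp with h | h
      · exact h
      · exact absurd rfl h
    apply hq0
    have h1 : ∑ i : Fin (L + 1), (0 : Fin (L + 1) → ℂ) i • (t₁ ^ (i : ℕ) * t₂ ^ (L - (i : ℕ))) = 0 :=
      Finset.sum_eq_zero fun i _ => by rw [Pi.zero_apply, zero_smul]
    rw [h1, mul_zero, sub_zero] at hrel
    rcases dich_prime P.cur.mem P.cur.ne P.cur.dich hf (CoB_form P.m₁ P.m₂ q) hrel with h2 | h2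
    · exfalso
      rcases dich_prime P.cur.mem P.cur.ne P.cur.dich P.m₁ P.m₁ h2 with h3 | h3 <;> exact ht1M h3
    · exact P.form_unique h2
  -- the polynomial
  obtain ⟨pp, hpp⟩ : ∃ pp : Polynomial ℂ, pp = ∑ i : Fin (L + 1), Polynomial.monomial (i : ℕ) (p i) := ⟨_, rfl⟩
  have hpe : ∀ c : ℂ, pp.eval c = ∑ i, p i * c ^ (i : ℕ) := fun c => by
    rw [hpp, Polynomial.eval_finsetSum]
    simp only [Polynomial.eval_monomial]
  have hp0 : pp ≠ 0 := by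
    intro h0
    apply hp0'
    funext i
    have h1 := congrArg (fun r : Polynomial ℂ => r.coeff (i : ℕ)) h0
    simp only [hpp, Polynomial.finsetSum_coeff, Polynomial.coeff_monomial, Polynomial.coeff_zero] at h1
    rw [Finset.sum_eq_single i] at h1
    · simpa using h1
    · intro j _ hj
      rw [if_neg]
      exact fun hc => hj (Fin.ext hc)
    · intro hi
      exact absurd (Finset.mem_univ i) hi
  -- the relation at attained points
  have rel : ∀ c Q, S.At s t₁ t₂ c Q → pp.eval c * e Q = (∑ i, q i * c ^ (i : ℕ)) * (t₁ Q * t₁ Q) := by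
    intro c Q hQ
    obtain ⟨g, -, hg2⟩ := hrel
    have h1 := congrFun hg2 Q
    rw [Pi.sub_apply, Pi.mul_apply, Pi.mul_apply, Pi.mul_apply, Pi.mul_apply, CoB_val q hQ, CoB_val p hQ,
      hQ.2.1, zero_mul] at h1
    have h3 : t₂ Q ^ L ≠ 0 := pow_ne_zero _ hQ.2.2.1
    rw [hpe]
    apply mul_left_cancel₀ h3
    linear_combination -h1
  obtain ⟨K, hK, hKz⟩ := CoB_compact S
  refine ((pp.roots.toFinset.finite_toSet).union
    ((CoB_half S hK).image fun z => t₁ z / t₂ z)).subset ?_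
  rintro c ⟨hc, hcA⟩
  obtain ⟨cn, hcn, hlim⟩ := mem_closure_iff_seq_limit.1 hc
  choose Q hQ using hcn
  choose pn qn hpq using fun n => hKz (Q n)
  obtain ⟨R, hR, φ, hφ, hRl⟩ := hK.tendsto_subseq hpq
  have hAt : ∀ n, S.At s t₁ t₂ (cn n) (Q n + S.tv (pn n) + S.dv (qn n)) := fun n =>
    CoB_trans P.cur.mem P.m₁ P.m₂ (hQ n) _ _
  have hcφ : Tendsto (fun n => cn (φ n)) atTop (𝓝 c) := hlim.comp hφ.tendsto_atTop
  have hcont : ∀ {f : C2 → ℂ}, Differentiable ℂ f →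
      Tendsto (fun n => f (Q (φ n) + S.tv (pn (φ n)) + S.dv (qn (φ n)))) atTop (𝓝 (f R)) := fun hf =>
    (hf.continuous.tendsto R).comp hRl
  have hsR : s R = 0 := by
    have h1 := hcont P.cur.mem.1
    have h2 : (fun n => s (Q (φ n) + S.tv (pn (φ n)) + S.dv (qn (φ n)))) = fun _ => (0 : ℂ) :=
      funext fun n => (hAt (φ n)).2.1
    rw [h2] at h1
    exact tendsto_nhds_unique h1 tendsto_const_nhds
  have htR : t₁ R = c * t₂ R := by
    have h1 := hcont P.m₁.1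
    have h2 : (fun n => t₁ (Q (φ n) + S.tv (pn (φ n)) + S.dv (qn (φ n)))) =
        fun n => cn (φ n) * t₂ (Q (φ n) + S.tv (pn (φ n)) + S.dv (qn (φ n))) :=
      funext fun n => (hAt (φ n)).2.2.2
    rw [h2] at h1
    exact tendsto_nhds_unique h1 (hcφ.mul (hcont P.m₂.1))
  have hrR : pp.eval c * e R = (∑ i, q i * c ^ (i : ℕ)) * (t₁ R * t₁ R) := by
    have h1 : Tendsto (fun n => pp.eval (cn (φ n)) * e (Q (φ n) + S.tv (pn (φ n)) + S.dv (qn (φ n)))) atTop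
        (𝓝 (pp.eval c * e R)) := ((pp.continuous.tendsto c).comp hcφ).mul (hcont heT.1)
    have hc2 : Continuous fun c : ℂ => ∑ i, q i * c ^ (i : ℕ) := by fun_prop
    have h2 : Tendsto (fun n => (∑ i, q i * (cn (φ n)) ^ (i : ℕ)) *
        (t₁ (Q (φ n) + S.tv (pn (φ n)) + S.dv (qn (φ n))) *
          t₁ (Q (φ n) + S.tv (pn (φ n)) + S.dv (qn (φ n))))) atTop
        (𝓝 ((∑ i, q i * c ^ (i : ℕ)) * (t₁ R * t₁ R))) :=
      ((hc2.tendsto c).comp hcφ).mul ((hcont P.m₁.1).mul (hcont P.m₁.1))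
    refine tendsto_nhds_unique h1 (h2.congr fun n => ?_)
    exact (rel _ _ (hAt (φ n))).symm
  by_cases hRL : R ∈ S.Lat
  · left
    rw [Finset.mem_coe, Multiset.mem_toFinset, Polynomial.mem_roots hp0, Polynomial.IsRoot.def]
    obtain ⟨p', q', hpq'⟩ := hRL
    have e0 : R = 0 + S.tv p' + S.dv q' := by rw [zero_add, hpq']
    have heR : e R ≠ 0 := by
      rw [e0, heT.2]
      exact mul_ne_zero (S.J_ne_zero _ _ _ _ _ _) he0
    have ht0 : t₁ 0 = 0 := by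
      have h1 : 1 ≤ y := le_trans (by norm_num) P.ypos
      exact (van_one_iff P.m₁.1 0).1 (van_mono h1 0 P.v₁)
    have ht1R : t₁ R = 0 := by
      rw [e0, P.m₁.2, ht0, mul_zero]
    rw [ht1R, mul_zero, mul_zero] at hrR
    exact (mul_eq_zero.1 hrR).resolve_right heR
  · have ht2R : t₂ R ≠ 0 := by
      intro h2
      rw [h2, mul_zero] at htR
      exact P.base_free hRL hsR ⟨htR, h2⟩
    by_cases h2R : (2 : ℂ) • R ∈ S.Lat
    · right
      refine ⟨R, ⟨hR, h2R⟩, ?_⟩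
      show t₁ R / t₂ R = c
      rw [htR, mul_div_cancel_right₀ _ ht2R]
    · exfalso
      exact hcA ⟨R, h2R, hsR, ht2R, htR⟩

/-- All but finitely many values are attained.
PROOF: as `Pen.cofinite` in q2/Cof.lean. -/
theorem Pen2.cofinite {a b x y : ℕ} {s t₁ t₂ : C2 → ℂ} (P : S.Pen2 a b x y s t₁ t₂) :
    {c : ℂ | ¬ ∃ Q, S.At s t₁ t₂ c Q}.Finite := by
  obtain ⟨A, hA⟩ : ∃ A : Set ℂ, A = {c : ℂ | ∃ Q, S.At s t₁ t₂ c Q} := ⟨_, rfl⟩
  have ho : IsOpen A := by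
    rw [hA]
    exact P.isOpen_at
  have hF : (closure A \ A).Finite := by
    rw [hA]
    exact P.finite_limits
  have hne : A.Nonempty := by
    obtain ⟨z, hz, hz2, -⟩ := P.exists_ratio 1
    refine ⟨t₁ (z 0) / t₂ (z 0), ?_⟩
    rw [hA]
    exact ⟨z 0, hz.2.1 0, hz.1 0, hz2 0, (div_mul_cancel₀ _ (hz2 0)).symm⟩
  have hcon : IsPreconnected (closure A \ A)ᶜ := by
    refine (hF.countable.isConnected_compl_of_one_lt_rank ?_).isPreconnected
    rw [Complex.rank_real_complex]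
    exact Cardinal.one_lt_two
  have hcl : (closure A)ᶜ = ∅ := by
    by_contra hB
    obtain ⟨v, hv⟩ := Set.nonempty_iff_ne_empty.2 hB
    obtain ⟨u, hu⟩ := hne
    obtain ⟨w, -, hw1, hw2⟩ := hcon A (closure A)ᶜ ho isClosed_closure.isOpen_compl (fun w hw => by
      by_cases h1 : w ∈ A
      · exact Or.inl h1
      · refine Or.inr fun h2 => hw ⟨h2, h1⟩) ⟨u, fun h => h.2 hu, hu⟩ ⟨v, fun h => hv h.1, hv⟩
    exact hw2 (subset_closure hw1)
  have h1 : {c : ℂ | ¬ ∃ Q, S.At s t₁ t₂ c Q} ⊆ closure A \ A := by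
    intro c hc
    refine ⟨?_, ?_⟩
    · by_contra h2
      have h3 : c ∈ (closure A)ᶜ := h2
      rw [hcl] at h3
      exact h3
    · rw [hA]
      exact hc
  exact hF.subset h1

end PerData

end Q2T
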