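import Pool.Agent.H.MP_89f84f_ag.q2.Adj

set_option autoImplicit false

open Complex Topology Filter Asymptotics Metric Set Module

namespace Q2T

private theorem RsB_van {p q : ℕ} {s : C2 → ℂ} {m : Fin p → ℕ} {m' : Fin q → ℕ} {x : Fin p → C2}
    {x' : Fin q → C2} (h : ∀ i, s ∈ Van (m i) (x i)) (h' : ∀ i, s ∈ Van (m' i) (x' i)) :
    ∀ i, s ∈ Van (Fin.append m m' i) (Fin.append x x' i) := by
  intro i
  refine Fin.addCases (fun i => ?_) (fun i => ?_) i
  · rw [Fin.append_left, Fin.append_left]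
    exact h i
  · rw [Fin.append_right, Fin.append_right]
    exact h' i

namespace PerData

variable (S : PerData)

private theorem RsB_pair {p q : ℕ} {x : Fin p → C2} {x' : Fin q → C2}
    (h : ∀ i j, i ≠ j → x i - x j ∉ S.Lat) (h' : ∀ i j, i ≠ j → x' i - x' j ∉ S.Lat)
    (hc : ∀ i j, x i - x' j ∉ S.Lat) :
    ∀ i j, i ≠ j → Fin.append x x' i - Fin.append x x' j ∉ S.Lat := by
  intro i j
  refine Fin.addCases (fun i => ?_) (fun i => ?_) i
  · refine Fin.addCases (fun j => ?_) (fun j => ?_) j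
    · intro hij
      rw [Fin.append_left, Fin.append_left]
      exact h i j fun h' => hij (by rw [h'])
    · intro _
      rw [Fin.append_left, Fin.append_right]
      exact hc i j
  · refine Fin.addCases (fun j => ?_) (fun j => ?_) j
    · intro _ h2
      rw [Fin.append_left, Fin.append_right] at h2
      apply hc j i
      rw [← neg_sub]
      exact S.Lat.neg_mem h2
    · intro hij
      rw [Fin.append_right, Fin.append_right]
      exact h' i j fun h' => hij (by rw [h'])

/-- half periods on the zero set of `s`: pairwise incongruent zeros of `s` in `(1/2) Lat` outside `Lat` -/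
def HalfZ (s : C2 → ℂ) {l : ℕ} (w : Fin l → C2) : Prop :=
  (∀ i, (2 : ℂ) • w i ∈ S.Lat ∧ w i ∉ S.Lat ∧ s (w i) = 0) ∧ ∀ i j, i ≠ j → w i - w j ∉ S.Lat

/-- Bezout with pairs of zeros and half periods (compare `mult_of_zeros` in q2/Rest.lean, the case `l = 0`, zero characteristics).
PROOF: if `f ≠ 0` is not a multiple of `s`, then `Copr s f` (`Dich`), and `bezout` at the `2 k + l + 1` points `0, z i, - z i, w j`
(orders `m, Y` at `0` and `≥ 1, ≥ 1` at the others) gives `m Y + 2 k + l ≤ 2 d u n`.  The points are pairwise incongruent: `2 (± z i)` is not in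
the lattice, `2 w j` is. -/
theorem mult_of_zeros2 {u n : ℤ} {α β α' β' : Fin 2 → ℝ} {s f : C2 → ℂ} {ε ε' : ℂ} {m Y k l : ℕ} (hu : 1 ≤ u)
    (hn : 1 ≤ n) (hs : s ∈ S.Th u α β) (hs0 : s ≠ 0) (hD : S.Dich s) (hsp : s ∈ Par ε) (hm : s ∈ Van m 0)
    (hf : f ∈ S.Th n α' β') (hfp : f ∈ Par ε') (hfY : f ∈ Van Y 0) {z : Fin k → C2} (hz : S.GoodZ s z)
    (hfz : ∀ i, f (z i) = 0) {w : Fin l → C2} (hw : S.HalfZ s w) (hfw : ∀ i, f (w i) = 0)
    (h : 2 * (S.d : ℤ) * u * n < m * Y + 2 * k + l) : f ∈ Mult s := by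
  by_cases hf0 : f = 0
  · rw [hf0]
    exact Submodule.zero_mem _
  rcases hD n α' β' f hf hf0 with h1 | h1
  · exact h1
  exfalso
  obtain ⟨hz1, hz2, hz3⟩ := hz
  obtain ⟨hw1, hw2⟩ := hw
  have hz0 : ∀ i, z i ∉ S.Lat := by
    intro i hi
    apply hz2 i
    rw [two_smul]
    exact S.Lat.add_mem hi hi
  have key := S.bezout hu hn hs hf hs0 hf0 h1
    (Fin.append (Fin.append (Fin.append (fun _ : Fin 1 => (0 : C2)) z) fun i => -z i) w)
    (S.RsB_pair (S.RsB_pair (S.RsB_pair
      (fun i j hij => absurd (Subsingleton.elim i j) hij)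
      (fun i j hij => (hz3 i j hij).1)
      (fun _ j h2 => hz0 j (by simpa using S.Lat.neg_mem h2)))
      (fun i j hij h2 => (hz3 i j hij).1 (by
        have h3 := S.Lat.neg_mem h2
        have h4 : -(-z i - -z j) = z i - z j := by abel
        rwa [h4] at h3))
      (fun i j => by
        refine Fin.addCases (fun i => ?_) (fun i => ?_) i
        · intro h2
          rw [Fin.append_left, zero_sub, neg_neg] at h2
          exact hz0 j h2
        · intro h2
          rw [Fin.append_right, sub_neg_eq_add] at h2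
          by_cases hij : i = j
          · rw [hij, ← two_smul ℂ] at h2
            exact hz2 j h2
          · exact (hz3 i j hij).2 h2))
      hw2
      (fun i j => by
        refine Fin.addCases (fun i => ?_) (fun i => ?_) i
        · refine Fin.addCases (fun i => ?_) (fun i => ?_) i
          · intro h2
            rw [Fin.append_left, Fin.append_left, zero_sub] at h2
            exact (hw1 j).2.1 (by simpa using S.Lat.neg_mem h2)
          · intro h2
            rw [Fin.append_left, Fin.append_right] at h2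
            apply hz2 i
            have h3 : (2 : ℂ) • z i = (z i - w j) + (z i - w j) + (2 : ℂ) • w j := by
              rw [two_smul, two_smul]
              abel
            rw [h3]
            exact S.Lat.add_mem (S.Lat.add_mem h2 h2) (hw1 j).1
        · intro h2
          rw [Fin.append_right] at h2
          apply hz2 i
          have h3 : (2 : ℂ) • z i = -((-z i - w j) + (-z i - w j) + (2 : ℂ) • w j) := by
            rw [two_smul, two_smul]
            abel
          rw [h3]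
          exact S.Lat.neg_mem (S.Lat.add_mem (S.Lat.add_mem h2 h2) (hw1 j).1)))
    (Fin.append (Fin.append (Fin.append (fun _ : Fin 1 => m) fun _ : Fin k => 1) fun _ : Fin k => 1)
      fun _ : Fin l => 1)
    (Fin.append (Fin.append (Fin.append (fun _ : Fin 1 => Y) fun _ : Fin k => 1) fun _ : Fin k => 1)
      fun _ : Fin l => 1)
    (RsB_van (RsB_van (RsB_van (fun _ => hm) fun i => (van_one_iff hs.1 _).2 (hz1 i))
      fun i => (van_one_iff hs.1 _).2 (by rw [hsp (z i), hz1 i, mul_zero]))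
      fun i => (van_one_iff hs.1 _).2 (hw1 i).2.2)
    (RsB_van (RsB_van (RsB_van (fun _ => hfY) fun i => (van_one_iff hf.1 _).2 (hfz i))
      fun i => (van_one_iff hf.1 _).2 (by rw [hfp (z i), hfz i, mul_zero]))
      fun i => (van_one_iff hf.1 _).2 (hfw i))
  rw [Fin.sum_univ_add, Fin.sum_univ_add, Fin.sum_univ_add] at key
  simp only [Fin.append_left, Fin.append_right, mul_one, Finset.sum_const, Finset.card_univ,
    Fintype.card_fin, smul_eq_mul, one_mul] at key
  push_cast at key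
  linarith

/-- Restriction to the zeros of `s`.
PROOF: `exists_goodZ`, `finrank_le_points` and `mult_of_zeros2`. -/
theorem finrank_restrict2 {u n : ℤ} {α β α' β' : Fin 2 → ℝ} {s : C2 → ℂ} {ε ε' : ℂ} {m Y l : ℕ} (hu : 1 ≤ u)
    (hn : 1 ≤ n) (hs : s ∈ S.Th u α β) (hs0 : s ≠ 0) (hD : S.Dich s) (hsp : s ∈ Par ε) (hm : s ∈ Van m 0)
    (hm1 : 1 ≤ m) (G : Submodule ℂ (C2 → ℂ)) (hG : G ≤ S.Th n α' β' ⊓ Par ε' ⊓ Van Y 0)
    {w : Fin l → C2} (hw : S.HalfZ s w) (hGw : ∀ f ∈ G, ∀ i, f (w i) = 0) (k : ℕ)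
    (h : 2 * (S.d : ℤ) * u * n < m * Y + 2 * k + l) :
    finrank ℂ G ≤ finrank ℂ (G ⊓ Mult s : Submodule ℂ (C2 → ℂ)) + k := by
  have hfT : FiniteDimensional ℂ (S.Th n α' β') := S.finite_th _ _ _
  have hGT : G ≤ S.Th n α' β' := hG.trans (inf_le_left.trans inf_le_left)
  have hfG : FiniteDimensional ℂ G := Submodule.finiteDimensional_of_le hGT
  have hfG' : FiniteDimensional ℂ (G ⊓ Mult s : Submodule ℂ (C2 → ℂ)) :=
    Submodule.finiteDimensional_of_le inf_le_left
  obtain ⟨z, hz⟩ := S.exists_goodZ hs.1 ((van_one_iff hs.1 0).1 (van_mono hm1 0 hm)) k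
  obtain ⟨W', hW1, hW2, hW3⟩ := finrank_le_points G z
  refine hW2.trans (Nat.add_le_add_right ?_ k)
  refine Submodule.finrank_mono fun f hf => ⟨hW1 hf, ?_⟩
  have hfG := hG (hW1 hf)
  exact S.mult_of_zeros2 hu hn hs hs0 hD hsp hm hfG.1.1 hfG.1.2 hfG.2 hz (hW3 f hf) hw
    (hGw f (hW1 hf)) h

/-- Multiples of `s` of given level, parity and order.
PROOF: as `finrank_mult_le` in q2/Rest.lean. -/
theorem finrank_mult_le2 {u n : ℤ} {α β α' β' : Fin 2 → ℝ} {s : C2 → ℂ} {ε ε' : ℂ} {m Y : ℕ}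
    (hs : s ∈ S.Th u α β) (hs0 : s ≠ 0) (hsp : s ∈ Par ε) (hε : ε = 1 ∨ ε = -1)
    (hm' : s ∉ Van (m + 1) 0) (hY : m ≤ Y) :
    finrank ℂ ((S.Th n α' β' ⊓ Par ε' ⊓ Van Y 0) ⊓ Mult s : Submodule ℂ (C2 → ℂ)) ≤
      finrank ℂ (S.Th (n - u) (α' - α) (β' - β) ⊓ Par (ε' * ε) ⊓ Van (Y - m) 0 : Submodule ℂ (C2 → ℂ)) := by
  have hfT : FiniteDimensional ℂ (S.Th (n - u) (α' - α) (β' - β)) := S.finite_th _ _ _
  have hfT' : FiniteDimensional ℂ
      (S.Th (n - u) (α' - α) (β' - β) ⊓ Par (ε' * ε) ⊓ Van (Y - m) 0 : Submodule ℂ (C2 → ℂ)) :=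
    Submodule.finiteDimensional_of_le (inf_le_left.trans inf_le_left)
  refine le_trans ?_ (Submodule.finrank_map_le (LinearMap.mulLeft ℂ s)
    (S.Th (n - u) (α' - α) (β' - β) ⊓ Par (ε' * ε) ⊓ Van (Y - m) 0))
  refine Submodule.finrank_mono ?_
  rintro f ⟨⟨⟨hfT, hfp⟩, hfV⟩, h, hh, rfl⟩
  refine ⟨h, ⟨⟨?_, ?_⟩, ?_⟩, rfl⟩
  · exact S.th_quot hs hs0 hfT hh rfl
  · have hε2 : ε * ε = 1 := by
      rcases hε with h1 | h1 <;> rw [h1] <;> norm_num
    have h1 : (fun z => h (-z)) = (ε' * ε) • h := by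
      refine ent_cancel hs.1 hs0 (hh.comp differentiable_id.neg) (hh.const_smul _) ?_
      funext z
      have h2 : s (-z) * h (-z) = ε' * (s z * h z) := hfp z
      rw [hsp z] at h2
      show s z * h (-z) = s z * (ε' * ε * h z)
      linear_combination ε * h2 - s z * h (-z) * hε2
    intro z
    exact congrFun h1 z
  · refine van_cancel hs.1 hh (i := m) hm' ?_
    rw [Nat.add_sub_cancel' hY]
    exact hfV

end PerData

end Q2T
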