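import Pool.Agent.H.MP_89f84f_ag.q3.PoB
import Pool.Agent.H.MP_89f84f_ag.q3.RsB

set_option autoImplicit false

open Complex Topology Filter Asymptotics Metric Set Module

namespace Q2T

/-- the characteristic `(1/2, 0)` -/
noncomputable def hc : Fin 2 → ℝ := ![1 / 2, 0]

namespace PerData

variable (S : PerData)

/-- Adjunction for odd level.
PROOF: as `adjunction` in q2/Adj.lean, with `finrank_par_odd` for the level `n - u` (odd) and the characteristics `-α, -β` instead of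
`finrank_par`: for even `m` one gets `m ^ 2 ≤ 2 d u ^ 2 + 2 T - 4 ≤ 2 d u ^ 2`, contradiction with `h`; for odd `m`,
`2 d u ^ 2 < m ^ 2 ≤ 2 d u ^ 2 - 2 T - 3`, so `T ≤ -2`, `T = -2`, `m ^ 2 = 2 d u ^ 2 + 1` and the characteristics are as in `finrank_par_odd`. -/
theorem adjunction_odd {u : ℤ} {α β : Fin 2 → ℝ} {s : C2 → ℂ} {m : ℕ} (hu : 1 ≤ u) (ho : Odd u) (hs : s ∈ S.Th u α β)
    (hs0 : s ≠ 0) (hm : s ∈ Van m 0) (hm' : s ∉ Van (m + 1) 0) (h : 2 * (S.d : ℤ) * u ^ 2 < (m : ℤ) ^ 2)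
    (hD : S.Dich s) (hp : s ∈ Par ((-1) ^ m)) (hα : ∀ i, ∃ k : ℤ, 2 * α i = k)
    (hβ : ∀ i, ∃ k : ℤ, 2 * β i = k) :
    Odd m ∧ (m : ℤ) ^ 2 = 2 * S.d * u ^ 2 + 1 ∧
      (∃ k : ℤ, α 1 = k) ∧ (∃ k : ℤ, β 1 = k) ∧ (¬ ∃ k : ℤ, α 0 = k) ∧ ¬ ∃ k : ℤ, β 0 = k := by
  have hd : (1 : ℤ) ≤ S.d := by exact_mod_cast S.d_pos
  have hm1 : 1 ≤ m := by
    rcases Nat.eq_zero_or_pos m with h0 | h0
    · exfalso
      rw [h0] at h
      have h1 : 0 ≤ 2 * (S.d : ℤ) * u ^ 2 := by positivity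
      norm_num at h
      omega
    · exact h0
  obtain ⟨n₀, hn₀⟩ := S.jets_surj_par m
  -- the level
  obtain ⟨X, hX1, hX2, hX3⟩ : ∃ X : ℤ, (n₀ : ℤ) + u + 1 ≤ 2 * X ∧ 1 ≤ X ∧
      (m : ℤ) ^ 2 ≤ 2 * S.d * u * X := by
    refine ⟨(n₀ : ℤ) + u + 1 + (m : ℤ) ^ 2, ?_, ?_, ?_⟩
    · have : 0 ≤ (m : ℤ) ^ 2 := by positivity
      have : 0 ≤ (n₀ : ℤ) := by positivity
      linarith
    · have : 0 ≤ (m : ℤ) ^ 2 := by positivity
      have : 0 ≤ (n₀ : ℤ) := by positivity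
      linarith
    · have h1 : 0 ≤ (m : ℤ) ^ 2 := by positivity
      have h2 : 0 ≤ (n₀ : ℤ) := by positivity
      have h3 : (1 : ℤ) ≤ 2 * S.d * u := by nlinarith
      nlinarith
  obtain ⟨v, hv⟩ : ∃ v : ℕ, (v : ℤ) = 2 * X - u :=
    ⟨(2 * X - u).toNat, Int.toNat_of_nonneg (by
      have : 0 ≤ (n₀ : ℤ) := by positivity
      linarith)⟩
  have hv1 : (1 : ℤ) ≤ 2 * X - u := by
    have : 0 ≤ (n₀ : ℤ) := by positivity
    linarith
  have hvn : n₀ ≤ v := by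
    have : (n₀ : ℤ) ≤ v := by rw [hv]; linarith
    exact_mod_cast this
  have hα' : ∀ i, ∃ k : ℤ, 2 * (-α) i = k := by
    intro i
    obtain ⟨k, hk⟩ := hα i
    refine ⟨-k, ?_⟩
    rw [Pi.neg_apply]
    push_cast
    rw [← hk]
    ring
  have hβ' : ∀ i, ∃ k : ℤ, 2 * (-β) i = k := by
    intro i
    obtain ⟨k, hk⟩ := hβ i
    refine ⟨-k, ?_⟩
    rw [Pi.neg_apply]
    push_cast
    rw [← hk]
    ring
  have hint : ∀ (γ : Fin 2 → ℝ) (i : Fin 2), (∃ k : ℤ, (-γ) i = k) ↔ ∃ k : ℤ, γ i = k := by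
    intro γ i
    constructor
    · rintro ⟨k, hk⟩
      refine ⟨-k, ?_⟩
      rw [Pi.neg_apply] at hk
      push_cast
      rw [← hk]
      ring
    · rintro ⟨k, hk⟩
      refine ⟨-k, ?_⟩
      rw [Pi.neg_apply, hk]
      push_cast
      ring
  have hev : Even (2 * X - u) ↔ Even u := by
    rw [Int.even_sub]
    simp
  have hod : Odd (2 * X - u) ↔ Odd u := by
    rw [← Int.not_even_iff_odd, ← Int.not_even_iff_odd, hev]
  have ho' : Odd (2 * X - u) := hod.2 ho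
  obtain ⟨T, hT, hT2, hTm⟩ := S.finrank_par_odd hv1 ho' hα' hβ'
  rw [hint, hint, hint, hint] at hTm
  -- the even functions
  obtain ⟨k, hk⟩ : ∃ k : ℕ, (k : ℤ) = 2 * S.d * u * X - (m : ℤ) ^ 2 + 1 :=
    ⟨(2 * S.d * u * X - (m : ℤ) ^ 2 + 1).toNat, Int.toNat_of_nonneg (by linarith)⟩
  have hE := S.finrank_even hX2
  have hfin0 : FiniteDimensional ℂ (S.Th (2 * X) 0 0) := S.finite_th _ _ _
  have hfin1 : FiniteDimensional ℂ (S.Th (2 * X) 0 0 ⊓ Par 1 : Submodule ℂ (C2 → ℂ)) :=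
    Submodule.finiteDimensional_of_le (inf_le_left : S.Th (2 * X) 0 0 ⊓ Par 1 ≤ S.Th (2 * X) 0 0)
  have h1 := finrank_le_van_even (S.Th (2 * X) 0 0 ⊓ Par 1) (fun f hf => hf.1.1)
    (fun f hf => hf.2) m
  have h2 := S.finrank_restrict (ε := (-1) ^ m) (ε' := 1) (Y := 2 * m) hu (by linarith) hs hs0 hD hp hm hm1
    (S.Th (2 * X) 0 0 ⊓ Par 1 ⊓ Van (2 * m) 0) le_rfl k (by
      push_cast
      nlinarith [hk])
  have h3 := S.finrank_mult_le (n := 2 * X) (ε' := 1) (Y := 2 * m) hs hs0 hp (neg_one_pow_eq_or ℂ m) hm'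
    (by omega)
  have e1 : 2 * m - m = m := by omega
  rw [one_mul, e1] at h3
  have hfin2 : FiniteDimensional ℂ (S.Th (2 * X - u) (-α) (-β)) := S.finite_th _ _ _
  have h5 : (finrank ℂ (S.Th (2 * X) 0 0 ⊓ Par 1 : Submodule ℂ (C2 → ℂ)) : ℤ) ≤
      finrank ℂ (S.Th (2 * X - u) (-α) (-β) ⊓ Par ((-1) ^ m) ⊓ Van m 0 : Submodule ℂ (C2 → ℂ)) + k +
        (m : ℤ) ^ 2 := by
    exact_mod_cast (h1.trans (Nat.add_le_add_right (h2.trans (Nat.add_le_add_right h3 k)) (m ^ 2)))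
  rw [hE, hk] at h5
  have hT3 := abs_le.1 hT2
  have kev : Even m → (m : ℤ) ^ 2 ≤ 2 * S.d * u ^ 2 + 2 * T - 4 := by
    intro he
    obtain ⟨r, hr⟩ := he.two_dvd
    have e2 : ((-1 : ℂ)) ^ m = 1 := he.neg_one_pow
    rw [e2] at h5
    have h6 := hT 1 (Or.inl rfl)
    rw [Int.cast_one] at h6
    have hfin3 : FiniteDimensional ℂ (S.Th (2 * X - u) (-α) (-β) ⊓ Par 1 : Submodule ℂ (C2 → ℂ)) :=
      Submodule.finiteDimensional_of_le
        (inf_le_left : S.Th (2 * X - u) (-α) (-β) ⊓ Par 1 ≤ S.Th (2 * X - u) (-α) (-β))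
    have h7 := finrank_eq_van_even (S.Th (2 * X - u) (-α) (-β) ⊓ Par 1) (fun f hf => hf.1.1)
      (fun f hf => hf.2) r (fun g hg hgp => by
        have h8 := hn₀ v hvn (-α) (-β) hα' hβ' 1 (Or.inl rfl) g hg (by rwa [Int.cast_one])
        rw [Int.cast_one, hv, hr] at h8
        exact h8)
    rw [← hr] at h7
    have h9 : (finrank ℂ (S.Th (2 * X - u) (-α) (-β) ⊓ Par 1 : Submodule ℂ (C2 → ℂ)) : ℤ) =
        finrank ℂ (S.Th (2 * X - u) (-α) (-β) ⊓ Par 1 ⊓ Van m 0 : Submodule ℂ (C2 → ℂ)) + (r : ℤ) ^ 2 := by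
      exact_mod_cast h7
    have hmr : (m : ℤ) = 2 * r := by exact_mod_cast hr
    rw [hmr] at h5 ⊢
    nlinarith
  have kod : Odd m → (m : ℤ) ^ 2 ≤ 2 * S.d * u ^ 2 - 2 * T - 3 := by
    intro ho
    obtain ⟨r, hr⟩ := ho
    have e2 : ((-1 : ℂ)) ^ m = -1 := (show Odd m from ⟨r, hr⟩).neg_one_pow
    rw [e2] at h5
    have e3 : (((-1 : ℤ)) : ℂ) = -1 := by norm_num
    have h6 := hT (-1) (Or.inr rfl)
    rw [e3] at h6
    have hfin3 : FiniteDimensional ℂ (S.Th (2 * X - u) (-α) (-β) ⊓ Par (-1) : Submodule ℂ (C2 → ℂ)) :=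
      Submodule.finiteDimensional_of_le
        (inf_le_left : S.Th (2 * X - u) (-α) (-β) ⊓ Par (-1) ≤ S.Th (2 * X - u) (-α) (-β))
    have h7 := finrank_eq_van_odd (S.Th (2 * X - u) (-α) (-β) ⊓ Par (-1)) (fun f hf => hf.1.1)
      (fun f hf => hf.2) r (fun g hg hgp => by
        have h8 := hn₀ v hvn (-α) (-β) hα' hβ' (-1) (Or.inr rfl) g hg (by rwa [e3])
        rw [e3, hv, hr] at h8
        exact h8)
    rw [← hr] at h7
    have h9 : (finrank ℂ (S.Th (2 * X - u) (-α) (-β) ⊓ Par (-1) : Submodule ℂ (C2 → ℂ)) : ℤ) =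
        finrank ℂ (S.Th (2 * X - u) (-α) (-β) ⊓ Par (-1) ⊓ Van m 0 : Submodule ℂ (C2 → ℂ)) +
          (r : ℤ) * (r + 1) := by
      exact_mod_cast h7
    have hmr : (m : ℤ) = 2 * r + 1 := by exact_mod_cast hr
    rw [hmr] at h5 ⊢
    nlinarith
  have hmo : Odd m := by
    rcases Nat.even_or_odd m with he | hom
    · exfalso
      have h10 := kev he
      omega
    · exact hom
  have h10 := kod hmo
  have hT5 : T = -2 := by omega
  obtain ⟨-, c1, c2, c3, c4⟩ := hTm hT5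
  refine ⟨hmo, by omega, c1, c2, c3, c4⟩

/-- The curve of the second type: an odd theta function `s` of level `a` with the characteristics `(1/2, 0), (1/2, 0)` and of exact
order `b` at `0`, `b ^ 2 = 2 d a ^ 2 + 1`.  (`s ^ 2` is of level `2 a` with zero characteristics and of order `2 b`.) -/
structure Curve2 (a b : ℕ) (s : C2 → ℂ) : Prop where
  ha : 0 < a
  pell : b ^ 2 = 2 * S.d * a ^ 2 + 1
  mem : s ∈ S.Th a hc hc
  ne : s ≠ 0
  odd : s ∈ Par (-1)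
  van : s ∈ Van b 0
  van' : s ∉ Van (b + 1) 0
  dich : S.Dich s

variable {S}

/-- PROOF: `b` is odd, and `b ≠ 1`. -/
theorem Curve2.three_le {a b : ℕ} {s : C2 → ℂ} (C : S.Curve2 a b s) : Odd b ∧ 3 ≤ b := by
  have hd := S.d_pos
  have hb : Odd b := by
    have h1 : Odd (b ^ 2) := by
      rw [C.pell]
      exact ⟨S.d * a ^ 2, by ring⟩
    rw [sq] at h1
    exact (Nat.odd_mul.1 h1).1
  have h2 : 1 ≤ S.d * a ^ 2 := Nat.mul_pos hd (pow_pos C.ha 2)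
  have h3 : 3 ≤ b ^ 2 := by
    rw [C.pell]
    nlinarith
  refine ⟨hb, ?_⟩
  obtain ⟨r, hr⟩ := hb
  rcases Nat.eq_zero_or_pos r with h0 | h0
  · exfalso
    rw [h0] at hr
    rw [hr] at h3
    norm_num at h3
  · omega

/-- `s ^ 2` has level `2 a` and zero characteristics.  PROOF: `th_mul`, `th_congr`. -/
theorem Curve2.sq_mem {a b : ℕ} {s : C2 → ℂ} (C : S.Curve2 a b s) : s * s ∈ S.Th (2 * a) 0 0 := by
  have h1 := S.th_mul C.mem C.mem
  have h2 : S.Th ((a : ℤ) + a) (hc + hc) (hc + hc) = S.Th ((a : ℤ) + a) 0 0 := by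
    have h3 : ∀ i, ∃ k : ℤ, (hc + hc) i = (0 : Fin 2 → ℝ) i + k := by
      intro i
      fin_cases i
      · refine ⟨1, ?_⟩
        simp [hc]
        norm_num
      · refine ⟨0, ?_⟩
        simp [hc]
    exact S.th_congr _ h3 h3
  rw [h2] at h1
  rw [two_mul]
  exact h1

/-- Odd functions with the characteristics `± (1/2, 0), ± (1/2, 0)` vanish at the half periods `τ e₁ / 2` and `d e₁ / 2`.
PROOF: `f w = f (- w + 2 w) = J * f (- w) = - J f w` with `J = 1`: for `p = e₁`, `q = 0`, `z = - τ e₁ / 2` the exponent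
`dot p (τ p) + 2 dot p z` is `0` and `rdot β p = 0`; for `p = 0`, `q = e₁` also `rdot α q = 0`. -/
theorem hc_half {n : ℤ} {α β : Fin 2 → ℝ} (hα : α 1 = 0) (hβ : β 1 = 0) {f : C2 → ℂ} (hf : f ∈ S.Th n α β)
    (hp : f ∈ Par (-1)) : f ((1 / 2 : ℂ) • S.tv ![0, 1]) = 0 ∧ f ((1 / 2 : ℂ) • S.dv ![0, 1]) = 0 := by
  have hr : ∀ (γ : Fin 2 → ℝ), γ 1 = 0 → rdot γ ![0, 1] = 0 := by
    intro γ hγ
    unfold rdot
    rw [hγ]
    simp
  have hr0 : ∀ (γ : Fin 2 → ℝ), rdot γ 0 = 0 := by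
    intro γ
    unfold rdot
    simp
  have hself : ∀ w : C2, f (-w) = f w → f w = 0 := by
    intro w hw
    have h1 : f (-w) = -1 * f w := hp w
    rw [hw] at h1
    have h2 : 2 * f w = 0 := by linear_combination h1
    simpa using h2
  constructor
  · apply hself
    have h1 := hf.2 ![0, 1] 0 (-((1 / 2 : ℂ) • S.tv ![0, 1]))
    have e1 : -((1 / 2 : ℂ) • S.tv ![0, 1]) + S.tv ![0, 1] + S.dv 0 = (1 / 2 : ℂ) • S.tv ![0, 1] := by
      rw [S.dv_zero, add_zero]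
      funext i
      simp only [Pi.add_apply, Pi.neg_apply, Pi.smul_apply, smul_eq_mul]
      ring
    have e2 : S.J n α β ![0, 1] 0 (-((1 / 2 : ℂ) • S.tv ![0, 1])) = 1 := by
      unfold J
      rw [hr0, hr β hβ]
      have e3 : dot ![0, 1] (S.tv ![0, 1]) + 2 * dot ![0, 1] (-((1 / 2 : ℂ) • S.tv ![0, 1])) = 0 := by
        unfold dot
        simp only [Pi.neg_apply, Pi.smul_apply, smul_eq_mul]
        ring
      rw [e3]
      simp
    rw [e1, e2, one_mul] at h1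
    exact h1.symm
  · apply hself
    have h1 := hf.2 0 ![0, 1] (-((1 / 2 : ℂ) • S.dv ![0, 1]))
    have e1 : -((1 / 2 : ℂ) • S.dv ![0, 1]) + S.tv 0 + S.dv ![0, 1] = (1 / 2 : ℂ) • S.dv ![0, 1] := by
      rw [S.tv_zero, add_zero]
      funext i
      simp only [Pi.add_apply, Pi.neg_apply, Pi.smul_apply, smul_eq_mul]
      ring
    have e2 : S.J n α β 0 ![0, 1] (-((1 / 2 : ℂ) • S.dv ![0, 1])) = 1 := by
      unfold J
      rw [hr0, hr α hα]
      have e3 : dot 0 (S.tv 0) + 2 * dot 0 (-((1 / 2 : ℂ) • S.dv ![0, 1])) = 0 := by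
        unfold dot
        simp
      rw [e3]
      simp
    rw [e1, e2, one_mul] at h1
    exact h1.symm

/-- The two half periods.  PROOF: `hc_half`; `tv p + dv q = 0` only for `p = q = 0` (`lat_growth`). -/
theorem Curve2.halfZ {a b : ℕ} {s : C2 → ℂ} (C : S.Curve2 a b s) :
    S.HalfZ s ![(1 / 2 : ℂ) • S.tv ![0, 1], (1 / 2 : ℂ) • S.dv ![0, 1]] := by
  have hinj : ∀ p q : Z2, S.tv p + S.dv q = 0 → p = 0 ∧ q = 0 := by
    intro p q h
    obtain ⟨c, hc0, hg⟩ := S.lat_growth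
    have h1 := hg p q
    rw [h, norm_zero] at h1
    have h2 : ‖p‖ + ‖q‖ ≤ 0 := by
      by_contra h3
      push Not at h3
      exact absurd h1 (not_le.2 (mul_pos hc0 h3))
    have h3 := norm_nonneg p
    have h4 := norm_nonneg q
    exact ⟨norm_eq_zero.1 (by linarith), norm_eq_zero.1 (by linarith)⟩
  have htwo : ∀ x y : C2, x = (1 / 2 : ℂ) • y → (2 : ℂ) • x = y := by
    intro x y h
    rw [h, smul_smul]
    norm_num
  have hnot : ∀ p q : Z2, (p 1 = 1 ∨ p 1 = -1 ∨ q 1 = 1 ∨ q 1 = -1) → ∀ x : C2,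
      (2 : ℂ) • x = S.tv p + S.dv q → x ∉ S.Lat := by
    rintro p q hpq x hx ⟨p', q', hx'⟩
    have h1 : S.tv (p - (p' + p')) + S.dv (q - (q' + q')) = 0 := by
      rw [sub_eq_add_neg, sub_eq_add_neg, S.tv_add, S.dv_add, S.tv_neg, S.dv_neg, S.tv_add,
        S.dv_add]
      have h2 : S.tv p + S.dv q = (2 : ℂ) • (S.tv p' + S.dv q') := by rw [← hx, hx']
      have h3 : (2 : ℂ) • (S.tv p' + S.dv q') = S.tv p' + S.tv p' + (S.dv q' + S.dv q') := by
        rw [two_smul]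
        abel
      rw [h3] at h2
      have h4 : S.tv p + -(S.tv p' + S.tv p') + (S.dv q + -(S.dv q' + S.dv q')) =
          (S.tv p + S.dv q) - (S.tv p' + S.tv p' + (S.dv q' + S.dv q')) := by abel
      rw [h4, h2, sub_self]
    obtain ⟨h5, h6⟩ := hinj _ _ h1
    have h7 := congrFun h5 1
    have h8 := congrFun h6 1
    simp only [Pi.sub_apply, Pi.add_apply, Pi.zero_apply] at h7 h8
    omega
  obtain ⟨z1, z2⟩ := hc_half (S := S) (f := s) (n := a) (α := hc) (β := hc) (by simp [hc]) (by simp [hc])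
    C.mem C.odd
  have t1 : (2 : ℂ) • ((1 / 2 : ℂ) • S.tv ![0, 1]) = S.tv ![0, 1] + S.dv 0 := by
    rw [htwo _ _ rfl, S.dv_zero, add_zero]
  have t2 : (2 : ℂ) • ((1 / 2 : ℂ) • S.dv ![0, 1]) = S.tv 0 + S.dv ![0, 1] := by
    rw [htwo _ _ rfl, S.tv_zero, zero_add]
  have l1 : (1 / 2 : ℂ) • S.tv ![0, 1] ∉ S.Lat := hnot _ _ (Or.inl rfl) _ t1
  have l2 : (1 / 2 : ℂ) • S.dv ![0, 1] ∉ S.Lat := hnot _ _ (Or.inr (Or.inr (Or.inl rfl))) _ t2
  have l3 : (1 / 2 : ℂ) • S.tv ![0, 1] - (1 / 2 : ℂ) • S.dv ![0, 1] ∉ S.Lat := by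
    refine hnot ![0, 1] (-![0, 1]) (Or.inl rfl) _ ?_
    rw [smul_sub, t1, t2, S.dv_zero, S.tv_zero, S.dv_neg]
    abel
  refine ⟨fun i => ?_, fun i j hij => ?_⟩
  · fin_cases i
    · exact ⟨⟨_, _, t1⟩, l1, z1⟩
    · exact ⟨⟨_, _, t2⟩, l2, z2⟩
  · fin_cases i <;> fin_cases j
    · exact absurd rfl hij
    · exact l3
    · intro h
      apply l3
      have := S.Lat.neg_mem h
      rwa [neg_sub] at this
    · exact absurd rfl hij

variable (S)

/-- A curve of one of the two types exists (for all `d` with `2 d` not a square).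
PROOF: `exists_min`, `symm_of_dich`.  `u` odd: `adjunction_odd` and `th_congr` (characteristics in `1/2 + ℤ`, `ℤ`): second type, with
`a' = u`, `b' = m`, `(-1) ^ m = -1`.  `u` even: `adjunction` as in `exists_curve` (q2/Adj.lean): `T = 0` is impossible, so integral characteristics,
`T = 4`, `m = 2 m'`, `u = 2 u'`, `8 d u'² < 4 m'² ≤ 8 d u'² + 4`, so `m'² = 2 d u'² + 1`: first type. -/
theorem exists_curve_any (hE : S.EndZ) {a b : ℕ} (ha : 0 < a) (hp : b ^ 2 = 2 * S.d * a ^ 2 + 1) :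
    (∃ (a' b' : ℕ) (s : C2 → ℂ), S.Curve a' b' s) ∨ ∃ (a' b' : ℕ) (s : C2 → ℂ), S.Curve2 a' b' s := by
  obtain ⟨u, α, β, s, m, hu, hua, hs, hs0, hm, hm', h, hD⟩ := S.exists_min hE ha hp
  obtain ⟨hpar, hα, hβ⟩ := S.symm_of_dich hu hs hs0 hm hm' h hD
  rcases Int.even_or_odd u with he | ho
  · left
    obtain ⟨T, hT4, hT0, -, hTe, hTo⟩ := S.adjunction hu hs hs0 hm hm' h hD hpar hα hβ
    by_cases hc : (∀ i, ∃ k : ℤ, α i = k) ∧ ∀ i, ∃ k : ℤ, β i = k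
    · have hT := hT4 he hc
      rcases Nat.even_or_odd m with hme | hmo
      · have h1 := hTe hme
        obtain ⟨u', hu'⟩ := he.two_dvd
        obtain ⟨m', hm2⟩ := hme.two_dvd
        obtain ⟨w, rfl⟩ : ∃ w : ℕ, u' = w := ⟨u'.toNat, (Int.toNat_of_nonneg (by omega)).symm⟩
        have hmz : (m : ℤ) = 2 * m' := by exact_mod_cast hm2
        rw [hT, hmz, hu'] at h1
        rw [hmz, hu'] at h
        have h2 : (m' : ℤ) ^ 2 = 2 * S.d * (w : ℤ) ^ 2 + 1 := by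
          have h3 : 4 * (2 * (S.d : ℤ) * (w : ℤ) ^ 2) < 4 * (m' : ℤ) ^ 2 := by nlinarith
          have h4 : 4 * (m' : ℤ) ^ 2 ≤ 4 * (2 * (S.d : ℤ) * (w : ℤ) ^ 2 + 1) := by nlinarith
          omega
        have h3 : m' ^ 2 = 2 * S.d * w ^ 2 + 1 := by exact_mod_cast h2
        refine ⟨w, m', s, by omega, h3, ?_, hs0, ?_, ?_, ?_, hD⟩
        · rw [hu'] at hs
          rwa [← S.th_congr (2 * (w : ℤ)) (α := α) (β := β) (α' := 0) (β' := 0)] at hs
          · intro i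
            obtain ⟨k, hk⟩ := hc.1 i
            exact ⟨-k, by rw [hk, Pi.zero_apply]; push_cast; ring⟩
          · intro i
            obtain ⟨k, hk⟩ := hc.2 i
            exact ⟨-k, by rw [hk, Pi.zero_apply]; push_cast; ring⟩
        · rwa [hme.neg_one_pow] at hpar
        · rwa [hm2] at hm
        · rwa [hm2] at hm'
      · have h1 := hTo hmo
        rw [hT] at h1
        omega
    · have hT := hT0 he hc
      rcases Nat.even_or_odd m with hme | hmo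
      · have h1 := hTe hme
        rw [hT] at h1
        omega
      · have h1 := hTo hmo
        rw [hT] at h1
        omega
  · right
    obtain ⟨hmo, hpe, ⟨k1, hk1⟩, ⟨l1, hl1⟩, hk0, hl0⟩ :=
      S.adjunction_odd hu ho hs hs0 hm hm' h hD hpar hα hβ
    obtain ⟨w, rfl⟩ : ∃ w : ℕ, u = w := ⟨u.toNat, (Int.toNat_of_nonneg (by omega)).symm⟩
    have hhalf : ∀ γ : Fin 2 → ℝ, (∃ k : ℤ, γ 1 = k) → (¬ ∃ k : ℤ, γ 0 = k) →
        (∃ k : ℤ, 2 * γ 0 = k) → ∀ i, ∃ k : ℤ, γ i = hc i + k := by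
      rintro γ ⟨k, hk⟩ h0 ⟨l, hl⟩ i
      fin_cases i
      · rcases Int.even_or_odd' l with ⟨j, hj | hj⟩
        · exfalso
          apply h0
          refine ⟨j, ?_⟩
          rw [hj] at hl
          push_cast at hl
          linarith
        · refine ⟨j, ?_⟩
          rw [hj] at hl
          push_cast at hl
          show γ 0 = 1 / 2 + (j : ℝ)
          linarith
      · refine ⟨k, ?_⟩
        show γ 1 = 0 + (k : ℝ)
        rw [hk, zero_add]
    refine ⟨w, m, s, by omega, by exact_mod_cast hpe, ?_, hs0, ?_, hm, hm', hD⟩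
    · rwa [S.th_congr (w : ℤ) (α := hc) (β := hc) (α' := α) (β' := β)
        (hhalf α ⟨k1, hk1⟩ hk0 (hα 0)) (hhalf β ⟨l1, hl1⟩ hl0 (hβ 0))] at hs
    · rwa [hmo.neg_one_pow] at hpar

end PerData

end Q2T
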