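import Pool.Agent.H.MP_89f84f_ag.q2.Adj
import Pool.Agent.H.MP_89f84f_ag.q2.PenB

set_option autoImplicit false

open Complex Topology Filter Asymptotics Metric Set Module

namespace Q2T

namespace PerData

variable {S : PerData}

/-- Products of theta functions that are not multiples of a theta function `s` with the dichotomy property.
PROOF: as `Curve.prime` (q2/PenB.lean): `Dich` and `dvd_of_copr`. -/
theorem dich_prime {w : ℤ} {α'' β'' : Fin 2 → ℝ} {s : C2 → ℂ} (hs : s ∈ S.Th w α'' β'') (hs0 : s ≠ 0) (hD : S.Dich s)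
    {u v : ℤ} {α β α' β' : Fin 2 → ℝ} {f g : C2 → ℂ}
    (hf : f ∈ S.Th u α β) (hg : g ∈ S.Th v α' β') (h : f * g ∈ Mult s) : f ∈ Mult s ∨ g ∈ Mult s := by
  by_cases hf0 : f = 0
  · left
    rw [hf0]
    exact Submodule.zero_mem _
  rcases hD u α β f hf hf0 with h1 | h1
  · exact Or.inl h1
  · exact Or.inr (dvd_of_copr hs.1 hf.1 hg.1 hs0 hf0 h1 h)

/-- A theta function vanishing at arbitrarily many zeros of `s`, incongruent modulo the lattice, is a multiple.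
PROOF: as `Curve.mult_of_many` (q2/PenB.lean): `Dich`, `bezout`.  (If the level of `f ≠ 0` is not positive, it is `0` and `f` is a
constant: contradiction with `h 1`.) -/
theorem dich_mult_of_many {u : ℤ} {α β : Fin 2 → ℝ} {s : C2 → ℂ} (hu : 1 ≤ u) (hs : s ∈ S.Th u α β) (hs0 : s ≠ 0)
    (hD : S.Dich s) {v : ℤ} {α' β' : Fin 2 → ℝ} {f : C2 → ℂ} (hf : f ∈ S.Th v α' β')
    (h : ∀ k : ℕ, ∃ z : Fin k → C2, (∀ i, s (z i) = 0 ∧ f (z i) = 0) ∧ ∀ i j, i ≠ j → z i - z j ∉ S.Lat) :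
    f ∈ Mult s := by
  by_cases hf0 : f = 0
  · rw [hf0]
    exact Submodule.zero_mem _
  rcases hD v α' β' f hf hf0 with h1 | h1
  · exact h1
  exfalso
  rcases lt_trichotomy v 0 with hv | hv | hv
  · exact hf0 (S.th_level_neg hv hf)
  · subst hv
    obtain ⟨c, hc⟩ := S.th_level_zero hf
    obtain ⟨z, hz, -⟩ := h 1
    have h2 := (hz 0).2
    rw [hc] at h2
    apply hf0
    rw [hc]
    funext w
    exact h2
  · obtain ⟨z, hz, hz'⟩ := h (2 * S.d * u * v + 1).toNat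
    have h2 := S.bezout hu hv hs hf hs0 hf0 h1 z hz' (fun _ => 1) (fun _ => 1)
      (fun i => (van_one_iff hs.1 _).2 (hz i).1) (fun i => (van_one_iff hf.1 _).2 (hz i).2)
    simp only [mul_one, Finset.sum_const, Finset.card_univ, Fintype.card_fin, smul_eq_mul] at h2
    have h3 := Int.self_le_toNat (2 * S.d * u * v + 1)
    linarith

/-- Few points of high order.
PROOF: otherwise restrict to `r = 3 d u² - 1` of them.  `Th (2 u) (2 α) (2 β)` has dimension `4 d u²`, so the functions in it vanishing at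
these points form a space of dimension `≥ d u² + 1` (`finrank_le_points`), while its multiples of `s` have the form `s h`,
`h ∈ Th u α β` (`th_quot`), of dimension `≤ d u²` (`finrank_th`).  So there is `φ` vanishing at the points, `φ ∉ Mult s`, `Copr s φ` (`Dich`), and
`bezout`: `m r ≤ 4 d u²`; with `m ≥ 3`: `5 d u² ≤ 3`, contradiction. -/
theorem dich_few {u : ℕ} {α β : Fin 2 → ℝ} {s : C2 → ℂ} {m : ℕ} (hu : 1 ≤ u) (hs : s ∈ S.Th u α β) (hs0 : s ≠ 0)
    (hD : S.Dich s) (hm : 3 ≤ m) {r : ℕ} (y : Fin r → C2)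
    (hy : ∀ i j, i ≠ j → y i - y j ∉ S.Lat) (hv : ∀ i, s ∈ Van m (y i)) : r < 3 * S.d * u ^ 2 := by
  by_contra hr
  push Not at hr
  have hd := S.d_pos
  have hX : 0 < S.d * u ^ 2 := by positivity
  obtain ⟨X, hX'⟩ : ∃ X : ℕ, X = S.d * u ^ 2 := ⟨_, rfl⟩
  have e1 : 3 * S.d * u ^ 2 = 3 * X := by rw [hX', mul_assoc]
  rw [e1] at hr
  rw [← hX'] at hX
  obtain ⟨N, hN⟩ : ∃ N : ℕ, N + 1 = 3 * X := ⟨3 * X - 1, by omega⟩
  have hNr : N ≤ r := by omega
  have hu1 : (1 : ℤ) ≤ u := by exact_mod_cast hu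
  have hfin : FiniteDimensional ℂ (S.Th (2 * u) 0 0) := S.finite_th _ _ _
  have hdim' : finrank ℂ (S.Th (2 * u) 0 0) = 4 * X := by
    have hdim : (finrank ℂ (S.Th (2 * u) 0 0) : ℤ) = (2 * (u : ℤ)) ^ 2 * S.d :=
      S.finrank_th (by omega) 0 0
    zify
    rw [hdim, hX']
    push_cast
    ring
  have hfin2 : FiniteDimensional ℂ (S.Th (u : ℤ) (-α) (-β)) := S.finite_th _ _ _
  have hdim2 : finrank ℂ (S.Th (u : ℤ) (-α) (-β)) = X := by
    have hdim : (finrank ℂ (S.Th (u : ℤ) (-α) (-β)) : ℤ) = (u : ℤ) ^ 2 * S.d :=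
      S.finrank_th hu1 _ _
    zify
    rw [hdim, hX']
    push_cast
    ring
  obtain ⟨W', hW', hle, hz⟩ := finrank_le_points (S.Th (2 * u) 0 0)
    (fun i : Fin N => y (Fin.castLE hNr i))
  have h2 : X + 1 ≤ finrank ℂ W' := by omega
  have hex : ∃ φ ∈ W', φ ∉ Mult s := by
    by_contra hcon
    push Not at hcon
    have h3 : W' ≤ (S.Th (u : ℤ) (-α) (-β)).map (LinearMap.mulLeft ℂ s) := by
      intro φ hφ
      obtain ⟨h, hh, hφh⟩ := hcon φ hφ
      refine ⟨h, ?_, hφh.symm⟩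
      have h4 := S.th_quot hs hs0 (hW' hφ) hh hφh
      rw [zero_sub, zero_sub] at h4
      have e2 : 2 * (u : ℤ) - u = u := by ring
      rw [e2] at h4
      exact h4
    have h4 := Submodule.finrank_mono h3
    have h5 := Submodule.finrank_map_le (LinearMap.mulLeft ℂ s) (S.Th (u : ℤ) (-α) (-β))
    omega
  obtain ⟨φ, hφ, hφs⟩ := hex
  have hφ0 : φ ≠ 0 := by
    rintro rfl
    exact hφs (Submodule.zero_mem _)
  have hc : Copr s φ := (hD _ _ _ φ (hW' hφ) hφ0).resolve_left hφs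
  have hbz := S.bezout hu1 (by omega) hs (hW' hφ) hs0 hφ0 hc
    (fun i : Fin N => y (Fin.castLE hNr i)) (fun i k hik => hy _ _ (by
      intro h
      exact hik (Fin.castLE_injective hNr h)))
    (fun _ => m) (fun _ => 1) (fun i => hv _)
    (fun i => (van_one_iff (hW' hφ).1 _).2 (hz φ hφ i))
  rw [Finset.sum_const, Finset.card_univ, Fintype.card_fin, smul_eq_mul] at hbz
  have h6 : ((N * (m * 1) : ℕ) : ℤ) ≤ ((4 * X : ℕ) : ℤ) := by
    refine hbz.trans (le_of_eq ?_)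
    rw [hX']
    push_cast
    ring
  have h7 : N * (m * 1) ≤ 4 * X := by exact_mod_cast h6
  have h8 : N * 3 ≤ N * (m * 1) := Nat.mul_le_mul_left _ (by omega)
  omega

/-- Translates.
PROOF: as `Curve.exists_trans` (q2/PrA.lean). -/
theorem dich_trans {u : ℤ} {α β : Fin 2 → ℝ} {s : C2 → ℂ} (hs : s ∈ S.Th u α β) (hs0 : s ≠ 0)
    (hD : S.Dich s) (x : C2) :
    ∃ (α' β' : Fin 2 → ℝ) (σ e : C2 → ℂ), Differentiable ℂ e ∧ (∀ z, e z ≠ 0) ∧
      (∀ z, σ z = e z * s (z + x)) ∧ σ ∈ S.Th u α' β' ∧ σ ≠ 0 ∧ S.Dich σ := by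
  obtain ⟨ξ, η, hx⟩ := S.exists_real_coords x
  have hT := S.th_trans hs ξ η
  rw [← hx] at hT
  obtain ⟨e, he⟩ : ∃ e : C2 → ℂ, e = fun z : C2 => cexp (2 * Real.pi * I * (u : ℂ) *
      ((ξ 0 : ℂ) * z 0 + (ξ 1 : ℂ) * z 1)) := ⟨_, rfl⟩
  have hT' : (fun z => e z * s (z + x)) ∈ S.Th u
      (α + fun i => (u : ℝ) * (![ξ 0, (S.d : ℝ) * ξ 1] : Fin 2 → ℝ) i)
        (β - fun i => (u : ℝ) * (![η 0, (S.d : ℝ) * η 1] : Fin 2 → ℝ) i) := by
    rw [he]
    exact hT
  have hed : Differentiable ℂ e := by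
    rw [he]
    fun_prop
  have hne' : ∀ z, e z ≠ 0 := by
    rw [he]
    exact fun z => Complex.exp_ne_zero _
  refine ⟨_, _, _, e, hed, hne', fun z => rfl, hT', ?_, ?_⟩
  · intro h0
    apply hs0
    funext w
    have h1 := congrFun h0 (w - x)
    simp only [sub_add_cancel, Pi.zero_apply] at h1 ⊢
    exact (mul_eq_zero.1 h1).resolve_left (hne' _)
  · intro v α' β' t ht ht0
    obtain ⟨ξ', η', hx'⟩ := S.exists_real_coords (-x)
    have hT2 := S.th_trans ht ξ' η'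
    rw [← hx'] at hT2
    obtain ⟨e₂, he₂⟩ : ∃ e₂ : C2 → ℂ, e₂ = fun z : C2 => cexp (2 * Real.pi * I * (v : ℂ) *
      ((ξ' 0 : ℂ) * z 0 + (ξ' 1 : ℂ) * z 1)) := ⟨_, rfl⟩
    have hed₂ : Differentiable ℂ e₂ := by
      rw [he₂]
      fun_prop
    have hne₂ : ∀ z, e₂ z ≠ 0 := by
      rw [he₂]
      exact fun z => Complex.exp_ne_zero _
    have hT2' : (fun z => e₂ z * t (z + -x)) ∈ S.Th v
        (α' + fun i => (v : ℝ) * (![ξ' 0, (S.d : ℝ) * ξ' 1] : Fin 2 → ℝ) i)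
        (β' - fun i => (v : ℝ) * (![η' 0, (S.d : ℝ) * η' 1] : Fin 2 → ℝ) i) := by
      rw [he₂]
      exact hT2
    have ht2 : (fun z => e₂ z * t (z + -x)) ≠ 0 := by
      intro h0
      apply ht0
      funext w
      have h1 := congrFun h0 (w + x)
      simp only [add_neg_cancel_right, Pi.zero_apply] at h1 ⊢
      exact (mul_eq_zero.1 h1).resolve_left (hne₂ _)
    rcases hD _ _ _ _ hT2' ht2 with h1 | h1
    · left
      obtain ⟨h, hh, hth⟩ := h1
      refine ⟨fun z => (e₂ (z + x))⁻¹ * (e z)⁻¹ * h (z + x), ?_, ?_⟩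
      · have h2 : Differentiable ℂ fun z : C2 => z + x := by fun_prop
        exact (((hed₂.comp h2).inv fun z => hne₂ _).mul (hed.inv hne')).mul (hh.comp h2)
      · funext z
        have h3 := congrFun hth (z + x)
        simp only [add_neg_cancel_right, Pi.mul_apply] at h3 ⊢
        have h4 := hne₂ (z + x)
        have h5 := hne' z
        field_simp
        linear_combination h3
    · right
      have h2 := copr_comp_add h1 x
      intro p
      filter_upwards [h2 p] with z hz hz'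
      apply hz
      refine ⟨(mul_eq_zero.1 hz'.1).resolve_left (hne' _), ?_⟩
      show e₂ (z + x) * t (z + x + -x) = 0
      rw [add_neg_cancel_right, hz'.2, mul_zero]

private theorem diB_level {u : ℤ} (r : ℕ) {α β : Fin r → Fin 2 → ℝ} {σ : Fin r → C2 → ℂ}
    (hσ : ∀ i, σ i ∈ S.Th u (α i) (β i)) (hσ0 : ∀ i, σ i ≠ 0) (hD : ∀ i, S.Dich (σ i))
    (hna : ∀ i j, i ≠ j → σ j ∉ Mult (σ i)) {N : ℤ} {γ δ : Fin 2 → ℝ} {F : C2 → ℂ}
    (hF : F ∈ S.Th N γ δ) (hF0 : F ≠ 0)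
    (hd : ∀ i, F ∈ Mult (σ i)) : u * r ≤ N := by
  induction r generalizing N γ δ F with
  | zero =>
    by_contra h
    push Not at h
    refine hF0 (S.th_level_neg (u := N) ?_ hF)
    simpa using h
  | succ r ih =>
    obtain ⟨h, hh, hFh⟩ := hd (Fin.last r)
    have hhT := S.th_quot (hσ (Fin.last r)) (hσ0 _) hF hh hFh
    have hh0 : h ≠ 0 := by
      rintro rfl
      exact hF0 (by rw [hFh, mul_zero])
    have h1 := ih (α := fun i => α i.castSucc) (β := fun i => β i.castSucc)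
      (σ := fun i => σ i.castSucc) (fun i => hσ _) (fun i => hσ0 _) (fun i => hD _)
      (fun i j hij => hna _ _ (fun h => hij (Fin.castSucc_injective _ h))) hhT hh0 (fun i => by
        have h2 : σ (Fin.last r) ∉ Mult (σ i.castSucc) := hna _ _ (Fin.castSucc_lt_last i).ne
        have h3 : Copr (σ i.castSucc) (σ (Fin.last r)) :=
          (hD i.castSucc _ _ _ _ (hσ (Fin.last r)) (hσ0 _)).resolve_left h2
        refine dvd_of_copr (hσ _).1 (hσ _).1 hh (hσ0 _) (hσ0 (Fin.last r)) h3 ?_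
        rw [← hFh]
        exact hd _)
    push_cast
    linarith

/-- Products of pairwise non-associated primes.
PROOF: as `Curve.prod_level` (q2/PrA.lean), with `u` in place of `2 a`. -/
theorem dich_prod_level {u : ℤ} (hu : 1 ≤ u) {r : ℕ} {α β : Fin r → Fin 2 → ℝ} {σ : Fin r → C2 → ℂ}
    (hσ : ∀ i, σ i ∈ S.Th u (α i) (β i)) (hσ0 : ∀ i, σ i ≠ 0) (hD : ∀ i, S.Dich (σ i))
    (hna : ∀ i j, i ≠ j → σ j ∉ Mult (σ i)) {N : ℤ} {F : C2 → ℂ} (hF : F ∈ S.Th N 0 0) (hF0 : F ≠ 0)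
    (hd : ∀ i, F ∈ Mult (σ i)) : u * r ≤ N :=
  diB_level r hσ hσ0 hD hna hF hF0 hd

end PerData

end Q2T
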