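import Pool.Agent.H.MP_89f84f_ag.q2.Auto

set_option autoImplicit false

open Complex Topology Filter Asymptotics Metric Set

namespace Q2T

/-! Hermitian forms.  `hm H z w = ∑ H a b z_a conj (w_b)` is defined in q2/Auto.lean. -/

theorem hm_add (H H' : Matrix (Fin 2) (Fin 2) ℂ) (z w : C2) : hm (H + H') z w = hm H z w + hm H' z w := by
  simp only [hm, Fin.sum_univ_two, Matrix.add_apply]
  ring

theorem hm_sub (H H' : Matrix (Fin 2) (Fin 2) ℂ) (z w : C2) : hm (H - H') z w = hm H z w - hm H' z w := by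
  simp only [hm, Fin.sum_univ_two, Matrix.sub_apply]
  ring

theorem hm_smul (c : ℂ) (H : Matrix (Fin 2) (Fin 2) ℂ) (z w : C2) : hm (c • H) z w = c * hm H z w := by
  simp only [hm, Fin.sum_univ_two, Matrix.smul_apply, smul_eq_mul]
  ring

theorem hm_zero (z w : C2) : hm 0 z w = 0 := by
  simp only [hm, Fin.sum_univ_two, Matrix.zero_apply]
  ring

theorem hm_add_left (H : Matrix (Fin 2) (Fin 2) ℂ) (z x w : C2) : hm H (z + x) w = hm H z w + hm H x w := by
  simp only [hm, Fin.sum_univ_two, Pi.add_apply]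
  ring

theorem hm_add_right (H : Matrix (Fin 2) (Fin 2) ℂ) (z w y : C2) : hm H z (w + y) = hm H z w + hm H z y := by
  simp only [hm, Fin.sum_univ_two, Pi.add_apply, map_add]
  ring

theorem hm_neg_left (H : Matrix (Fin 2) (Fin 2) ℂ) (z w : C2) : hm H (-z) w = -hm H z w := by
  simp only [hm, Fin.sum_univ_two, Pi.neg_apply]
  ring

theorem hm_neg_right (H : Matrix (Fin 2) (Fin 2) ℂ) (z w : C2) : hm H z (-w) = -hm H z w := by
  simp only [hm, Fin.sum_univ_two, Pi.neg_apply, map_neg]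
  ring

theorem hm_conj {H : Matrix (Fin 2) (Fin 2) ℂ} (hH : H.IsHermitian) (z w : C2) :
    (starRingEnd ℂ) (hm H z w) = hm H w z := by
  have h : ∀ i j, (starRingEnd ℂ) (H i j) = H j i := fun i j => by
    have := congrFun (congrFun hH j) i
    rwa [Matrix.conjTranspose_apply] at this
  simp only [hm, Fin.sum_univ_two, map_add, map_mul, h, starRingEnd_self_apply]
  ring

theorem hm_self_im {H : Matrix (Fin 2) (Fin 2) ℂ} (hH : H.IsHermitian) (z : C2) : (hm H z z).im = 0 := by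
  have h := congrArg Complex.im (hm_conj hH z z)
  rw [Complex.conj_im] at h
  linarith

theorem hm_diff (H : Matrix (Fin 2) (Fin 2) ℂ) (w : C2) : Differentiable ℂ fun z => hm H z w := by
  unfold hm
  fun_prop

/-- Two Hermitian forms which agree are equal. -/
theorem hm_ext {H H' : Matrix (Fin 2) (Fin 2) ℂ} (h : ∀ z w, hm H z w = hm H' z w) : H = H' := by
  have key : ∀ (K : Matrix (Fin 2) (Fin 2) ℂ) (a b : Fin 2),
      hm K (Pi.single a 1) (Pi.single b 1) = K a b := by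
    intro K a b
    simp only [hm, Fin.sum_univ_two]
    fin_cases a <;> fin_cases b <;> simp
  ext a b
  rw [← key H a b, ← key H' a b, h]

/-- Positive definite. -/
def PD (H : Matrix (Fin 2) (Fin 2) ℂ) : Prop := ∀ z : C2, z ≠ 0 → 0 < (hm H z z).re

/-- Positive semidefinite. -/
def PSD (H : Matrix (Fin 2) (Fin 2) ℂ) : Prop := ∀ z : C2, 0 ≤ (hm H z z).re

namespace PerData

variable (S : PerData)

/-- The Hermitian form `z · (Im τ)⁻¹ conj w` of the polarisation, as a matrix. -/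
noncomputable def H0 : Matrix (Fin 2) (Fin 2) ℂ :=
  !![((S.τ 1 1).im : ℂ) / (S.D : ℂ), -((S.τ 0 1).im : ℂ) / (S.D : ℂ);
    -((S.τ 0 1).im : ℂ) / (S.D : ℂ), ((S.τ 0 0).im : ℂ) / (S.D : ℂ)]

theorem hm_H0 (z w : C2) : hm S.H0 z w = S.bf z (fun i => (starRingEnd ℂ) (w i)) := by
  have e00 : S.H0 0 0 = ((S.τ 1 1).im : ℂ) / (S.D : ℂ) := rfl
  have e01 : S.H0 0 1 = -((S.τ 0 1).im : ℂ) / (S.D : ℂ) := rfl
  have e10 : S.H0 1 0 = -((S.τ 0 1).im : ℂ) / (S.D : ℂ) := rfl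
  have e11 : S.H0 1 1 = ((S.τ 0 0).im : ℂ) / (S.D : ℂ) := rfl
  simp only [hm, bf, Fin.sum_univ_two]
  rw [e00, e01, e10, e11]
  ring

theorem H0_herm : S.H0.IsHermitian := by
  refine Matrix.IsHermitian.ext fun i j => ?_
  fin_cases i <;> fin_cases j <;> simp [H0, Complex.conj_ofReal]

/-- PROOF: `(hm H0 z z).re = hf z` (q2/JetA.lean, `hf_lower`). -/
theorem H0_pd : PD S.H0 := by
  intro z hz
  obtain ⟨c, hc, hl⟩ := S.hf_lower
  have h1 : (hm S.H0 z z).re = S.hf z := by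
    rw [S.hm_H0]
    unfold bf hf qf
    rw [Complex.div_ofReal_re, ← add_div]
    congr 1
    simp only [Complex.add_re, Complex.sub_re, Complex.mul_im, Complex.add_im, Complex.mul_re,
      Complex.ofReal_im, Complex.ofReal_re, Complex.conj_re, Complex.conj_im]
    ring
  rw [h1]
  have h2 : 0 < ‖z‖ := norm_pos_iff.2 hz
  exact lt_of_lt_of_le (by positivity) (hl z)

/-- The Néron-Severi group: Hermitian forms whose imaginary part is integral on the lattice. -/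
def NS : AddSubgroup (Matrix (Fin 2) (Fin 2) ℂ) where
  carrier := {H | H.IsHermitian ∧ ∀ x ∈ S.Lat, ∀ y ∈ S.Lat, ∃ k : ℤ, (hm H x y).im = k}
  zero_mem' := ⟨Matrix.isHermitian_zero, fun x _ y _ => ⟨0, by rw [hm_zero]; simp⟩⟩
  add_mem' := by
    rintro H H' ⟨h, hi⟩ ⟨h', hi'⟩
    refine ⟨h.add h', fun x hx y hy => ?_⟩
    obtain ⟨k, hk⟩ := hi x hx y hy
    obtain ⟨k', hk'⟩ := hi' x hx y hy
    exact ⟨k + k', by rw [hm_add, Complex.add_im, hk, hk']; push_cast; ring⟩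
  neg_mem' := by
    rintro H ⟨h, hi⟩
    refine ⟨h.neg, fun x hx y hy => ?_⟩
    obtain ⟨k, hk⟩ := hi x hx y hy
    have h1 : hm (-H) x y = -hm H x y := by
      have := hm_smul (-1) H x y
      rwa [neg_one_smul, neg_one_mul] at this
    exact ⟨-k, by rw [h1, Complex.neg_im, hk]; push_cast; ring⟩

/-- The imaginary part of `H0` on the lattice.
PROOF: `τ p + Δ q = (X p + Δ q) + i Y p`, `τ = X + i Y`; `Y⁻¹ Y = 1` and `X` is symmetric. -/
theorem H0_im (p q p' q' : Z2) : (hm S.H0 (S.tv p + S.dv q) (S.tv p' + S.dv q')).im =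
    ((p 0 * q' 0 + S.d * (p 1 * q' 1) - (q 0 * p' 0 + S.d * (q 1 * p' 1)) : ℤ) : ℝ) := by
  have hD : S.D ≠ 0 := by
    have := S.det_pos
    unfold D
    linarith
  rw [S.hm_H0]
  have z0 : (S.tv p + S.dv q) 0 = (S.τ 0 0 * (p 0 : ℂ) + S.τ 0 1 * (p 1 : ℂ)) + (q 0 : ℂ) := rfl
  have z1 : (S.tv p + S.dv q) 1 = (S.τ 0 1 * (p 0 : ℂ) + S.τ 1 1 * (p 1 : ℂ)) +
      (S.d : ℂ) * (q 1 : ℂ) := by rw [S.symm]; rfl
  have x0 : (S.tv p' + S.dv q') 0 = (S.τ 0 0 * (p' 0 : ℂ) + S.τ 0 1 * (p' 1 : ℂ)) +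
      (q' 0 : ℂ) := rfl
  have x1 : (S.tv p' + S.dv q') 1 = (S.τ 0 1 * (p' 0 : ℂ) + S.τ 1 1 * (p' 1 : ℂ)) +
      (S.d : ℂ) * (q' 1 : ℂ) := by rw [S.symm]; rfl
  simp only [bf]
  rw [x0, x1, z0, z1, Complex.div_ofReal_im, div_eq_iff hD]
  simp only [Complex.add_im, Complex.sub_im, Complex.mul_im, Complex.add_re, Complex.mul_re,
    Complex.ofReal_im, Complex.ofReal_re, Complex.conj_re, Complex.conj_im, Complex.intCast_re,
    Complex.intCast_im, Complex.natCast_re, Complex.natCast_im]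
  unfold D
  push_cast
  ring

theorem H0_mem : S.H0 ∈ S.NS := by
  refine ⟨S.H0_herm, ?_⟩
  rintro _ ⟨p, q, rfl⟩ _ ⟨p', q', rfl⟩
  exact ⟨_, S.H0_im p q p' q'⟩

/-- `χ` is a semicharacter for the Hermitian form `H`. -/
def SC (H : Matrix (Fin 2) (Fin 2) ℂ) (χ : C2 → ℂ) : Prop :=
  (∀ x ∈ S.Lat, ‖χ x‖ = 1) ∧
    ∀ x ∈ S.Lat, ∀ y ∈ S.Lat, χ (x + y) = χ x * χ y * cexp (Real.pi * I * ((hm H x y).im : ℝ))

/-- The canonical theta functions with Hermitian form `H` and multipliers `χ`. -/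
def TH (H : Matrix (Fin 2) (Fin 2) ℂ) (χ : C2 → ℂ) : Submodule ℂ (C2 → ℂ) where
  carrier := {f | Differentiable ℂ f ∧
    ∀ x ∈ S.Lat, ∀ z, f (z + x) = χ x * cexp (Real.pi * (hm H z x + hm H x x / 2)) * f z}
  zero_mem' := ⟨differentiable_const 0, fun x _ z => by simp⟩
  add_mem' := fun {f g} hf hg => ⟨hf.1.add hg.1, fun x hx z => by
    simp only [Pi.add_apply, hf.2 x hx, hg.2 x hx, mul_add]⟩
  smul_mem' := fun c f hf => ⟨hf.1.const_smul c, fun x hx z => by
    simp only [Pi.smul_apply, smul_eq_mul, hf.2 x hx]; ring⟩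

theorem TH_congr {H : Matrix (Fin 2) (Fin 2) ℂ} {χ χ' : C2 → ℂ} (h : ∀ x ∈ S.Lat, χ x = χ' x) :
    S.TH H χ = S.TH H χ' := by
  ext f
  constructor
  · rintro ⟨h1, h2⟩
    exact ⟨h1, fun x hx z => by rw [← h x hx]; exact h2 x hx z⟩
  · rintro ⟨h1, h2⟩
    exact ⟨h1, fun x hx z => by rw [h x hx]; exact h2 x hx z⟩

theorem TH_mul {H H' : Matrix (Fin 2) (Fin 2) ℂ} {χ χ' : C2 → ℂ} {f g : C2 → ℂ} (hf : f ∈ S.TH H χ)
    (hg : g ∈ S.TH H' χ') : f * g ∈ S.TH (H + H') (fun x => χ x * χ' x) := by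
  refine ⟨hf.1.mul hg.1, fun x hx z => ?_⟩
  have e : (Real.pi : ℂ) * (hm (H + H') z x + hm (H + H') x x / 2) =
      Real.pi * (hm H z x + hm H x x / 2) + Real.pi * (hm H' z x + hm H' x x / 2) := by
    rw [hm_add, hm_add]
    ring
  rw [Pi.mul_apply, Pi.mul_apply, hf.2 x hx, hg.2 x hx, e, Complex.exp_add]
  ring

/-- PROOF: as `th_quot` in q2/ThA.lean. -/
theorem TH_quot {H H' : Matrix (Fin 2) (Fin 2) ℂ} {χ χ' : C2 → ℂ} {s f h : C2 → ℂ} (hs : s ∈ S.TH H χ) (hs0 : s ≠ 0)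
    (hχ : ∀ x ∈ S.Lat, χ x ≠ 0) (hf : f ∈ S.TH H' χ') (hh : Differentiable ℂ h) (he : f = s * h) :
    h ∈ S.TH (H' - H) (fun x => χ' x / χ x) := by
  refine ⟨hh, fun x hx z => ?_⟩
  have hE : ∀ (K : Matrix (Fin 2) (Fin 2) ℂ) (c : ℂ),
      Differentiable ℂ (fun w : C2 => c * cexp (Real.pi * (hm K w x + hm K x x / 2))) := by
    intro K c
    exact ((((hm_diff K x).add_const _).const_mul _).cexp).const_mul _
  have hsh : Differentiable ℂ (fun w : C2 => h (w + x)) :=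
    hh.comp (differentiable_id.add_const _)
  have h1 : (fun w => χ x * cexp (Real.pi * (hm H w x + hm H x x / 2)) * h (w + x)) =
      fun w => χ' x * cexp (Real.pi * (hm H' w x + hm H' x x / 2)) * h w := by
    refine ent_cancel hs.1 hs0 ((hE H (χ x)).mul hsh) ((hE H' (χ' x)).mul hh) ?_
    funext w
    rw [Pi.mul_apply, Pi.mul_apply]
    have h2 := hf.2 x hx w
    rw [he, Pi.mul_apply, Pi.mul_apply, hs.2 x hx] at h2
    linear_combination h2
  have h2 := congrFun h1 z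
  have e : (Real.pi : ℂ) * (hm H' z x + hm H' x x / 2) =
      Real.pi * (hm H z x + hm H x x / 2) +
        Real.pi * (hm (H' - H) z x + hm (H' - H) x x / 2) := by
    rw [hm_sub, hm_sub]
    ring
  simp only [e] at h2
  rw [Complex.exp_add] at h2
  have h3 := hχ x hx
  have h4 := Complex.exp_ne_zero (Real.pi * (hm H z x + hm H x x / 2))
  refine mul_left_cancel₀ (mul_ne_zero h3 h4) ?_
  rw [h2]
  field_simp

theorem SC_add {H H' : Matrix (Fin 2) (Fin 2) ℂ} {χ χ' : C2 → ℂ} (h : S.SC H χ) (h' : S.SC H' χ') :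
    S.SC (H + H') (fun x => χ x * χ' x) := by
  refine ⟨fun x hx => by rw [norm_mul, h.1 x hx, h'.1 x hx, one_mul], fun x hx y hy => ?_⟩
  have e : (Real.pi : ℂ) * I * (((hm (H + H') x y).im : ℝ) : ℂ) =
      Real.pi * I * (((hm H x y).im : ℝ) : ℂ) + Real.pi * I * (((hm H' x y).im : ℝ) : ℂ) := by
    rw [hm_add, Complex.add_im]
    push_cast
    ring
  show χ (x + y) * χ' (x + y) = χ x * χ' x * (χ y * χ' y) *
    cexp (Real.pi * I * (((hm (H + H') x y).im : ℝ) : ℂ))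
  rw [h.2 x hx y hy, h'.2 x hx y hy, e, Complex.exp_add]
  ring

theorem SC_sub {H H' : Matrix (Fin 2) (Fin 2) ℂ} {χ χ' : C2 → ℂ} (h : S.SC H χ) (h' : S.SC H' χ') :
    S.SC (H - H') (fun x => χ x / χ' x) := by
  refine ⟨fun x hx => by rw [norm_div, h.1 x hx, h'.1 x hx, div_one], fun x hx y hy => ?_⟩
  have e : (Real.pi : ℂ) * I * (((hm (H - H') x y).im : ℝ) : ℂ) =
      Real.pi * I * (((hm H x y).im : ℝ) : ℂ) - Real.pi * I * (((hm H' x y).im : ℝ) : ℂ) := by
    rw [hm_sub, Complex.sub_im]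
    push_cast
    ring
  show χ (x + y) / χ' (x + y) = χ x / χ' x * (χ y / χ' y) *
    cexp (Real.pi * I * (((hm (H - H') x y).im : ℝ) : ℂ))
  rw [h.2 x hx y hy, h'.2 x hx y hy, e, Complex.exp_sub]
  ring

/-- A nonzero theta function with multipliers of absolute value one and Hermitian `H`: the form is in `NS`, the multipliers are
a semicharacter.  PROOF: compute `f (z + x + y)` in two ways (as `integral_of_mult` in q2/Auto.lean). -/
theorem SC_of_ne {H : Matrix (Fin 2) (Fin 2) ℂ} (hH : H.IsHermitian) {χ : C2 → ℂ} (hχ : ∀ x ∈ S.Lat, ‖χ x‖ = 1)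
    {f : C2 → ℂ} (hf : f ∈ S.TH H χ) (hf0 : f ≠ 0) : H ∈ S.NS ∧ S.SC H χ := by
  obtain ⟨z, hz⟩ : ∃ z, f z ≠ 0 := by
    by_contra hno
    push Not at hno
    exact hf0 (funext hno)
  have hne : ∀ x ∈ S.Lat, χ x ≠ 0 := by
    intro x hx h
    have := hχ x hx
    rw [h, norm_zero] at this
    exact zero_ne_one this
  have key : ∀ x ∈ S.Lat, ∀ y ∈ S.Lat,
      χ (x + y) = χ x * χ y * cexp (Real.pi * I * (((hm H x y).im : ℝ) : ℂ)) := by
    intro x hx y hy
    have h1 : f (z + (x + y)) = f (z + x + y) := by rw [add_assoc]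
    rw [hf.2 _ (S.Lat.add_mem hx hy), hf.2 y hy, hf.2 x hx] at h1
    have him : ((((hm H x y).im : ℝ) : ℂ)) * I = (hm H x y - hm H y x) / 2 := by
      rw [← hm_conj hH x y, Complex.sub_conj]
      push_cast
      ring
    have e1 : (Real.pi : ℂ) * (hm H z (x + y) + hm H (x + y) (x + y) / 2) +
        Real.pi * I * (((hm H x y).im : ℝ) : ℂ) =
        Real.pi * (hm H (z + x) y + hm H y y / 2) + Real.pi * (hm H z x + hm H x x / 2) := by
      rw [hm_add_right, hm_add_left, hm_add_right, hm_add_right, hm_add_left]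
      linear_combination (Real.pi : ℂ) * him
    have e2 := congrArg cexp e1
    rw [Complex.exp_add, Complex.exp_add] at e2
    have h4 := Complex.exp_ne_zero (Real.pi * (hm H z (x + y) + hm H (x + y) (x + y) / 2))
    refine mul_right_cancel₀ (mul_ne_zero h4 hz) ?_
    linear_combination h1 - χ x * χ y * f z * e2
  refine ⟨⟨hH, fun x hx y hy => ?_⟩, hχ, key⟩
  have h1 := key x hx y hy
  have h2 := key y hy x hx
  rw [add_comm y x, h1] at h2
  have h3 : cexp (Real.pi * I * (((hm H x y).im : ℝ) : ℂ)) =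
      cexp (Real.pi * I * (((hm H y x).im : ℝ) : ℂ)) := by
    refine mul_left_cancel₀ (mul_ne_zero (hne x hx) (hne y hy)) ?_
    linear_combination h2
  obtain ⟨k, hk⟩ := Complex.exp_eq_exp_iff_exists_int.1 h3
  refine ⟨k, ?_⟩
  have h5 : (hm H y x).im = -(hm H x y).im := by
    rw [← hm_conj hH x y, Complex.conj_im]
  rw [h5] at hk
  have h6 : (2 * Real.pi * I : ℂ) ≠ 0 := by
    simp [Real.pi_ne_zero]
  have h7 : (((hm H x y).im : ℝ) : ℂ) = (k : ℂ) := by
    refine mul_left_cancel₀ h6 ?_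
    push_cast at hk
    linear_combination hk
  exact_mod_cast h7

end PerData

end Q2T
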