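import Pool.Agent.H.MP_89f84f_ag.q3.NsD

set_option autoImplicit false

open Complex Topology Filter Asymptotics Metric Set

namespace Q2T

private theorem NsQ_scale (H : Matrix (Fin 2) (Fin 2) ℂ) (t : ℝ) (z : C2) :
    (hm H ((t : ℂ) • z) ((t : ℂ) • z)).re = t ^ 2 * (hm H z z).re := by
  have h : hm H ((t : ℂ) • z) ((t : ℂ) • z) = ((t ^ 2 : ℝ) : ℂ) * hm H z z := by
    simp only [hm, Fin.sum_univ_two, Pi.smul_apply, smul_eq_mul, map_mul, Complex.conj_ofReal]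
    push_cast
    ring
  rw [h, Complex.re_ofReal_mul]

private theorem NsQ_cont (H : Matrix (Fin 2) (Fin 2) ℂ) : Continuous fun z : C2 => (hm H z z).re := by
  unfold hm
  have h : Continuous fun z : C2 => ∑ a, ∑ b, H a b * (z a * (starRingEnd ℂ) (z b)) := by
    refine continuous_finsetSum _ fun a _ => continuous_finsetSum _ fun b _ => ?_
    exact continuous_const.mul ((continuous_apply a).mul (Complex.continuous_conj.comp (continuous_apply b)))
  exact Complex.continuous_re.comp h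

private theorem NsQ_herm {H : Matrix (Fin 2) (Fin 2) ℂ} (hH : H.IsHermitian) :
    (H 0 0).im = 0 ∧ (H 1 1).im = 0 ∧ (H 1 0).re = (H 0 1).re ∧ (H 1 0).im = -(H 0 1).im := by
  have h : ∀ i j, (starRingEnd ℂ) (H j i) = H i j := fun i j => by
    have := congrFun (congrFun hH i) j
    rwa [Matrix.conjTranspose_apply] at this
  have h1 := congrArg Complex.im (h 0 0)
  have h2 := congrArg Complex.im (h 1 1)
  have h3 := congrArg Complex.re (h 1 0)
  have h4 := congrArg Complex.im (h 1 0)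
  rw [Complex.conj_im] at h1 h2 h4
  rw [Complex.conj_re] at h3
  refine ⟨by linarith, by linarith, h3.symm, h4.symm⟩

private theorem NsQ_det {H : Matrix (Fin 2) (Fin 2) ℂ} (hH : H.IsHermitian) :
    H.det.re = (H 0 0).re * (H 1 1).re - ((H 0 1).re ^ 2 + (H 0 1).im ^ 2) := by
  obtain ⟨h1, h2, h3, h4⟩ := NsQ_herm hH
  rw [Matrix.det_fin_two, Complex.sub_re, Complex.mul_re, Complex.mul_re, h1, h2, h3, h4]
  ring

namespace PerData

variable (S : PerData)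

private theorem NsQ_D : 0 < S.D := by
  have := S.det_pos
  unfold D
  linarith

private theorem NsQ_e00 : S.H0 0 0 = (((S.τ 1 1).im / S.D : ℝ) : ℂ) := by
  rw [Complex.ofReal_div]; rfl

private theorem NsQ_e01 : S.H0 0 1 = ((-(S.τ 0 1).im / S.D : ℝ) : ℂ) := by
  rw [Complex.ofReal_div, Complex.ofReal_neg]; rfl

private theorem NsQ_e11 : S.H0 1 1 = (((S.τ 0 0).im / S.D : ℝ) : ℂ) := by
  rw [Complex.ofReal_div]; rfl

private theorem NsQ_hsmul (t : ℝ) : ((t : ℂ) • S.H0).IsHermitian := by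
  refine Matrix.IsHermitian.ext fun i j => ?_
  have h := S.H0_herm.apply i j
  rw [Matrix.smul_apply, Matrix.smul_apply, smul_eq_mul, smul_eq_mul, star_mul', h]
  congr 1
  exact Complex.conj_ofReal t

/-- For a positive definite `P` and a Hermitian `G`, `M P - G` is positive definite for all large `M`.
PROOF: `hm P z z ≥ c ‖z‖²` with `c > 0` (compactness of the unit sphere), `|hm G z z| ≤ C ‖z‖²`. -/
theorem exists_sub_pd {P G : Matrix (Fin 2) (Fin 2) ℂ} (hP : PD P) :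
    ∃ M₀ : ℕ, ∀ M : ℕ, M₀ ≤ M → PD ((M : ℂ) • P - G) := by
  have hK : IsCompact (sphere (0 : C2) 1) := isCompact_sphere _ _
  have hne : (sphere (0 : C2) 1).Nonempty := by
    refine ⟨fun _ => 1, ?_⟩
    rw [mem_sphere_zero_iff_norm]
    rw [pi_norm_const]
    simp
  obtain ⟨z0, hz0, hmin⟩ := hK.exists_isMinOn hne (NsQ_cont P).continuousOn
  obtain ⟨z1, hz1, hmax⟩ := hK.exists_isMaxOn hne (NsQ_cont G).continuousOn
  have hz0' : z0 ≠ 0 := by
    intro h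
    rw [h, mem_sphere_zero_iff_norm, norm_zero] at hz0
    exact zero_ne_one hz0
  have hc := hP z0 hz0'
  obtain ⟨c, hcdef⟩ : ∃ c : ℝ, c = (hm P z0 z0).re := ⟨_, rfl⟩
  obtain ⟨C, hCdef⟩ : ∃ C : ℝ, C = (hm G z1 z1).re := ⟨_, rfl⟩
  rw [← hcdef] at hc
  obtain ⟨M₀, hM₀⟩ := exists_nat_gt (C / c)
  refine ⟨M₀, fun M hM z hz => ?_⟩
  have hn : 0 < ‖z‖ := norm_pos_iff.2 hz
  obtain ⟨w, hw⟩ : ∃ w : C2, w = ((‖z‖⁻¹ : ℝ) : ℂ) • z := ⟨_, rfl⟩
  have hwn : w ∈ sphere (0 : C2) 1 := by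
    rw [mem_sphere_zero_iff_norm, hw, norm_smul, Complex.norm_real, norm_inv, norm_norm]
    exact inv_mul_cancel₀ hn.ne'
  have hzw : z = ((‖z‖ : ℝ) : ℂ) • w := by
    rw [hw, smul_smul, ← Complex.ofReal_mul, mul_inv_cancel₀ hn.ne', Complex.ofReal_one, one_smul]
  rw [hzw, NsQ_scale]
  refine mul_pos (pow_pos hn 2) ?_
  rw [hm_sub, hm_smul, Complex.sub_re]
  have h1 : ((M : ℂ) * hm P w w).re = M * (hm P w w).re := by
    have := Complex.re_ofReal_mul (M : ℝ) (hm P w w)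
    rwa [Complex.ofReal_natCast] at this
  rw [h1]
  have h2 : c ≤ (hm P w w).re := by
    rw [hcdef]
    exact hmin hwn
  have h3 : (hm G w w).re ≤ C := by
    rw [hCdef]
    exact hmax hwn
  have h4 : C < M * c := by
    have h5 : C / c < M := lt_of_lt_of_le hM₀ (by exact_mod_cast hM)
    rwa [div_lt_iff₀ hc] at h5
  have h5 : (M : ℝ) * c ≤ M * (hm P w w).re := mul_le_mul_of_nonneg_left h2 (Nat.cast_nonneg M)
  linarith

/-- PROOF: both sides are polynomials in the entries, `H` Hermitian. -/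
theorem pf_add_H0 {H : Matrix (Fin 2) (Fin 2) ℂ} (hH : H.IsHermitian) (n : ℝ) :
    S.pf ((n : ℂ) • S.H0 + H) = n ^ 2 * S.d + n * S.dg H + S.pf H := by
  have hD := (NsQ_D S).ne'
  have hDd : (S.τ 0 0).im * (S.τ 1 1).im - (S.τ 0 1).im ^ 2 = S.D := rfl
  unfold pf dg
  rw [NsQ_det ((NsQ_hsmul S n).add hH), NsQ_det hH]
  simp only [Matrix.add_apply, Matrix.smul_apply, smul_eq_mul, Complex.add_re, Complex.add_im]
  rw [NsQ_e00, NsQ_e01, NsQ_e11]
  simp only [Complex.re_ofReal_mul, Complex.im_ofReal_mul, Complex.ofReal_re, Complex.ofReal_im]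
  field_simp
  linear_combination (S.d : ℝ) * n ^ 2 * hDd

/-- The class is a real multiple of the polarisation if the discriminant vanishes.
PROOF: `K = H - (dg H / (2 d)) H0` has `dg K = 0` (`dg H0 = 2 d`) and `pf K = pf H - (dg H)² / (4 d) = 0`, so `det K = 0` and `K` is semidefinite of rank
at most one; `tr (Y K) = 0` with `Y` positive definite gives `K = 0`. -/
theorem prop_of_disc {H : Matrix (Fin 2) (Fin 2) ℂ} (hH : H.IsHermitian) (h : (S.dg H) ^ 2 = 4 * S.d * S.pf H) :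
    H = ((S.dg H / (2 * S.d) : ℝ) : ℂ) • S.H0 := by
  have hD := NsQ_D S
  have hd : (0 : ℝ) < S.d := by exact_mod_cast S.d_pos
  have hY0 := S.pos
  have hY := S.det_pos
  have hY1 : 0 < (S.τ 1 1).im := by
    by_contra hn
    push Not at hn
    nlinarith [sq_nonneg (S.τ 0 1).im, mul_nonneg hY0.le (neg_nonneg.2 hn)]
  obtain ⟨t, ht⟩ : ∃ t : ℝ, t = S.dg H / (2 * S.d) := ⟨_, rfl⟩
  rw [← ht]
  have hdt : S.dg H = 2 * S.d * t := by
    rw [ht]
    field_simp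
  obtain ⟨K, hK⟩ : ∃ K : Matrix (Fin 2) (Fin 2) ℂ, K = ((-t : ℝ) : ℂ) • S.H0 + H := ⟨_, rfl⟩
  have hKh : K.IsHermitian := by
    rw [hK]
    exact (NsQ_hsmul S (-t)).add hH
  have hKp : S.pf K = 0 := by
    rw [hK, pf_add_H0 S hH]
    have h1 : 4 * S.d * (S.d * t ^ 2 - S.pf H) = 0 := by
      rw [hdt] at h
      linear_combination h
    have h2 : S.d * t ^ 2 - S.pf H = 0 := by
      rcases mul_eq_zero.1 h1 with h3 | h3
      · exact absurd h3 (by positivity)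
      · exact h3
    rw [hdt]
    linear_combination (-1 : ℝ) * h2
  have hKd : S.dg K = 0 := by
    have h1 : S.dg S.H0 = 2 * S.d := by
      unfold dg
      rw [NsQ_e00, NsQ_e01, NsQ_e11]
      simp only [Complex.ofReal_re]
      have hDd : (S.τ 0 0).im * (S.τ 1 1).im - (S.τ 0 1).im ^ 2 = S.D := rfl
      field_simp
      linear_combination 2 * hDd
    have h2 : S.dg (((-t : ℝ) : ℂ) • S.H0) = -t * S.dg S.H0 := by
      unfold dg
      simp only [Matrix.smul_apply, smul_eq_mul, Complex.re_ofReal_mul]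
      ring
    rw [hK, dg_add, h2, h1, hdt]
    ring
  have hdet : (K 0 0).re * (K 1 1).re = (K 0 1).re ^ 2 + (K 0 1).im ^ 2 := by
    have h1 : S.d * S.D * K.det.re = 0 := hKp
    rw [NsQ_det hKh] at h1
    rcases mul_eq_zero.1 h1 with h3 | h3
    · exact absurd h3 (by positivity)
    · linarith
  have htr : (S.τ 0 0).im * (K 0 0).re + (S.τ 1 1).im * (K 1 1).re + 2 * ((S.τ 0 1).im * (K 0 1).re) = 0 := by
    rcases mul_eq_zero.1 hKd with h3 | h3
    · exact absurd h3 (by positivity)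
    · exact h3
  obtain ⟨k1, k2, k3, k4⟩ := NsQ_herm hKh
  obtain ⟨a, ha⟩ : ∃ r, r = (K 0 0).re := ⟨_, rfl⟩
  obtain ⟨b, hb⟩ : ∃ r, r = (K 1 1).re := ⟨_, rfl⟩
  obtain ⟨u, hu⟩ : ∃ r, r = (K 0 1).re := ⟨_, rfl⟩
  obtain ⟨v, hv⟩ : ∃ r, r = (K 0 1).im := ⟨_, rfl⟩
  obtain ⟨y0, hy0⟩ : ∃ r, r = (S.τ 0 0).im := ⟨_, rfl⟩
  obtain ⟨y1, hy1⟩ : ∃ r, r = (S.τ 1 1).im := ⟨_, rfl⟩
  obtain ⟨y, hy⟩ : ∃ r, r = (S.τ 0 1).im := ⟨_, rfl⟩
  rw [← ha, ← hb, ← hu, ← hv] at hdet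
  rw [← ha, ← hb, ← hu, ← hy0, ← hy1, ← hy] at htr
  rw [← hy0] at hY0
  rw [← hy1] at hY1
  rw [← hy0, ← hy1, ← hy] at hY
  have key : (y0 * y1 - y ^ 2) * u ^ 2 + (y0 * y1) * v ^ 2 ≤ 0 := by
    have h1 : y0 * a + y1 * b = -(2 * (y * u)) := by linarith
    have h2 : (y0 * a + y1 * b) ^ 2 = 4 * y ^ 2 * u ^ 2 := by rw [h1]; ring
    have h3 : 4 * (y0 * y1) * (a * b) ≤ (y0 * a + y1 * b) ^ 2 := by
      nlinarith [sq_nonneg (y0 * a - y1 * b)]
    rw [h2, hdet] at h3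
    nlinarith
  have hp1 : 0 < y0 * y1 - y ^ 2 := by linarith
  have hp2 : 0 < y0 * y1 := mul_pos hY0 hY1
  have hu0 : u = 0 := by
    have h1 : (y0 * y1 - y ^ 2) * u ^ 2 ≤ 0 := by
      have := mul_nonneg hp2.le (sq_nonneg v)
      linarith
    have h2 : u ^ 2 ≤ 0 := by
      by_contra hh
      push Not at hh
      have := mul_pos hp1 hh
      linarith
    exact pow_eq_zero_iff (two_ne_zero) |>.1 (le_antisymm h2 (sq_nonneg u))
  have hv0 : v = 0 := by
    have h1 : (y0 * y1) * v ^ 2 ≤ 0 := by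
      have := mul_nonneg hp1.le (sq_nonneg u)
      linarith
    have h2 : v ^ 2 ≤ 0 := by
      by_contra hh
      push Not at hh
      have := mul_pos hp2 hh
      linarith
    exact pow_eq_zero_iff (two_ne_zero) |>.1 (le_antisymm h2 (sq_nonneg v))
  have hab : a = 0 ∧ b = 0 := by
    rw [hu0] at htr
    have h1 : a * b = 0 := by
      rw [hdet, hu0, hv0]
      ring
    have h2 : y0 * a + y1 * b = 0 := by linarith
    rcases mul_eq_zero.1 h1 with h3 | h3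
    · rw [h3, mul_zero, zero_add] at h2
      exact ⟨h3, (mul_eq_zero.1 h2).resolve_left hY1.ne'⟩
    · rw [h3, mul_zero, add_zero] at h2
      exact ⟨(mul_eq_zero.1 h2).resolve_left hY0.ne', h3⟩
  have hK0 : K = 0 := by
    rw [hu0] at hu
    rw [hv0] at hv
    rw [hab.1] at ha
    rw [hab.2] at hb
    rw [← hu] at k3
    rw [← hv, neg_zero] at k4
    ext i j
    fin_cases i <;> fin_cases j
    · exact Complex.ext ha.symm k1
    · exact Complex.ext hu.symm hv.symm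
    · exact Complex.ext k3 k4
    · exact Complex.ext hb.symm k2
  have h1 : ((-t : ℝ) : ℂ) • S.H0 + H = 0 := hK.symm.trans hK0
  rw [Complex.ofReal_neg, neg_smul] at h1
  exact (neg_add_eq_zero.1 h1).symm

/-- If a quadratic polynomial `e² n² + B n + C` is a square for all large `n` then its discriminant vanishes. -/
theorem disc_of_squares {e B C : ℤ} (he : 0 < e) (h : ∃ n₀ : ℕ, ∀ n : ℕ, n₀ ≤ n → ∃ r : ℤ, r ^ 2 = e ^ 2 * n ^ 2 + B * n + C) :
    B ^ 2 = 4 * e ^ 2 * C := by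
  obtain ⟨n₀, hn₀⟩ := h
  obtain ⟨Δ, hΔ⟩ : ∃ Δ : ℤ, Δ = 4 * e ^ 2 * C - B ^ 2 := ⟨_, rfl⟩
  obtain ⟨n, hn⟩ : ∃ n : ℕ, n = n₀ + (B.natAbs + Δ.natAbs + 1) := ⟨_, rfl⟩
  obtain ⟨r, hr⟩ := hn₀ n (by omega)
  have hB : |B| + |Δ| + 1 ≤ (n : ℤ) := by
    rw [Int.abs_eq_natAbs, Int.abs_eq_natAbs]
    have : B.natAbs + Δ.natAbs + 1 ≤ n := by omega
    exact_mod_cast this
  have hB1 : -B ≤ |B| := neg_le_abs B
  have hB0 : 0 ≤ |B| := abs_nonneg B
  have hΔ0 : 0 ≤ |Δ| := abs_nonneg Δ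
  obtain ⟨N, hN⟩ : ∃ N : ℤ, N = 2 * e ^ 2 * n + B := ⟨_, rfl⟩
  obtain ⟨X, hX⟩ : ∃ X : ℤ, X = 2 * e * |r| := ⟨_, rfl⟩
  have hX0 : 0 ≤ X := by rw [hX]; positivity
  have hN0 : |Δ| < N := by
    have h1 : (1 : ℤ) ≤ e ^ 2 := by nlinarith
    have h2 : (0 : ℤ) ≤ n := by positivity
    have h3 : (n : ℤ) ≤ e ^ 2 * n := by nlinarith
    rw [hN]
    nlinarith
  have hprod : (X - N) * (X + N) = Δ := by
    have h1 : X ^ 2 = 4 * e ^ 2 * (e ^ 2 * n ^ 2 + B * n + C) := by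
      rw [hX, mul_pow, sq_abs, hr]
      ring
    have h2 : (X - N) * (X + N) = X ^ 2 - N ^ 2 := by ring
    rw [h2, h1, hN, hΔ]
    ring
  have hXN : X = N := by
    by_contra hne
    have h1 : 1 ≤ |X - N| := Int.one_le_abs (sub_ne_zero.2 hne)
    have h2 : |Δ| = |X - N| * |X + N| := by rw [← hprod, abs_mul]
    have h3 : |X + N| = X + N := abs_of_nonneg (by linarith)
    have h4 : 1 * (X + N) ≤ |X - N| * (X + N) := mul_le_mul_of_nonneg_right h1 (by linarith)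
    rw [h3] at h2
    linarith
  rw [hXN, sub_self, zero_mul] at hprod
  linarith

/-- If `2 d` is not a square or the Néron-Severi rank is at least two, then some positive definite class has nonsquare
self-intersection number.
PROOF: `2 d` not a square: `H0`.  Otherwise suppose `2 pf Γ` is a square for all positive definite `Γ ∈ NS`; `2 d = e²`.  `n H0 + H` is positive
definite for large `n` (`exists_sub_pd` with `G = - H`), `2 pf (n H0 + H) = e² n² + 2 (dg H) n + 2 pf H` (`pf_add_H0`; `dg_int`, `pf_int`).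
`disc_of_squares`: `4 (dg H)² = 8 e² pf H`, `prop_of_disc`: contradiction. -/
theorem exists_nonsquare (h : ¬ IsSquare (2 * S.d) ∨ ∃ H ∈ S.NS, ∀ r : ℝ, H ≠ (r : ℂ) • S.H0) :
    ∃ Γ ∈ S.NS, PD Γ ∧ ¬ ∃ r : ℕ, (r : ℝ) ^ 2 = 2 * S.pf Γ := by
  by_contra hcon
  push Not at hcon
  have hd : (0 : ℝ) < S.d := by exact_mod_cast S.d_pos
  obtain ⟨e, he⟩ := hcon S.H0 S.H0_mem S.H0_pd
  rw [S.pf_H0] at he
  have heN : e ^ 2 = 2 * S.d := by exact_mod_cast he
  rcases h with h | ⟨H, hH, hne⟩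
  · exact h ⟨e, by rw [← heN, sq]⟩
  have he0 : (0 : ℤ) < e := by
    have h1 := S.d_pos
    have h2 : e ≠ 0 := by
      rintro rfl
      rw [zero_pow two_ne_zero] at heN
      omega
    exact_mod_cast Nat.pos_of_ne_zero h2
  obtain ⟨B, hB⟩ := S.dg_int hH
  obtain ⟨C, hC⟩ := S.pf_int hH
  obtain ⟨M₀, hM₀⟩ := exists_sub_pd (G := -H) S.H0_pd
  have hsq : ∃ n₀ : ℕ, ∀ n : ℕ, n₀ ≤ n → ∃ r : ℤ, r ^ 2 = (e : ℤ) ^ 2 * n ^ 2 + (2 * B) * n + 2 * C := by
    refine ⟨M₀, fun n hn => ?_⟩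
    have h1 := hM₀ n hn
    rw [sub_neg_eq_add] at h1
    have h2 : (n : ℂ) • S.H0 + H ∈ S.NS := by
      refine S.NS.add_mem ?_ hH
      have h3 : (n : ℂ) • S.H0 = n • S.H0 := Nat.cast_smul_eq_nsmul ℂ n S.H0
      rw [h3]
      exact S.NS.nsmul_mem S.H0_mem n
    obtain ⟨r, hr⟩ := hcon _ h2 h1
    refine ⟨r, ?_⟩
    have h3 : S.pf ((n : ℂ) • S.H0 + H) = (n : ℝ) ^ 2 * S.d + n * S.dg H + S.pf H := by
      have := S.pf_add_H0 hH.1 (n : ℝ)
      rwa [Complex.ofReal_natCast] at this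
    rw [h3, hB, hC] at hr
    have h4 : ((r : ℝ)) ^ 2 = (e : ℝ) ^ 2 * n ^ 2 + (2 * B) * n + 2 * C := by
      rw [hr, he]
      ring
    exact_mod_cast h4
  have hdisc := disc_of_squares he0 hsq
  have h5 : (S.dg H) ^ 2 = 4 * S.d * S.pf H := by
    rw [hB, hC]
    have h6 : ((2 * B : ℤ) : ℝ) ^ 2 = 4 * (e : ℝ) ^ 2 * ((2 * C : ℤ) : ℝ) := by exact_mod_cast hdisc
    push_cast at h6
    rw [he] at h6
    linarith
  exact hne _ (S.prop_of_disc hH.1 h5)

end PerData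

end Q2T
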