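import Pool.Agent.H.MP_89f84f_ag.q3.DiB

set_option autoImplicit false

open Complex Topology Filter Asymptotics Metric Set Module

namespace Q2T

namespace PerData

variable {S : PerData}

private theorem NaB_tv_smul (S : PerData) (n : ℤ) (p : Z2) : S.tv (n • p) = (n : ℂ) • S.tv p := by
  funext i
  show S.τ i 0 * (((n • p) 0 : ℤ) : ℂ) + S.τ i 1 * (((n • p) 1 : ℤ) : ℂ) =
    (n : ℂ) * (S.τ i 0 * (p 0 : ℂ) + S.τ i 1 * (p 1 : ℂ))
  simp only [Pi.smul_apply, smul_eq_mul]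
  push_cast
  ring

private theorem NaB_dv_smul (S : PerData) (n : ℤ) (q : Z2) : S.dv (n • q) = (n : ℂ) • S.dv q := by
  funext i
  fin_cases i
  · show (((n • q) 0 : ℤ) : ℂ) = (n : ℂ) * (q 0 : ℂ)
    simp only [Pi.smul_apply, smul_eq_mul]
    push_cast
    ring
  · show (S.d : ℂ) * (((n • q) 1 : ℤ) : ℂ) = (n : ℂ) * ((S.d : ℂ) * (q 1 : ℂ))
    simp only [Pi.smul_apply, smul_eq_mul]
    push_cast
    ring

private theorem NaB_inj (S : PerData) {p q : Z2} (h : S.tv p + S.dv q = 0) : p = 0 ∧ q = 0 := by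
  obtain ⟨c, hc, hg⟩ := S.lat_growth
  have h1 := hg p q
  rw [h, norm_zero] at h1
  have h2 : ‖p‖ + ‖q‖ ≤ 0 := by
    by_contra hcon
    push Not at hcon
    have := mul_pos hc hcon
    linarith
  have h3 := norm_nonneg p
  have h4 := norm_nonneg q
  exact ⟨norm_le_zero_iff.mp (by linarith), norm_le_zero_iff.mp (by linarith)⟩

/-- indices of the `n`-torsion points -/
private abbrev NaB_I (n : ℕ) : Type := (Fin n × Fin n) × (Fin n × Fin n)

private def NaB_P {n : ℕ} (i : NaB_I n) : Z2 := ![(i.1.1 : ℤ), (i.1.2 : ℤ)]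

private def NaB_Q {n : ℕ} (i : NaB_I n) : Z2 := ![(i.2.1 : ℤ), (i.2.2 : ℤ)]

private noncomputable def NaB_x (S : PerData) {n : ℕ} (i : NaB_I n) : C2 :=
  ((n : ℂ)⁻¹) • (S.tv (NaB_P i) + S.dv (NaB_Q i))

private theorem NaB_fin {n : ℕ} (a b : Fin n) {k : ℤ} (h : (a : ℤ) - (b : ℤ) = n * k) : a = b := by
  have h1 : (a : ℤ) - (b : ℤ) = 0 := by
    apply Int.eq_zero_of_abs_lt_dvd (m := (n : ℤ)) ⟨k, h⟩
    have ha := a.2
    have hb := b.2
    rw [abs_lt]
    constructor <;> omega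
  apply Fin.ext
  omega

private theorem NaB_incong (S : PerData) {n : ℕ} (hn : 1 ≤ n) {i j : NaB_I n} (hij : i ≠ j) :
    NaB_x S i - NaB_x S j ∉ S.Lat := by
  rintro ⟨p, q, h⟩
  apply hij
  have hn0 : (n : ℂ) ≠ 0 := Nat.cast_ne_zero.mpr (by omega)
  have h1 : (n : ℂ) • (NaB_x S i - NaB_x S j) =
      (S.tv (NaB_P i) + S.dv (NaB_Q i)) - (S.tv (NaB_P j) + S.dv (NaB_Q j)) := by
    unfold NaB_x
    rw [smul_sub, smul_smul, smul_smul, mul_inv_cancel₀ hn0, one_smul, one_smul]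
  rw [h, smul_add] at h1
  have h2 := NaB_tv_smul S n p
  have h3 := NaB_dv_smul S n q
  rw [Int.cast_natCast] at h2 h3
  rw [← h2, ← h3] at h1
  have h4 : S.tv (NaB_P i + (-NaB_P j + -((n : ℤ) • p))) + S.dv (NaB_Q i + (-NaB_Q j + -((n : ℤ) • q))) = 0 := by
    rw [S.tv_add, S.tv_add, S.tv_neg, S.tv_neg, S.dv_add, S.dv_add, S.dv_neg, S.dv_neg]
    have h5 : S.tv (NaB_P i) + (-S.tv (NaB_P j) + -S.tv ((n : ℤ) • p)) +
        (S.dv (NaB_Q i) + (-S.dv (NaB_Q j) + -S.dv ((n : ℤ) • q))) =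
        ((S.tv (NaB_P i) + S.dv (NaB_Q i)) - (S.tv (NaB_P j) + S.dv (NaB_Q j))) -
        (S.tv ((n : ℤ) • p) + S.dv ((n : ℤ) • q)) := by abel
    rw [h5, h1, sub_self]
  obtain ⟨h5, h6⟩ := NaB_inj S h4
  have e0 := congrFun h5 0
  have e1 := congrFun h5 1
  have e2 := congrFun h6 0
  have e3 := congrFun h6 1
  simp only [NaB_P, NaB_Q, Pi.add_apply, Pi.neg_apply, Pi.smul_apply, smul_eq_mul, Pi.zero_apply,
    Matrix.cons_val_zero, Matrix.cons_val_one] at e0 e1 e2 e3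
  exact Prod.ext (Prod.ext (NaB_fin _ _ (k := p 0) (by linarith)) (NaB_fin _ _ (k := p 1) (by linarith)))
    (Prod.ext (NaB_fin _ _ (k := q 0) (by linarith)) (NaB_fin _ _ (k := q 1) (by linarith)))

/-- `F (n z)` is a multiple of the translates. -/
private theorem NaB_mult {s F σ e : C2 → ℂ} {N : ℤ} (hF : F ∈ S.Th N 0 0) {n : ℕ} (hn : 1 ≤ n)
    (h : (fun z => F ((n : ℂ) • z)) ∈ Mult s) (i : NaB_I n) (he : Differentiable ℂ e)
    (he0 : ∀ z, e z ≠ 0) (hσ : ∀ z, σ z = e z * s (z + NaB_x S i)) :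
    (fun z => F ((n : ℂ) • z)) ∈ Mult σ := by
  obtain ⟨g, hg, hgF⟩ := h
  have hn0 : (n : ℂ) ≠ 0 := Nat.cast_ne_zero.mpr (by omega)
  have hJ : Differentiable ℂ (fun z : C2 => S.J N 0 0 (NaB_P i) (NaB_Q i) ((n : ℂ) • z)) :=
    (S.ThA_J_diff N 0 0 (NaB_P i) (NaB_Q i)).comp (differentiable_id.const_smul (n : ℂ))
  have hJ0 : ∀ z : C2, S.J N 0 0 (NaB_P i) (NaB_Q i) ((n : ℂ) • z) ≠ 0 := fun z => S.J_ne_zero _ _ _ _ _ _
  refine ⟨fun z => (e z)⁻¹ * (S.J N 0 0 (NaB_P i) (NaB_Q i) ((n : ℂ) • z))⁻¹ * g (z + NaB_x S i), ?_, ?_⟩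
  · exact ((he.inv he0).mul (hJ.inv hJ0)).mul (hg.comp (differentiable_id.add_const _))
  · funext z
    have h1 : F ((n : ℂ) • (z + NaB_x S i)) = s (z + NaB_x S i) * g (z + NaB_x S i) := congrFun hgF _
    have h2 : (n : ℂ) • (z + NaB_x S i) = (n : ℂ) • z + S.tv (NaB_P i) + S.dv (NaB_Q i) := by
      unfold NaB_x
      rw [smul_add, smul_smul, mul_inv_cancel₀ hn0, one_smul, add_assoc]
    rw [h2, hF.2] at h1
    show F ((n : ℂ) • z) = σ z * ((e z)⁻¹ * (S.J N 0 0 (NaB_P i) (NaB_Q i) ((n : ℂ) • z))⁻¹ *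
      g (z + NaB_x S i))
    rw [hσ z]
    have h3 := he0 z
    have h4 := hJ0 z
    field_simp
    linear_combination h1

/-- Associated translates. -/
private theorem NaB_van {u : ℤ} {s : C2 → ℂ} {m : ℕ} (hv : s ∈ Van m 0) {x x' : C2}
    {α β α' β' : Fin 2 → ℝ}
    {σ σ' e e' : C2 → ℂ} (he : Differentiable ℂ e) (he' : Differentiable ℂ e') (h0 : ∀ z, e z ≠ 0)
    (h0' : ∀ z, e' z ≠ 0) (h : ∀ z, σ z = e z * s (z + x)) (h' : ∀ z, σ' z = e' z * s (z + x'))
    (hm : σ ∈ S.Th u α β) (hm' : σ' ∈ S.Th u α' β') (hs0 : σ ≠ 0) (hs0' : σ' ≠ 0)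
    (hd : σ' ∈ Mult σ) : s ∈ Van m (x - x') := by
  obtain ⟨c, hc⟩ := S.eq_smul_of_mult hm hs0 hm' hd
  have hc0 : c ≠ 0 := by
    rintro rfl
    rw [zero_smul] at hc
    exact hs0' hc
  have h1 : (fun z => s (z + x')) ∈ Van m (-x') := by
    rw [van_comp_add, neg_add_cancel]
    exact hv
  have h2 : (e' * fun z => s (z + x')) ∈ Van m (-x') :=
    (van_mul_unit he'.continuous (h0' _)).2 h1
  have h3 : (e' * fun z => s (z + x')) = (c • e) * fun z => s (z + x) := by
    funext z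
    have h4 := congrFun hc z
    simp only [Pi.smul_apply, smul_eq_mul, Pi.mul_apply, h, h'] at h4 ⊢
    rw [h4]
    ring
  rw [h3] at h2
  have h5 := (van_mul_unit (he.const_smul c).continuous (by
    simp only [Pi.smul_apply, smul_eq_mul]
    exact mul_ne_zero hc0 (h0 _))).1 h2
  rw [van_comp_add] at h5
  rw [sub_eq_neg_add]
  exact h5

/-- `F (n z)` is not a multiple of `s` for all `n`.
PROOF: as `Curve.not_all_mult` (q2/PrB.lean), with `dich_few`, `dich_trans`, `dich_prod_level`: suppose it is, for a large `n ≥ 1`.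
`F_n z = F (n z)` is in `Th (n² N) 0 0` (`th_smul_arg`), nonzero.  For the `n⁴` points `x i = (τ p + Δ q) / n`, pairwise incongruent, let `σ i` be
the translates; `F_n ∈ Mult (σ i)`.  Associated translates `σ i`, `σ j` (`σ j ∈ Mult (σ i)`, so `σ j = c σ i`, `eq_smul_of_mult`) have
`s ∈ Van m (x i - x j)` (`van_of_assoc` in q2/PrA.lean: its proof, for general `s`), so each class has fewer than `3 d u²` elements.  A maximal set
`Y` of pairwise non-associated indices has `n⁴ ≤ 3 d u² |Y|`, and `u |Y| ≤ n² N`: `n⁴ ≤ 3 d u n² N`, contradiction for large `n`. -/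
theorem dich_not_all_mult {u : ℕ} {α β : Fin 2 → ℝ} {s : C2 → ℂ} {m : ℕ} (hu : 1 ≤ u) (hs : s ∈ S.Th u α β) (hs0 : s ≠ 0)
    (hD : S.Dich s) (hm : 3 ≤ m) (hv : s ∈ Van m 0) {N : ℤ} {F : C2 → ℂ}
    (hF : F ∈ S.Th N 0 0) (hF0 : F ≠ 0) : ∃ n : ℕ, 1 ≤ n ∧ (fun z => F ((n : ℂ) • z)) ∉ Mult s := by
  classical
  by_contra hcon
  push Not at hcon
  obtain ⟨n, hn1, hnN⟩ : ∃ n : ℕ, 1 ≤ n ∧ 3 * (S.d : ℤ) * u * N < (n : ℤ) ^ 2 := by
    refine ⟨(3 * (S.d : ℤ) * u * N).natAbs + 1, by omega, ?_⟩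
    have h1 : 3 * (S.d : ℤ) * u * N ≤ ((3 * (S.d : ℤ) * u * N).natAbs : ℤ) := Int.le_natAbs
    have h2 : (0 : ℤ) ≤ ((3 * (S.d : ℤ) * u * N).natAbs : ℤ) := Int.natCast_nonneg _
    push_cast
    push_cast at h1 h2
    nlinarith
  have hFn := hcon n hn1
  have hn0 : (n : ℂ) ≠ 0 := Nat.cast_ne_zero.mpr (by omega)
  choose α₁ β₁ σ e he he0 hσ hmem h0 hD' using fun i : NaB_I n => dich_trans hs hs0 hD (NaB_x S i)
  have hFσ : ∀ i, (fun z => F ((n : ℂ) • z)) ∈ Mult (σ i) := fun i =>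
    NaB_mult hF hn1 hFn i (he i) (he0 i) (hσ i)
  have hFT : (fun z => F ((n : ℂ) • z)) ∈ S.Th ((n : ℤ) ^ 2 * N) 0 0 := by
    have := S.th_smul_arg hF (n : ℤ)
    rwa [Int.cast_natCast] at this
  have hFne : (fun z => F ((n : ℂ) • z)) ≠ 0 := by
    intro h
    apply hF0
    funext z
    have h1 := congrFun h ((n : ℂ)⁻¹ • z)
    simp only [smul_smul, mul_inv_cancel₀ hn0, one_smul] at h1
    exact h1
  -- the equivalence relation
  let R : Setoid (NaB_I n) :=
    { r := fun i j => σ j ∈ Mult (σ i)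
      iseqv := by
        refine ⟨fun i => ⟨1, differentiable_const 1, (mul_one _).symm⟩, ?_, ?_⟩
        · intro i j hij
          obtain ⟨c, hc⟩ := S.eq_smul_of_mult (hmem i) (h0 i) (hmem j) hij
          have hc0 : c ≠ 0 := by
            intro h
            rw [h, zero_smul] at hc
            exact h0 j hc
          refine ⟨fun _ => c⁻¹, differentiable_const _, ?_⟩
          funext z
          rw [hc]
          show σ i z = c * σ i z * c⁻¹
          field_simp
        · rintro i j k ⟨g, hg, h1⟩ ⟨g', hg', h2⟩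
          exact ⟨g * g', hg.mul hg', by rw [h2, h1, mul_assoc]⟩ }
  let Q := Quotient R
  let f : NaB_I n → Q := fun i => Quotient.mk R i
  -- the fibers
  have hfib : ∀ x ∈ (Finset.univ : Finset (NaB_I n)).image f,
      (Finset.univ.filter fun i => f i = x).card ≤ 3 * S.d * u ^ 2 := by
    intro x _
    set A := (Finset.univ : Finset (NaB_I n)).filter fun i => f i = x with hA
    have h1 := dich_few hu hs hs0 hD hm
      (fun k : Fin A.card => NaB_x S (Quotient.out x) - NaB_x S (A.equivFin.symm k).1)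
      (by
        intro k l hkl hmem
        have h2 : (A.equivFin.symm l).1 ≠ (A.equivFin.symm k).1 := by
          intro h3
          exact hkl (A.equivFin.symm.injective (Subtype.ext h3)).symm
        apply NaB_incong S hn1 h2
        have h4 : NaB_x S (A.equivFin.symm l).1 - NaB_x S (A.equivFin.symm k).1 =
          (NaB_x S (Quotient.out x) - NaB_x S (A.equivFin.symm k).1) -
          (NaB_x S (Quotient.out x) - NaB_x S (A.equivFin.symm l).1) := by abel
        rw [h4]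
        exact hmem)
      (by
        intro k
        have h5 : (A.equivFin.symm k).1 ∈ A := (A.equivFin.symm k).2
        have h6 : f (A.equivFin.symm k).1 = x := (Finset.mem_filter.mp h5).2
        have h7 : σ (A.equivFin.symm k).1 ∈ Mult (σ (Quotient.out x)) := by
          have h8 : Quotient.mk R (Quotient.out x) = Quotient.mk R (A.equivFin.symm k).1 := by
            rw [Quotient.out_eq]
            exact h6.symm
          exact Quotient.exact h8
        exact NaB_van hv (he _) (he _) (he0 _) (he0 _) (hσ _) (hσ _) (hmem _) (hmem _) (h0 _)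
          (h0 _) h7)
    exact h1.le
  have hcard := Finset.card_le_mul_card_image (f := f) (Finset.univ : Finset (NaB_I n))
    (3 * S.d * u ^ 2) hfib
  set Y := (Finset.univ : Finset (NaB_I n)).image f with hY
  have hI : (Finset.univ : Finset (NaB_I n)).card = n ^ 4 := by
    rw [Finset.card_univ, Fintype.card_prod, Fintype.card_prod, Fintype.card_fin]
    ring
  rw [hI] at hcard
  have hu' : (1 : ℤ) ≤ u := by exact_mod_cast hu
  have hlev := dich_prod_level hu' (r := Y.card)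
    (α := fun k => α₁ (Quotient.out (Y.equivFin.symm k).1))
    (β := fun k => β₁ (Quotient.out (Y.equivFin.symm k).1))
    (σ := fun k => σ (Quotient.out (Y.equivFin.symm k).1))
    (fun k => hmem _) (fun k => h0 _) (fun k => hD' _)
    (by
      intro k l hkl hmem
      apply hkl
      apply Y.equivFin.symm.injective
      apply Subtype.ext
      have h1 : Quotient.mk R (Quotient.out (Y.equivFin.symm k).1) =
          Quotient.mk R (Quotient.out (Y.equivFin.symm l).1) := Quotient.sound hmem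
      rw [Quotient.out_eq, Quotient.out_eq] at h1
      exact h1)
    hFT hFne (fun k => hFσ _)
  have hcard' : (n : ℤ) ^ 4 ≤ 3 * S.d * u ^ 2 * Y.card := by exact_mod_cast hcard
  have hd : (0 : ℤ) < S.d := by exact_mod_cast S.d_pos
  have hn2 : (0 : ℤ) < (n : ℤ) ^ 2 := by
    have : (1 : ℤ) ≤ n := by exact_mod_cast hn1
    positivity
  have h1 : (n : ℤ) ^ 4 ≤ (3 * S.d * u) * ((n : ℤ) ^ 2 * N) := by
    have h2 := mul_le_mul_of_nonneg_left hlev (by positivity : (0 : ℤ) ≤ 3 * S.d * u)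
    nlinarith
  have h3 : (n : ℤ) ^ 2 * (n : ℤ) ^ 2 ≤ (n : ℤ) ^ 2 * (3 * (S.d : ℤ) * u * N) := by
    nlinarith
  have h4 := le_of_mul_le_mul_left h3 hn2
  linarith

end PerData

end Q2T
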