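import Pool.Agent.H.MP_89f84f_ag.q3.SqB
import Pool.Agent.H.MP_89f84f_ag.q3.NaB
import Pool.Agent.H.MP_89f84f_ag.q2.Main

set_option autoImplicit false

open Complex Topology Filter Asymptotics Metric Set Module

namespace Q2T

/-- The values of the pencil at congruent points agree. -/
private theorem MnB_ratio {S : PerData} {n : ℤ} {s t₁ t₂ : C2 → ℂ} (h₁ : t₁ ∈ S.Th n 0 0) (h₂ : t₂ ∈ S.Th n 0 0)
    {c : ℂ} {Q Q' : C2} (h : S.At s t₁ t₂ c Q) (hx : Q - Q' ∈ S.Lat) : t₂ Q' ≠ 0 ∧ c = t₁ Q' / t₂ Q' := by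
  obtain ⟨p, q, hpq⟩ := hx
  have hQ : Q = Q' + S.tv p + S.dv q := by
    rw [add_assoc, ← hpq]
    abel
  have e1 := h₁.2 p q Q'
  have e2 := h₂.2 p q Q'
  rw [← hQ] at e1 e2
  have hJ := S.J_ne_zero n 0 0 p q Q'
  have h2 := h.2.2.1
  have h3 := h.2.2.2
  rw [e2] at h2
  rw [e1, e2] at h3
  have h4 : t₂ Q' ≠ 0 := right_ne_zero_of_mul h2
  refine ⟨h4, ?_⟩
  rw [eq_div_iff h4]
  apply mul_left_cancel₀ hJ
  rw [h3]
  ring

/-- Only finitely many values are attained at points whose `m`-th multiple is in the lattice. -/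
private theorem MnB_torsion {S : PerData} {n : ℤ} {s t₁ t₂ : C2 → ℂ} (h₁ : t₁ ∈ S.Th n 0 0) (h₂ : t₂ ∈ S.Th n 0 0)
    {m : ℤ} (hm : m ≠ 0) : {c : ℂ | ∃ Q, S.At s t₁ t₂ c Q ∧ (m : ℂ) • Q ∈ S.Lat}.Finite := by
  have hm' : (m : ℂ) ≠ 0 := Int.cast_ne_zero.2 hm
  obtain ⟨K, hK, hKr⟩ := S.RestL_fund
  obtain ⟨R, hR⟩ := hK.isBounded.exists_norm_le
  refine ((S.RestL_finite (‖(m : ℂ)‖ * R)).image
    fun x => t₁ ((m : ℂ)⁻¹ • x) / t₂ ((m : ℂ)⁻¹ • x)).subset ?_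
  rintro c ⟨Q, hQ, hmQ⟩
  obtain ⟨x, hx, hxK⟩ := hKr Q
  have h1 : (m : ℂ) • (Q - x) ∈ S.Lat := by
    rw [smul_sub]
    refine S.Lat.sub_mem hmQ ?_
    have := S.Lat.zsmul_mem hx m
    rwa [← Int.cast_smul_eq_zsmul ℂ] at this
  refine ⟨(m : ℂ) • (Q - x), ⟨h1, ?_⟩, ?_⟩
  · rw [norm_smul]
    exact mul_le_mul_of_nonneg_left (hR _ hxK) (norm_nonneg _)
  · have h2 := MnB_ratio h₁ h₂ hQ (Q' := Q - x) (by rw [sub_sub_cancel]; exact hx)
    show t₁ ((m : ℂ)⁻¹ • ((m : ℂ) • (Q - x))) / t₂ ((m : ℂ)⁻¹ • ((m : ℂ) • (Q - x))) = c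
    rw [smul_smul, inv_mul_cancel₀ hm', one_smul]
    exact h2.2.symm

namespace KForm

variable {S : PerData} {k : Subfield ℂ} [NumberField k] (K : KForm S k)

/-- A theta function vanishing at all points with `Half` restricts to zero on all multiples of the curve. -/
theorem mult_of_half {a b x y : ℕ} {s t₁ t₂ : C2 → ℂ} (P : S.Pen a b x y s t₁ t₂) (hs : s ∈ K.R a)
    (h₁ : t₁ ∈ K.R x) (h₂ : t₂ ∈ K.R x)
    (hw : ∃ w : C2 → ℂ, w ∈ S.Th (2 * (2 * x + a)) 0 0 ∧ w ∈ Par 1 ∧ w ∈ Van (2 * y + 2 * b) 0 ∧ w ∉ Mult s)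
    {N : ℤ} {F : C2 → ℂ} (hF : F ∈ S.Th N 0 0) (hz : ∀ z, K.Half z → F z = 0) {n : ℕ}
    (hn : 1 ≤ n) : (fun z => F ((n : ℂ) • z)) ∈ Mult s := by
  have hinf := K.infinite_half P hs h₁ h₂ hw
  have hfin := MnB_torsion (s := s) P.m₁ P.m₂ (m := 2 * (n : ℤ)) (by omega)
  have hinf' := hinf.sdiff hfin
  have hth := S.th_smul_arg hF (n : ℤ)
  rw [Int.cast_natCast] at hth
  refine P.cur.mult_of_many hth fun r => ?_
  obtain ⟨T, hT, hTc⟩ := hinf'.exists_subset_card_eq r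
  let e : Fin r ≃ T := (T.equivFinOfCardEq hTc).symm
  have he : ∀ i : Fin r, ((e i : ℂ) ∈ k ∧ ∃ Q, S.At s t₁ t₂ (e i : ℂ) Q ∧ K.Half Q) ∧
      ¬ ∃ Q, S.At s t₁ t₂ (e i : ℂ) Q ∧ ((2 * (n : ℤ) : ℤ) : ℂ) • Q ∈ S.Lat := fun i => hT (e i).2
  choose he1 he2 using he
  choose he1 Q hQ hQh using he1
  refine ⟨Q, fun i => ⟨(hQ i).2.1, ?_⟩, fun i j hij hx => ?_⟩
  · apply hz
    have h3 := K.half_smul (hQh i) (n : ℤ) (by
      intro hc
      apply he2 i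
      refine ⟨Q i, hQ i, ?_⟩
      have h4 : ((2 * (n : ℤ) : ℤ) : ℂ) • Q i = (2 : ℂ) • (((n : ℤ) : ℂ) • Q i) := by
        rw [smul_smul]
        push_cast
        rfl
      rw [h4]
      exact hc)
    rwa [Int.cast_natCast] at h3
  · have h5 := MnB_ratio P.m₁ P.m₂ (hQ i) hx
    have h6 := MnB_ratio P.m₁ P.m₂ (hQ j) (Q' := Q j) (by rw [sub_self]; exact S.Lat.zero_mem)
    apply hij
    apply e.injective
    apply Subtype.ext
    rw [h5.2, h6.2]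

/-- A theta function vanishing at all points with `Half` restricts to zero on all multiples of the curve. -/
theorem mult_of_half2 {a b x y : ℕ} {s t₁ t₂ : C2 → ℂ} (P : S.Pen2 a b x y s t₁ t₂) (hs : s * s ∈ K.R a)
    (h₁ : t₁ ∈ K.R x) (h₂ : t₂ ∈ K.R x)
    {N : ℤ} {F : C2 → ℂ} (hF : F ∈ S.Th N 0 0) (hz : ∀ z, K.Half z → F z = 0) {n : ℕ}
    (hn : 1 ≤ n) : (fun z => F ((n : ℂ) • z)) ∈ Mult s := by
  have hinf := K.infinite_half2 P hs h₁ h₂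
  have hfin := MnB_torsion (s := s) P.m₁ P.m₂ (m := 2 * (n : ℤ)) (by omega)
  have hinf' := hinf.sdiff hfin
  have hth := S.th_smul_arg hF (n : ℤ)
  rw [Int.cast_natCast] at hth
  refine PerData.dich_mult_of_many (by have := P.cur.ha; omega) P.cur.mem P.cur.ne P.cur.dich hth fun r => ?_
  obtain ⟨T, hT, hTc⟩ := hinf'.exists_subset_card_eq r
  let e : Fin r ≃ T := (T.equivFinOfCardEq hTc).symm
  have he : ∀ i : Fin r, ((e i : ℂ) ∈ k ∧ ∃ Q, S.At s t₁ t₂ (e i : ℂ) Q ∧ K.Half Q) ∧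
      ¬ ∃ Q, S.At s t₁ t₂ (e i : ℂ) Q ∧ ((2 * (n : ℤ) : ℤ) : ℂ) • Q ∈ S.Lat := fun i => hT (e i).2
  choose he1 he2 using he
  choose he1 Q hQ hQh using he1
  refine ⟨Q, fun i => ⟨(hQ i).2.1, ?_⟩, fun i j hij hx => ?_⟩
  · apply hz
    have h3 := K.half_smul (hQh i) (n : ℤ) (by
      intro hc
      apply he2 i
      refine ⟨Q i, hQ i, ?_⟩
      have h4 : ((2 * (n : ℤ) : ℤ) : ℂ) • Q i = (2 : ℂ) • (((n : ℤ) : ℂ) • Q i) := by
        rw [smul_smul]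
        push_cast
        rfl
      rw [h4]
      exact hc)
    rwa [Int.cast_natCast] at h3
  · have h5 := MnB_ratio P.m₁ P.m₂ (hQ i) hx
    have h6 := MnB_ratio P.m₁ P.m₂ (hQ j) (Q' := Q j) (by rw [sub_self]; exact S.Lat.zero_mem)
    apply hij
    apply e.injective
    apply Subtype.ext
    rw [h5.2, h6.2]

/-- Density from a curve of the first type. -/
theorem dense_of_curve {a b : ℕ} {s₀ : C2 → ℂ} (C₀ : S.Curve a b s₀) {N : ℤ} {F : C2 → ℂ}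
    (hF : F ∈ S.Th N 0 0) (hz : ∀ z, K.Half z → F z = 0) : F = 0 := by
  by_contra hF0
  obtain ⟨s, hs, C⟩ := K.exists_rat_curve C₀
  obtain ⟨x, y, t₁, t₂, P, h₁, h₂, hw⟩ := K.exists_rat_pen C hs
  obtain ⟨n, hn, hn'⟩ := C.not_all_mult hF hF0
  exact hn' (K.mult_of_half P hs h₁ h₂ hw hF hz hn)

/-- Density from a curve of the second type. -/
theorem dense_of_curve2 {a b : ℕ} {s₀ : C2 → ℂ} (C₀ : S.Curve2 a b s₀) {N : ℤ} {F : C2 → ℂ}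
    (hF : F ∈ S.Th N 0 0) (hz : ∀ z, K.Half z → F z = 0) : F = 0 := by
  by_contra hF0
  obtain ⟨s, hs, C⟩ := K.exists_rat_curve2 C₀
  obtain ⟨x, y, t₁, t₂, P, h₁, h₂⟩ := K.exists_rat_pen2 C hs
  obtain ⟨n, hn, hn'⟩ := PerData.dich_not_all_mult (by have := C.ha; omega) C.mem C.ne C.dich C.three_le.2 C.van hF hF0
  exact hn' (K.mult_of_half2 P hs h₁ h₂ hF hz hn)

/-- Quadratic points are dense. -/
theorem dense_quad_all (hE : S.EndZ) (h2 : ¬ IsSquare (2 * S.d)) {N : ℤ} {F : C2 → ℂ}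
    (hF : F ∈ S.Th N 0 0) (hz : ∀ z, finrank k (K.fld z) = 2 → F z = 0) : F = 0 := by
  obtain ⟨a, b, ha, hp, -⟩ := exists_pell S.d_pos h2
  rcases S.exists_curve_any hE ha hp with ⟨a', b', s, C⟩ | ⟨a', b', s, C⟩
  · exact K.dense_of_curve C hF fun z h => hz z (K.finrank_of_half h)
  · exact K.dense_of_curve2 C hF fun z h => hz z (K.finrank_of_half h)

end KForm

end Q2T
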