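import Pool.Agent.H.MP_89f84f_ag.q3.FoA
import Pool.Agent.H.MP_89f84f_ag.q3.MiB
import Pool.Agent.H.MP_89f84f_ag.q3.MnB

set_option autoImplicit false

open Complex Topology Filter Asymptotics Metric Set Module

namespace Q2T

namespace NSForm

variable {S : PerData} {k : Subfield ℂ} (N : NSForm S k)

/-- The identity as a normal form. -/
theorem nf_refl (S : PerData) : S.NF S.H0 S 1 (LinearEquiv.refl ℂ C2) :=
  ⟨le_rfl, fun _ => Iff.rfl, fun z w => by simp, by rw [S.pf_H0]; simp⟩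

private theorem FoB_natsmul {G : Matrix (Fin 2) (Fin 2) ℂ} (hG : G ∈ S.NS) (m : ℕ) : (m : ℂ) • G ∈ S.NS := by
  rw [Nat.cast_smul_eq_nsmul]
  exact S.NS.nsmul_mem hG m

private theorem FoB_par_mul {ε ε' : ℂ} {f g : C2 → ℂ} (hf : f ∈ Par ε) (hg : g ∈ Par ε') :
    f * g ∈ Par (ε * ε') := by
  intro z
  have h1 : f (-z) = ε * f z := hf z
  have h2 : g (-z) = ε' * g z := hg z
  show f (-z) * g (-z) = ε * ε' * (f z * g z)
  rw [h1, h2]
  ring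

private theorem FoB_gz_par {ε : ℂ} {f : C2 → ℂ} (hf : f ∈ Par ε) (S' : PerData) (A : C2 ≃ₗ[ℂ] C2) (u : ℤ) :
    (fun z => S'.gz u (A z) * f (A z)) ∈ Par ε := by
  intro z
  show S'.gz u (A (-z)) * f (A (-z)) = ε * (S'.gz u (A z) * f (A z))
  have h1 : f (-(A z)) = ε * f (A z) := hf (A z)
  rw [map_neg, S'.gz_even, h1]
  ring

private theorem FoB_down_par {ε : ℂ} {f : C2 → ℂ} (hf : f ∈ Par ε) (S' : PerData) (A : C2 ≃ₗ[ℂ] C2) (u : ℤ) :
    (fun w => (S'.gz u w)⁻¹ * f (A.symm w)) ∈ Par ε := by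
  intro w
  show (S'.gz u (-w))⁻¹ * f (A.symm (-w)) = ε * ((S'.gz u w)⁻¹ * f (A.symm w))
  have h1 : f (-(A.symm w)) = ε * f (A.symm w) := hf (A.symm w)
  rw [map_neg, S'.gz_even, h1]
  ring

private theorem FoB_up_down (S' : PerData) (A : C2 ≃ₗ[ℂ] C2) (u : ℤ) (f : C2 → ℂ) (z : C2) :
    S'.gz u (A z) * ((S'.gz u (A z))⁻¹ * f (A.symm (A z))) = f z := by
  rw [mul_inv_cancel_left₀ (S'.gz_ne u _), LinearEquiv.symm_apply_apply]

/-- The induced `k`-structure on the polarised surface `S` itself. -/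
theorem exists_kform0 : ∃ K : KForm S k, ∀ (m : ℕ) (f : C2 → ℂ), f ∈ K.R m ↔
    (fun z => S.gz (2 * m) z * f z) ∈ N.R ((m : ℂ) • S.H0) := by
  obtain ⟨K, hK⟩ := N.exists_kform (nf_refl S)
  refine ⟨K, fun m f => ?_⟩
  have h1 : pull (LinearEquiv.refl ℂ C2) S.H0 = S.H0 := hm_ext fun z w => by
    rw [hm_pull]
    rfl
  have h2 := hK m f
  rw [h1] at h2
  exact h2

/-- Even ratios of all classes. -/
private theorem FoB_even {H : Matrix (Fin 2) (Fin 2) ℂ} {S' : PerData} {n : ℕ} {A : C2 ≃ₗ[ℂ] C2} (h : S.NF H S' n A)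
    {K' : KForm S' k} (hK' : ∀ (m : ℕ) (f : C2 → ℂ), f ∈ K'.R m ↔
      (fun z => S'.gz (2 * m) (A z) * f (A z)) ∈ N.R ((m : ℂ) • pull A S'.H0))
    {z : C2} (hz : K'.Half (A z)) {Γ : Matrix (Fin 2) (Fin 2) ℂ} (hΓ : Γ ∈ S.NS) {f g : C2 → ℂ} (hf : f ∈ N.R Γ)
    (hg : g ∈ N.R Γ) (pf : f ∈ Par 1) (pg : g ∈ Par 1) (hgz : g z ≠ 0) : f z / g z ∈ k := by
  have hP : PD (pull A S'.H0) := pull_pd A S'.H0_pd
  have hPm : pull A S'.H0 ∈ S.NS := h.pull_mem.2 S'.H0_mem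
  obtain ⟨M, hM⟩ := PerData.exists_sub_pd (G := Γ) hP
  have hpd := hM M le_rfl
  have hΔ : (M : ℂ) • pull A S'.H0 - Γ ∈ S.NS := S.NS.sub_mem (FoB_natsmul hPm M) hΓ
  obtain ⟨e, he, pe, hez⟩ := N.exists_even hΔ hpd z
  have key : ∀ u : C2 → ℂ, u ∈ N.R Γ → u ∈ Par 1 →
      ∃ u' ∈ K'.R M, u' ∈ Par 1 ∧ S'.gz (2 * M) (A z) * u' (A z) = u z * e z := by
    intro u hu pu
    have h1 := N.mul Γ hΓ _ hΔ u hu e he
    rw [add_sub_cancel] at h1
    have h2 : u * e ∈ Par 1 := by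
      have := FoB_par_mul pu pe
      rwa [one_mul] at this
    refine ⟨fun w => (S'.gz (2 * M) w)⁻¹ * (u * e) (A.symm w), (hK' M _).2 ?_, FoB_down_par h2 S' A _, ?_⟩
    · have e1 : (fun z => S'.gz (2 * M) (A z) * (fun w => (S'.gz (2 * M) w)⁻¹ * (u * e) (A.symm w)) (A z)) = u * e :=
        funext fun z => FoB_up_down S' A _ (u * e) z
      rw [e1]
      exact h1
    · exact FoB_up_down S' A _ (u * e) z
  obtain ⟨f', hf', pf', ef⟩ := key f hf pf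
  obtain ⟨g', hg', pg', eg⟩ := key g hg pg
  have hg0 : g' (A z) ≠ 0 := fun h0 => by
    rw [h0, mul_zero] at eg
    exact mul_ne_zero hgz hez eg.symm
  have h3 := hz.1 M f' g' hf' hg' pf' pg' hg0
  have h4 : f z / g z = f' (A z) / g' (A z) := by
    rw [← mul_div_mul_right (f z) (g z) hez, ← ef, ← eg, mul_div_mul_left _ _ (S'.gz_ne _ _)]
  rw [h4]
  exact h3

/-- Transfer of `Half` between the `k`-structures of two polarisations.
PROOF: let `w = A z`.  `2 w` is not in `S'.Lat`: an odd function in `K'.R m` does not vanish at `w` (`Half`, second part; `half_odd`, q2/PenA.lean); so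
`2 z ∉ S.Lat`.
(1) Even ratios for all classes: let `Γ ∈ NS`, `f, g ∈ N.R Γ` even, `g z ≠ 0`.  Let `P = pull A S'.H0` (`PD`: `pull_pd`, `H0_pd`), `M` with `M P - Γ` positive
definite (`exists_sub_pd`), `h ∈ N.R (M P - Γ)` even with `h z ≠ 0` (`exists_even`).  `f h, g h ∈ N.R (M P)` (`mul`) come from even functions `f', g' ∈ K'.R M`
(`f' w = (gz (2 M) w)⁻¹ (f h) (A.symm w)`), so `f z / g z = f' w / g' w ∈ k`.
In particular (`Γ = m H0`) the first part of `K.Half z`.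
(2) By `K.exists_odd` at `z` there are `o, e ∈ K.R m` odd and even with `o z ≠ 0 ≠ e z`, `ω = o z / e z`; by `Half` of `w` there is an odd ratio
`ω' = f' w / g' w ∉ k`, `f', g' ∈ K'.R m'`.  The product `ω ω'` is a ratio of even functions of class `m H0 + m' P`, so in `k` by (1).  As `ω ≠ 0`,
`ω ∈ k` would give `ω' ∈ k`.  So `ω ∉ k`. -/
theorem half_transfer {K : KForm S k} (hK : ∀ (m : ℕ) (f : C2 → ℂ), f ∈ K.R m ↔
      (fun z => S.gz (2 * m) z * f z) ∈ N.R ((m : ℂ) • S.H0))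
    {H : Matrix (Fin 2) (Fin 2) ℂ} {S' : PerData} {n : ℕ} {A : C2 ≃ₗ[ℂ] C2} (h : S.NF H S' n A)
    {K' : KForm S' k} (hK' : ∀ (m : ℕ) (f : C2 → ℂ), f ∈ K'.R m ↔
      (fun z => S'.gz (2 * m) (A z) * f (A z)) ∈ N.R ((m : ℂ) • pull A S'.H0))
    {z : C2} (hz : K'.Half (A z)) : K.Half z := by
  have hPm : pull A S'.H0 ∈ S.NS := h.pull_mem.2 S'.H0_mem
  have up : ∀ (m : ℕ) (ε : ℂ) (f : C2 → ℂ), f ∈ Par ε → (fun z => S.gz (2 * m) z * f z) ∈ Par ε :=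
    fun m ε f hf => FoB_gz_par hf S (LinearEquiv.refl ℂ C2) _
  refine ⟨fun m f g hf hg pf pg hgz => ?_, ?_⟩
  · have h1 := N.FoB_even h hK' hz (FoB_natsmul S.H0_mem m) ((hK m f).1 hf) ((hK m g).1 hg) (up m 1 f pf)
      (up m 1 g pg) (mul_ne_zero (S.gz_ne _ _) hgz)
    rw [mul_div_mul_left _ _ (S.gz_ne _ _)] at h1
    exact h1
  · obtain ⟨m', f', g', hf', hg', pf', pg', hg0, hω'⟩ := hz.2
    have h2z : (2 : ℂ) • z ∉ S.Lat := by
      intro h2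
      have h3 := (h.lat _).1 h2
      rw [map_smul] at h3
      have h4 : f' (A z) = 0 := S'.half_odd (K'.mem hf') pf' h3
      exact hω' (by rw [h4, zero_div]; exact k.zero_mem)
    obtain ⟨m, o, e, -, ho, he, po, pe, hoz, hez⟩ := K.exists_odd h2z
    refine ⟨m, o, e, ho, he, po, pe, hez, fun hω => hω' ?_⟩
    have h1 := N.mul _ (FoB_natsmul S.H0_mem m) _ (FoB_natsmul hPm m') _ ((hK m o).1 ho) _ ((hK' m' f').1 hf')
    have h2 := N.mul _ (FoB_natsmul S.H0_mem m) _ (FoB_natsmul hPm m') _ ((hK m e).1 he) _ ((hK' m' g').1 hg')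
    have p1 := FoB_par_mul (up m (-1) o po) (FoB_gz_par pf' S' A (2 * m'))
    have p2 := FoB_par_mul (up m 1 e pe) (FoB_gz_par pg' S' A (2 * m'))
    rw [neg_one_mul, neg_neg] at p1
    rw [one_mul] at p2
    have h3 := N.FoB_even h hK' hz (S.NS.add_mem (FoB_natsmul S.H0_mem m) (FoB_natsmul hPm m')) h1 h2 p1 p2
      (mul_ne_zero (mul_ne_zero (S.gz_ne _ _) hez) (mul_ne_zero (S'.gz_ne _ _) hg0))
    have h4 : (S.gz (2 * m) z * o z * (S'.gz (2 * m') (A z) * f' (A z))) /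
        (S.gz (2 * m) z * e z * (S'.gz (2 * m') (A z) * g' (A z))) = (o z / e z) * (f' (A z) / g' (A z)) := by
      rw [mul_div_mul_comm, mul_div_mul_left _ _ (S.gz_ne _ _), mul_div_mul_left _ _ (S'.gz_ne _ _)]
    have h5 : (o z / e z) * (f' (A z) / g' (A z)) ∈ k := by
      rw [← h4]
      exact h3
    have h6 : f' (A z) / g' (A z) = ((o z / e z) * (f' (A z) / g' (A z))) / (o z / e z) := by
      rw [mul_div_cancel_left₀ _ (div_ne_zero hoz hez)]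
    rw [h6]
    exact k.div_mem h5 hω

private theorem FoB_form_mem {Δ : Matrix (Fin 2) (Fin 2) ℂ} (hΔ : Δ ∈ S.NS) {f : C2 → ℂ} (hf : f ∈ N.R Δ) :
    f ∈ S.TH ((2 : ℂ) • Δ) fun _ => 1 := by
  obtain ⟨n, b, hb⟩ := N.form Δ hΔ
  have h1 : N.R Δ ≤ (S.TH ((2 : ℂ) • Δ) fun _ => 1).restrictScalars k := by
    rw [hb]
    refine Submodule.span_le.2 ?_
    rintro _ ⟨i, rfl⟩
    exact (b i).2
  exact h1 hf

variable [NumberField k]

/-- Density for the polarisation `H0` from a curve for another polarisation.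
PROOF: suppose `F ≠ 0`.  Its level `M` is `≥ 0` (`th_level_neg`).  Let `m = M.toNat`; `F² ∈ Th (2 m) 0 0`, `F₁ z = gz (2 m) z F(z)² ∈ TH (2 (m H0)) 1` (`mem_TH_one`).
Let `P = pull A S'.H0`, `L` with `L P - m H0` positive definite (`exists_sub_pd`), `F₂ ∈ N.R (L P - m H0) ⊆ TH (2 (L P - m H0)) 1` nonzero (`exists_even`, `form`).
`F₁ F₂ ∈ TH (2 (L P)) 1` (`TH_mul`), nonzero, so it is `gz (2 L) (A z) F' (A z)` with `0 ≠ F' ∈ S'.Th (2 L) 0 0` (`NF.mem`, `mem_TH_one`).  `K'` from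
`exists_kform`; by `dense_of_curve` / `dense_of_curve2` (q3/MnB.lean) there is `w` with `K'.Half w`, `F' w ≠ 0`; `z = A.symm w`: `K.Half z`
(`half_transfer`) and `F z ≠ 0`. -/
theorem dense_half {K : KForm S k} (hK : ∀ (m : ℕ) (f : C2 → ℂ), f ∈ K.R m ↔
      (fun z => S.gz (2 * m) z * f z) ∈ N.R ((m : ℂ) • S.H0))
    {H : Matrix (Fin 2) (Fin 2) ℂ} {S' : PerData} {n : ℕ} {A : C2 ≃ₗ[ℂ] C2} (h : S.NF H S' n A)
    (hC : (∃ (a b : ℕ) (s : C2 → ℂ), S'.Curve a b s) ∨ ∃ (a b : ℕ) (s : C2 → ℂ), S'.Curve2 a b s)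
    {M : ℤ} {F : C2 → ℂ} (hF : F ∈ S.Th M 0 0) (hz : ∀ z, K.Half z → F z = 0) : F = 0 := by
  by_contra hF0
  have hM : 0 ≤ M := by
    by_contra hM
    exact hF0 (S.th_level_neg (not_le.1 hM) hF)
  obtain ⟨m, rfl⟩ := Int.eq_ofNat_of_zero_le hM
  have hP : PD (pull A S'.H0) := pull_pd A S'.H0_pd
  have hPm : pull A S'.H0 ∈ S.NS := h.pull_mem.2 S'.H0_mem
  have hFF : F * F ∈ S.Th (2 * (m : ℤ)) 0 0 := by
    have h1 := S.th_mul hF hF
    rw [add_zero, ← two_mul] at h1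
    exact h1
  have hF₁ := (S.mem_TH_one (m : ℤ) (F * F)).1 hFF
  obtain ⟨L, hL⟩ := PerData.exists_sub_pd (G := (m : ℂ) • S.H0) hP
  have hpd := hL L le_rfl
  have hΔ : (L : ℂ) • pull A S'.H0 - (m : ℂ) • S.H0 ∈ S.NS :=
    S.NS.sub_mem (FoB_natsmul hPm L) (FoB_natsmul S.H0_mem m)
  obtain ⟨F₂, hF₂, -, h0⟩ := N.exists_even hΔ hpd 0
  have hF₂' := N.FoB_form_mem hΔ hF₂
  have h1 := S.TH_mul hF₁ hF₂'
  have e1 : (((2 * (m : ℤ) : ℤ) : ℂ) • S.H0 + (2 : ℂ) • ((L : ℂ) • pull A S'.H0 - (m : ℂ) • S.H0)) =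
      pull A (((2 * (L : ℤ) : ℤ) : ℂ) • S'.H0) := by
    rw [pull_smul, smul_sub, smul_smul, smul_smul]
    push_cast
    abel
  rw [e1] at h1
  simp only [one_mul] at h1
  set F₁ : C2 → ℂ := fun z => S.gz (2 * (m : ℤ)) z * (F * F) z with hF₁d
  have hne : F₁ * F₂ ≠ 0 := by
    refine mul_ne_zero_ent hF₁.1 hF₂'.1 (fun h2 => ?_) (fun h2 => h0 (by rw [h2]; rfl))
    refine mul_ne_zero_ent hF.1 hF.1 hF0 hF0 (funext fun z => ?_)
    have h3 : S.gz (2 * (m : ℤ)) z * (F * F) z = 0 := congrFun h2 z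
    exact (mul_eq_zero.1 h3).resolve_left (S.gz_ne _ _)
  have e2 : (fun z => (fun w => S'.gz (2 * (L : ℤ)) w * ((S'.gz (2 * (L : ℤ)) w)⁻¹ * (F₁ * F₂) (A.symm w))) (A z)) =
      F₁ * F₂ := funext fun z => FoB_up_down S' A _ (F₁ * F₂) z
  have h2 : (fun w => S'.gz (2 * (L : ℤ)) w * ((S'.gz (2 * (L : ℤ)) w)⁻¹ * (F₁ * F₂) (A.symm w))) ∈
      S'.TH (((2 * (L : ℤ) : ℤ) : ℂ) • S'.H0) (fun _ => 1) := by
    refine (h.mem (χ := fun _ => 1)).1 ?_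
    rw [e2]
    exact h1
  have hF' : (fun w => (S'.gz (2 * (L : ℤ)) w)⁻¹ * (F₁ * F₂) (A.symm w)) ∈ S'.Th (2 * (L : ℤ)) 0 0 :=
    (S'.mem_TH_one (L : ℤ) _).2 h2
  obtain ⟨K', hK'⟩ := N.exists_kform h
  have hv : ∀ w, K'.Half w → (fun w => (S'.gz (2 * (L : ℤ)) w)⁻¹ * (F₁ * F₂) (A.symm w)) w = 0 := by
    intro w hw
    have h3 : K'.Half (A (A.symm w)) := by rwa [LinearEquiv.apply_symm_apply]
    have h4 : F (A.symm w) = 0 := hz _ (N.half_transfer hK h hK' h3)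
    show (S'.gz (2 * (L : ℤ)) w)⁻¹ * (S.gz (2 * (m : ℤ)) (A.symm w) * (F (A.symm w) * F (A.symm w)) *
      F₂ (A.symm w)) = 0
    rw [h4]
    ring
  have hF'0 : (fun w => (S'.gz (2 * (L : ℤ)) w)⁻¹ * (F₁ * F₂) (A.symm w)) = 0 := by
    rcases hC with ⟨a, b, s, hs⟩ | ⟨a, b, s, hs⟩
    · exact K'.dense_of_curve hs hF' hv
    · exact K'.dense_of_curve2 hs hF' hv
  apply hne
  rw [← e2]
  funext z
  have h5 := congrFun hF'0 (A z)
  show S'.gz (2 * (L : ℤ)) (A z) * ((S'.gz (2 * (L : ℤ)) (A z))⁻¹ * (F₁ * F₂) (A.symm (A z))) = 0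
  have h6 : (S'.gz (2 * (L : ℤ)) (A z))⁻¹ * (F₁ * F₂) (A.symm (A z)) = 0 := h5
  rw [h6, mul_zero]

/-- Quadratic points are dense on simple abelian surfaces with all classes defined over `k`, if `2 d` is not a square or the rank is at
least two. -/
theorem dense_quad_NS (hA : S.Aniso) (h2 : ¬ IsSquare (2 * S.d) ∨ ∃ H ∈ S.NS, ∀ r : ℝ, H ≠ (r : ℂ) • S.H0)
    {K : KForm S k} (hK : ∀ (m : ℕ) (f : C2 → ℂ), f ∈ K.R m ↔
      (fun z => S.gz (2 * m) z * f z) ∈ N.R ((m : ℂ) • S.H0))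
    {M : ℤ} {F : C2 → ℂ} (hF : F ∈ S.Th M 0 0) (hz : ∀ z, finrank k (K.fld z) = 2 → F z = 0) : F = 0 := by
  obtain ⟨Γ, hΓ, hp, hsq⟩ := S.exists_nonsquare h2
  obtain ⟨H, S', n, A, -, -, hNF, hC⟩ := S.exists_curve_NS hA hΓ hp hsq
  exact N.dense_half hK hNF hC hF fun z h => hz z (K.finrank_of_half h)

end NSForm

end Q2T
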