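import Pool.Agent.H.MP_89f84f_ag.q3.LvQ
import Pool.Agent.H.MP_89f84f_ag.q2.Auto
import Pool.Agent.H.MP_89f84f_ag.q2.FouB

set_option autoImplicit false

open Complex Topology Filter Asymptotics Metric Set
open scoped ContDiff

namespace Q2T

private theorem GcQ_freq {θ : C2 → ℂ} (hθ : Differentiable ℂ θ) (h0 : θ ≠ 0) (p : C2) :
    ∃ᶠ z in 𝓝 p, θ z ≠ 0 :=
  (ne_zero_frequently hθ h0 p).filter_mono nhdsWithin_le_nhds

private theorem GcQ_cancel {θ f g : C2 → ℂ} (hθ : Differentiable ℂ θ) (h0 : θ ≠ 0) {U : Set C2}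
    (hU : IsOpen U) (hf : ContinuousOn f U) (hg : ContinuousOn g U)
    (h : ∀ w ∈ U, θ w * f w = θ w * g w) {z : C2} (hz : z ∈ U) : f z = g z := by
  by_contra hne
  have h1 : ∀ᶠ w in 𝓝 z, f w - g w ≠ 0 :=
    ((hf.continuousAt (hU.mem_nhds hz)).sub (hg.continuousAt (hU.mem_nhds hz))).eventually_ne
      (sub_ne_zero.2 hne)
  have h2 : ∀ᶠ w in 𝓝 z, w ∈ U := hU.mem_nhds hz
  obtain ⟨w, h3, h4, h5⟩ := ((GcQ_freq hθ h0 z).and_eventually (h1.and h2)).exists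
  exact h4 (sub_eq_zero.2 (mul_left_cancel₀ h3 (h w h5)))

private theorem GcQ_glue {θ s : C2 → ℂ} (hθ : Differentiable ℂ θ) (h0 : θ ≠ 0)
    (h : ∀ p, ∃ r > 0, ∃ f : C2 → ℂ, DifferentiableOn ℂ f (ball p r) ∧
      ∀ z ∈ ball p r, s z = θ z * f z) :
    ∃ f : C2 → ℂ, Differentiable ℂ f ∧ ∀ z, s z = θ z * f z := by
  choose r hr f hf hs using h
  refine ⟨fun p => f p p, ?_, fun z => hs z z (mem_ball_self (hr z))⟩
  intro p
  have h1 : ∀ z ∈ ball p (r p), f z z = f p z := by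
    intro z hz
    exact GcQ_cancel hθ h0 (isOpen_ball.inter isOpen_ball) ((hf z).continuousOn.mono
      (inter_subset_right (s := ball p (r p)))) ((hf p).continuousOn.mono inter_subset_left)
      (fun w hw => by rw [← hs z w hw.2, ← hs p w hw.1]) ⟨hz, mem_ball_self (hr z)⟩
  have h2 : DifferentiableAt ℂ (f p) p := (hf p).differentiableAt (ball_mem_nhds p (hr p))
  exact h2.congr_of_eventuallyEq (Filter.eventuallyEq_of_mem (ball_mem_nhds p (hr p)) h1)

/-! Wirtinger derivatives of the Hermitian form -/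

private theorem GcQ_hm_fderiv (H : Matrix (Fin 2) (Fin 2) ℂ) (z e : C2) :
    DifferentiableAt ℝ (fun w : C2 => hm H w w) z ∧
      fderiv ℝ (fun w : C2 => hm H w w) z e = hm H e z + hm H z e := by
  have hpr : ∀ a : Fin 2, HasFDerivAt (fun w : C2 => w a)
      (ContinuousLinearMap.proj a : C2 →L[ℝ] ℂ) z := fun a =>
    (ContinuousLinearMap.proj a : C2 →L[ℝ] ℂ).hasFDerivAt
  have hcj : ∀ a : Fin 2, HasFDerivAt (fun w : C2 => (starRingEnd ℂ) (w a))
      ((conjCLE : ℂ →L[ℝ] ℂ).comp (ContinuousLinearMap.proj a : C2 →L[ℝ] ℂ)) z := fun a =>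
    ((conjCLE : ℂ →L[ℝ] ℂ).comp (ContinuousLinearMap.proj a : C2 →L[ℝ] ℂ)).hasFDerivAt
  have h : HasFDerivAt (fun w : C2 => hm H w w)
      (∑ a, ∑ b, H a b • (z a • ((conjCLE : ℂ →L[ℝ] ℂ).comp
        (ContinuousLinearMap.proj b : C2 →L[ℝ] ℂ)) + (starRingEnd ℂ) (z b) •
          (ContinuousLinearMap.proj a : C2 →L[ℝ] ℂ))) z := by
    unfold hm
    apply HasFDerivAt.fun_sum
    intro a _
    apply HasFDerivAt.fun_sum
    intro b _
    exact ((hpr a).mul (hcj b)).const_mul (H a b)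
  refine ⟨h.differentiableAt, ?_⟩
  rw [h.fderiv]
  unfold hm
  simp only [Fin.sum_univ_two, add_apply, smul_apply,
    ContinuousLinearMap.comp_apply, ContinuousLinearMap.proj_apply, smul_eq_mul]
  simp only [ContinuousLinearEquiv.coe_coe, conjCLE_apply]
  ring

private theorem GcQ_dzb_hm (H : Matrix (Fin 2) (Fin 2) ℂ) (b : Fin 2) (z : C2) :
    Dzb b (fun w => hm H w w) z = ∑ c, H c b * z c := by
  unfold Dzb
  rw [(GcQ_hm_fderiv H z _).2, (GcQ_hm_fderiv H z _).2]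
  unfold hm
  simp only [Fin.sum_univ_two]
  have hI := I_mul_I
  fin_cases b
  · simp
    linear_combination ((H 0 0 * (starRingEnd ℂ) (z 0) + H 0 1 * (starRingEnd ℂ) (z 1) -
      H 0 0 * z 0 - H 1 0 * z 1) / 2) * hI
  · simp
    linear_combination ((H 1 0 * (starRingEnd ℂ) (z 0) + H 1 1 * (starRingEnd ℂ) (z 1) -
      H 0 1 * z 0 - H 1 1 * z 1) / 2) * hI

private theorem GcQ_conj {H : Matrix (Fin 2) (Fin 2) ℂ} (hH : H.IsHermitian) (z w : C2) :
    (starRingEnd ℂ) (hm H z w) = hm H w z := by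
  have h : ∀ i j, (starRingEnd ℂ) (H i j) = H j i := fun i j => hH.apply j i
  unfold hm
  simp only [Fin.sum_univ_two, map_add, map_mul, h, conj_conj]
  ring

private theorem GcQ_real {H : Matrix (Fin 2) (Fin 2) ℂ} (hH : H.IsHermitian) (z : C2) :
    (((hm H z z).re : ℝ) : ℂ) = hm H z z :=
  conj_eq_iff_re.1 (GcQ_conj hH z z)

private theorem GcQ_hm_smooth (H : Matrix (Fin 2) (Fin 2) ℂ) :
    ContDiff ℝ 2 (fun w : C2 => hm H w w) := by
  have hpr : ∀ a : Fin 2, ContDiff ℝ 2 (fun w : C2 => w a) := fun a =>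
    (ContinuousLinearMap.proj a : C2 →L[ℝ] ℂ).contDiff
  have hcj : ∀ a : Fin 2, ContDiff ℝ 2 (fun w : C2 => (starRingEnd ℂ) (w a)) := fun a =>
    ((conjCLE : ℂ →L[ℝ] ℂ).comp (ContinuousLinearMap.proj a : C2 →L[ℝ] ℂ)).contDiff
  unfold hm
  apply ContDiff.sum
  intro a _
  apply ContDiff.sum
  intro b _
  exact contDiff_const.mul ((hpr a).mul (hcj b))

private theorem GcQ_dz_lin (H : Matrix (Fin 2) (Fin 2) ℂ) (a b : Fin 2) (z : C2) :
    Dz a (fun w => ∑ c, H c b * w c) z = H a b := by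
  have hpr : ∀ a : Fin 2, HasFDerivAt (fun w : C2 => w a)
      (ContinuousLinearMap.proj a : C2 →L[ℝ] ℂ) z := fun a =>
    (ContinuousLinearMap.proj a : C2 →L[ℝ] ℂ).hasFDerivAt
  have h : HasFDerivAt (fun w : C2 => ∑ c, H c b * w c)
      (∑ c, H c b • (ContinuousLinearMap.proj c : C2 →L[ℝ] ℂ)) z := by
    apply HasFDerivAt.fun_sum
    intro c _
    exact (hpr c).const_mul (H c b)
  unfold Dz
  rw [h.fderiv]
  simp only [Fin.sum_univ_two, add_apply, smul_apply, ContinuousLinearMap.proj_apply, smul_eq_mul]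
  have hI := I_mul_I
  fin_cases a
  · simp
    linear_combination (-(H 0 b) / 2) * hI
  · simp
    linear_combination (-(H 1 b) / 2) * hI

private theorem GcQ_dz_hm (H : Matrix (Fin 2) (Fin 2) ℂ) (a b : Fin 2) (z : C2) :
    Dz a (Dzb b (fun w => hm H w w)) z = H a b := by
  have h : Dzb b (fun w => hm H w w) = fun z => ∑ c, H c b * z c := by
    funext z
    exact GcQ_dzb_hm H b z
  rw [h, GcQ_dz_lin]

private theorem GcQ_C2 {U : Set C2} (hU : IsOpen U) {F : C2 → ℂ} (hF : ContDiffOn ℝ 2 F U)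
    (b : Fin 2) {z : C2} (hz : z ∈ U) : DifferentiableAt ℝ F z ∧ DifferentiableAt ℝ (Dzb b F) z := by
  have h1 : ContDiffAt ℝ 2 F z := hF.contDiffAt (hU.mem_nhds hz)
  have h2 : ContDiffAt ℝ 1 (fderiv ℝ F) z := h1.fderiv_right (by norm_num)
  have h3 : DifferentiableAt ℝ (fderiv ℝ F) z := h2.differentiableAt (by norm_num)
  refine ⟨h1.differentiableAt (by norm_num), ?_⟩
  have h4 : ∀ e : C2, DifferentiableAt ℝ (fun w => fderiv ℝ F w e) z := fun e =>
    h3.clm_apply (differentiableAt_const e)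
  have h5 : DifferentiableAt ℝ (fun w => fderiv ℝ F w (Pi.single b 1) +
      I * fderiv ℝ F w (Pi.single b I)) z :=
    (h4 (Pi.single b 1)).add ((h4 (Pi.single b I)).const_mul I)
  have h6 : Dzb b F = fun w => (fderiv ℝ F w (Pi.single b 1) +
      I * fderiv ℝ F w (Pi.single b I)) * (2 : ℂ)⁻¹ := by
    funext w
    rw [Dzb, div_eq_mul_inv]
  rw [h6]
  exact h5.mul_const ((2 : ℂ)⁻¹)

private theorem GcQ_sub {U : Set C2} (hU : IsOpen U) {F G : C2 → ℂ} (hF : ContDiffOn ℝ 2 F U)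
    (hG : ContDiffOn ℝ 2 G U) (a b : Fin 2) {z : C2} (hz : z ∈ U) :
    Dz a (Dzb b (fun w => F w - G w)) z = Dz a (Dzb b F) z - Dz a (Dzb b G) z := by
  have h1 : ∀ w ∈ U, Dzb b (fun w => F w - G w) w = Dzb b F w - Dzb b G w := by
    intro w hw
    unfold Dzb
    rw [fderiv_fun_sub (GcQ_C2 hU hF b hw).1 (GcQ_C2 hU hG b hw).1]
    simp only [sub_apply]
    ring
  have h2 : Dzb b (fun w => F w - G w) =ᶠ[𝓝 z] fun w => Dzb b F w - Dzb b G w :=
    Filter.eventuallyEq_of_mem (hU.mem_nhds hz) h1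
  unfold Dz
  rw [h2.fderiv_eq, fderiv_fun_sub (GcQ_C2 hU hF b hz).2 (GcQ_C2 hU hG b hz).2]
  simp only [sub_apply]
  ring

private theorem GcQ_hm_add {H : Matrix (Fin 2) (Fin 2) ℂ} (hH : H.IsHermitian) (z x : C2) :
    (hm H (z + x) (z + x)).re = (hm H z z).re + 2 * (hm H z x).re + (hm H x x).re := by
  have h1 : hm H (z + x) (z + x) = hm H z z + hm H z x + hm H x z + hm H x x := by
    unfold hm
    simp only [Fin.sum_univ_two, Pi.add_apply, map_add]
    ring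
  have h2 : (hm H x z).re = (hm H z x).re := by
    rw [← GcQ_conj hH z x, conj_re]
  rw [h1, add_re, add_re, add_re, h2]
  ring

private theorem GcQ_hm_neg (H : Matrix (Fin 2) (Fin 2) ℂ) (z x : C2) :
    hm (-H) z x = -hm H z x := by
  unfold hm
  simp only [Fin.sum_univ_two, Matrix.neg_apply]
  ring

private theorem GcQ_half {U : Set C2} {q : C2 → ℂ} (hq : DifferentiableOn ℂ q U) :
    DifferentiableOn ℂ (fun z => q z / 2) U := by
  simp only [div_eq_mul_inv]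
  exact hq.mul_const ((2 : ℂ)⁻¹)

namespace PerData

variable (S : PerData)

/-- The entire function attached to the common divisor.
PROOF: `G` from `exists_metric`, `Θ` from `exists_levi`, `H, v` from `ddbar`.  On a ball with local data `(g, σ)` the function
`ψ = σ - v - Re hm H z z` is `C²` and pluriharmonic (`Dz a (Dzb b (hm H z z)) = H a b`), so `ψ = Re q` (`exists_re_of_plh`) and
`G exp (- v - hm H z z) = |g exp (q / 2)|²`.  By `exists_global` this is `|θ|²` with `θ` entire.  On the ball `θ` is `g exp (q / 2)`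
times a constant of absolute value one (`eq_smul_of_norm_eq`), so `θ` itself is a local gcd.  The formula for
`‖θ (z + x)‖` with `K = - H` follows from the periodicity of `G` and `v`. -/
theorem exists_theta_divQ {s t : C2 → ℂ} (hs : S.QP s) (ht : S.QP t) (hs0 : s ≠ 0) (ht0 : t ≠ 0) :
    ∃ (θ : C2 → ℂ) (K : Matrix (Fin 2) (Fin 2) ℂ), Differentiable ℂ θ ∧ θ ≠ 0 ∧ K.IsHermitian ∧
      (∀ p, ∃ r > 0, IsLG s t θ (ball p r)) ∧
      ∀ x ∈ S.Lat, ∀ z, ‖θ (z + x)‖ ^ 2 = ‖θ z‖ ^ 2 * Real.exp (2 * (hm K z x).re + (hm K x x).re) := by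
  obtain ⟨G, hGp, hGl⟩ := S.exists_metricQ hs ht hs0 ht0
  obtain ⟨Θ, h1, h2, h3, h4, h5, h6⟩ := S.exists_leviQ hs ht hs0 ht0 hGp hGl
  obtain ⟨H, V, hH, hV, hVp, hVΘ⟩ := S.ddbar h1 h2 h3 h4 h5
  have key : ∀ p, ∃ (r : ℝ) (g q : C2 → ℂ), 0 < r ∧ IsLG s t g (ball p r) ∧
      DifferentiableOn ℂ q (ball p r) ∧
      ∀ z ∈ ball p r, G z * Real.exp (-V z - (hm H z z).re) = ‖g z * cexp (q z / 2)‖ ^ 2 := by
    intro p
    obtain ⟨r, g, σ, hloc⟩ := hGl p
    have hloc' := hloc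
    obtain ⟨hr, hg, hσ, hG⟩ := hloc
    have hσ2 : ContDiffOn ℝ 2 σ (ball p r) := hσ.of_le (WithTop.coe_le_coe.2 (le_top : (2 : ℕ∞) ≤ ⊤))
    have hσ' : ContDiffOn ℝ 2 (fun w => ((σ w : ℝ) : ℂ)) (ball p r) :=
      ofRealCLM.contDiff.comp_contDiffOn hσ2
    have hV' : ContDiffOn ℝ 2 (fun w => ((V w : ℝ) : ℂ)) (ball p r) :=
      (ofRealCLM.contDiff.comp hV).contDiffOn
    have hh : ContDiffOn ℝ 2 (fun w : C2 => hm H w w) (ball p r) := (GcQ_hm_smooth H).contDiffOn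
    have hψ : ContDiffOn ℝ 2 (fun w : C2 => σ w - V w - (hm H w w).re) (ball p r) :=
      (hσ2.sub hV.contDiffOn).sub (reCLM.contDiff.comp (GcQ_hm_smooth H)).contDiffOn
    have hplh : ∀ a b, ∀ z ∈ ball p r,
        Dz a (Dzb b (fun w : C2 => ((σ w - V w - (hm H w w).re : ℝ) : ℂ))) z = 0 := by
      intro a b z hz
      have e1 : (fun w : C2 => ((σ w - V w - (hm H w w).re : ℝ) : ℂ)) =
          fun w => (((σ w : ℝ) : ℂ) - ((V w : ℝ) : ℂ)) - hm H w w := by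
        funext w
        rw [ofReal_sub, ofReal_sub, GcQ_real hH]
      rw [e1, GcQ_sub isOpen_ball (hσ'.sub hV') hh a b hz, GcQ_sub isOpen_ball hσ' hV' a b hz,
        GcQ_dz_hm, ← h6 p r g σ hloc' a b z hz, hVΘ]
      ring
    obtain ⟨q, hq, hψq⟩ := exists_re_of_plh hψ hplh
    refine ⟨r, g, q, hr, hg, hq, fun z hz => ?_⟩
    have e2 : (q z / 2).re = (q z).re / 2 := by
      rw [show (2 : ℂ) = ((2 : ℝ) : ℂ) by norm_num, div_ofReal_re]
    rw [hG z hz, norm_mul, norm_exp, mul_pow, ← Real.exp_nat_mul, e2, ← hψq z hz, mul_assoc,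
      ← Real.exp_add]
    congr 2
    push_cast
    ring
  have hfreq : ∀ p, ∃ᶠ z in 𝓝 p, G z * Real.exp (-V z - (hm H z z).re) ≠ 0 := by
    intro p
    obtain ⟨r, g, q, hr, hg, hq, he⟩ := key p
    have hb : ∀ᶠ z in 𝓝 p, z ∈ ball p r := ball_mem_nhds p hr
    refine ((GcQ_freq hs.1 hs0 p).and_eventually hb).mono ?_
    rintro z ⟨hz1, hz2⟩
    rw [he z hz2]
    obtain ⟨_, s', t', _, _, e1, _, _⟩ := hg
    have hgz : g z ≠ 0 := by
      intro h0
      apply hz1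
      rw [e1 z hz2, h0, zero_mul]
    exact pow_ne_zero 2 (norm_ne_zero_iff.2 (mul_ne_zero hgz (exp_ne_zero _)))
  obtain ⟨θ, hθ, hθG⟩ := exists_global (G := fun z => G z * Real.exp (-V z - (hm H z z).re))
    (fun p => by
      obtain ⟨r, g, q, hr, hg, hq, he⟩ := key p
      exact ⟨r, hr, fun z => g z * cexp (q z / 2), hg.1.mul ((GcQ_half hq).cexp), he⟩) hfreq
  have hθ0 : θ ≠ 0 := by
    intro h0
    obtain ⟨z, hz⟩ := (hfreq 0).exists
    apply hz
    rw [hθG z, h0]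
    simp
  refine ⟨θ, -H, hθ, hθ0, hH.neg, fun p => ?_, fun x hx z => ?_⟩
  · obtain ⟨r, g, q, hr, hg, hq, he⟩ := key p
    have hkd : DifferentiableOn ℂ (fun z => g z * cexp (q z / 2)) (ball p r) :=
      hg.1.mul ((GcQ_half hq).cexp)
    have hn : ∀ z ∈ ball p r, ‖θ z‖ = ‖g z * cexp (q z / 2)‖ := by
      intro z hz
      have h7 : ‖θ z‖ ^ 2 = ‖g z * cexp (q z / 2)‖ ^ 2 := by
        rw [← he z hz, ← hθG z]
      exact (pow_left_inj₀ (norm_nonneg _) (norm_nonneg _) two_ne_zero).1 h7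
    have hex : ∃ z ∈ ball p r, g z * cexp (q z / 2) ≠ 0 := by
      have hb : ∀ᶠ z in 𝓝 p, z ∈ ball p r := ball_mem_nhds p hr
      obtain ⟨z, hz1, hz2⟩ := ((hfreq p).and_eventually hb).exists
      refine ⟨z, hz2, fun h0 => hz1 ?_⟩
      rw [he z hz2, h0]
      simp
    obtain ⟨c, hc1, hc⟩ := eq_smul_of_norm_eq isOpen_ball (convex_ball p r).isPreconnected hkd
      hθ.differentiableOn hn hex
    have hc0 : c ≠ 0 := by
      intro h0
      rw [h0, norm_zero] at hc1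
      exact zero_ne_one hc1
    obtain ⟨_, s', t', hs', ht', e1, e2, e3⟩ := hg
    have hE : DifferentiableOn ℂ (fun z => c⁻¹ * cexp (-(q z / 2))) (ball p r) :=
      ((GcQ_half hq).neg.cexp).const_mul _
    have hE0 : ∀ z, c⁻¹ * cexp (-(q z / 2)) ≠ 0 := fun z =>
      mul_ne_zero (inv_ne_zero hc0) (exp_ne_zero _)
    have hid : ∀ z ∈ ball p r, θ z * (c⁻¹ * cexp (-(q z / 2))) = g z := by
      intro z hz
      rw [hc z hz, exp_neg]
      have := exp_ne_zero (q z / 2)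
      field_simp
    refine ⟨r, hr, hθ.differentiableOn, fun z => s' z * (c⁻¹ * cexp (-(q z / 2))),
      fun z => t' z * (c⁻¹ * cexp (-(q z / 2))), hs'.mul hE, ht'.mul hE, fun z hz => ?_,
      fun z hz => ?_, fun y hy => ?_⟩
    · rw [e1 z hz, ← hid z hz]
      ring
    · rw [e2 z hz, ← hid z hz]
      ring
    · filter_upwards [e3 y hy] with z hz
      rintro ⟨h7, h8⟩
      exact hz ⟨(mul_eq_zero.1 h7).resolve_right (hE0 z), (mul_eq_zero.1 h8).resolve_right (hE0 z)⟩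
  · rw [← hθG, ← hθG]
    show G (z + x) * Real.exp (-V (z + x) - (hm H (z + x) (z + x)).re) =
      G z * Real.exp (-V z - (hm H z z).re) * _
    rw [hGp z x hx, hVp z x hx, GcQ_hm_add hH, GcQ_hm_neg, GcQ_hm_neg, neg_re, neg_re, mul_assoc,
      ← Real.exp_add]
    congr 2
    ring

/-- Theta functions are quasi-periodic. -/
theorem TH_qp {H : Matrix (Fin 2) (Fin 2) ℂ} {χ : C2 → ℂ} (hχ : ∀ x ∈ S.Lat, χ x ≠ 0) {f : C2 → ℂ} (hf : f ∈ S.TH H χ) :
    S.QP f := by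
  refine ⟨hf.1, fun x hx => ⟨fun z => χ x * cexp (Real.pi * (hm H z x + hm H x x / 2)), ?_, fun z => ?_, fun z => hf.2 x hx z⟩⟩
  · have h1 := hm_diff H x
    exact ((((h1.add_const _).const_mul _).cexp).const_mul _)
  · exact mul_ne_zero (hχ x hx) (Complex.exp_ne_zero _)

/-- Greatest common divisors of canonical theta functions. -/
theorem gcd_TH {s t : C2 → ℂ} (hs : S.QP s) (ht : S.QP t) (hs0 : s ≠ 0) (ht0 : t ≠ 0) :
    ∃ (G : Matrix (Fin 2) (Fin 2) ℂ) (χ g s' t' : C2 → ℂ), G ∈ S.NS ∧ S.SC G χ ∧ g ∈ S.TH G χ ∧ Differentiable ℂ s' ∧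
      Differentiable ℂ t' ∧ s = g * s' ∧ t = g * t' ∧ Copr s' t' := by
  obtain ⟨θ, K, hθ, hθ0, hK, hloc, hper⟩ := S.exists_theta_divQ hs ht hs0 ht0
  obtain ⟨c, hc⟩ := S.exists_mult hθ hθ0 hK hper
  obtain ⟨s1, hs1, hs2⟩ := GcQ_glue hθ hθ0 (s := s) (fun p => by
    obtain ⟨r, hr, _, s', t', h1, h2, h3, h4, h5⟩ := hloc p
    exact ⟨r, hr, s', h1, h3⟩)
  obtain ⟨t1, ht1, ht2⟩ := GcQ_glue hθ hθ0 (s := t) (fun p => by
    obtain ⟨r, hr, _, s', t', h1, h2, h3, h4, h5⟩ := hloc p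
    exact ⟨r, hr, t', h2, h4⟩)
  have hpi : (Real.pi : ℂ) ≠ 0 := by exact_mod_cast Real.pi_ne_zero
  obtain ⟨G, hG⟩ : ∃ G : Matrix (Fin 2) (Fin 2) ℂ, G = (((Real.pi)⁻¹ : ℝ) : ℂ) • K := ⟨_, rfl⟩
  have hGH : G.IsHermitian := by
    rw [hG]
    unfold Matrix.IsHermitian
    rw [Matrix.conjTranspose_smul, hK.eq]
    congr 1
    exact Complex.conj_ofReal _
  have hGK : ∀ z w, hm K z w = Real.pi * hm G z w := by
    intro z w
    rw [hG, hm_smul, Complex.ofReal_inv, ← mul_assoc, mul_inv_cancel₀ hpi, one_mul]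
  have hmem : θ ∈ S.TH G c := by
    refine ⟨hθ, fun x hx z => ?_⟩
    rw [(hc x hx).2 z, hGK, hGK]
    congr 3
    ring
  have hSC := S.SC_of_ne hGH (fun x hx => (hc x hx).1) hmem hθ0
  refine ⟨G, c, θ, s1, t1, hSC.1, hSC.2, hmem, hs1, ht1, ?_, ?_, ?_⟩
  · funext z
    exact hs2 z
  · funext z
    exact ht2 z
  · intro p
    obtain ⟨r, hr, _, s', t', h1, h2, h3, h4, h5⟩ := hloc p
    have hb : ∀ᶠ z in 𝓝[≠] p, z ∈ ball p r := nhdsWithin_le_nhds (ball_mem_nhds p hr)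
    filter_upwards [h5 p (mem_ball_self hr), hb] with z hz hzb
    rintro ⟨h6, h7⟩
    apply hz
    have h8 : s1 z = s' z := GcQ_cancel hθ hθ0 isOpen_ball hs1.continuous.continuousOn
      h1.continuousOn (fun y hy => by rw [← hs2 y, ← h3 y hy]) hzb
    have h9 : t1 z = t' z := GcQ_cancel hθ hθ0 isOpen_ball ht1.continuous.continuousOn
      h2.continuousOn (fun y hy => by rw [← ht2 y, ← h4 y hy]) hzb
    rw [← h8, ← h9]
    exact ⟨h6, h7⟩

end PerData

end Q2T
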