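import Pool.Agent.H.MP_89f84f_ag.q3.DvQ
import Pool.Agent.H.MP_89f84f_ag.q2.Wir

set_option autoImplicit false

open Complex Topology Filter Asymptotics Metric Set
open scoped ContDiff

namespace Q2T

private theorem LvQ_congr {F H : C2 → ℂ} {z : C2} (h : F =ᶠ[𝓝 z] H) (a : Fin 2) :
    Dz a F z = Dz a H z ∧ Dzb a F z = Dzb a H z := by
  unfold Dz Dzb
  rw [h.fderiv_eq]
  exact ⟨rfl, rfl⟩

private theorem LvQ_congr' {F H : C2 → ℂ} {z : C2} (h : F =ᶠ[𝓝 z] H) (a : Fin 2) :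
    Dz a F =ᶠ[𝓝 z] Dz a H ∧ Dzb a F =ᶠ[𝓝 z] Dzb a H := by
  have h1 := h.eventuallyEq_nhds
  constructor
  · filter_upwards [h1] with w hw
    exact (LvQ_congr hw a).1
  · filter_upwards [h1] with w hw
    exact (LvQ_congr hw a).2

private theorem LvQ_smooth {U : Set C2} (hU : IsOpen U) {F : C2 → ℂ} (hF : ContDiffOn ℝ ∞ F U)
    (a : Fin 2) : ContDiffOn ℝ ∞ (Dz a F) U ∧ ContDiffOn ℝ ∞ (Dzb a F) U := by
  have h1 : ContDiffOn ℝ ∞ (fderiv ℝ F) U := hF.fderiv_of_isOpen hU (by simp)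
  have h2 : ContDiffOn ℝ ∞ (fun z => fderiv ℝ F z (Pi.single a 1)) U :=
    h1.clm_apply contDiffOn_const
  have h3 : ContDiffOn ℝ ∞ (fun z => fderiv ℝ F z (Pi.single a I)) U :=
    h1.clm_apply contDiffOn_const
  constructor
  · exact (h2.sub (contDiffOn_const.mul h3)).div_const 2
  · exact (h2.add (contDiffOn_const.mul h3)).div_const 2

private theorem LvQ_diff {U : Set C2} (hU : IsOpen U) {F : C2 → ℂ} (hF : ContDiffOn ℝ ∞ F U)
    {z : C2} (hz : z ∈ U) : DifferentiableAt ℝ F z :=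
  ((hF.differentiableOn (by simp)) z hz).differentiableAt (hU.mem_nhds hz)

private theorem LvQ_add1 {F H : C2 → ℂ} {z : C2} (hF : DifferentiableAt ℝ F z)
    (hH : DifferentiableAt ℝ H z) (a : Fin 2) :
    Dz a (fun w => F w + H w) z = Dz a F z + Dz a H z ∧
      Dzb a (fun w => F w + H w) z = Dzb a F z + Dzb a H z := by
  unfold Dz Dzb
  rw [fderiv_fun_add hF hH]
  constructor
  · simp only [add_apply]
    ring
  · simp only [add_apply]
    ring

private theorem LvQ_add {U : Set C2} (hU : IsOpen U) {F H : C2 → ℂ} (hF : ContDiffOn ℝ ∞ F U)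
    (hH : ContDiffOn ℝ ∞ H U) (a b : Fin 2) {z : C2} (hz : z ∈ U) :
    Dz a (Dzb b (fun w => F w + H w)) z = Dz a (Dzb b F) z + Dz a (Dzb b H) z := by
  have h1 : Dzb b (fun w => F w + H w) =ᶠ[𝓝 z] fun w => Dzb b F w + Dzb b H w := by
    filter_upwards [hU.mem_nhds hz] with w hw
    exact (LvQ_add1 (LvQ_diff hU hF hw) (LvQ_diff hU hH hw) b).2
  rw [(LvQ_congr h1 a).1]
  exact (LvQ_add1 (LvQ_diff hU (LvQ_smooth hU hF b).2 hz)
    (LvQ_diff hU (LvQ_smooth hU hH b).2 hz) a).1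

private theorem LvQ_ofReal {U : Set C2} {σ : C2 → ℝ} (h : ContDiffOn ℝ ∞ σ U) :
    ContDiffOn ℝ ∞ (fun w => ((σ w : ℝ) : ℂ)) U :=
  Complex.ofRealCLM.contDiff.comp_contDiffOn h

private theorem LvQ_trans (F : C2 → ℂ) (x : C2) (a : Fin 2) :
    Dz a (fun w => F (w - x)) = (fun w => Dz a F (w - x)) ∧
      Dzb a (fun w => F (w - x)) = fun w => Dzb a F (w - x) := by
  have h1 : ∀ w, fderiv ℝ (fun w => F (w - x)) w = fderiv ℝ F (w - x) := by
    intro w
    have := fderiv_comp_add_right (𝕜 := ℝ) (f := F) (x := w) (-x)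
    simpa [sub_eq_add_neg] using this
  constructor
  · funext w
    unfold Dz
    rw [h1]
  · funext w
    unfold Dzb
    rw [h1]

private theorem LvQ_conj (σ : C2 → ℝ) (a : Fin 2) (z : C2) :
    (starRingEnd ℂ) (Dzb a (fun w => ((σ w : ℝ) : ℂ)) z) = Dz a (fun w => ((σ w : ℝ) : ℂ)) z := by
  have h1 := conj_dz (fun w => ((σ w : ℝ) : ℂ)) a z
  simp only [Complex.conj_ofReal] at h1
  rw [← h1, Complex.conj_conj]

/-- the key consistency -/
private theorem LvQ_key {s t : C2 → ℂ} (hs : Differentiable ℂ s) (ht : Differentiable ℂ t)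
    (hs0 : s ≠ 0) (ht0 : t ≠ 0) {G : C2 → ℝ} {p p' : C2} {r r' : ℝ} {g g' : C2 → ℂ}
    {σ σ' : C2 → ℝ} (h : LocM s t G p r g σ) (h' : LocM s t G p' r' g' σ') (a b : Fin 2) {z : C2}
    (hz : z ∈ ball p r) (hz' : z ∈ ball p' r') :
    Dz a (Dzb b (fun w => ((σ w : ℝ) : ℂ))) z = Dz a (Dzb b (fun w => ((σ' w : ℝ) : ℂ))) z := by
  obtain ⟨-, hg, hσ, hG⟩ := h
  obtain ⟨-, hg', hσ', hG'⟩ := h'
  set W := ball p r ∩ ball p' r' with hW
  have hWo : IsOpen W := isOpen_ball.inter isOpen_ball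
  have hzW : z ∈ W := ⟨hz, hz'⟩
  have hgW : IsLG s t g W := hg.mono inter_subset_left
  have hgW' : IsLG s t g' W := hg'.mono inter_subset_right
  obtain ⟨k, hk, hk0, hkg⟩ := IsLG.unit hWo hs ht hs0 ht0 hgW hgW'
  have hσW : ContDiffOn ℝ ∞ σ W := hσ.mono inter_subset_left
  have hσW' : ContDiffOn ℝ ∞ σ' W := hσ'.mono inter_subset_right
  -- the identity on the set where `g'` does not vanish
  have hid : ∀ w ∈ W, g' w ≠ 0 → σ' w - σ w = Real.log (‖k w‖ ^ 2) := by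
    intro w hw hgw
    have h1 := hG w hw.1
    have h2 := hG' w hw.2
    rw [hkg w hw, norm_mul, mul_pow] at h1
    have h3 : ‖k w‖ ^ 2 * Real.exp (σ w) = Real.exp (σ' w) := by
      have h4 : 0 < ‖g' w‖ ^ 2 := by
        have := norm_pos_iff.2 hgw
        positivity
      have h5 : ‖g' w‖ ^ 2 * (‖k w‖ ^ 2 * Real.exp (σ w)) = ‖g' w‖ ^ 2 * Real.exp (σ' w) := by
        rw [← h2, h1]
        ring
      exact mul_left_cancel₀ h4.ne' h5
    have h6 : ‖k w‖ ^ 2 = Real.exp (σ' w - σ w) := by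
      rw [Real.exp_sub, eq_div_iff (Real.exp_pos _).ne', h3]
    rw [h6, Real.log_exp]
  -- by density everywhere
  have hall : ∀ w ∈ W, σ' w - σ w = Real.log (‖k w‖ ^ 2) := by
    intro w hw
    have hc1 : ContinuousAt (fun w => σ' w - σ w) w :=
      ((hσW'.continuousOn.sub hσW.continuousOn) w hw).continuousAt (hWo.mem_nhds hw)
    have hc2 : ContinuousAt (fun w => Real.log (‖k w‖ ^ 2)) w := by
      have h1 : ContinuousAt k w := (hk.continuousOn w hw).continuousAt (hWo.mem_nhds hw)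
      refine (h1.norm.pow 2).log ?_
      exact pow_ne_zero 2 (norm_ne_zero_iff.2 (hk0 w hw))
    have hfr : ∃ᶠ y in 𝓝[≠] w, y ∈ W ∧ g' y ≠ 0 := by
      have h1 := ne_zero_frequently hs hs0 w
      have h2 : ∀ᶠ y in 𝓝[≠] w, y ∈ W := mem_nhdsWithin_of_mem_nhds (hWo.mem_nhds hw)
      refine (h1.and_eventually h2).mono fun y hy => ⟨hy.2, fun h3 => hy.1 ?_⟩
      obtain ⟨-, s', t', -, -, h4, -⟩ := hgW'
      rw [h4 y hy.2, h3, zero_mul]
    have hfr2 : ∃ᶠ y in 𝓝 w, (fun y => (σ' y - σ y) - Real.log (‖k y‖ ^ 2)) y = 0 := by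
      have h3 : ∃ᶠ y in 𝓝[≠] w, (fun y => (σ' y - σ y) - Real.log (‖k y‖ ^ 2)) y = 0 :=
        hfr.mono fun y hy => by
          show (σ' y - σ y) - Real.log (‖k y‖ ^ 2) = 0
          rw [hid y hy.1 hy.2, sub_self]
      exact h3.filter_mono nhdsWithin_le_nhds
    have hcl := (hc1.sub hc2)
    by_contra hne
    have h5 : (fun y => (σ' y - σ y) - Real.log (‖k y‖ ^ 2)) w ≠ 0 := sub_ne_zero.2 hne
    exact hfr2 (hcl.eventually_ne h5)
  -- conclusion
  have hψ : ContDiffOn ℝ ∞ (fun w => σ' w - σ w) W := hσW'.sub hσW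
  have hadd := LvQ_add hWo (LvQ_ofReal hσW) (LvQ_ofReal hψ) a b hzW
  have e1 : (fun w => ((σ w : ℝ) : ℂ) + ((σ' w - σ w : ℝ) : ℂ)) = fun w => ((σ' w : ℝ) : ℂ) := by
    funext w
    push_cast
    ring
  rw [e1] at hadd
  have e2 : (fun w => ((σ' w - σ w : ℝ) : ℂ)) =ᶠ[𝓝 z]
      fun w => ((Real.log (‖k w‖ ^ 2) : ℝ) : ℂ) := by
    filter_upwards [hWo.mem_nhds hzW] with w hw
    rw [hall w hw]
  have e3 : Dz a (Dzb b (fun w => ((σ' w - σ w : ℝ) : ℂ))) z = 0 := by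
    rw [(LvQ_congr (LvQ_congr' e2 b).2 a).1]
    exact log_norm_plh hWo hk hk0 a b hzW
  rw [hadd, e3, add_zero]

namespace PerData

variable (S : PerData)

/-- The Levi form of `log G`, a smooth periodic closed Hermitian (1,1)-form.
PROOF: define `Θ a b z` as `Dz a (Dzb b σ) z` for the chosen local data at `z`; for two local data near a point the
difference of the `σ` is `log |k|²`, `k` the unit `g' / g` (`IsLG.unit`; where `g ≠ 0`, and by continuity everywhere), so the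
value does not depend on the choice (`log_norm_plh`).  All properties are local: smoothness, periodicity (translate
local data: `isLG_trans`), closedness (`dz_comm` for the smooth `σ`), Hermitian symmetry (`conj_dz`). -/
theorem exists_leviQ {s t : C2 → ℂ} (hs : S.QP s) (ht : S.QP t) (hs0 : s ≠ 0) (ht0 : t ≠ 0) {G : C2 → ℝ} (hG : ∀ z, ∀ x ∈ S.Lat, G (z + x) = G z)
    (hloc : ∀ p, ∃ (r : ℝ) (g : C2 → ℂ) (σ : C2 → ℝ), LocM s t G p r g σ) :
    ∃ Θ : Fin 2 → Fin 2 → C2 → ℂ, (∀ a b, ContDiff ℝ ∞ (Θ a b)) ∧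
      (∀ a b z, ∀ x ∈ S.Lat, Θ a b (z + x) = Θ a b z) ∧
      (∀ a b z, (starRingEnd ℂ) (Θ a b z) = Θ b a z) ∧
      (∀ a b c z, Dz c (Θ a b) z = Dz a (Θ c b) z) ∧
      (∀ a b c z, Dzb c (Θ a b) z = Dzb b (Θ a c) z) ∧
      ∀ (p : C2) (r : ℝ) (g : C2 → ℂ) (σ : C2 → ℝ), LocM s t G p r g σ → ∀ a b, ∀ z ∈ ball p r,
        Θ a b z = Dz a (Dzb b (fun w => ((σ w : ℝ) : ℂ))) z := by
  choose r g σ hL using hloc
  have hsd : Differentiable ℂ s := hs.1
  have htd : Differentiable ℂ t := ht.1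
  let Θ : Fin 2 → Fin 2 → C2 → ℂ := fun a b z => Dz a (Dzb b (fun w => ((σ z w : ℝ) : ℂ))) z
  have hkey : ∀ (p : C2) (r' : ℝ) (g' : C2 → ℂ) (σ' : C2 → ℝ), LocM s t G p r' g' σ' →
      ∀ a b, ∀ z ∈ ball p r', Θ a b z = Dz a (Dzb b (fun w => ((σ' w : ℝ) : ℂ))) z := by
    intro p r' g' σ' h a b z hz
    exact LvQ_key hsd htd hs0 ht0 (hL z) h a b (mem_ball_self (hL z).1) hz
  -- near a point
  have hnear : ∀ z a b, Θ a b =ᶠ[𝓝 z] Dz a (Dzb b (fun w => ((σ z w : ℝ) : ℂ))) := by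
    intro z a b
    filter_upwards [ball_mem_nhds z (hL z).1] with w hw
    exact hkey z (r z) (g z) (σ z) (hL z) a b w hw
  have hσs : ∀ z, ContDiffOn ℝ ∞ (fun w => ((σ z w : ℝ) : ℂ)) (ball z (r z)) :=
    fun z => LvQ_ofReal (hL z).2.2.1
  have hzz : ∀ z, z ∈ ball z (r z) := fun z => mem_ball_self (hL z).1
  have h2 : ∀ {U : Set C2} {F : C2 → ℂ}, ContDiffOn ℝ ∞ F U → ContDiffOn ℝ 2 F U :=
    fun hF => hF.of_le ENat.LEInfty.out
  refine ⟨Θ, ?_, ?_, ?_, ?_, ?_, hkey⟩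
  · intro a b
    rw [contDiff_iff_contDiffAt]
    intro z
    have h1 := (LvQ_smooth isOpen_ball (LvQ_smooth isOpen_ball (hσs z) b).2 a).1
    exact (h1.contDiffAt (ball_mem_nhds z (hL z).1)).congr_of_eventuallyEq (hnear z a b)
  · intro a b z x hx
    have hLx : LocM s t G (z + x) (r z) (fun w => g z (w - x)) (fun w => σ z (w - x)) := by
      obtain ⟨h1, h3, h4, h5⟩ := hL z
      have hmap : ∀ w ∈ ball (z + x) (r z), w - x ∈ ball z (r z) := by
        intro w hw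
        rw [mem_ball, dist_eq_norm] at hw ⊢
        rwa [show w - x - z = w - (z + x) by abel]
      refine ⟨h1, S.isLG_transQ hs ht h3 hx, ?_, ?_⟩
      · exact h4.comp (contDiff_id.sub contDiff_const).contDiffOn hmap
      · intro w hw
        have h6 := hG (w - x) x hx
        rw [sub_add_cancel] at h6
        rw [h6]
        exact h5 _ (hmap w hw)
    rw [hkey _ _ _ _ hLx a b (z + x) (mem_ball_self (hL z).1)]
    have e1 := (LvQ_trans (fun w => ((σ z w : ℝ) : ℂ)) x b).2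
    have e2 : Dzb b (fun w => ((σ z (w - x) : ℝ) : ℂ)) =
        fun w => Dzb b (fun w => ((σ z w : ℝ) : ℂ)) (w - x) := e1
    rw [e2, (LvQ_trans (Dzb b (fun w => ((σ z w : ℝ) : ℂ))) x a).1]
    simp only [add_sub_cancel_right]
    rfl
  · intro a b z
    show (starRingEnd ℂ) (Dz a (Dzb b (fun w => ((σ z w : ℝ) : ℂ))) z) =
      Dz b (Dzb a (fun w => ((σ z w : ℝ) : ℂ))) z
    rw [conj_dz]
    simp only [LvQ_conj]
    exact ((dz_comm isOpen_ball (h2 (hσs z)) b a (hzz z)).2.2).symm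
  · intro a b c z
    rw [(LvQ_congr (hnear z a b) c).1, (LvQ_congr (hnear z c b) a).1]
    exact (dz_comm isOpen_ball (h2 (LvQ_smooth isOpen_ball (hσs z) b).2) c a (hzz z)).1
  · intro a b c z
    have e1 : ∀ b', Dz a (Dzb b' (fun w => ((σ z w : ℝ) : ℂ))) =ᶠ[𝓝 z]
        Dzb b' (Dz a (fun w => ((σ z w : ℝ) : ℂ))) := by
      intro b'
      filter_upwards [ball_mem_nhds z (hL z).1] with w hw
      exact (dz_comm isOpen_ball (h2 (hσs z)) a b' hw).2.2
    rw [(LvQ_congr (hnear z a b) c).2, (LvQ_congr (hnear z a c) b).2,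
      (LvQ_congr (e1 b) c).2, (LvQ_congr (e1 c) b).2]
    exact (dz_comm isOpen_ball (h2 (LvQ_smooth isOpen_ball (hσs z) a).1) c b (hzz z)).2.1

end PerData

end Q2T
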