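import Pool.Agent.H.MP_89f84f_ag.q3.NsT
import Pool.Agent.H.MP_89f84f_ag.q3.GcQ
import Pool.Agent.H.MP_89f84f_ag.q2.Mini

set_option autoImplicit false

open Complex Topology Filter Asymptotics Metric Set

namespace Q2T

namespace PerData

variable (S : PerData)

/-- The dichotomy property with respect to all theta functions of all classes. -/
def Dch (s : C2 → ℂ) : Prop := ∀ (H : Matrix (Fin 2) (Fin 2) ℂ) (χ t : C2 → ℂ), H ∈ S.NS → S.SC H χ → t ∈ S.TH H χ →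
  t ≠ 0 → Copr s t ∨ t ∈ Mult s

/-- `s` is a nonzero theta function of the positive definite class `H`, of exact order `m` at `0` with `m ^ 2 > 2 pf H`. -/
structure Neg (H : Matrix (Fin 2) (Fin 2) ℂ) (χ s : C2 → ℂ) (m : ℕ) : Prop where
  ns : H ∈ S.NS
  pd : PD H
  sc : S.SC H χ
  mem : s ∈ S.TH H χ
  ne : s ≠ 0
  van : s ∈ Van m 0
  van' : s ∉ Van (m + 1) 0
  neg : 2 * S.pf H < (m : ℝ) ^ 2

private theorem MiA_le_of_van {p : C2} {f : C2 → ℂ} {m n : ℕ} (h1 : f ∈ Van m p)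
    (h2 : f ∉ Van (n + 1) p) : m ≤ n := by
  by_contra h
  exact h2 (van_mono (by omega) p h1)

/-- Existence, from a class with nonsquare self-intersection.
PROOF: normal form `Γ = n A^* H0'` (`exists_NF`), `2 pf Γ = 2 n² d'`, so `2 d'` is not a square; Pell (`exists_pell`, q2/Mini.lean) and
`exists_pell_section` for `S'`: `f ∈ S'.Th (2 a) 0 0`, `f ≠ 0`, `f ∈ Van (2 b) 0`, `b² = 2 d' a² + 1`.  `of_classical` (`v = 2 a`): a function of
class `H = pull A (2 a H0')`, `pf H = (2 a)² d'` (`pf_pull`, `pf_smul`, `pf_H0`), of order `≥ 2 b` (`van_comp_equiv`, `van_mul_unit`); its exact order `m`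
(`exists_order`) is `≥ 2 b` and `m² ≥ 4 b² > 2 pf H`. -/
theorem exists_neg {Γ : Matrix (Fin 2) (Fin 2) ℂ} (hΓ : Γ ∈ S.NS) (hp : PD Γ) (hsq : ¬ ∃ r : ℕ, (r : ℝ) ^ 2 = 2 * S.pf Γ) :
    ∃ (H : Matrix (Fin 2) (Fin 2) ℂ) (χ s : C2 → ℂ) (m : ℕ), S.Neg H χ s m := by
  obtain ⟨S', n, A, hN⟩ := S.exists_NF hΓ hp
  have hns : ¬ IsSquare (2 * S'.d) := by
    rintro ⟨r, hr⟩
    apply hsq
    refine ⟨n * r, ?_⟩
    rw [hN.pf]
    have h1 : (2 : ℝ) * (S'.d : ℝ) = (r : ℝ) * r := by exact_mod_cast hr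
    push_cast
    linear_combination (-(n : ℝ) ^ 2) * h1
  obtain ⟨a, b, ha, hab, -⟩ := exists_pell S'.d_pos hns
  obtain ⟨f, hf, -, hfv, hf0⟩ := S'.exists_pell_section ha hab
  obtain ⟨χ, hχ, hmem⟩ := hN.of_classical hf
  obtain ⟨F, hF⟩ : ∃ F : C2 → ℂ, F = fun z => S'.gz (2 * a) (A z) * f (A z) := ⟨_, rfl⟩
  rw [← hF] at hmem
  have hH : (pull A (((2 * a : ℤ) : ℂ) • S'.H0)).IsHermitian := by
    refine pull_herm A ?_
    unfold Matrix.IsHermitian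
    rw [Matrix.conjTranspose_smul, S'.H0_herm.eq]
    congr 1
    exact star_intCast _
  have hF0 : F ≠ 0 := by
    intro h
    apply hf0
    funext w
    have h1 := congrFun h (A.symm w)
    rw [hF] at h1
    simp only [LinearEquiv.apply_symm_apply, Pi.zero_apply] at h1
    exact (mul_eq_zero.1 h1).resolve_left (S'.gz_ne _ _)
  have hFv : F ∈ Van (2 * b) 0 := by
    rw [hF]
    have h1 := (van_mul_unit (S'.gz_diff (2 * a)).continuous (S'.gz_ne (2 * a) 0)).2 hfv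
    exact (van_comp_equiv A).2 h1
  obtain ⟨m, hm, hm'⟩ := exists_order (p := 0) hmem.1 hF0
  have hbm : 2 * b ≤ m := MiA_le_of_van hFv hm'
  have hpf : S.pf (pull A (((2 * a : ℤ) : ℂ) • S'.H0)) = (2 * (a : ℝ)) ^ 2 * S'.d := by
    have e : ((2 * a : ℤ) : ℂ) = ((2 * (a : ℝ) : ℝ) : ℂ) := by push_cast; rfl
    rw [e, hN.pf_pull, S'.pf_smul, S'.pf_H0]
    rw [← e]
    unfold Matrix.IsHermitian
    rw [Matrix.conjTranspose_smul, S'.H0_herm.eq]
    congr 1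
    exact star_intCast _
  refine ⟨_, χ, F, m, (S.SC_of_ne hH hχ.1 hmem hF0).1, ?_, hχ, hmem, hF0, hm, hm', ?_⟩
  · refine pull_pd A fun z hz => ?_
    have e : ((2 * a : ℤ) : ℂ) = ((2 * (a : ℝ) : ℝ) : ℂ) := by push_cast; rfl
    rw [hm_smul, e, Complex.re_ofReal_mul]
    have h1 : (0 : ℝ) < a := by exact_mod_cast ha
    exact mul_pos (by linarith) (S'.H0_pd z hz)
  · rw [hpf]
    have h1 : (2 * b) ^ 2 ≤ m ^ 2 := Nat.pow_le_pow_left hbm 2
    have h2 : 2 * ((2 * a) ^ 2 * S'.d) < m ^ 2 := by nlinarith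
    exact_mod_cast h2

/-- A minimal one has the dichotomy property.
PROOF: choose `(H, χ, s, m)` with `Neg` and minimal `dg H`, a positive integer (`dg_int`, `dg_pos`).  Let `t` be a nonzero theta function of
class `H'`.  `gcd_TH` (`TH_qp`): `s = g s'`, `t = g t'`, `Copr s' t'`, `g ∈ TH G χ'`, `G ∈ NS`; `s' ∈ TH (H - G)` (`TH_quot`), `SC_sub`.  `G` and `H - G` are
semidefinite (`TH_psd`), so each is `0` or positive definite (`Aniso.cases`).  `G = 0`: `g` is a nonzero constant (`TH_zero_const`) and `Copr s t`.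
`H - G = 0`: `s'` is a nonzero constant and `t ∈ Mult s`.  Both positive definite: the exact orders `m₁, m₂` of `g, s'` satisfy
`m = m₁ + m₂` (`exists_order`, `order_mul`); by minimality (`dg G < dg H`, `dg (H - G) < dg H`) `m₁² ≤ 2 pf G`, `m₂² ≤ 2 pf (H - G)`, so `hodge` gives
`m² ≤ 2 pf H`, contradiction. -/
theorem exists_neg_dch (hA : S.Aniso) {Γ : Matrix (Fin 2) (Fin 2) ℂ} (hΓ : Γ ∈ S.NS) (hp : PD Γ)
    (hsq : ¬ ∃ r : ℕ, (r : ℝ) ^ 2 = 2 * S.pf Γ) :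
    ∃ (H : Matrix (Fin 2) (Fin 2) ℂ) (χ s : C2 → ℂ) (m : ℕ), S.Neg H χ s m ∧ S.Dch s := by
  classical
  let Q : ℕ → Prop := fun u => ∃ (H : Matrix (Fin 2) (Fin 2) ℂ) (χ s : C2 → ℂ) (m : ℕ), S.Neg H χ s m ∧ S.dg H = u
  have hnat : ∀ {H : Matrix (Fin 2) (Fin 2) ℂ}, H ∈ S.NS → PD H → ∃ u : ℕ, S.dg H = u := by
    intro H hH hp
    obtain ⟨k, hk⟩ := S.dg_int hH
    have h1 := S.dg_pos hH.1 hp
    rw [hk] at h1
    have h2 : 0 < k := by exact_mod_cast h1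
    obtain ⟨u, rfl⟩ := Int.eq_ofNat_of_zero_le h2.le
    exact ⟨u, by rw [hk]; push_cast; rfl⟩
  have hex : ∃ u, Q u := by
    obtain ⟨H, χ, s, m, h⟩ := S.exists_neg hΓ hp hsq
    obtain ⟨u, hu⟩ := hnat h.ns h.pd
    exact ⟨u, H, χ, s, m, h, hu⟩
  obtain ⟨H, χ, s, m, hs, hdg⟩ := Nat.find_spec hex
  have hmin : ∀ (G : Matrix (Fin 2) (Fin 2) ℂ) (ψ g : C2 → ℂ) (k : ℕ), G ∈ S.NS → PD G → S.dg G < S.dg H →
      S.SC G ψ → g ∈ S.TH G ψ → g ≠ 0 → g ∈ Van k 0 → g ∉ Van (k + 1) 0 → (k : ℝ) ^ 2 ≤ 2 * S.pf G := by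
    intro G ψ g k hG hGp hlt hψ hg hg0 hk hk'
    by_contra hcon
    push Not at hcon
    obtain ⟨u, hu⟩ := hnat hG hGp
    refine Nat.find_min hex (m := u) ?_ ⟨G, ψ, g, k, ⟨hG, hGp, hψ, hg, hg0, hk, hk', hcon⟩, hu⟩
    rw [hu, hdg] at hlt
    exact_mod_cast hlt
  refine ⟨H, χ, s, m, hs, ?_⟩
  intro H' χ' t hH' hχ' ht ht0
  have hχ0 : ∀ {K : Matrix (Fin 2) (Fin 2) ℂ} {ψ : C2 → ℂ}, S.SC K ψ → ∀ x ∈ S.Lat, ψ x ≠ 0 := by
    intro K ψ h x hx h0
    have h1 := h.1 x hx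
    rw [h0, norm_zero] at h1
    exact zero_ne_one h1
  obtain ⟨G, ψ, g, s', t', hG, hψ, hg, hs', ht', hsg, htg, hcop⟩ :=
    S.gcd_TH (S.TH_qp (hχ0 hs.sc) hs.mem) (S.TH_qp (hχ0 hχ') ht) hs.ne ht0
  have hg0 : g ≠ 0 := by
    rintro rfl
    exact hs.ne (by rw [hsg, zero_mul])
  have hs'0 : s' ≠ 0 := by
    rintro rfl
    exact hs.ne (by rw [hsg, mul_zero])
  have hs'T := S.TH_quot hg hg0 (hχ0 hψ) hs.mem hs' hsg
  have hψ' := S.SC_sub hs.sc hψ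
  have hHG : H - G ∈ S.NS := S.NS.sub_mem hs.ns hG
  have hp1 := S.TH_psd hG.1 hψ.1 hg hg0
  have hp2 := S.TH_psd hHG.1 hψ'.1 hs'T hs'0
  rcases hA.cases hG hp1 with h0 | hGp
  · left
    rw [h0] at hg
    obtain ⟨c, rfl⟩ := S.TH_zero_const hψ.1 hg
    have hc : c ≠ 0 := by
      rintro rfl
      exact hg0 rfl
    intro p
    filter_upwards [hcop p] with z hz
    rintro ⟨h1, h2⟩
    apply hz
    rw [hsg] at h1
    rw [htg] at h2
    exact ⟨(mul_eq_zero.1 h1).resolve_left hc, (mul_eq_zero.1 h2).resolve_left hc⟩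
  · rcases hA.cases hHG hp2 with h0 | hHGp
    · right
      rw [h0] at hs'T
      obtain ⟨c, rfl⟩ := S.TH_zero_const hψ'.1 hs'T
      have hc : c ≠ 0 := by
        rintro rfl
        exact hs'0 rfl
      refine ⟨c⁻¹ • t', ht'.const_smul _, ?_⟩
      rw [htg, hsg]
      funext z
      simp only [Pi.mul_apply, Pi.smul_apply, smul_eq_mul]
      field_simp
    · exfalso
      obtain ⟨m₁, hm₁, hm₁'⟩ := exists_order (p := 0) hg.1 hg0
      obtain ⟨m₂, hm₂, hm₂'⟩ := exists_order (p := 0) hs' hs'0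
      obtain ⟨h1, h2⟩ := order_mul hg.1 hs' hm₁ hm₁' hm₂ hm₂'
      rw [← hsg] at h1 h2
      have hmm : m = m₁ + m₂ := le_antisymm (MiA_le_of_van hs.van h2) (MiA_le_of_van h1 hs.van')
      have hsum : G + (H - G) = H := add_sub_cancel G H
      have hd1 := S.dg_pos hG.1 hGp
      have hd2 := S.dg_pos hHG.1 hHGp
      have hd : S.dg G + S.dg (H - G) = S.dg H := by rw [← S.dg_add, hsum]
      have e1 := hmin G ψ g m₁ hG hGp (by linarith) hψ hg hg0 hm₁ hm₁'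
      have e2 := hmin (H - G) _ s' m₂ hHG hHGp (by linarith) hψ' hs'T hs'0 hm₂ hm₂'
      have e3 := S.hodge hG.1 hHG.1 hGp hHGp (Nat.cast_nonneg m₁) (Nat.cast_nonneg m₂) e1 e2
      rw [hsum] at e3
      have e4 := hs.neg
      rw [hmm] at e4
      push_cast at e4
      linarith

end PerData

end Q2T
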