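import Mathlib

set_option autoImplicit false

namespace Q2T

open Matrix

/-- The bilinear form of a matrix. -/
private noncomputable def NfA_B (E : Matrix (Fin 4) (Fin 4) ℤ) :
    (Fin 4 → ℤ) →ₗ[ℤ] (Fin 4 → ℤ) →ₗ[ℤ] ℤ := Matrix.toLinearMap₂' ℤ E

private theorem NfA_B_apply (E : Matrix (Fin 4) (Fin 4) ℤ) (v w : Fin 4 → ℤ) :
    NfA_B E v w = v ⬝ᵥ (E *ᵥ w) := Matrix.toLinearMap₂'_apply' E v w

private theorem NfA_anti (E : Matrix (Fin 4) (Fin 4) ℤ) (hE : ∀ i j, E i j = -E j i)
    (v w : Fin 4 → ℤ) : NfA_B E v w = -NfA_B E w v := by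
  have hT : E.transpose = -E := by
    ext i j
    rw [Matrix.transpose_apply, Matrix.neg_apply]
    exact hE j i
  rw [NfA_B_apply, NfA_B_apply, ← Matrix.vecMul_transpose, hT, Matrix.vecMul_neg, dotProduct_neg,
    dotProduct_comm, ← Matrix.dotProduct_mulVec]

private theorem NfA_self (E : Matrix (Fin 4) (Fin 4) ℤ) (hE : ∀ i j, E i j = -E j i)
    (v : Fin 4 → ℤ) : NfA_B E v v = 0 := by
  have h := NfA_anti E hE v v
  omega

/-- a minimal positive value -/
private theorem NfA_min (E : Matrix (Fin 4) (Fin 4) ℤ) (hE : ∀ i j, E i j = -E j i)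
    (hdet : E.det ≠ 0) : ∃ (n : ℕ) (x y : Fin 4 → ℤ), 1 ≤ n ∧ NfA_B E x y = n ∧
      ∀ v w : Fin 4 → ℤ, 0 < NfA_B E v w → (n : ℤ) ≤ NfA_B E v w := by
  classical
  have hex : ∃ n : ℕ, 0 < n ∧ ∃ x y : Fin 4 → ℤ, NfA_B E x y = n := by
    have h1 : ∃ i j, E i j ≠ 0 := by
      by_contra hno
      push Not at hno
      have : E = 0 := by
        ext i j
        exact hno i j
      rw [this, Matrix.det_zero] at hdet
      exact hdet rfl
    obtain ⟨i, j, hij⟩ := h1
    have hB : NfA_B E (Pi.single i 1) (Pi.single j 1) = E i j := by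
      rw [NfA_B_apply, Matrix.mulVec_single_one, single_one_dotProduct]
      rfl
    rcases lt_or_gt_of_ne hij with h | h
    · refine ⟨(-E i j).toNat, by omega, Pi.single j 1, Pi.single i 1, ?_⟩
      rw [NfA_anti E hE, hB]
      omega
    · refine ⟨(E i j).toNat, by omega, Pi.single i 1, Pi.single j 1, ?_⟩
      rw [hB]
      omega
  obtain ⟨hn, x, y, hxy⟩ := Nat.find_spec hex
  refine ⟨Nat.find hex, x, y, hn, hxy, fun v w hvw => ?_⟩
  have h2 : Nat.find hex ≤ (NfA_B E v w).toNat :=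
    Nat.find_min' hex ⟨by omega, v, w, by omega⟩
  omega

/-- division of a linear form by an integer -/
private theorem NfA_div (f : (Fin 4 → ℤ) →ₗ[ℤ] ℤ) (n : ℤ) (hn : 0 < n) (h : ∀ v, n ∣ f v) :
    ∃ g : (Fin 4 → ℤ) →ₗ[ℤ] ℤ, ∀ v, f v = n * g v := by
  choose g hg using h
  refine ⟨{ toFun := g, map_add' := fun v w => ?_, map_smul' := fun c v => ?_ }, hg⟩
  · apply mul_left_cancel₀ hn.ne'
    rw [← hg, map_add, hg, hg, mul_add]
  · apply mul_left_cancel₀ hn.ne'
    rw [← hg, map_smul, hg, RingHom.id_apply, smul_eq_mul, smul_eq_mul]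
    ring

/-- the main step -/
private theorem NfA_basis (E : Matrix (Fin 4) (Fin 4) ℤ) (hE : ∀ i j, E i j = -E j i)
    (n : ℤ) (x y : Fin 4 → ℤ) (hn : 0 < n) (hxy : NfA_B E x y = n)
    (hmin : ∀ v w : Fin 4 → ℤ, 0 < NfA_B E v w → n ≤ NfA_B E v w) :
    ∃ z w : Fin 4 → ℤ, NfA_B E x z = 0 ∧ NfA_B E x w = 0 ∧ NfA_B E z y = 0 ∧ NfA_B E w y = 0 ∧
      0 ≤ NfA_B E z w ∧ ∀ v, ∃ a b c d : ℤ, v = a • x + b • z + c • y + d • w := by
  have hx : ∀ v, n ∣ NfA_B E x v := by
    intro v
    have h1 : NfA_B E x (v - (NfA_B E x v / n) • y) = NfA_B E x v % n := by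
      rw [map_sub, map_smul, hxy, smul_eq_mul]
      have := Int.emod_add_mul_ediv (NfA_B E x v) n
      linarith [mul_comm n (NfA_B E x v / n)]
    have h2 := Int.emod_nonneg (NfA_B E x v) hn.ne'
    have h3 := Int.emod_lt_of_pos (NfA_B E x v) hn
    rcases h2.eq_or_lt with h4 | h4
    · exact Int.dvd_of_emod_eq_zero h4.symm
    · have h5 := hmin _ _ (h1 ▸ h4)
      omega
  have hy : ∀ v, n ∣ NfA_B E v y := by
    intro v
    have h1 : NfA_B E (v - (NfA_B E v y / n) • x) y = NfA_B E v y % n := by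
      rw [map_sub, map_smul, LinearMap.sub_apply, LinearMap.smul_apply, hxy, smul_eq_mul]
      have := Int.emod_add_mul_ediv (NfA_B E v y) n
      linarith [mul_comm n (NfA_B E v y / n)]
    have h2 := Int.emod_nonneg (NfA_B E v y) hn.ne'
    have h3 := Int.emod_lt_of_pos (NfA_B E v y) hn
    rcases h2.eq_or_lt with h4 | h4
    · exact Int.dvd_of_emod_eq_zero h4.symm
    · have h5 := hmin _ _ (h1 ▸ h4)
      omega
  obtain ⟨β, hβ⟩ := NfA_div (NfA_B E x) n hn hx
  obtain ⟨α, hα⟩ := NfA_div ((NfA_B E).flip y) n hn hy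
  have hα' : ∀ v, NfA_B E v y = n * α v := hα
  have hαx : α x = 1 := by
    have := hα' x
    rw [hxy] at this
    exact (mul_eq_left₀ hn.ne').1 this.symm
  have hαy : α y = 0 := by
    have := hα' y
    rw [NfA_self E hE] at this
    exact (mul_eq_zero.1 this.symm).resolve_left hn.ne'
  have hβx : β x = 0 := by
    have := hβ x
    rw [NfA_self E hE] at this
    exact (mul_eq_zero.1 this.symm).resolve_left hn.ne'
  have hβy : β y = 1 := by
    have := hβ y
    rw [hxy] at this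
    exact (mul_eq_left₀ hn.ne').1 this.symm
  let φ : (Fin 4 → ℤ) →ₗ[ℤ] ℤ × ℤ := α.prod β
  have hsurj : LinearMap.range φ = ⊤ := by
    rw [LinearMap.range_eq_top]
    rintro ⟨p, q⟩
    refine ⟨p • x + q • y, ?_⟩
    show (α (p • x + q • y), β (p • x + q • y)) = (p, q)
    rw [map_add, map_add, map_smul, map_smul, map_smul, map_smul, hαx, hαy, hβx, hβy]
    simp
  have hrank : Module.finrank ℤ (LinearMap.ker φ) = 2 := by
    have h1 := Submodule.finrank_quotient_add_finrank (LinearMap.ker φ)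
    have h2 := (φ.quotKerEquivOfSurjective (LinearMap.range_eq_top.1 hsurj)).finrank_eq
    rw [h2, Module.finrank_prod, Module.finrank_self, Module.finrank_fin_fun] at h1
    omega
  let bW := Module.finBasisOfFinrankEq ℤ (LinearMap.ker φ) hrank
  have hspan : ∀ v : Fin 4 → ℤ, ∃ a b c d : ℤ,
      v = a • x + b • (bW 0 : Fin 4 → ℤ) + c • y + d • (bW 1 : Fin 4 → ℤ) := by
    intro v
    have hmem : v - α v • x - β v • y ∈ LinearMap.ker φ := by
      rw [LinearMap.mem_ker]
      show (α (v - α v • x - β v • y), β (v - α v • x - β v • y)) = 0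
      rw [map_sub, map_sub, map_sub, map_sub, map_smul, map_smul, map_smul, map_smul, hαx, hαy,
        hβx, hβy]
      simp
    have h2 := bW.sum_repr ⟨_, hmem⟩
    rw [Fin.sum_univ_two] at h2
    have h3 := congrArg Subtype.val h2
    refine ⟨α v, bW.repr ⟨_, hmem⟩ 0, β v, bW.repr ⟨_, hmem⟩ 1, ?_⟩
    simp only [Submodule.coe_add, Submodule.coe_smul] at h3
    generalize bW.repr ⟨_, hmem⟩ 0 = p at h3 ⊢
    generalize bW.repr ⟨_, hmem⟩ 1 = q at h3 ⊢
    have h4 : v = (v - α v • x - β v • y) + α v • x + β v • y := by abel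
    rw [← h3] at h4
    calc v = _ := h4
      _ = _ := by abel
  have hker : ∀ u : LinearMap.ker φ, NfA_B E x u = 0 ∧ NfA_B E u y = 0 := by
    intro u
    have h1 : (α u, β u) = (0 : ℤ × ℤ) := LinearMap.mem_ker.1 u.2
    have h2 : α u = 0 := congrArg Prod.fst h1
    have h3 : β u = 0 := congrArg Prod.snd h1
    exact ⟨by rw [hβ, h3, mul_zero], by rw [hα', h2, mul_zero]⟩
  rcases le_total 0 (NfA_B E (bW 0) (bW 1)) with h | h
  · exact ⟨bW 0, bW 1, (hker _).1, (hker _).1, (hker _).2, (hker _).2, h, hspan⟩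
  · refine ⟨bW 1, bW 0, (hker _).1, (hker _).1, (hker _).2, (hker _).2, ?_, fun v => ?_⟩
    · rw [NfA_anti E hE]
      omega
    · obtain ⟨a, b, c, d, hv⟩ := hspan v
      refine ⟨a, d, c, b, ?_⟩
      rw [hv]
      abel

/-- Symplectic normal form of a nondegenerate integral alternating form of rank four.
PROOF: let `B x y = x ᵥ* E ⬝ᵥ y` (alternating).  Let `n ≥ 1` be the smallest positive value of `B` on `ℤ⁴ × ℤ⁴` (`E ≠ 0`), `B x y = n`.  For all
`v`, `n ∣ B x v` and `n ∣ B v y` (otherwise a smaller positive value `B x (v - q y)`).  `ℤ⁴ = ℤ x ⊕ ℤ y ⊕ W` with `W = {v | B x v = 0 = B v y}`: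
`v - (B v y / n) x - (B x v / n) y ∈ W`.  `W` is free of rank two (a submodule of a free module; or: the projection to `W`), with basis `z, w`,
`B z w = l`, `l ≠ 0` as `E` is nondegenerate; exchange `z, w` if `l < 0`.  `n ∣ l`: otherwise `B (z - q x) (y + w) = l - q n` is a
smaller positive value for `q = l / n`.  The rows of `P` are `x, z, y, w`; they are a basis, so `det P` is a unit. -/
theorem symp_basis (E : Matrix (Fin 4) (Fin 4) ℤ) (hE : ∀ i j, E i j = -E j i) (hdet : E.det ≠ 0) :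
    ∃ (P : Matrix (Fin 4) (Fin 4) ℤ) (n d : ℕ), 1 ≤ n ∧ 1 ≤ d ∧ IsUnit P.det ∧
      P * E * P.transpose = !![0, 0, (n : ℤ), 0; 0, 0, 0, (n * d : ℤ); -(n : ℤ), 0, 0, 0; 0, -(n * d : ℤ), 0, 0] := by
  obtain ⟨n, x, y, hn, hxy, hmin⟩ := NfA_min E hE hdet
  have hn' : (0 : ℤ) < n := by exact_mod_cast hn
  obtain ⟨z, w, hxz, hxw, hzy, hwy, hzw, hspan⟩ := NfA_basis E hE n x y hn' hxy hmin
  let P : Matrix (Fin 4) (Fin 4) ℤ := ![x, z, y, w]
  have hunit : IsUnit P.det := by
    choose a b c d hv using fun i : Fin 4 => hspan (Pi.single i 1)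
    let Q : Matrix (Fin 4) (Fin 4) ℤ := fun i => ![a i, b i, c i, d i]
    have hQP : Q * P = 1 := by
      ext i j
      rw [Matrix.mul_apply, Fin.sum_univ_four]
      have h1 := congrFun (hv i) j
      simp only [Pi.add_apply, Pi.smul_apply, smul_eq_mul] at h1
      show a i * x j + b i * z j + c i * y j + d i * w j = (1 : Matrix (Fin 4) (Fin 4) ℤ) i j
      rw [← h1, Matrix.one_apply, Pi.single_apply]
      simp only [eq_comm]
    have h2 := congrArg Matrix.det hQP
    rw [Matrix.det_mul, Matrix.det_one] at h2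
    exact IsUnit.of_mul_eq_one _ ((mul_comm _ _).trans h2)
  have hPEP : ∀ i j, (P * E * P.transpose) i j = NfA_B E (P i) (P j) := by
    intro i j
    rw [NfA_B_apply, Matrix.dotProduct_mulVec, Matrix.mul_apply, dotProduct]
    rfl
  have hmat : P * E * P.transpose = !![0, 0, (n : ℤ), 0; 0, 0, 0, NfA_B E z w;
      -(n : ℤ), 0, 0, 0; 0, -NfA_B E z w, 0, 0] := by
    ext i j
    rw [hPEP]
    have hyx : NfA_B E y x = -n := by rw [NfA_anti E hE, hxy]
    have hzx : NfA_B E z x = 0 := by rw [NfA_anti E hE, hxz, neg_zero]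
    have hwx : NfA_B E w x = 0 := by rw [NfA_anti E hE, hxw, neg_zero]
    have hyz : NfA_B E y z = 0 := by rw [NfA_anti E hE, hzy, neg_zero]
    have hyw : NfA_B E y w = 0 := by rw [NfA_anti E hE, hwy, neg_zero]
    have hwz : NfA_B E w z = -NfA_B E z w := NfA_anti E hE w z
    fin_cases i <;> fin_cases j
    · exact NfA_self E hE x
    · exact hxz
    · exact hxy
    · exact hxw
    · exact hzx
    · exact NfA_self E hE z
    · exact hzy
    · exact rfl
    · exact hyx
    · exact hyz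
    · exact NfA_self E hE y
    · exact hyw
    · exact hwx
    · exact hwz
    · exact hwy
    · exact NfA_self E hE w
  have hl0 : NfA_B E z w ≠ 0 := by
    intro h0
    rw [h0] at hmat
    have h1 : (P * E * P.transpose).det = 0 := by
      rw [hmat]
      apply Matrix.det_eq_zero_of_row_eq_zero 1
      intro j
      fin_cases j <;> rfl
    rw [Matrix.det_mul, Matrix.det_mul, Matrix.det_transpose] at h1
    have h2 := hunit.ne_zero
    rcases mul_eq_zero.1 h1 with h3 | h3
    · rcases mul_eq_zero.1 h3 with h4 | h4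
      · exact h2 h4
      · exact hdet h4
    · exact h2 h3
  have hlpos : 0 < NfA_B E z w := lt_of_le_of_ne hzw (Ne.symm hl0)
  have hdvd : (n : ℤ) ∣ NfA_B E z w := by
    have h1 : NfA_B E (z - (NfA_B E z w / n) • x) (y + w) = NfA_B E z w % n := by
      rw [map_sub, map_smul, LinearMap.sub_apply, LinearMap.smul_apply, map_add, map_add, hzy,
        hxy, hxw, smul_eq_mul]
      have := Int.emod_add_mul_ediv (NfA_B E z w) n
      linarith [mul_comm (n : ℤ) (NfA_B E z w / n)]
    have h2 := Int.emod_nonneg (NfA_B E z w) hn'.ne'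
    have h3 := Int.emod_lt_of_pos (NfA_B E z w) hn'
    rcases h2.eq_or_lt with h4 | h4
    · exact Int.dvd_of_emod_eq_zero h4.symm
    · have h5 := hmin _ _ (h1 ▸ h4)
      omega
  obtain ⟨d, hd⟩ := hdvd
  have hdpos : 0 < d := by
    rw [hd] at hlpos
    exact (mul_pos_iff_of_pos_left hn').1 hlpos
  refine ⟨P, n, d.toNat, hn, by omega, hunit, ?_⟩
  have hd' : ((d.toNat : ℕ) : ℤ) = d := Int.toNat_of_nonneg hdpos.le
  rw [hmat, hd, hd']

end Q2T
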