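import Pool.Agent.H.MP_89f84f_ag.q3.NsA

set_option autoImplicit false

open Complex Topology Filter Asymptotics Metric Set

namespace Q2T

namespace PerData

variable (S : PerData)

/-- The Pfaffian: half the self-intersection number of the class `H`; the dimension of the space of theta functions if `H` is
positive definite. -/
noncomputable def pf (H : Matrix (Fin 2) (Fin 2) ℂ) : ℝ := S.d * S.D * H.det.re

/-- The intersection number with the polarisation, up to the factor of `pf`: `d · tr (Y H)`. -/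
noncomputable def dg (H : Matrix (Fin 2) (Fin 2) ℂ) : ℝ :=
  S.d * ((S.τ 0 0).im * (H 0 0).re + (S.τ 1 1).im * (H 1 1).re + 2 * ((S.τ 0 1).im * (H 0 1).re))

private theorem NsD_herm {H : Matrix (Fin 2) (Fin 2) ℂ} (hH : H.IsHermitian) :
    (H 0 0).im = 0 ∧ (H 1 1).im = 0 ∧ (H 1 0).re = (H 0 1).re ∧ (H 1 0).im = -(H 0 1).im := by
  have h : ∀ i j, (starRingEnd ℂ) (H j i) = H i j := fun i j => by
    have := congrFun (congrFun hH i) j
    rwa [Matrix.conjTranspose_apply] at this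
  have h1 := congrArg Complex.im (h 0 0)
  have h2 := congrArg Complex.im (h 1 1)
  have h3 := congrArg Complex.re (h 1 0)
  have h4 := congrArg Complex.im (h 1 0)
  rw [Complex.conj_im] at h1 h2 h4
  rw [Complex.conj_re] at h3
  refine ⟨by linarith, by linarith, h3.symm, h4.symm⟩

private theorem NsD_det {H : Matrix (Fin 2) (Fin 2) ℂ} (hH : H.IsHermitian) :
    H.det.re = (H 0 0).re * (H 1 1).re - ((H 0 1).re ^ 2 + (H 0 1).im ^ 2) := by
  obtain ⟨h1, h2, h3, h4⟩ := NsD_herm hH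
  rw [Matrix.det_fin_two, Complex.sub_re, Complex.mul_re, Complex.mul_re, h1, h2, h3, h4]
  ring

private theorem NsD_pd {H : Matrix (Fin 2) (Fin 2) ℂ} (hH : H.IsHermitian) (hp : PD H) :
    0 < (H 0 0).re ∧ 0 < (H 1 1).re ∧ 0 < H.det.re := by
  obtain ⟨h1, h2, h3, h4⟩ := NsD_herm hH
  have k0 : 0 < (H 0 0).re := by
    have h5 := hp ![1, 0] (by
      intro h
      have := congrFun h 0
      simp at this)
    simp only [hm, Fin.sum_univ_two, Matrix.cons_val_zero, Matrix.cons_val_one, map_one, map_zero, mul_one,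
      mul_zero, add_zero] at h5
    exact h5
  have k1 : 0 < (H 1 1).re := by
    have h5 := hp ![0, 1] (by
      intro h
      have := congrFun h 1
      simp at this)
    simp only [hm, Fin.sum_univ_two, Matrix.cons_val_zero, Matrix.cons_val_one, map_one, map_zero, mul_one,
      mul_zero, zero_add] at h5
    exact h5
  refine ⟨k0, k1, ?_⟩
  have h5 := hp ![-H 1 0, ((H 0 0).re : ℂ)] (by
    intro h
    have h6 : ((H 0 0).re : ℂ) = 0 := congrFun h 1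
    have h7 : (H 0 0).re = 0 := by exact_mod_cast h6
    linarith)
  have h6 : (hm H ![-H 1 0, ((H 0 0).re : ℂ)] ![-H 1 0, ((H 0 0).re : ℂ)]).re = (H 0 0).re * H.det.re := by
    rw [NsD_det hH]
    simp only [hm, Fin.sum_univ_two, Matrix.cons_val_zero, Matrix.cons_val_one, Complex.add_re,
      Complex.mul_re, Complex.mul_im, Complex.neg_re, Complex.neg_im, Complex.conj_re, Complex.conj_im,
      Complex.ofReal_re, Complex.ofReal_im, map_neg, h1, h2, h3, h4]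
    ring
  rw [h6] at h5
  exact (mul_pos_iff_of_pos_left k0).1 h5

private theorem NsD_D : 0 < S.D := by
  have := S.det_pos
  unfold D
  linarith

/-- The determinant of an alternating matrix of size four. -/
private theorem NsD_alt (M : Matrix (Fin 4) (Fin 4) ℝ) (h : ∀ i j, M j i = -M i j) :
    M.det = (M 0 2 * M 1 3 - M 0 3 * M 1 2 - M 0 1 * M 2 3) ^ 2 := by
  have hd : ∀ i, M i i = 0 := fun i => by linarith [h i i]
  rw [Matrix.det_succ_row_zero]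
  simp only [Fin.sum_univ_succ, Matrix.det_fin_three, Matrix.submatrix_apply]
  simp [Fin.succAbove, Fin.lt_def]
  rw [hd 0, hd 1, hd 2, hd 3, h 0 1, h 0 2, h 0 3, h 1 2, h 1 3, h 2 3]
  ring

theorem pf_H0 : S.pf S.H0 = S.d := by
  have hD := (NsD_D S).ne'
  have h1 : S.H0.det.re = 1 / S.D := by
    rw [NsD_det S.H0_herm]
    have e00 : S.H0 0 0 = (((S.τ 1 1).im / S.D : ℝ) : ℂ) := by rw [Complex.ofReal_div]; rfl
    have e01 : S.H0 0 1 = ((-(S.τ 0 1).im / S.D : ℝ) : ℂ) := by rw [Complex.ofReal_div, Complex.ofReal_neg]; rfl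
    have e11 : S.H0 1 1 = (((S.τ 0 0).im / S.D : ℝ) : ℂ) := by rw [Complex.ofReal_div]; rfl
    rw [e00, e01, e11]
    simp only [Complex.ofReal_re, Complex.ofReal_im]
    have h2 : (S.τ 0 0).im * (S.τ 1 1).im - (S.τ 0 1).im ^ 2 = S.D := rfl
    field_simp
    linear_combination h2
  unfold pf
  rw [h1]
  field_simp

theorem pf_smul (c : ℝ) (H : Matrix (Fin 2) (Fin 2) ℂ) : S.pf ((c : ℂ) • H) = c ^ 2 * S.pf H := by
  unfold pf
  rw [Matrix.det_smul, Fintype.card_fin, ← Complex.ofReal_pow, Complex.re_ofReal_mul]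
  ring

theorem dg_add (H H' : Matrix (Fin 2) (Fin 2) ℂ) : S.dg (H + H') = S.dg H + S.dg H' := by
  unfold dg
  simp only [Matrix.add_apply, Complex.add_re]
  ring

private theorem NsD_pf {H : Matrix (Fin 2) (Fin 2) ℂ} (hH : H.IsHermitian) :
    S.pf H = (hm H (S.tv ![1, 0]) (S.dv ![1, 0])).im * (hm H (S.tv ![0, 1]) (S.dv ![0, 1])).im -
      (hm H (S.tv ![1, 0]) (S.dv ![0, 1])).im * (hm H (S.tv ![0, 1]) (S.dv ![1, 0])).im -
      (hm H (S.tv ![1, 0]) (S.tv ![0, 1])).im * (hm H (S.dv ![1, 0]) (S.dv ![0, 1])).im := by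
  obtain ⟨h1, h2, h3, h4⟩ := NsD_herm hH
  have a0 : S.tv ![1, 0] 0 = S.τ 0 0 := by simp
  have a1 : S.tv ![1, 0] 1 = S.τ 0 1 := by simp [S.symm]
  have b0 : S.tv ![0, 1] 0 = S.τ 0 1 := by simp
  have b1 : S.tv ![0, 1] 1 = S.τ 1 1 := by simp
  have c0 : S.dv ![1, 0] 0 = 1 := by simp
  have c1 : S.dv ![1, 0] 1 = 0 := by simp
  have d0 : S.dv ![0, 1] 0 = 0 := by simp
  have d1 : S.dv ![0, 1] 1 = ((S.d : ℝ) : ℂ) := by simp
  unfold pf
  rw [NsD_det hH]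
  simp only [hm, Fin.sum_univ_two, a0, a1, b0, b1, c0, c1, d0, d1, Complex.add_im, Complex.mul_re,
    Complex.mul_im, Complex.conj_re, Complex.conj_im, Complex.ofReal_re, Complex.ofReal_im, map_one, map_zero,
    Complex.one_re, Complex.one_im, Complex.zero_re, Complex.zero_im, h1, h2, h3, h4]
  unfold D
  ring

/-- PROOF: `E (x, y) = (hm H x y).im` on `e₀ = τ e_0, e₁ = τ e_1, f₀ = Δ e_0, f₁ = Δ e_1`: the Pfaffian
`E(e₀,f₀) E(e₁,f₁) - E(e₀,f₁) E(e₁,f₀) - E(e₀,e₁) E(f₀,f₁)` equals `d D det H` (a polynomial identity in `X, Y, H` where `τ = X + i Y` is symmetric and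
`H` Hermitian; check the sign of the last term with `ring`). -/
theorem pf_int {H : Matrix (Fin 2) (Fin 2) ℂ} (hH : H ∈ S.NS) : ∃ n : ℤ, S.pf H = n := by
  have hl : ∀ p q : Z2, S.tv p + S.dv q ∈ S.Lat := fun p q => ⟨p, q, rfl⟩
  have e0 : S.tv ![1, 0] ∈ S.Lat := by
    have := hl ![1, 0] 0
    rwa [S.dv_zero, add_zero] at this
  have e1 : S.tv ![0, 1] ∈ S.Lat := by
    have := hl ![0, 1] 0
    rwa [S.dv_zero, add_zero] at this
  have f0 : S.dv ![1, 0] ∈ S.Lat := by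
    have := hl 0 ![1, 0]
    rwa [S.tv_zero, zero_add] at this
  have f1 : S.dv ![0, 1] ∈ S.Lat := by
    have := hl 0 ![0, 1]
    rwa [S.tv_zero, zero_add] at this
  obtain ⟨k1, hk1⟩ := hH.2 _ e0 _ f0
  obtain ⟨k2, hk2⟩ := hH.2 _ e1 _ f1
  obtain ⟨k3, hk3⟩ := hH.2 _ e0 _ f1
  obtain ⟨k4, hk4⟩ := hH.2 _ e1 _ f0
  obtain ⟨k5, hk5⟩ := hH.2 _ e0 _ e1
  obtain ⟨k6, hk6⟩ := hH.2 _ f0 _ f1
  refine ⟨k1 * k2 - k3 * k4 - k5 * k6, ?_⟩
  rw [NsD_pf S hH.1, hk1, hk2, hk3, hk4, hk5, hk6]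
  push_cast
  ring

/-- The square of the Pfaffian is the determinant of the Gram matrix of `Im H` on the basis of the lattice. -/
theorem pf_sq {H : Matrix (Fin 2) (Fin 2) ℂ} (hH : H.IsHermitian) :
    S.pf H ^ 2 = (Matrix.of fun i j : Fin 4 => (hm H
      ((![S.tv ![1, 0], S.tv ![0, 1], S.dv ![1, 0], S.dv ![0, 1]] : Fin 4 → C2) i)
      ((![S.tv ![1, 0], S.tv ![0, 1], S.dv ![1, 0], S.dv ![0, 1]] : Fin 4 → C2) j)).im).det := by
  rw [NsD_alt]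
  · rw [NsD_pf S hH]
    rfl
  · intro i j
    simp only [Matrix.of_apply]
    rw [← hm_conj hH, Complex.conj_im]

/-- PROOF: `pf (H0 + H) - pf H0 - pf H = dg H`, and `pf_int`. -/
theorem dg_int {H : Matrix (Fin 2) (Fin 2) ℂ} (hH : H ∈ S.NS) : ∃ n : ℤ, S.dg H = n := by
  obtain ⟨n, hn⟩ := S.pf_int (S.NS.add_mem S.H0_mem hH)
  obtain ⟨k, hk⟩ := S.pf_int hH
  refine ⟨n - S.d - k, ?_⟩
  have hD := (NsD_D S).ne'
  have h1 : S.dg H = S.pf (S.H0 + H) - S.d - S.pf H := by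
    have h0 := S.pf_H0
    rw [← h0]
    unfold pf dg
    obtain ⟨h1, h2, h3, h4⟩ := NsD_herm hH.1
    have e00 : S.H0 0 0 = (((S.τ 1 1).im / S.D : ℝ) : ℂ) := by rw [Complex.ofReal_div]; rfl
    have e01 : S.H0 0 1 = ((-(S.τ 0 1).im / S.D : ℝ) : ℂ) := by rw [Complex.ofReal_div, Complex.ofReal_neg]; rfl
    have e11 : S.H0 1 1 = (((S.τ 0 0).im / S.D : ℝ) : ℂ) := by rw [Complex.ofReal_div]; rfl
    rw [NsD_det (S.H0_herm.add hH.1), NsD_det S.H0_herm, NsD_det hH.1]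
    simp only [Matrix.add_apply, Complex.add_re, Complex.add_im]
    rw [e00, e01, e11]
    simp only [Complex.ofReal_re, Complex.ofReal_im]
    field_simp
    ring
  rw [h1, hn, hk]
  push_cast
  ring

theorem pf_pos {H : Matrix (Fin 2) (Fin 2) ℂ} (hH : H.IsHermitian) (hp : PD H) : 0 < S.pf H := by
  obtain ⟨-, -, h1⟩ := NsD_pd hH hp
  have hd : (0 : ℝ) < S.d := by exact_mod_cast S.d_pos
  exact mul_pos (mul_pos hd (NsD_D S)) h1

/-- PROOF: `tr (Y H) > 0` for positive definite `Y`, `H`: diagonalise, or `Y 0 0 H 0 0 + Y 1 1 H 1 1 ≥ 2 √(Y 0 0 Y 1 1 H 0 0 H 1 1) > 2 |Y 0 1| |H 0 1|`. -/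
theorem dg_pos {H : Matrix (Fin 2) (Fin 2) ℂ} (hH : H.IsHermitian) (hp : PD H) : 0 < S.dg H := by
  obtain ⟨k0, k1, k2⟩ := NsD_pd hH hp
  have hd : (0 : ℝ) < S.d := by exact_mod_cast S.d_pos
  rw [NsD_det hH] at k2
  have hY0 := S.pos
  have hY := S.det_pos
  have hY1 : 0 < (S.τ 1 1).im := by
    by_contra hn
    push Not at hn
    nlinarith [sq_nonneg (S.τ 0 1).im, mul_nonneg hY0.le (neg_nonneg.2 hn)]
  refine mul_pos hd ?_
  have h1 : ((S.τ 0 1).im * (H 0 1).re) ^ 2 < ((S.τ 0 0).im * (S.τ 1 1).im) * ((H 0 0).re * (H 1 1).re) := by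
    rw [mul_pow]
    have h2 : (H 0 1).re ^ 2 < (H 0 0).re * (H 1 1).re := by nlinarith [sq_nonneg (H 0 1).im]
    exact mul_lt_mul'' hY h2 (sq_nonneg _) (sq_nonneg _)
  have h2 : |2 * ((S.τ 0 1).im * (H 0 1).re)| < (S.τ 0 0).im * (H 0 0).re + (S.τ 1 1).im * (H 1 1).re := by
    have h3 : 0 ≤ (S.τ 0 0).im * (H 0 0).re + (S.τ 1 1).im * (H 1 1).re := by positivity
    refine abs_lt_of_sq_lt_sq ?_ h3
    nlinarith [sq_nonneg ((S.τ 0 0).im * (H 0 0).re - (S.τ 1 1).im * (H 1 1).re)]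
  linarith [(abs_lt.1 h2).1]

/-- Hodge index.
PROOF: Minkowski's inequality `√det (G + G') ≥ √det G + √det G'` for positive definite Hermitian `2 × 2` matrices
(`G 0 0 G' 1 1 + G 1 1 G' 0 0 - 2 Re (G 0 1 G' 1 0) ≥ 2 √(det G det G')`). -/
theorem hodge {G G' : Matrix (Fin 2) (Fin 2) ℂ} (hG : G.IsHermitian) (hG' : G'.IsHermitian) (hp : PD G) (hp' : PD G')
    {m m' : ℝ} (hm0 : 0 ≤ m) (hm0' : 0 ≤ m') (h : m ^ 2 ≤ 2 * S.pf G) (h' : m' ^ 2 ≤ 2 * S.pf G') :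
    (m + m') ^ 2 ≤ 2 * S.pf (G + G') := by
  obtain ⟨k0, -, k2⟩ := NsD_pd hG hp
  obtain ⟨k0', -, k2'⟩ := NsD_pd hG' hp'
  have hd : (0 : ℝ) < S.d := by exact_mod_cast S.d_pos
  have hD := NsD_D S
  unfold pf at h h' ⊢
  rw [NsD_det (hG.add hG')]
  rw [NsD_det hG] at h
  rw [NsD_det hG'] at h'
  simp only [Matrix.add_apply, Complex.add_re, Complex.add_im]
  obtain ⟨g0, hg0⟩ : ∃ r, r = (G 0 0).re := ⟨_, rfl⟩
  obtain ⟨g1, hg1⟩ : ∃ r, r = (G 1 1).re := ⟨_, rfl⟩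
  obtain ⟨u, hu⟩ : ∃ r, r = (G 0 1).re := ⟨_, rfl⟩
  obtain ⟨v, hv⟩ : ∃ r, r = (G 0 1).im := ⟨_, rfl⟩
  obtain ⟨g0', hg0'⟩ : ∃ r, r = (G' 0 0).re := ⟨_, rfl⟩
  obtain ⟨g1', hg1'⟩ : ∃ r, r = (G' 1 1).re := ⟨_, rfl⟩
  obtain ⟨u', hu'⟩ : ∃ r, r = (G' 0 1).re := ⟨_, rfl⟩
  obtain ⟨v', hv'⟩ : ∃ r, r = (G' 0 1).im := ⟨_, rfl⟩
  obtain ⟨c, hc⟩ : ∃ c : ℝ, c = S.d * S.D := ⟨_, rfl⟩
  rw [← hg0, ← hg1, ← hu, ← hv, ← hc] at h
  rw [← hg0', ← hg1', ← hu', ← hv', ← hc] at h'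
  rw [← hg0, ← hg1, ← hu, ← hv, ← hg0', ← hg1', ← hu', ← hv', ← hc]
  rw [← hg0] at k0
  rw [← hg0'] at k0'
  have hc0 : 0 < c := by rw [hc]; exact mul_pos hd hD
  have key : g0 * g0' * (m * m') ≤ g0 * g0' * (c * (g0 * g1' + g1 * g0' - 2 * (u * u' + v * v'))) := by
    have a1 : 0 ≤ c * ((g0 * u' - g0' * u) ^ 2 + (g0 * v' - g0' * v) ^ 2) := by positivity
    have a2 : g0 ^ 2 * m' ^ 2 ≤ g0 ^ 2 * (2 * (c * (g0' * g1' - (u' ^ 2 + v' ^ 2)))) :=
      mul_le_mul_of_nonneg_left h' (sq_nonneg _)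
    have a3 : g0' ^ 2 * m ^ 2 ≤ g0' ^ 2 * (2 * (c * (g0 * g1 - (u ^ 2 + v ^ 2)))) :=
      mul_le_mul_of_nonneg_left h (sq_nonneg _)
    have a4 := sq_nonneg (g0 * m' - g0' * m)
    nlinarith
  have key2 := le_of_mul_le_mul_left key (mul_pos k0 k0')
  nlinarith

end PerData

end Q2T
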