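import Pool.Agent.H.MP_89f84f_ag.q3.NfA
import Pool.Agent.H.MP_89f84f_ag.q3.NsD

set_option autoImplicit false

open Complex Topology Filter Asymptotics Metric Set

namespace Q2T

namespace PerData

variable (S : PerData)

/-- Normal form of a positive definite class: a linear isomorphism `A` of `ℂ²` taking the lattice to the lattice of `S'` and the class `H`
to `n` times the polarisation of `S'`. -/
structure NF (H : Matrix (Fin 2) (Fin 2) ℂ) (S' : PerData) (n : ℕ) (A : C2 ≃ₗ[ℂ] C2) : Prop where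
  n_pos : 1 ≤ n
  lat : ∀ x, x ∈ S.Lat ↔ A x ∈ S'.Lat
  form : ∀ z w, hm H z w = n * hm S'.H0 (A z) (A w)
  pf : S.pf H = (n : ℝ) ^ 2 * S'.d

private theorem nfB_smul_left (H : Matrix (Fin 2) (Fin 2) ℂ) (c : ℂ) (z w : C2) :
    hm H (c • z) w = c * hm H z w := by
  simp only [hm, Fin.sum_univ_two, Pi.smul_apply, smul_eq_mul]
  ring

private theorem nfB_smul_right (H : Matrix (Fin 2) (Fin 2) ℂ) (c : ℂ) (z w : C2) :
    hm H z (c • w) = (starRingEnd ℂ) c * hm H z w := by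
  simp only [hm, Fin.sum_univ_two, Pi.smul_apply, smul_eq_mul, map_mul]
  ring

/-- The imaginary part. -/
private noncomputable def nfB_e (H : Matrix (Fin 2) (Fin 2) ℂ) (z w : C2) : ℝ := (hm H z w).im

private theorem nfB_e_add_left (H : Matrix (Fin 2) (Fin 2) ℂ) (z x w : C2) :
    nfB_e H (z + x) w = nfB_e H z w + nfB_e H x w := by
  unfold nfB_e
  rw [hm_add_left, Complex.add_im]

private theorem nfB_e_add_right (H : Matrix (Fin 2) (Fin 2) ℂ) (z w y : C2) :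
    nfB_e H z (w + y) = nfB_e H z w + nfB_e H z y := by
  unfold nfB_e
  rw [hm_add_right, Complex.add_im]

private theorem nfB_e_smul_left (H : Matrix (Fin 2) (Fin 2) ℂ) (r : ℝ) (z w : C2) :
    nfB_e H ((r : ℂ) • z) w = r * nfB_e H z w := by
  unfold nfB_e
  rw [nfB_smul_left, Complex.im_ofReal_mul]

private theorem nfB_e_smul_right (H : Matrix (Fin 2) (Fin 2) ℂ) (r : ℝ) (z w : C2) :
    nfB_e H z ((r : ℂ) • w) = r * nfB_e H z w := by
  unfold nfB_e
  rw [nfB_smul_right, Complex.conj_ofReal, Complex.im_ofReal_mul]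

private theorem nfB_det (n d : ℤ) :
    (!![0, 0, n, 0; 0, 0, 0, n * d; -n, 0, 0, 0; 0, -(n * d), 0, 0] :
      Matrix (Fin 4) (Fin 4) ℤ).det = (n ^ 2 * d) ^ 2 := by
  simp [Matrix.det_succ_row_zero, Fin.sum_univ_succ, Fin.succAbove]
  ring

/-- The combinations of the rows of a unimodular matrix. -/
private theorem nfB_comb {b : Fin 4 → C2} (P : Matrix (Fin 4) (Fin 4) ℤ) (k : Fin 4 → ℤ) :
    ∑ i, ((k i : ℤ) : ℂ) • ∑ j, ((P i j : ℤ) : ℂ) • b j =
      ∑ j, (((Matrix.vecMul k P) j : ℤ) : ℂ) • b j := by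
  simp only [Finset.smul_sum, smul_smul]
  rw [Finset.sum_comm]
  refine Finset.sum_congr rfl fun j _ => ?_
  rw [← Finset.sum_smul]
  congr 1
  simp only [Matrix.vecMul, dotProduct]
  push_cast
  rfl

private theorem nfB_comb_iff {b : Fin 4 → C2} {P : Matrix (Fin 4) (Fin 4) ℤ} (hP : IsUnit P.det)
    (x : C2) : (∃ k : Fin 4 → ℤ, x = ∑ j, ((k j : ℤ) : ℂ) • b j) ↔
      ∃ k : Fin 4 → ℤ, x = ∑ i, ((k i : ℤ) : ℂ) • ∑ j, ((P i j : ℤ) : ℂ) • b j := by
  constructor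
  · rintro ⟨k, rfl⟩
    refine ⟨Matrix.vecMul k P⁻¹, ?_⟩
    rw [nfB_comb, Matrix.vecMul_vecMul, Matrix.nonsing_inv_mul P hP, Matrix.vecMul_one]
  · rintro ⟨k, rfl⟩
    exact ⟨Matrix.vecMul k P, nfB_comb P k⟩

/-- Coordinates with respect to two independent vectors. -/
private theorem nfB_equiv {m0 m1 : C2} {d : ℕ} (hd : 0 < d)
    (hΔ : m0 0 * m1 1 - m0 1 * m1 0 ≠ 0) : ∃ A : C2 ≃ₗ[ℂ] C2, A m0 = ![1, 0] ∧
      A m1 = ![0, (d : ℂ)] ∧ ∀ z, z = A z 0 • m0 + (A z 1 / d) • m1 := by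
  have hd' : (d : ℂ) ≠ 0 := by exact_mod_cast hd.ne'
  obtain ⟨Δ, hΔd⟩ : ∃ Δ, Δ = m0 0 * m1 1 - m0 1 * m1 0 := ⟨_, rfl⟩
  rw [← hΔd] at hΔ
  let A : C2 ≃ₗ[ℂ] C2 :=
    { toFun := fun z => ![(z 0 * m1 1 - z 1 * m1 0) / Δ, d * (z 1 * m0 0 - z 0 * m0 1) / Δ]
      map_add' := by
        intro x y
        funext i
        fin_cases i
        · show ((x 0 + y 0) * m1 1 - (x 1 + y 1) * m1 0) / Δ =
            (x 0 * m1 1 - x 1 * m1 0) / Δ + (y 0 * m1 1 - y 1 * m1 0) / Δ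
          ring
        · show d * ((x 1 + y 1) * m0 0 - (x 0 + y 0) * m0 1) / Δ =
            d * (x 1 * m0 0 - x 0 * m0 1) / Δ + d * (y 1 * m0 0 - y 0 * m0 1) / Δ
          ring
      map_smul' := by
        intro c x
        funext i
        fin_cases i
        · show ((c * x 0) * m1 1 - (c * x 1) * m1 0) / Δ = c * ((x 0 * m1 1 - x 1 * m1 0) / Δ)
          ring
        · show d * ((c * x 1) * m0 0 - (c * x 0) * m0 1) / Δ =
            c * (d * (x 1 * m0 0 - x 0 * m0 1) / Δ)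
          ring
      invFun := fun w => w 0 • m0 + (w 1 / d) • m1
      left_inv := by
        intro z
        funext i
        fin_cases i
        · show (z 0 * m1 1 - z 1 * m1 0) / Δ * m0 0 +
            (d * (z 1 * m0 0 - z 0 * m0 1) / Δ) / d * m1 0 = z 0
          field_simp
          rw [hΔd]
          ring
        · show (z 0 * m1 1 - z 1 * m1 0) / Δ * m0 1 +
            (d * (z 1 * m0 0 - z 0 * m0 1) / Δ) / d * m1 1 = z 1
          field_simp
          rw [hΔd]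
          ring
      right_inv := by
        intro w
        funext i
        fin_cases i
        · show ((w 0 * m0 0 + w 1 / d * m1 0) * m1 1 - (w 0 * m0 1 + w 1 / d * m1 1) * m1 0) / Δ =
            w 0
          field_simp
          rw [hΔd]
          ring
        · show d * ((w 0 * m0 1 + w 1 / d * m1 1) * m0 0 -
            (w 0 * m0 0 + w 1 / d * m1 0) * m0 1) / Δ = w 1
          field_simp
          rw [hΔd]
          ring }
  refine ⟨A, ?_, ?_, fun z => (A.symm_apply_apply z).symm⟩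
  · funext i
    fin_cases i
    · show (m0 0 * m1 1 - m0 1 * m1 0) / Δ = 1
      rw [← hΔd, div_self hΔ]
    · show d * (m0 1 * m0 0 - m0 0 * m0 1) / Δ = 0
      rw [mul_comm (m0 1) (m0 0), sub_self, mul_zero, zero_div]
  · funext i
    fin_cases i
    · show (m1 0 * m1 1 - m1 1 * m1 0) / Δ = 0
      rw [mul_comm (m1 1) (m1 0), sub_self, zero_div]
    · show d * (m1 1 * m0 0 - m1 0 * m0 1) / Δ = d
      rw [mul_comm (m1 1) (m0 0), mul_comm (m1 0) (m0 1), ← hΔd, mul_div_cancel_right₀ _ hΔ]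

/-- The two vectors are independent. -/
private theorem nfB_indep {H : Matrix (Fin 2) (Fin 2) ℂ} (hH : H.IsHermitian) (hp : PD H)
    {l1 m0 m1 : C2} (h1 : (hm H l1 m0).im = 0) (h2 : (hm H l1 m1).im ≠ 0)
    (h3 : (hm H m0 m1).im = 0) (h0 : m0 ≠ 0) : m0 0 * m1 1 - m0 1 * m1 0 ≠ 0 := by
  intro hΔ
  have hc : ∃ c : ℂ, m1 = c • m0 := by
    by_cases h : m0 0 = 0
    · have h' : m0 1 ≠ 0 := by
        intro h'
        apply h0
        funext i
        fin_cases i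
        · exact h
        · exact h'
      refine ⟨m1 1 / m0 1, ?_⟩
      funext i
      fin_cases i
      · show m1 0 = m1 1 / m0 1 * m0 0
        rw [h, zero_mul, zero_sub, neg_eq_zero] at hΔ
        rw [h, mul_zero]
        exact (mul_eq_zero.1 hΔ).resolve_left h'
      · show m1 1 = m1 1 / m0 1 * m0 1
        field_simp
    · refine ⟨m1 0 / m0 0, ?_⟩
      funext i
      fin_cases i
      · show m1 0 = m1 0 / m0 0 * m0 0
        field_simp
      · show m1 1 = m1 0 / m0 0 * m0 1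
        field_simp
        linear_combination hΔ
  obtain ⟨c, hc⟩ := hc
  have hpos := hp m0 h0
  have him := hm_self_im hH m0
  have e1 : hm H m0 m0 = (((hm H m0 m0).re : ℝ) : ℂ) := by
    apply Complex.ext
    · rw [Complex.ofReal_re]
    · rw [Complex.ofReal_im, him]
  have e2 : (hm H m0 m1).im = -c.im * (hm H m0 m0).re := by
    rw [hc, nfB_smul_right, e1]
    simp
  have hci : c.im = 0 := by
    rw [h3] at e2
    have h4 : c.im * (hm H m0 m0).re = 0 := by linarith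
    exact (mul_eq_zero.1 h4).resolve_right hpos.ne'
  have hcr : c = ((c.re : ℝ) : ℂ) := by
    apply Complex.ext
    · rw [Complex.ofReal_re]
    · rw [Complex.ofReal_im, hci]
  apply h2
  rw [hc, nfB_smul_right, hcr, Complex.conj_ofReal, Complex.im_ofReal_mul, h1, mul_zero]

private theorem nfB_real {z : ℂ} (h : z.im = 0) : z = ((z.re : ℝ) : ℂ) := by
  apply Complex.ext
  · rw [Complex.ofReal_re]
  · rw [Complex.ofReal_im, h]

/-- The real part of the construction. -/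
private theorem nfB_main {H : Matrix (Fin 2) (Fin 2) ℂ} (hH : H.IsHermitian) (hp : PD H)
    {n d : ℕ} (hn : 1 ≤ n) (hd : 1 ≤ d) {l0 l1 m0 m1 : C2}
    (f1 : (hm H l0 m0).im = n) (f2 : (hm H l1 m1).im = n * d) (f3 : (hm H l0 l1).im = 0)
    (f4 : (hm H l0 m1).im = 0) (f5 : (hm H l1 m0).im = 0) (f6 : (hm H m0 m1).im = 0) :
    ∃ (S' : PerData) (A : C2 ≃ₗ[ℂ] C2), S'.d = d ∧
      (∀ z w, hm H z w = n * hm S'.H0 (A z) (A w)) ∧
      ∀ p q : Z2, S'.tv p + S'.dv q =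
        A ((p 0 : ℂ) • l0 + (p 1 : ℂ) • l1 + (q 0 : ℂ) • m0 + (q 1 : ℂ) • m1) := by
  have hn0 : (0 : ℝ) < n := by exact_mod_cast hn
  have hd0 : (0 : ℝ) < d := by exact_mod_cast hd
  have hnC : (n : ℂ) ≠ 0 := by exact_mod_cast hn0.ne'
  have hdC : (d : ℂ) ≠ 0 := by exact_mod_cast hd0.ne'
  have hm0 : m0 ≠ 0 := by
    intro h
    rw [h] at f1
    have : hm H l0 0 = 0 := by
      simp [hm]
    rw [this, Complex.zero_im] at f1
    exact hn0.ne f1
  have hm1 : m1 ≠ 0 := by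
    intro h
    rw [h] at f2
    have : hm H l1 0 = 0 := by
      simp [hm]
    rw [this, Complex.zero_im] at f2
    exact (mul_pos hn0 hd0).ne f2
  have hΔ := nfB_indep hH hp f5 (by rw [f2]; positivity) f6 hm0
  obtain ⟨A, A0, A1, hA⟩ := nfB_equiv (d := d) (by omega) hΔ
  -- the Gram matrix
  obtain ⟨g00, hg00⟩ : ∃ g : ℝ, g = (hm H m0 m0).re / n := ⟨_, rfl⟩
  obtain ⟨g01, hg01⟩ : ∃ g : ℝ, g = (hm H m0 m1).re / (n * d) := ⟨_, rfl⟩
  obtain ⟨g11, hg11⟩ : ∃ g : ℝ, g = (hm H m1 m1).re / (n * d ^ 2) := ⟨_, rfl⟩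
  have e00 : hm H m0 m0 = ((n * g00 : ℝ) : ℂ) := by
    rw [nfB_real (hm_self_im hH m0), hg00]
    congr 1
    field_simp
  have e01 : hm H m0 m1 = ((n * d * g01 : ℝ) : ℂ) := by
    rw [nfB_real f6, hg01]
    congr 1
    field_simp
  have e10 : hm H m1 m0 = ((n * d * g01 : ℝ) : ℂ) := by
    rw [← hm_conj hH m0 m1, e01, Complex.conj_ofReal]
  have e11 : hm H m1 m1 = ((n * d ^ 2 * g11 : ℝ) : ℂ) := by
    rw [nfB_real (hm_self_im hH m1), hg11]
    congr 1
    field_simp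
  have hform : ∀ z w, hm H z w = n * (g00 * (A z 0 * (starRingEnd ℂ) (A w 0)) +
      g01 * (A z 0 * (starRingEnd ℂ) (A w 1)) + g01 * (A z 1 * (starRingEnd ℂ) (A w 0)) +
      g11 * (A z 1 * (starRingEnd ℂ) (A w 1))) := by
    intro z w
    have e2 : hm H z w = hm H (A z 0 • m0 + (A z 1 / d) • m1) (A w 0 • m0 + (A w 1 / d) • m1) := by
      rw [← hA z, ← hA w]
    rw [e2, hm_add_left, hm_add_right, hm_add_right, nfB_smul_left, nfB_smul_left, nfB_smul_left,
      nfB_smul_left, nfB_smul_right, nfB_smul_right, nfB_smul_right, nfB_smul_right, e00, e01, e10,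
      e11, map_div₀, Complex.conj_natCast]
    push_cast
    field_simp
    ring
  have p00 : 0 < g00 := by
    rw [hg00]
    exact div_pos (hp m0 hm0) hn0
  have p11 : 0 < g11 := by
    rw [hg11]
    exact div_pos (hp m1 hm1) (by positivity)
  obtain ⟨g, hg⟩ : ∃ g : ℝ, g = g00 * g11 - g01 ^ 2 := ⟨_, rfl⟩
  have hgp : 0 < g := by
    obtain ⟨z, hz⟩ : ∃ z, z = A.symm ![(g01 : ℂ), -(g00 : ℂ)] := ⟨_, rfl⟩
    have hAz : A z = ![(g01 : ℂ), -(g00 : ℂ)] := by
      rw [hz, LinearEquiv.apply_symm_apply]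
    have hz0 : z ≠ 0 := by
      intro h
      rw [h, map_zero] at hAz
      have h1 := congrFun hAz 1
      have h2 : (0 : ℂ) = -(g00 : ℂ) := h1
      have h3 : (g00 : ℂ) = 0 := by
        rw [← neg_eq_zero]
        exact h2.symm
      exact p00.ne' (by exact_mod_cast h3)
    have h1 := hp z hz0
    rw [hform, hAz] at h1
    have h2 : ((n : ℂ) * (g00 * ((g01 : ℂ) * (starRingEnd ℂ) (g01 : ℂ)) +
        g01 * ((g01 : ℂ) * (starRingEnd ℂ) (-(g00 : ℂ))) +
        g01 * (-(g00 : ℂ) * (starRingEnd ℂ) (g01 : ℂ)) +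
        g11 * (-(g00 : ℂ) * (starRingEnd ℂ) (-(g00 : ℂ))))) = ((n * (g00 * g) : ℝ) : ℂ) := by
      rw [map_neg, Complex.conj_ofReal, Complex.conj_ofReal, hg]
      push_cast
      ring
    have h3 : 0 < (((n * (g00 * g) : ℝ) : ℂ)).re := by
      rw [← h2]
      exact h1
    rw [Complex.ofReal_re] at h3
    exact pos_of_mul_pos_right (pos_of_mul_pos_right h3 hn0.le) p00.le
  -- the period matrix
  obtain ⟨t00, ht00⟩ : ∃ t, t = A l0 0 := ⟨_, rfl⟩
  obtain ⟨t10, ht10⟩ : ∃ t, t = A l0 1 := ⟨_, rfl⟩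
  obtain ⟨t01, ht01⟩ : ∃ t, t = A l1 0 := ⟨_, rfl⟩
  obtain ⟨t11, ht11⟩ : ∃ t, t = A l1 1 := ⟨_, rfl⟩
  have A00 : A m0 0 = 1 := by rw [A0]; rfl
  have A01 : A m0 1 = 0 := by rw [A0]; rfl
  have A10 : A m1 0 = 0 := by rw [A1]; rfl
  have A11 : A m1 1 = (d : ℂ) := by rw [A1]; rfl
  rw [hform, ← ht00, ← ht10, A00, A01] at f1
  rw [hform, ← ht01, ← ht11, A10, A11] at f2
  rw [hform, ← ht00, ← ht10, ← ht01, ← ht11] at f3
  rw [hform, ← ht00, ← ht10, A10, A11] at f4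
  rw [hform, ← ht01, ← ht11, A00, A01] at f5
  simp only [map_one, map_zero, mul_one, mul_zero, add_zero, zero_add, Complex.mul_im,
    Complex.natCast_re, Complex.natCast_im, Complex.add_im, Complex.add_re, Complex.mul_re,
    Complex.ofReal_re, Complex.ofReal_im, zero_mul, sub_zero, Complex.conj_natCast,
    Complex.conj_re, Complex.conj_im] at f1 f2 f3 f4 f5
  have k1 : g00 * t00.im + g01 * t10.im = 1 := by
    have h : (n : ℝ) * (g00 * t00.im + g01 * t10.im) = n * 1 := by linarith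
    exact mul_left_cancel₀ hn0.ne' h
  have k2 : g01 * t01.im + g11 * t11.im = 1 := by
    have h : (n * d : ℝ) * (g01 * t01.im + g11 * t11.im) = n * d * 1 := by linarith
    exact mul_left_cancel₀ (mul_pos hn0 hd0).ne' h
  have k4 : g01 * t00.im + g11 * t10.im = 0 := by
    have h : (n * d : ℝ) * (g01 * t00.im + g11 * t10.im) = n * d * 0 := by linarith
    exact mul_left_cancel₀ (mul_pos hn0 hd0).ne' h
  have k5 : g00 * t01.im + g01 * t11.im = 0 := by
    have h : (n : ℝ) * (g00 * t01.im + g01 * t11.im) = n * 0 := by linarith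
    exact mul_left_cancel₀ hn0.ne' h
  have k3 : t01.re = t10.re := by
    have h : (n : ℝ) * (t01.re - t10.re) = n * 0 := by
      linear_combination f3 - (n : ℝ) * t01.re * k1 - (n : ℝ) * t11.re * k4 +
        (n : ℝ) * t00.re * k5 + (n : ℝ) * t10.re * k2
    have h2 := mul_left_cancel₀ hn0.ne' h
    linarith
  have y00 : g * t00.im = g11 := by
    rw [hg]
    linear_combination g11 * k1 - g01 * k4
  have y10 : g * t10.im = -g01 := by
    rw [hg]
    linear_combination g00 * k4 - g01 * k1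
  have y01 : g * t01.im = -g01 := by
    rw [hg]
    linear_combination g11 * k5 - g01 * k2
  have y11 : g * t11.im = g00 := by
    rw [hg]
    linear_combination g00 * k2 - g01 * k5
  have hsymm : t01 = t10 := by
    apply Complex.ext k3
    exact mul_left_cancel₀ hgp.ne' (y01.trans y10.symm)
  have hpos : 0 < t00.im := by
    have h : 0 < g * t00.im := by rw [y00]; exact p11
    exact pos_of_mul_pos_right h hgp.le
  have hDet : g * (t00.im * t11.im - t01.im ^ 2) = 1 := by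
    have h : g * (g * (t00.im * t11.im - t01.im ^ 2)) = g * 1 := by
      have h1 : g * (g * (t00.im * t11.im - t01.im ^ 2)) =
          (g * t00.im) * (g * t11.im) - (g * t01.im) ^ 2 := by ring
      rw [h1, y00, y11, y01, hg]
      ring
    exact mul_left_cancel₀ hgp.ne' h
  have hdet : t01.im ^ 2 < t00.im * t11.im := by
    have h : 0 < g * (t00.im * t11.im - t01.im ^ 2) := by rw [hDet]; exact one_pos
    have h2 := pos_of_mul_pos_right h hgp.le
    linarith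
  let S' : PerData :=
    { τ := !![t00, t01; t10, t11]
      d := d
      d_pos := by omega
      symm := hsymm
      pos := hpos
      det_pos := hdet }
  have hD : S'.D = t00.im * t11.im - t01.im ^ 2 := rfl
  have hD1 : g * S'.D = 1 := by rw [hD]; exact hDet
  have hD0 : S'.D ≠ 0 := by
    intro h
    rw [h, mul_zero] at hD1
    exact zero_ne_one hD1
  have q00 : ((t11.im : ℝ) : ℂ) / ((S'.D : ℝ) : ℂ) = (g00 : ℂ) := by
    rw [← Complex.ofReal_div]
    congr 1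
    rw [div_eq_iff hD0]
    linear_combination S'.D * y11 - t11.im * hD1
  have q01 : -((t01.im : ℝ) : ℂ) / ((S'.D : ℝ) : ℂ) = (g01 : ℂ) := by
    rw [← Complex.ofReal_neg, ← Complex.ofReal_div]
    congr 1
    rw [div_eq_iff hD0]
    linear_combination -(S'.D * y01) + t01.im * hD1
  have q11 : ((t00.im : ℝ) : ℂ) / ((S'.D : ℝ) : ℂ) = (g11 : ℂ) := by
    rw [← Complex.ofReal_div]
    congr 1
    rw [div_eq_iff hD0]
    linear_combination S'.D * y00 - t00.im * hD1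
  refine ⟨S', A, rfl, ?_, ?_⟩
  · intro z w
    have r00 : S'.H0 0 0 = (g00 : ℂ) := q00
    have r01 : S'.H0 0 1 = (g01 : ℂ) := q01
    have r10 : S'.H0 1 0 = (g01 : ℂ) := q01
    have r11 : S'.H0 1 1 = (g11 : ℂ) := q11
    rw [hform]
    simp only [hm, Fin.sum_univ_two]
    rw [r00, r01, r10, r11]
    ring
  · intro p q
    rw [map_add, map_add, map_add, map_smul, map_smul, map_smul, map_smul, A0, A1]
    funext i
    fin_cases i
    · show (t00 * (p 0 : ℂ) + t01 * (p 1 : ℂ)) + (q 0 : ℂ) =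
        (((p 0 : ℂ) * A l0 0 + (p 1 : ℂ) * A l1 0) + (q 0 : ℂ) * 1) + (q 1 : ℂ) * 0
      rw [← ht00, ← ht01]
      ring
    · show (t10 * (p 0 : ℂ) + t11 * (p 1 : ℂ)) + (d : ℂ) * (q 1 : ℂ) =
        (((p 0 : ℂ) * A l0 1 + (p 1 : ℂ) * A l1 1) + (q 0 : ℂ) * 0) + (q 1 : ℂ) * (d : ℂ)
      rw [← ht10, ← ht11]
      ring

/-- Riemann's relations.
PROOF: `b : Fin 4 → C2`, `b = ![tv ![1,0], tv ![0,1], dv ![1,0], dv ![0,1]]`, is a `ℤ`-basis of `Lat` and an `ℝ`-basis of `ℂ²` (`lat_growth`).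
`E i j = Im hm H (b i) (b j)` is an integral alternating matrix (`hm_conj`), `det E = pf² > 0` (`pf_sq`, `pf_pos`).  `symp_basis`: the
vectors `λ₀, λ₁, μ₀, μ₁` (`P` applied to `b`) are a `ℤ`-basis of `Lat` with `Im hm H (λ_i, μ_i) = n, n d`, the other values `0`; and `pf = n² d` as both are
positive with the same square `det (P E Pᵗ) = det E`.
On the real span `W` of `μ₀, μ₁` the form `hm H` is real.  `W ∩ i W = 0`: for `w, i w ∈ W`, `hm H (i w) w = i hm H w w` is real, so `hm H w w = 0`, `w = 0`.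
So `μ₀, μ₁ / d` is a `ℂ`-basis of `ℂ²`: let `A μ₀ = e₀`, `A (μ₁ / d) = e₁` and let `τ'` be the matrix with columns `A λ₀, A λ₁`.
Let `G i j = hm H (A⁻¹ e_i) (A⁻¹ e_j) / n`, a real symmetric positive definite matrix; `hm H z w = n ∑ G i j (A z)_i conj (A w)_j`.
`Im (hm H λ_i μ_j) / n = δ_ij d_j` (`d₀ = 1, d₁ = d`, `A μ_j = d_j e_j`) gives `(Im τ')ᵗ G = 1`; so `Im τ'` is the inverse of `G` (symmetric, positive
definite).  `Im hm H λ₀ λ₁ = 0` gives the symmetry of `Re τ'`.  `S' = ⟨τ', d, ...⟩`, `hm S'.H0 = G`. -/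
theorem exists_NF {H : Matrix (Fin 2) (Fin 2) ℂ} (hH : H ∈ S.NS) (hp : PD H) :
    ∃ (S' : PerData) (n : ℕ) (A : C2 ≃ₗ[ℂ] C2), S.NF H S' n A := by
  classical
  obtain ⟨hH1, hH2⟩ := hH
  obtain ⟨b, hb⟩ : ∃ b : Fin 4 → C2, b =
    ![S.tv ![1, 0], S.tv ![0, 1], S.dv ![1, 0], S.dv ![0, 1]] := ⟨_, rfl⟩
  have hbL : ∀ i, b i ∈ S.Lat := by
    intro i
    rw [hb]
    fin_cases i
    · exact ⟨![1, 0], 0, by rw [S.dv_zero, add_zero]; rfl⟩
    · exact ⟨![0, 1], 0, by rw [S.dv_zero, add_zero]; rfl⟩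
    · exact ⟨0, ![1, 0], by rw [S.tv_zero, zero_add]; rfl⟩
    · exact ⟨0, ![0, 1], by rw [S.tv_zero, zero_add]; rfl⟩
  have hE : ∀ i j, ∃ k : ℤ, (hm H (b i) (b j)).im = k := fun i j => hH2 _ (hbL i) _ (hbL j)
  choose E₀ hE₀ using hE
  obtain ⟨E, hE⟩ : ∃ E : Matrix (Fin 4) (Fin 4) ℤ, ∀ i j, (hm H (b i) (b j)).im = E i j :=
    ⟨Matrix.of E₀, hE₀⟩
  have hEa : ∀ i j, E i j = -E j i := by
    intro i j
    have h1 := hE i j
    rw [← hm_conj hH1 (b j) (b i), Complex.conj_im, hE j i] at h1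
    have h2 : ((E i j : ℤ) : ℝ) = ((-E j i : ℤ) : ℝ) := by
      push_cast
      exact h1.symm
    exact_mod_cast h2
  have hpf := S.pf_sq hH1
  rw [← hb] at hpf
  have hpf0 := S.pf_pos hH1 hp
  have hEdet : ((Matrix.det E : ℤ) : ℝ) = S.pf H ^ 2 := by
    rw [hpf]
    have h1 := RingHom.map_det (Int.castRingHom ℝ) E
    have h2 : ((Matrix.det E : ℤ) : ℝ) =
        Int.castRingHom ℝ (Matrix.det E) := rfl
    rw [h2, h1]
    congr 1
    ext i j
    exact (hE i j).symm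
  have hdet : Matrix.det E ≠ 0 := by
    intro h
    rw [h, Int.cast_zero] at hEdet
    have : 0 < S.pf H ^ 2 := by positivity
    linarith
  obtain ⟨P, n, d, hn, hd, hPu, hPE⟩ := symp_basis E hEa hdet
  -- the new basis
  obtain ⟨v, hv⟩ : ∃ v : Fin 4 → C2, v = fun i => ∑ j, ((P i j : ℤ) : ℂ) • b j := ⟨_, rfl⟩
  have hgram : ∀ i j, (hm H (v i) (v j)).im =
      (((P * E * P.transpose) i j : ℤ) : ℝ) := by
    intro i j
    have hv' : ∀ i, v i = (((P i 0 : ℤ) : ℝ) : ℂ) • b 0 + (((P i 1 : ℤ) : ℝ) : ℂ) • b 1 +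
        (((P i 2 : ℤ) : ℝ) : ℂ) • b 2 + (((P i 3 : ℤ) : ℝ) : ℂ) • b 3 := by
      intro i
      rw [hv]
      simp only [Fin.sum_univ_four, Complex.ofReal_intCast]
    have h1 : (hm H (v i) (v j)).im = nfB_e H (v i) (v j) := rfl
    have h2 : ∀ k l, nfB_e H (b k) (b l) = ((E k l : ℤ) : ℝ) := fun k l => hE k l
    rw [h1, hv' i, hv' j]
    simp only [nfB_e_add_left, nfB_e_add_right, nfB_e_smul_left, nfB_e_smul_right, h2]
    simp only [Matrix.mul_apply, Fin.sum_univ_four, Matrix.transpose_apply]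
    push_cast
    ring
  rw [hPE] at hgram
  have f1 : (hm H (v 0) (v 2)).im = n := by
    rw [hgram]
    show (((n : ℤ) : ℤ) : ℝ) = n
    push_cast
    rfl
  have f2 : (hm H (v 1) (v 3)).im = n * d := by
    rw [hgram]
    show (((n * d : ℤ) : ℤ) : ℝ) = n * d
    push_cast
    rfl
  have f3 : (hm H (v 0) (v 1)).im = 0 := by
    rw [hgram]
    show ((0 : ℤ) : ℝ) = 0
    exact Int.cast_zero
  have f4 : (hm H (v 0) (v 3)).im = 0 := by
    rw [hgram]
    show ((0 : ℤ) : ℝ) = 0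
    exact Int.cast_zero
  have f5 : (hm H (v 1) (v 2)).im = 0 := by
    rw [hgram]
    show ((0 : ℤ) : ℝ) = 0
    exact Int.cast_zero
  have f6 : (hm H (v 2) (v 3)).im = 0 := by
    rw [hgram]
    show ((0 : ℤ) : ℝ) = 0
    exact Int.cast_zero
  obtain ⟨S', A, hSd, hform, htv⟩ := nfB_main hH1 hp hn hd f1 f2 f3 f4 f5 f6
  refine ⟨S', n, A, hn, ?_, hform, ?_⟩
  · intro x
    have h1 : x ∈ S.Lat ↔ ∃ k : Fin 4 → ℤ, x = ∑ j, ((k j : ℤ) : ℂ) • b j := by
      have key : ∀ p q : Z2, S.tv p + S.dv q = ((p 0 : ℤ) : ℂ) • b 0 + ((p 1 : ℤ) : ℂ) • b 1 +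
          ((q 0 : ℤ) : ℂ) • b 2 + ((q 1 : ℤ) : ℂ) • b 3 := by
        intro p q
        rw [hb]
        funext i
        fin_cases i
        · show (S.τ 0 0 * (p 0 : ℂ) + S.τ 0 1 * (p 1 : ℂ)) + (q 0 : ℂ) =
            (((p 0 : ℂ) * (S.τ 0 0 * ((1 : ℤ) : ℂ) + S.τ 0 1 * ((0 : ℤ) : ℂ)) +
            (p 1 : ℂ) * (S.τ 0 0 * ((0 : ℤ) : ℂ) + S.τ 0 1 * ((1 : ℤ) : ℂ))) +
            (q 0 : ℂ) * ((1 : ℤ) : ℂ)) + (q 1 : ℂ) * ((0 : ℤ) : ℂ)
          push_cast
          ring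
        · show (S.τ 1 0 * (p 0 : ℂ) + S.τ 1 1 * (p 1 : ℂ)) + (S.d : ℂ) * (q 1 : ℂ) =
            (((p 0 : ℂ) * (S.τ 1 0 * ((1 : ℤ) : ℂ) + S.τ 1 1 * ((0 : ℤ) : ℂ)) +
            (p 1 : ℂ) * (S.τ 1 0 * ((0 : ℤ) : ℂ) + S.τ 1 1 * ((1 : ℤ) : ℂ))) +
            (q 0 : ℂ) * ((S.d : ℂ) * ((0 : ℤ) : ℂ))) + (q 1 : ℂ) * ((S.d : ℂ) * ((1 : ℤ) : ℂ))
          push_cast
          ring
      constructor
      · rintro ⟨p, q, rfl⟩
        refine ⟨![p 0, p 1, q 0, q 1], ?_⟩
        rw [key, Fin.sum_univ_four]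
        rfl
      · rintro ⟨k, rfl⟩
        refine ⟨![k 0, k 1], ![k 2, k 3], ?_⟩
        rw [key, Fin.sum_univ_four]
        rfl
    rw [h1, nfB_comb_iff hPu x]
    constructor
    · rintro ⟨k, hk⟩
      refine ⟨![k 0, k 1], ![k 2, k 3], ?_⟩
      rw [htv, hk, Fin.sum_univ_four, hv]
      rfl
    · rintro ⟨p, q, hpq⟩
      rw [htv] at hpq
      refine ⟨![p 0, p 1, q 0, q 1], ?_⟩
      rw [A.injective hpq, Fin.sum_univ_four, hv]
      rfl
  · -- the Pfaffian
    rw [hSd]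
    have h1 : P.det * P.det = 1 := by
      rcases Int.isUnit_iff.1 hPu with h | h <;> rw [h] <;> norm_num
    have h2 := congrArg Matrix.det hPE
    rw [Matrix.det_mul, Matrix.det_mul, Matrix.det_transpose] at h2
    have h3 : Matrix.det E = ((n : ℤ) ^ 2 * (d : ℤ)) ^ 2 := by
      rw [← nfB_det, ← h2]
      linear_combination (-(Matrix.det E)) * h1
    rw [h3] at hEdet
    push_cast at hEdet
    have hn0 : (0 : ℝ) < n := by exact_mod_cast hn
    have hd0 : (0 : ℝ) < d := by exact_mod_cast hd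
    have h4 : (0 : ℝ) < (n : ℝ) ^ 2 * d := by positivity
    have h5 : (S.pf H - (n : ℝ) ^ 2 * d) * (S.pf H + (n : ℝ) ^ 2 * d) = 0 := by
      linear_combination -hEdet
    rcases mul_eq_zero.1 h5 with h6 | h6
    · linarith
    · linarith

end PerData

end Q2T
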