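import Pool.Agent.H.MP_89f84f_ag.q3.NsA

set_option autoImplicit false

open Complex Topology Filter Asymptotics Metric Set

namespace Q2T

namespace PerData

variable (S : PerData)

/-- The nonvanishing factor between the classical and the canonical normalisation. -/
noncomputable def gz (u : ℤ) (z : C2) : ℂ := cexp (Real.pi * u / 2 * S.bf z z)

theorem gz_ne (u : ℤ) (z : C2) : S.gz u z ≠ 0 := Complex.exp_ne_zero _

theorem gz_diff (u : ℤ) : Differentiable ℂ (S.gz u) := by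
  unfold gz
  refine Differentiable.cexp ?_
  unfold bf
  fun_prop

theorem gz_even (u : ℤ) (z : C2) : S.gz u (-z) = S.gz u z := by
  have h : S.bf (-z) (-z) = S.bf z z := by
    simp only [bf, Pi.neg_apply]
    ring
  rw [gz, gz, h]

theorem gz_zero (u : ℤ) : S.gz u 0 = 1 := by
  have h : S.bf 0 0 = 0 := by
    simp [bf]
  rw [gz, h, mul_zero, Complex.exp_zero]

theorem gz_add (u v : ℤ) (z : C2) : S.gz (u + v) z = S.gz u z * S.gz v z := by
  rw [gz, gz, gz, ← Complex.exp_add]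
  congr 1
  push_cast
  ring

theorem gz_neg (u : ℤ) (z : C2) : S.gz (-u) z * S.gz u z = 1 := by
  rw [← gz_add, neg_add_cancel, gz, Int.cast_zero, mul_zero, zero_div, zero_mul, Complex.exp_zero]

theorem gz_smul (u n : ℤ) (z : C2) : S.gz u ((n : ℂ) • z) = S.gz (n ^ 2 * u) z := by
  have h : S.bf ((n : ℂ) • z) ((n : ℂ) • z) = (n : ℂ) ^ 2 * S.bf z z := by
    simp only [bf, Pi.smul_apply, smul_eq_mul]
    ring
  rw [gz, gz, h]
  congr 1
  push_cast
  ring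

/-- The multipliers of `Th u α β` in the canonical normalisation. -/
def ChiEq (u : ℤ) (α β : Fin 2 → ℝ) (χ : C2 → ℂ) : Prop :=
  ∀ p q : Z2, χ (S.tv p + S.dv q) = cexp (2 * Real.pi * I * ((rdot α q + rdot β p : ℝ) : ℂ)) *
    cexp (Real.pi * I * ((u * (p 0 * q 0 + S.d * (p 1 * q 1)) : ℤ) : ℂ))

private theorem NsB_D : (S.D : ℂ) ≠ 0 := by
  have h : S.D ≠ 0 := by
    have := S.det_pos
    unfold D
    linarith
  exact Complex.ofReal_ne_zero.2 h

private theorem NsB_D' : (S.D : ℂ) = ((S.τ 0 0).im : ℂ) * ((S.τ 1 1).im : ℂ) -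
    ((S.τ 0 1).im : ℂ) ^ 2 := by
  unfold D
  push_cast
  ring

private theorem NsB_bfd (p q : Z2) (z : C2) : S.bf z (S.tv p + S.dv q) -
    S.bf z (fun i => (starRingEnd ℂ) ((S.tv p + S.dv q) i)) = 2 * I * dot p z := by
  have hD := S.NsB_D
  have hconj : ∀ t : ℂ, t - (starRingEnd ℂ) t = 2 * I * (t.im : ℂ) := by
    intro t
    rw [Complex.sub_conj]
    push_cast
    ring
  have i0 : ((S.tv p + S.dv q) 0).im = (S.τ 0 0).im * p 0 + (S.τ 0 1).im * p 1 := by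
    show ((S.τ 0 0 * (p 0 : ℂ) + S.τ 0 1 * (p 1 : ℂ)) + (q 0 : ℂ)).im = _
    simp only [Complex.add_im, Complex.mul_im, Complex.intCast_re, Complex.intCast_im]
    ring
  have i1 : ((S.tv p + S.dv q) 1).im = (S.τ 0 1).im * p 0 + (S.τ 1 1).im * p 1 := by
    show ((S.τ 1 0 * (p 0 : ℂ) + S.τ 1 1 * (p 1 : ℂ)) + (S.d : ℂ) * (q 1 : ℂ)).im = _
    rw [← S.symm]
    simp only [Complex.add_im, Complex.mul_im, Complex.intCast_re, Complex.intCast_im,
      Complex.natCast_re, Complex.natCast_im]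
    ring
  have e0 := hconj ((S.tv p + S.dv q) 0)
  have e1 := hconj ((S.tv p + S.dv q) 1)
  rw [i0] at e0
  rw [i1] at e1
  push_cast at e0 e1
  simp only [bf]
  rw [← sub_div, div_eq_iff hD, S.NsB_D', dot]
  generalize (S.tv p + S.dv q) 0 = x0 at e0 ⊢
  generalize (S.tv p + S.dv q) 1 = x1 at e1 ⊢
  linear_combination (((S.τ 1 1).im : ℂ) * z 0 - ((S.τ 0 1).im : ℂ) * z 1) * e0 +
    (((S.τ 0 0).im : ℂ) * z 1 - ((S.τ 0 1).im : ℂ) * z 0) * e1

private theorem NsB_key {u : ℤ} {α β : Fin 2 → ℝ} {χ : C2 → ℂ} (hχ : S.ChiEq u α β χ)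
    (p q : Z2) (z : C2) : S.gz u (z + (S.tv p + S.dv q)) * S.J u α β p q z =
      χ (S.tv p + S.dv q) * cexp (Real.pi * (hm ((u : ℂ) • S.H0) z (S.tv p + S.dv q) +
        hm ((u : ℂ) • S.H0) (S.tv p + S.dv q) (S.tv p + S.dv q) / 2)) * S.gz u z := by
  have hD := S.NsB_D
  have hbb : ∀ z x : C2, S.bf (z + x) (z + x) = S.bf z z + 2 * S.bf z x + S.bf x x := by
    intro z x
    simp only [bf, Pi.add_apply]
    field_simp
    ring
  have hdot : ∀ (p : Z2) (z x : C2), dot p (z + x) = dot p z + dot p x := by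
    intro p z x
    simp only [dot, Pi.add_apply]
    ring
  have a1 := S.NsB_bfd p q z
  have a2 := S.NsB_bfd p q (S.tv p + S.dv q)
  rw [hdot] at a2
  have a3 : dot p (S.dv q) = (p 0 : ℂ) * q 0 + S.d * (p 1 * q 1) := by
    simp only [dot, dv_zero', dv_one']
    ring
  rw [hχ p q, hm_smul, hm_smul, S.hm_H0, S.hm_H0, gz, gz, hbb, J]
  generalize S.bf z (fun i => (starRingEnd ℂ) ((S.tv p + S.dv q) i)) = u1 at a1 ⊢
  generalize S.bf (S.tv p + S.dv q) (fun i => (starRingEnd ℂ) ((S.tv p + S.dv q) i)) = u2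
    at a2 ⊢
  generalize S.bf z (S.tv p + S.dv q) = v1 at a1 ⊢
  generalize S.bf (S.tv p + S.dv q) (S.tv p + S.dv q) = v2 at a2 ⊢
  have e : cexp (Real.pi * u / 2 * (S.bf z z + 2 * v1 + v2)) *
      cexp (-(Real.pi * I * u * (dot p (S.tv p) + 2 * dot p z))) =
      cexp (Real.pi * I * ((u * (p 0 * q 0 + S.d * (p 1 * q 1)) : ℤ) : ℂ)) *
      cexp (Real.pi * (u * u1 + u * u2 / 2)) * cexp (Real.pi * u / 2 * S.bf z z) := by
    rw [← Complex.exp_add, ← Complex.exp_add, ← Complex.exp_add]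
    congr 1
    push_cast
    linear_combination ((Real.pi : ℂ) * u) * a1 + ((Real.pi : ℂ) * u / 2) * a2 +
      (Real.pi : ℂ) * I * u * a3
  linear_combination cexp (2 * Real.pi * I * ((rdot α q + rdot β p : ℝ) : ℂ)) * e

/-- From classical to canonical.
PROOF: with `x = τ p + Δ q` one has `bf z x - bf z (conj x) = 2 i (p · z)` and `bf x x - bf x (conj x) = 2 i (p · τ p + p · Δ q)`.  So
`gz u (z + x) J u α β p q z = χ x exp (π u (hm H0 z x + hm H0 x x / 2)) gz u z`. -/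
theorem gz_mem {u : ℤ} {α β : Fin 2 → ℝ} {χ : C2 → ℂ} (hχ : S.ChiEq u α β χ) (f : C2 → ℂ) :
    f ∈ S.Th u α β ↔ (fun z => S.gz u z * f z) ∈ S.TH ((u : ℂ) • S.H0) χ := by
  constructor
  · rintro ⟨h1, h2⟩
    refine ⟨(S.gz_diff u).mul h1, ?_⟩
    rintro _ ⟨p, q, rfl⟩ z
    show S.gz u (z + (S.tv p + S.dv q)) * f (z + (S.tv p + S.dv q)) = _ * (S.gz u z * f z)
    have h3 := h2 p q z
    rw [add_assoc] at h3
    rw [h3]
    linear_combination f z * S.NsB_key hχ p q z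
  · rintro ⟨h1, h2⟩
    have h3 : f = fun z => S.gz (-u) z * (S.gz u z * f z) := by
      funext z
      rw [← mul_assoc, S.gz_neg, one_mul]
    refine ⟨?_, fun p q z => ?_⟩
    · rw [h3]
      exact (S.gz_diff (-u)).mul h1
    · have h4 : S.gz u (z + (S.tv p + S.dv q)) * f (z + (S.tv p + S.dv q)) =
          χ (S.tv p + S.dv q) * cexp (Real.pi * (hm ((u : ℂ) • S.H0) z (S.tv p + S.dv q) +
          hm ((u : ℂ) • S.H0) (S.tv p + S.dv q) (S.tv p + S.dv q) / 2)) * (S.gz u z * f z) :=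
        h2 _ ⟨p, q, rfl⟩ z
      rw [add_assoc]
      refine mul_left_cancel₀ (S.gz_ne u (z + (S.tv p + S.dv q))) ?_
      linear_combination h4 - f z * S.NsB_key hχ p q z

private theorem NsB_im (u : ℤ) (p q p' q' : Z2) :
    (hm ((u : ℂ) • S.H0) (S.tv p + S.dv q) (S.tv p' + S.dv q')).im =
    ((u * (p 0 * q' 0 + S.d * (p 1 * q' 1) - (q 0 * p' 0 + S.d * (q 1 * p' 1))) : ℤ) : ℝ) := by
  have h1 : ((u : ℂ)) = ((u : ℝ) : ℂ) := by push_cast; rfl
  rw [hm_smul, h1, Complex.im_ofReal_mul, S.H0_im, Int.cast_mul]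

/-- For all characteristics there is a semicharacter (define it by the formula; `p, q` are determined by `τ p + Δ q`,
`lat_growth`). -/
theorem exists_chi (u : ℤ) (α β : Fin 2 → ℝ) : ∃ χ : C2 → ℂ, S.ChiEq u α β χ ∧ S.SC ((u : ℂ) • S.H0) χ := by
  classical
  let φ : Z2 × Z2 → C2 := fun a => S.tv a.1 + S.dv a.2
  let F : Z2 × Z2 → ℂ := fun a => cexp (2 * Real.pi * I * ((rdot α a.2 + rdot β a.1 : ℝ) : ℂ)) *
    cexp (Real.pi * I * ((u * (a.1 0 * a.2 0 + S.d * (a.1 1 * a.2 1)) : ℤ) : ℂ))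
  have hφ : Function.Injective φ := by
    rintro ⟨p, q⟩ ⟨p', q'⟩ h
    obtain ⟨c, hc, hl⟩ := S.lat_growth
    have h1 := hl (p - p') (q - q')
    have h2 : S.tv (p - p') + S.dv (q - q') = 0 := by
      have h3 : S.tv p + S.dv q = S.tv p' + S.dv q' := h
      rw [sub_eq_add_neg, sub_eq_add_neg, S.tv_add, S.dv_add, S.tv_neg, S.dv_neg]
      have h4 : S.tv p + -S.tv p' + (S.dv q + -S.dv q') =
        (S.tv p + S.dv q) - (S.tv p' + S.dv q') := by abel
      rw [h4, h3, sub_self]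
    rw [h2, norm_zero] at h1
    have h5 : ‖p - p'‖ + ‖q - q'‖ ≤ 0 := by
      by_contra hcon
      push Not at hcon
      have := mul_pos hc hcon
      linarith
    have h6 : ‖p - p'‖ = 0 := le_antisymm (by linarith [norm_nonneg (q - q')]) (norm_nonneg _)
    have h7 : ‖q - q'‖ = 0 := le_antisymm (by linarith [norm_nonneg (p - p')]) (norm_nonneg _)
    rw [norm_eq_zero, sub_eq_zero] at h6 h7
    rw [h6, h7]
  have hval : ∀ p q : Z2, Function.extend φ F 0 (S.tv p + S.dv q) = F (p, q) := fun p q =>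
    hφ.extend_apply F 0 (p, q)
  refine ⟨Function.extend φ F 0, hval, ?_, ?_⟩
  · rintro _ ⟨p, q, rfl⟩
    rw [hval]
    show ‖cexp (2 * Real.pi * I * ((rdot α q + rdot β p : ℝ) : ℂ)) *
      cexp (Real.pi * I * ((u * (p 0 * q 0 + S.d * (p 1 * q 1)) : ℤ) : ℂ))‖ = 1
    have e1 : 2 * Real.pi * I * ((rdot α q + rdot β p : ℝ) : ℂ) =
      ((2 * Real.pi * (rdot α q + rdot β p) : ℝ) : ℂ) * I := by
      push_cast
      ring
    have e2 : Real.pi * I * ((u * (p 0 * q 0 + S.d * (p 1 * q 1)) : ℤ) : ℂ) =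
      ((Real.pi * ((u * (p 0 * q 0 + S.d * (p 1 * q 1)) : ℤ) : ℝ) : ℝ) : ℂ) * I := by
      push_cast
      ring
    rw [norm_mul, e1, e2, Complex.norm_exp_ofReal_mul_I, Complex.norm_exp_ofReal_mul_I, one_mul]
  · rintro _ ⟨p, q, rfl⟩ _ ⟨p', q', rfl⟩
    have h1 : S.tv p + S.dv q + (S.tv p' + S.dv q') = S.tv (p + p') + S.dv (q + q') := by
      rw [S.tv_add, S.dv_add]
      abel
    rw [S.NsB_im, h1, hval, hval, hval]
    show cexp (2 * Real.pi * I * ((rdot α (q + q') + rdot β (p + p') : ℝ) : ℂ)) *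
      cexp (Real.pi * I * ((u * ((p + p') 0 * (q + q') 0 +
        S.d * ((p + p') 1 * (q + q') 1)) : ℤ) : ℂ)) =
      (cexp (2 * Real.pi * I * ((rdot α q + rdot β p : ℝ) : ℂ)) *
        cexp (Real.pi * I * ((u * (p 0 * q 0 + S.d * (p 1 * q 1)) : ℤ) : ℂ))) *
      (cexp (2 * Real.pi * I * ((rdot α q' + rdot β p' : ℝ) : ℂ)) *
        cexp (Real.pi * I * ((u * (p' 0 * q' 0 + S.d * (p' 1 * q' 1)) : ℤ) : ℂ))) *
      cexp (Real.pi * I * ((((u * (p 0 * q' 0 + S.d * (p 1 * q' 1) -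
        (q 0 * p' 0 + S.d * (q 1 * p' 1))) : ℤ) : ℝ)) : ℂ))
    rw [← Complex.exp_add, ← Complex.exp_add, ← Complex.exp_add, ← Complex.exp_add,
      ← Complex.exp_add, Complex.exp_eq_exp_iff_exists_int]
    refine ⟨u * (q 0 * p' 0 + S.d * (q 1 * p' 1)), ?_⟩
    simp only [rdot, Pi.add_apply]
    push_cast
    ring

private theorem NsB_char {φ : ℤ → ℂ} (h0 : φ 0 = 1) (hadd : ∀ a b, φ (a + b) = φ a * φ b)
    {r : ℝ} (hr : φ 1 = cexp (2 * Real.pi * I * (r : ℂ))) (n : ℤ) :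
    φ n = cexp (2 * Real.pi * I * ((r * n : ℝ) : ℂ)) := by
  induction n using Int.induction_on with
  | zero => simp [h0]
  | succ n ih =>
    rw [hadd, ih, hr, ← Complex.exp_add]
    congr 1
    push_cast
    ring
  | pred n ih =>
    have h1 : φ (-(n : ℤ)) = φ (-(n : ℤ) - 1) * φ 1 := by
      rw [← hadd, sub_add_cancel]
    rw [ih, hr] at h1
    have h2 : φ (-(n : ℤ) - 1) = cexp (2 * Real.pi * I * ((r * ((-(n : ℤ) : ℤ) : ℝ) : ℝ) : ℂ)) *
        cexp (-(2 * Real.pi * I * (r : ℂ))) := by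
      rw [h1, mul_assoc, ← Complex.exp_add, add_neg_cancel, Complex.exp_zero, mul_one]
    rw [h2, ← Complex.exp_add]
    congr 1
    push_cast
    ring

private theorem NsB_arg {c : ℂ} (h : ‖c‖ = 1) : ∃ r : ℝ, c = cexp (2 * Real.pi * I * (r : ℂ)) := by
  refine ⟨Complex.arg c / (2 * Real.pi), ?_⟩
  have hπ : (Real.pi : ℂ) ≠ 0 := Complex.ofReal_ne_zero.2 Real.pi_ne_zero
  have h1 := Complex.norm_mul_exp_arg_mul_I c
  rw [h, Complex.ofReal_one, one_mul] at h1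
  conv_lhs => rw [← h1]
  congr 1
  push_cast
  field_simp

/-- Every semicharacter for `u H0` comes from characteristics.
PROOF: as in `exists_classical` (q2/Auto.lean): `χ` is multiplicative on `τ ℤ²` and on `Δ ℤ²`; `χ (τ e_i) = exp (2 π i β_i)`,
`χ (Δ e_i) = exp (2 π i α_i)`, and `χ (τ p + Δ q) = χ (τ p) χ (Δ q) exp (π i u (p · Δ q))` (`H0_im`). -/
theorem exists_char {u : ℤ} {χ : C2 → ℂ} (h : S.SC ((u : ℂ) • S.H0) χ) : ∃ α β : Fin 2 → ℝ, S.ChiEq u α β χ := by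
  have hlat : ∀ p q : Z2, S.tv p + S.dv q ∈ S.Lat := fun p q => ⟨p, q, rfl⟩
  have hmul : ∀ p q p' q' : Z2, χ (S.tv (p + p') + S.dv (q + q')) =
      χ (S.tv p + S.dv q) * χ (S.tv p' + S.dv q') *
      cexp (Real.pi * I * ((((u * (p 0 * q' 0 + S.d * (p 1 * q' 1) -
        (q 0 * p' 0 + S.d * (q 1 * p' 1))) : ℤ) : ℝ)) : ℂ)) := by
    intro p q p' q'
    have h1 : S.tv (p + p') + S.dv (q + q') = S.tv p + S.dv q + (S.tv p' + S.dv q') := by
      rw [S.tv_add, S.dv_add]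
      abel
    rw [h1, h.2 _ (hlat p q) _ (hlat p' q'), S.NsB_im]
  have hT : ∀ p p' : Z2, χ (S.tv (p + p') + S.dv 0) = χ (S.tv p + S.dv 0) *
      χ (S.tv p' + S.dv 0) := by
    intro p p'
    have h1 := hmul p 0 p' 0
    rw [add_zero] at h1
    rw [h1]
    simp
  have hDl : ∀ q q' : Z2, χ (S.tv 0 + S.dv (q + q')) = χ (S.tv 0 + S.dv q) *
      χ (S.tv 0 + S.dv q') := by
    intro q q'
    have h1 := hmul 0 q 0 q'
    rw [add_zero] at h1
    rw [h1]
    simp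
  have hne : ∀ p q : Z2, χ (S.tv p + S.dv q) ≠ 0 := by
    intro p q h0
    have h1 := h.1 _ (hlat p q)
    rw [h0, norm_zero] at h1
    exact zero_ne_one h1
  have h00 : χ (S.tv 0 + S.dv 0) = 1 := by
    have h1 := hT 0 0
    rw [add_zero] at h1
    have h3 : χ (S.tv 0 + S.dv 0) * 1 = χ (S.tv 0 + S.dv 0) * χ (S.tv 0 + S.dv 0) := by
      rw [mul_one]; exact h1
    exact (mul_left_cancel₀ (hne 0 0) h3).symm
  obtain ⟨b0, hb0⟩ := NsB_arg (h.1 _ (hlat ![1, 0] 0))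
  obtain ⟨b1, hb1⟩ := NsB_arg (h.1 _ (hlat ![0, 1] 0))
  obtain ⟨a0, ha0⟩ := NsB_arg (h.1 _ (hlat 0 ![1, 0]))
  obtain ⟨a1, ha1⟩ := NsB_arg (h.1 _ (hlat 0 ![0, 1]))
  have v0 : ∀ a b : ℤ, (![a + b, 0] : Z2) = ![a, 0] + ![b, 0] := fun a b => by
    funext i; fin_cases i <;> simp
  have v1 : ∀ a b : ℤ, (![0, a + b] : Z2) = ![0, a] + ![0, b] := fun a b => by
    funext i; fin_cases i <;> simp
  have vz : (![0, 0] : Z2) = 0 := by
    funext i; fin_cases i <;> simp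
  have f1 := NsB_char (φ := fun n => χ (S.tv ![n, 0] + S.dv 0)) (by
      show χ (S.tv ![0, 0] + S.dv 0) = 1
      rw [vz]; exact h00) (fun a b => by
      show χ (S.tv ![a + b, 0] + S.dv 0) = _
      rw [v0, hT]) hb0
  have f2 := NsB_char (φ := fun n => χ (S.tv ![0, n] + S.dv 0)) (by
      show χ (S.tv ![0, 0] + S.dv 0) = 1
      rw [vz]; exact h00) (fun a b => by
      show χ (S.tv ![0, a + b] + S.dv 0) = _
      rw [v1, hT]) hb1
  have f3 := NsB_char (φ := fun n => χ (S.tv 0 + S.dv ![n, 0])) (by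
      show χ (S.tv 0 + S.dv ![0, 0]) = 1
      rw [vz]; exact h00) (fun a b => by
      show χ (S.tv 0 + S.dv ![a + b, 0]) = _
      rw [v0, hDl]) ha0
  have f4 := NsB_char (φ := fun n => χ (S.tv 0 + S.dv ![0, n])) (by
      show χ (S.tv 0 + S.dv ![0, 0]) = 1
      rw [vz]; exact h00) (fun a b => by
      show χ (S.tv 0 + S.dv ![0, a + b]) = _
      rw [v1, hDl]) ha1
  refine ⟨![a0, a1], ![b0, b1], fun p q => ?_⟩
  have hp : p = ![p 0, 0] + ![0, p 1] := by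
    funext i; fin_cases i <;> simp
  have hq : q = ![q 0, 0] + ![0, q 1] := by
    funext i; fin_cases i <;> simp
  have g1 := hmul p 0 0 q
  rw [add_zero, zero_add] at g1
  have g2 : χ (S.tv p + S.dv 0) = χ (S.tv ![p 0, 0] + S.dv 0) * χ (S.tv ![0, p 1] + S.dv 0) := by
    rw [← hT, ← hp]
  have g3 : χ (S.tv 0 + S.dv q) = χ (S.tv 0 + S.dv ![q 0, 0]) * χ (S.tv 0 + S.dv ![0, q 1]) := by
    rw [← hDl, ← hq]
  have f1' : χ (S.tv ![p 0, 0] + S.dv 0) = _ := f1 (p 0)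
  have f2' : χ (S.tv ![0, p 1] + S.dv 0) = _ := f2 (p 1)
  have f3' : χ (S.tv 0 + S.dv ![q 0, 0]) = _ := f3 (q 0)
  have f4' : χ (S.tv 0 + S.dv ![0, q 1]) = _ := f4 (q 1)
  rw [g1, g2, g3, f1', f2', f3', f4', ← Complex.exp_add, ← Complex.exp_add, ← Complex.exp_add,
    ← Complex.exp_add, ← Complex.exp_add]
  congr 1
  simp only [rdot, Matrix.cons_val_zero, Matrix.cons_val_one, Pi.zero_apply]
  push_cast
  ring

/-- Even level and trivial multipliers. -/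
theorem chi_one (m : ℤ) : S.ChiEq (2 * m) 0 0 (fun _ => 1) := by
  intro p q
  have h1 : cexp (Real.pi * I * ((2 * m * (p 0 * q 0 + S.d * (p 1 * q 1)) : ℤ) : ℂ)) = 1 := by
    rw [Complex.exp_eq_one_iff]
    refine ⟨m * (p 0 * q 0 + S.d * (p 1 * q 1)), ?_⟩
    push_cast
    ring
  rw [h1]
  simp [rdot]

/-- The canonical theta functions of class `2 m H0` and the classical ones of level `2 m`. -/
theorem mem_TH_one (m : ℤ) (f : C2 → ℂ) :
    f ∈ S.Th (2 * m) 0 0 ↔ (fun z => S.gz (2 * m) z * f z) ∈ S.TH (((2 * m : ℤ) : ℂ) • S.H0) (fun _ => 1) :=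
  S.gz_mem (S.chi_one m) f

end PerData

end Q2T
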