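import Pool.Agent.H.MP_89f84f_ag.q3.NsA
import Pool.Agent.H.MP_89f84f_ag.q2.RestL

set_option autoImplicit false

open Complex Topology Filter Asymptotics Metric Set

namespace Q2T

private theorem NsC_smul_left (H : Matrix (Fin 2) (Fin 2) ℂ) (t : ℂ) (z w : C2) :
    hm H (t • z) w = t * hm H z w := by
  simp only [hm, Fin.sum_univ_two, Pi.smul_apply, smul_eq_mul]
  ring

private theorem NsC_smul_right (H : Matrix (Fin 2) (Fin 2) ℂ) (t : ℂ) (z w : C2) :
    hm H z (t • w) = (starRingEnd ℂ) t * hm H z w := by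
  simp only [hm, Fin.sum_univ_two, Pi.smul_apply, smul_eq_mul, map_mul]
  ring

private theorem NsC_cont (H : Matrix (Fin 2) (Fin 2) ℂ) : Continuous fun z : C2 => hm H z z := by
  unfold hm
  fun_prop

namespace PerData

variable (S : PerData)

/-- Boundedness.
PROOF: `‖f z‖ exp (-(π / 2) Re (hm H z z))` is invariant under the lattice and continuous, and `ℂ²` modulo the lattice is compact
(`RestL_fund`). -/
theorem TH_bounded {H : Matrix (Fin 2) (Fin 2) ℂ} (hH : H.IsHermitian) {χ : C2 → ℂ} (hχ : ∀ x ∈ S.Lat, ‖χ x‖ = 1)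
    {f : C2 → ℂ} (hf : f ∈ S.TH H χ) :
    ∃ C : ℝ, ∀ z : C2, ‖f z‖ ≤ C * Real.exp (Real.pi / 2 * (hm H z z).re) := by
  obtain ⟨K, hK, hcov⟩ := S.RestL_fund
  obtain ⟨g, hg⟩ : ∃ g : C2 → ℝ, g = fun z => ‖f z‖ * Real.exp (-(Real.pi / 2 * (hm H z z).re)) :=
    ⟨_, rfl⟩
  have hgc : Continuous g := by
    rw [hg]
    have h1 : Continuous f := hf.1.continuous
    have h2 := Complex.continuous_re.comp (NsC_cont H)
    exact h1.norm.mul (Real.continuous_exp.comp (continuous_const.mul h2).neg)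
  have hinv : ∀ x ∈ S.Lat, ∀ z, g (z + x) = g z := by
    intro x hx z
    have e1 : (hm H (z + x) (z + x)).re = (hm H z z).re + 2 * (hm H z x).re + (hm H x x).re := by
      rw [hm_add_left, hm_add_right, hm_add_right, ← hm_conj hH z x]
      simp only [Complex.add_re, Complex.conj_re]
      ring
    rw [hg]
    show ‖f (z + x)‖ * Real.exp (-(Real.pi / 2 * (hm H (z + x) (z + x)).re)) =
      ‖f z‖ * Real.exp (-(Real.pi / 2 * (hm H z z).re))
    rw [hf.2 x hx z, norm_mul, norm_mul, hχ x hx, one_mul, Complex.norm_exp, e1]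
    have e2 : (Real.pi * (hm H z x + hm H x x / 2) : ℂ).re =
        Real.pi * ((hm H z x).re + (hm H x x).re / 2) := by
      rw [Complex.re_ofReal_mul, Complex.add_re]
      congr 2
      rw [show (hm H x x / 2 : ℂ) = hm H x x / ((2 : ℝ) : ℂ) by push_cast; rfl,
        Complex.div_ofReal_re]
    rw [e2, mul_comm (Real.exp _) ‖f z‖, mul_assoc, ← Real.exp_add]
    congr 2
    ring
  obtain ⟨C, hC⟩ := hK.exists_bound_of_continuousOn hgc.continuousOn
  refine ⟨C, fun z => ?_⟩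
  obtain ⟨x, hx, hzx⟩ := hcov z
  have h1 : g z ≤ C := by
    have h2 := hinv x hx (z - x)
    rw [sub_add_cancel] at h2
    rw [h2]
    exact (Real.le_norm_self _).trans (hC _ hzx)
  rw [hg] at h1
  have h3 : ‖f z‖ = ‖f z‖ * Real.exp (-(Real.pi / 2 * (hm H z z).re)) *
      Real.exp (Real.pi / 2 * (hm H z z).re) := by
    rw [mul_assoc, ← Real.exp_add, neg_add_cancel, Real.exp_zero, mul_one]
  rw [h3]
  exact mul_le_mul_of_nonneg_right h1 (Real.exp_pos _).le

/-- Effective classes are semidefinite.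
PROOF: let `(hm H v v).re < 0`.  For every `z₀` the entire function `t ↦ f (z₀ + t v)` is bounded by
`C exp ((π / 2) Re hm H (z₀ + t v) (z₀ + t v))`, which tends to `0` as `|t| → ∞`, so it is `0` (Liouville); `t = 0`: `f z₀ = 0`. -/
theorem TH_psd {H : Matrix (Fin 2) (Fin 2) ℂ} (hH : H.IsHermitian) {χ : C2 → ℂ} (hχ : ∀ x ∈ S.Lat, ‖χ x‖ = 1)
    {f : C2 → ℂ} (hf : f ∈ S.TH H χ) (hf0 : f ≠ 0) : PSD H := by
  obtain ⟨C, hC⟩ := S.TH_bounded hH hχ hf
  intro v
  by_contra hv
  rw [not_le] at hv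
  apply hf0
  funext z₀
  obtain ⟨a, ha⟩ : ∃ a, a = -(hm H v v).re := ⟨_, rfl⟩
  have ha0 : 0 < a := by
    rw [ha]
    linarith
  obtain ⟨A, hA⟩ : ∃ A, A = (hm H z₀ z₀).re := ⟨_, rfl⟩
  obtain ⟨B, hB⟩ : ∃ B, B = ‖hm H z₀ v‖ + ‖hm H v z₀‖ := ⟨_, rfl⟩
  have hφ : Differentiable ℂ fun t : ℂ => f (z₀ + t • v) :=
    hf.1.comp ((differentiable_const z₀).add (differentiable_id.smul_const v))
  have hC0 : 0 ≤ C := by
    have h1 := hC 0
    have h2 := norm_nonneg (f 0)
    have h3 := Real.exp_pos (Real.pi / 2 * (hm H 0 0).re)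
    by_contra hneg
    rw [not_le] at hneg
    have := mul_neg_of_neg_of_pos hneg h3
    linarith
  have hbd : ∀ t : ℂ, ‖f (z₀ + t • v)‖ ≤
      C * Real.exp (Real.pi / 2 * (A + -(‖t‖ * (a * ‖t‖ - B)))) := by
    intro t
    refine (hC _).trans ?_
    have h1 : (hm H (z₀ + t • v) (z₀ + t • v)).re ≤ A + -(‖t‖ * (a * ‖t‖ - B)) := by
      rw [hm_add_left, hm_add_right, hm_add_right, NsC_smul_left, NsC_smul_left, NsC_smul_right,
        NsC_smul_right]
      have h2 : t * ((starRingEnd ℂ) t * hm H v v) = ((‖t‖ ^ 2 : ℝ) : ℂ) * hm H v v := by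
        rw [← mul_assoc, Complex.mul_conj, Complex.normSq_eq_norm_sq]
      rw [h2]
      simp only [Complex.add_re, Complex.re_ofReal_mul]
      have h3 : ((starRingEnd ℂ) t * hm H z₀ v).re ≤ ‖t‖ * ‖hm H z₀ v‖ := by
        refine (Complex.re_le_norm _).trans ?_
        rw [norm_mul, Complex.norm_conj]
      have h4 : (t * hm H v z₀).re ≤ ‖t‖ * ‖hm H v z₀‖ := by
        refine (Complex.re_le_norm _).trans ?_
        rw [norm_mul]
      have h5 : (hm H v v).re = -a := by
        rw [ha]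
        ring
      rw [h5, ← hA, hB]
      nlinarith
    have h2 : Real.pi / 2 * (hm H (z₀ + t • v) (z₀ + t • v)).re ≤
        Real.pi / 2 * (A + -(‖t‖ * (a * ‖t‖ - B))) :=
      mul_le_mul_of_nonneg_left h1 (by positivity)
    exact mul_le_mul_of_nonneg_left (Real.exp_le_exp.2 h2) hC0
  have hlim : Tendsto (fun s : ℝ => C * Real.exp (Real.pi / 2 * (A + -(s * (a * s - B))))) atTop
      (𝓝 0) := by
    have h1 : Tendsto (fun s : ℝ => a * s - B) atTop atTop :=
      tendsto_atTop_add_const_right _ (-B) (tendsto_id.const_mul_atTop ha0)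
    have h2 : Tendsto (fun s : ℝ => s * (a * s - B)) atTop atTop :=
      tendsto_id.atTop_mul_atTop₀ h1
    have h3 : Tendsto (fun s : ℝ => A + -(s * (a * s - B))) atTop atBot :=
      tendsto_atBot_add_const_left _ A (tendsto_neg_atTop_atBot.comp h2)
    have h4 : Tendsto (fun s : ℝ => Real.pi / 2 * (A + -(s * (a * s - B)))) atTop atBot :=
      h3.const_mul_atBot (by positivity)
    have h5 := (Real.tendsto_exp_atBot.comp h4).const_mul C
    rw [mul_zero] at h5
    exact h5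
  have hz : Tendsto (fun t : ℂ => f (z₀ + t • v)) (cocompact ℂ) (𝓝 0) := by
    rw [tendsto_zero_iff_norm_tendsto_zero]
    exact squeeze_zero (fun t => norm_nonneg _) hbd (hlim.comp (tendsto_norm_cocompact_atTop (E := ℂ)))
  have h0 := hφ.apply_eq_of_tendsto_cocompact 0 hz
  simpa using h0

/-- PROOF: `TH_bounded` and Liouville (`Differentiable.apply_eq_apply_of_bounded`). -/
theorem TH_zero_const {χ : C2 → ℂ} (hχ : ∀ x ∈ S.Lat, ‖χ x‖ = 1) {f : C2 → ℂ} (hf : f ∈ S.TH 0 χ) :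
    ∃ c : ℂ, f = fun _ => c := by
  obtain ⟨C, hC⟩ := S.TH_bounded Matrix.isHermitian_zero hχ hf
  refine hf.1.exists_eq_const_of_bounded ?_
  rw [isBounded_iff_forall_norm_le]
  refine ⟨C, ?_⟩
  rintro _ ⟨z, rfl⟩
  have h1 := hC z
  rw [hm_zero, Complex.zero_re, mul_zero, Real.exp_zero, mul_one] at h1
  exact h1

/-- No elliptic curves: the only degenerate class is `0`.  (This says that the abelian surface is simple.) -/
def Aniso : Prop := ∀ H ∈ S.NS, H.det = 0 → H = 0

/-- PROOF: a semidefinite Hermitian `2 × 2` matrix with nonzero determinant is positive definite: if `(hm H v v).re = 0`, `v ≠ 0`, then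
`hm H v w = 0` for all `w` by Cauchy-Schwarz for semidefinite forms, so `H` is singular. -/
theorem Aniso.cases {S : PerData} (hA : S.Aniso) {H : Matrix (Fin 2) (Fin 2) ℂ} (hH : H ∈ S.NS) (hp : PSD H) :
    H = 0 ∨ PD H := by
  by_cases hd : H.det = 0
  · exact Or.inl (hA H hH hd)
  right
  intro z hz
  rcases (hp z).lt_or_eq with h | h
  · exact h
  exfalso
  have hzw : ∀ w : C2, hm H z w = 0 := by
    intro w
    by_contra hne
    have hn : 0 < ‖hm H z w‖ := norm_pos_iff.2 hne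
    obtain ⟨s, hs⟩ : ∃ s : ℝ, s = ((hm H w w).re + 1) / (2 * ‖hm H z w‖ ^ 2) := ⟨_, rfl⟩
    obtain ⟨t, ht⟩ : ∃ t : ℂ, t = -((s : ℂ) * (starRingEnd ℂ) (hm H z w)) := ⟨_, rfl⟩
    have h1 := hp (w + t • z)
    rw [hm_add_left, hm_add_right, hm_add_right, NsC_smul_left, NsC_smul_left, NsC_smul_right,
      NsC_smul_right] at h1
    have h2 : t * ((starRingEnd ℂ) t * hm H z z) = ((‖t‖ ^ 2 : ℝ) : ℂ) * hm H z z := by
      rw [← mul_assoc, Complex.mul_conj, Complex.normSq_eq_norm_sq]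
    have h3 : t * hm H z w = ((-(s * ‖hm H z w‖ ^ 2) : ℝ) : ℂ) := by
      have h4 : (starRingEnd ℂ) (hm H z w) * hm H z w = ((‖hm H z w‖ ^ 2 : ℝ) : ℂ) := by
        rw [mul_comm, Complex.mul_conj, Complex.normSq_eq_norm_sq]
      rw [ht]
      push_cast at h4 ⊢
      linear_combination (-(s : ℂ)) * h4
    have h5 : (starRingEnd ℂ) t * hm H w z = (starRingEnd ℂ) (t * hm H z w) := by
      rw [map_mul, hm_conj hH.1]
    rw [h2, h5, h3] at h1
    simp only [Complex.add_re, Complex.re_ofReal_mul, Complex.conj_re, Complex.ofReal_re, ← h,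
      mul_zero] at h1
    have h6 : s * ‖hm H z w‖ ^ 2 = ((hm H w w).re + 1) / 2 := by
      rw [hs]
      field_simp
    rw [h6] at h1
    linarith
  have e0 : H 0 0 * z 0 + H 1 0 * z 1 = 0 := by
    have := hzw ![1, 0]
    simpa [hm, Fin.sum_univ_two] using this
  have e1 : H 0 1 * z 0 + H 1 1 * z 1 = 0 := by
    have := hzw ![0, 1]
    simpa [hm, Fin.sum_univ_two] using this
  rw [Matrix.det_fin_two] at hd
  apply hz
  funext i
  have k0 : (H 0 0 * H 1 1 - H 0 1 * H 1 0) * z 0 = 0 := by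
    linear_combination H 1 1 * e0 - H 1 0 * e1
  have k1 : (H 0 0 * H 1 1 - H 0 1 * H 1 0) * z 1 = 0 := by
    linear_combination H 0 0 * e1 - H 0 1 * e0
  fin_cases i
  · exact (mul_eq_zero.1 k0).resolve_left hd
  · exact (mul_eq_zero.1 k1).resolve_left hd

end PerData

end Q2T
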