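import Pool.Agent.H.MP_89f84f_ag.q3.NfB
import Pool.Agent.H.MP_89f84f_ag.q3.NsB
import Pool.Agent.H.MP_89f84f_ag.q3.NsC

set_option autoImplicit false

open Complex Topology Filter Asymptotics Metric Set

namespace Q2T

/-- The pullback of a Hermitian form under a linear isomorphism: `hm (pull A G) z w = hm G (A z) (A w)`. -/
noncomputable def pull (A : C2 ≃ₗ[ℂ] C2) (G : Matrix (Fin 2) (Fin 2) ℂ) : Matrix (Fin 2) (Fin 2) ℂ :=
  Matrix.of fun a b => hm G (A (Pi.single a 1)) (A (Pi.single b 1))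

private theorem NsT_exp (z : C2) :
    z = z 0 • (Pi.single 0 1 : C2) + z 1 • (Pi.single 1 1 : C2) := by
  funext i
  fin_cases i <;> simp

private theorem NsT_A (A : C2 ≃ₗ[ℂ] C2) (z : C2) :
    A z = z 0 • A (Pi.single 0 1) + z 1 • A (Pi.single 1 1) := by
  conv_lhs => rw [NsT_exp z]
  rw [map_add, map_smul, map_smul]

theorem hm_pull (A : C2 ≃ₗ[ℂ] C2) (G : Matrix (Fin 2) (Fin 2) ℂ) (z w : C2) : hm (pull A G) z w = hm G (A z) (A w) := by
  rw [NsT_A A z, NsT_A A w]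
  simp only [hm, pull, Fin.sum_univ_two, Matrix.of_apply, Pi.add_apply, Pi.smul_apply, smul_eq_mul,
    map_add, map_mul]
  ring

theorem pull_add (A : C2 ≃ₗ[ℂ] C2) (G G' : Matrix (Fin 2) (Fin 2) ℂ) : pull A (G + G') = pull A G + pull A G' :=
  Matrix.ext fun a b => hm_add G G' (A (Pi.single a 1)) (A (Pi.single b 1))

theorem pull_smul (A : C2 ≃ₗ[ℂ] C2) (c : ℂ) (G : Matrix (Fin 2) (Fin 2) ℂ) : pull A (c • G) = c • pull A G :=
  Matrix.ext fun a b => hm_smul c G (A (Pi.single a 1)) (A (Pi.single b 1))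

theorem pull_herm (A : C2 ≃ₗ[ℂ] C2) {G : Matrix (Fin 2) (Fin 2) ℂ} (hG : G.IsHermitian) : (pull A G).IsHermitian :=
  Matrix.IsHermitian.ext fun i j => hm_conj hG (A (Pi.single j 1)) (A (Pi.single i 1))

theorem pull_pd (A : C2 ≃ₗ[ℂ] C2) {G : Matrix (Fin 2) (Fin 2) ℂ} (hG : PD G) : PD (pull A G) := by
  intro z hz
  rw [hm_pull]
  exact hG (A z) ((LinearEquiv.map_ne_zero_iff A).2 hz)

/-- A linear isomorphism is holomorphic, also its inverse. -/
theorem equiv_diff (A : C2 ≃ₗ[ℂ] C2) : Differentiable ℂ A ∧ Differentiable ℂ A.symm :=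
  ⟨(LinearMap.toContinuousLinearMap (A : C2 →ₗ[ℂ] C2)).differentiable,
    (LinearMap.toContinuousLinearMap (A.symm : C2 →ₗ[ℂ] C2)).differentiable⟩

private theorem NsT_van (A : C2 ≃ₗ[ℂ] C2) {f : C2 → ℂ} {N : ℕ} (hf : f ∈ Van N 0) :
    (fun z => f (A z)) ∈ Van N 0 := by
  have hf1 : f =O[𝓝 0] fun z => ‖z - 0‖ ^ N := hf
  have hc : Continuous A := (equiv_diff A).1.continuous
  have ht : Tendsto A (𝓝 0) (𝓝 0) := by
    have h1 := hc.tendsto 0
    rwa [map_zero] at h1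
  have h2 : (fun z => f (A z)) =O[𝓝 0] fun z => ‖A z - 0‖ ^ N := hf1.comp_tendsto ht
  show (fun z => f (A z)) =O[𝓝 0] fun z => ‖z - 0‖ ^ N
  refine h2.trans (IsBigO.of_bound
    (‖LinearMap.toContinuousLinearMap (A : C2 →ₗ[ℂ] C2)‖ ^ N) (Eventually.of_forall fun z => ?_))
  rw [sub_zero, sub_zero, norm_pow, norm_pow, norm_norm, norm_norm, ← mul_pow]
  exact pow_le_pow_left₀ (norm_nonneg _)
    ((LinearMap.toContinuousLinearMap (A : C2 →ₗ[ℂ] C2)).le_opNorm z) N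

/-- PROOF: `A` and its inverse are Lipschitz. -/
theorem van_comp_equiv (A : C2 ≃ₗ[ℂ] C2) {f : C2 → ℂ} {N : ℕ} : (fun z => f (A z)) ∈ Van N 0 ↔ f ∈ Van N 0 := by
  constructor
  · intro h
    have h1 := NsT_van A.symm h
    simp only [LinearEquiv.apply_symm_apply] at h1
    exact h1
  · exact NsT_van A

theorem mult_comp_equiv (A : C2 ≃ₗ[ℂ] C2) {s f : C2 → ℂ} : (fun z => f (A z)) ∈ Mult (fun z => s (A z)) ↔ f ∈ Mult s := by
  constructor
  · rintro ⟨h, hh, he⟩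
    refine ⟨fun w => h (A.symm w), hh.comp (equiv_diff A).2, funext fun w => ?_⟩
    have h1 := congrFun he (A.symm w)
    simp only [LinearEquiv.apply_symm_apply, Pi.mul_apply] at h1
    exact h1
  · rintro ⟨h, hh, he⟩
    refine ⟨fun w => h (A w), hh.comp (equiv_diff A).1, funext fun w => ?_⟩
    exact congrFun he (A w)

private theorem NsT_copr (A : C2 ≃ₗ[ℂ] C2) {s t : C2 → ℂ} (h : Copr s t) :
    Copr (fun z => s (A z)) (fun z => t (A z)) := by
  intro p
  have hc : Continuous A := (equiv_diff A).1.continuous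
  have h1 : Tendsto A (𝓝[≠] p) (𝓝[≠] (A p)) :=
    tendsto_nhdsWithin_iff.2 ⟨(hc.tendsto p).mono_left nhdsWithin_le_nhds,
      eventually_nhdsWithin_of_forall fun z hz => A.injective.ne hz⟩
  exact h1.eventually (h (A p))

theorem copr_comp_equiv (A : C2 ≃ₗ[ℂ] C2) {s t : C2 → ℂ} : Copr (fun z => s (A z)) (fun z => t (A z)) ↔ Copr s t := by
  constructor
  · intro h
    have h1 := NsT_copr A.symm h
    simp only [LinearEquiv.apply_symm_apply] at h1
    exact h1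
  · exact NsT_copr A

theorem par_comp_equiv (A : C2 ≃ₗ[ℂ] C2) {ε : ℂ} {f : C2 → ℂ} : (fun z => f (A z)) ∈ Par ε ↔ f ∈ Par ε := by
  constructor
  · intro h w
    have h1 : f (A (-(A.symm w))) = ε * f (A (A.symm w)) := h (A.symm w)
    rw [map_neg, LinearEquiv.apply_symm_apply] at h1
    exact h1
  · intro h z
    show f (A (-z)) = ε * f (A z)
    rw [map_neg]
    exact h (A z)

private theorem NsT_det (A : C2 ≃ₗ[ℂ] C2) : ∃ c : ℝ, ∀ G : Matrix (Fin 2) (Fin 2) ℂ,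
    (pull A G).det = (c : ℂ) * G.det := by
  refine ⟨Complex.normSq (A (Pi.single 0 1) 0 * A (Pi.single 1 1) 1 -
    A (Pi.single 1 1) 0 * A (Pi.single 0 1) 1), fun G => ?_⟩
  rw [← Complex.mul_conj]
  simp only [Matrix.det_fin_two, pull, hm, Matrix.of_apply, Fin.sum_univ_two, map_sub, map_mul]
  ring

private theorem NsT_pull_symm (A : C2 ≃ₗ[ℂ] C2) (G : Matrix (Fin 2) (Fin 2) ℂ) :
    pull A.symm (pull A G) = G :=
  hm_ext fun z w => by
    rw [hm_pull, hm_pull, LinearEquiv.apply_symm_apply, LinearEquiv.apply_symm_apply]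

namespace PerData

variable {S : PerData}

namespace NF

variable {H : Matrix (Fin 2) (Fin 2) ℂ} {S' : PerData} {n : ℕ} {A : C2 ≃ₗ[ℂ] C2}

theorem H_eq (h : S.NF H S' n A) : H = pull A ((n : ℂ) • S'.H0) :=
  hm_ext fun z w => by rw [hm_pull, hm_smul, h.form]

/-- PROOF: both sides are `c det G` with the same constant, compare at `G = n H0` (`form`, `pf`, `pf_smul`, `pf_H0`). -/
theorem pf_pull (h : S.NF H S' n A) (G : Matrix (Fin 2) (Fin 2) ℂ) (hG : G.IsHermitian) : S.pf (pull A G) = S'.pf G := by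
  obtain ⟨c, hc⟩ := NsT_det A
  have h1 : ∀ G : Matrix (Fin 2) (Fin 2) ℂ, S.pf (pull A G) = S.d * S.D * c * G.det.re := by
    intro G
    unfold PerData.pf
    rw [hc G, Complex.re_ofReal_mul]
    ring
  have h2 : S.pf (pull A ((n : ℂ) • S'.H0)) = S'.pf ((n : ℂ) • S'.H0) := by
    rw [← h.H_eq, h.pf]
    have h3 := S'.pf_smul (n : ℝ) S'.H0
    rw [S'.pf_H0, Complex.ofReal_natCast] at h3
    exact h3.symm
  have h3 : S'.pf ((n : ℂ) • S'.H0) ≠ 0 := by
    have h4 := S'.pf_smul (n : ℝ) S'.H0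
    rw [S'.pf_H0, Complex.ofReal_natCast] at h4
    rw [h4]
    have h5 : (0 : ℝ) < n := by exact_mod_cast h.n_pos
    have h6 : (0 : ℝ) < S'.d := by exact_mod_cast S'.d_pos
    positivity
  have h4 : ((n : ℂ) • S'.H0).det.re ≠ 0 := by
    intro h5
    apply h3
    unfold PerData.pf
    rw [h5, mul_zero]
  rw [h1] at h2
  have h5 : S.d * S.D * c = S'.d * S'.D := by
    refine mul_right_cancel₀ h4 ?_
    exact h2
  rw [h1, h5]
  rfl

theorem NsT_lat (h : S.NF H S' n A) {y : C2} (hy : y ∈ S'.Lat) : A.symm y ∈ S.Lat := by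
  rw [h.lat, LinearEquiv.apply_symm_apply]
  exact hy

theorem pull_mem (h : S.NF H S' n A) {G : Matrix (Fin 2) (Fin 2) ℂ} : pull A G ∈ S.NS ↔ G ∈ S'.NS := by
  constructor
  · rintro ⟨h1, h2⟩
    refine ⟨?_, fun x hx y hy => ?_⟩
    · have h3 := pull_herm A.symm h1
      rwa [NsT_pull_symm] at h3
    · obtain ⟨k, hk⟩ := h2 _ (h.NsT_lat hx) _ (h.NsT_lat hy)
      rw [hm_pull, LinearEquiv.apply_symm_apply, LinearEquiv.apply_symm_apply] at hk
      exact ⟨k, hk⟩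
  · rintro ⟨h1, h2⟩
    refine ⟨pull_herm A h1, fun x hx y hy => ?_⟩
    rw [hm_pull]
    exact h2 _ ((h.lat x).1 hx) _ ((h.lat y).1 hy)

theorem sc (h : S.NF H S' n A) {G : Matrix (Fin 2) (Fin 2) ℂ} {χ : C2 → ℂ} :
    S.SC (pull A G) (fun x => χ (A x)) ↔ S'.SC G χ := by
  constructor
  · rintro ⟨h1, h2⟩
    refine ⟨fun x hx => ?_, fun x hx y hy => ?_⟩
    · have h3 := h1 _ (h.NsT_lat hx)
      simp only [LinearEquiv.apply_symm_apply] at h3
      exact h3
    · have h3 := h2 _ (h.NsT_lat hx) _ (h.NsT_lat hy)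
      rw [hm_pull] at h3
      simp only [map_add, LinearEquiv.apply_symm_apply] at h3
      exact h3
  · rintro ⟨h1, h2⟩
    refine ⟨fun x hx => h1 _ ((h.lat x).1 hx), fun x hx y hy => ?_⟩
    have h3 := h2 _ ((h.lat x).1 hx) _ ((h.lat y).1 hy)
    rw [hm_pull]
    simp only [map_add]
    exact h3

/-- Theta functions for `S'` and `S`. -/
theorem mem (h : S.NF H S' n A) {G : Matrix (Fin 2) (Fin 2) ℂ} {χ : C2 → ℂ} {f : C2 → ℂ} :
    (fun z => f (A z)) ∈ S.TH (pull A G) (fun x => χ (A x)) ↔ f ∈ S'.TH G χ := by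
  constructor
  · rintro ⟨h1, h2⟩
    refine ⟨?_, fun x hx z => ?_⟩
    · have h3 := h1.comp (equiv_diff A).2
      have h4 : (fun z => f (A z)) ∘ A.symm = f := by
        funext w
        simp
      rwa [h4] at h3
    · have h3 := h2 _ (h.NsT_lat hx) (A.symm z)
      rw [hm_pull, hm_pull] at h3
      simp only [map_add, LinearEquiv.apply_symm_apply] at h3
      exact h3
  · rintro ⟨h1, h2⟩
    refine ⟨h1.comp (equiv_diff A).1, fun x hx z => ?_⟩
    have h3 := h2 _ ((h.lat x).1 hx) (A z)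
    rw [hm_pull, hm_pull]
    simp only [map_add]
    exact h3

/-- A theta function of class `pull A (v H0)` comes from a classical theta function of level `v` for `S'`.
PROOF: `χ x = χ' (A x)` with `χ' = χ ∘ A.symm`, `sc`, `exists_char`, `gz_mem` with `f'` given by
`f' w = (gz v w)⁻¹ f (A.symm w)`. -/
theorem to_classical (h : S.NF H S' n A) {v : ℤ} {χ : C2 → ℂ} (hχ : S.SC (pull A ((v : ℂ) • S'.H0)) χ) {f : C2 → ℂ}
    (hf : f ∈ S.TH (pull A ((v : ℂ) • S'.H0)) χ) :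
    ∃ (α β : Fin 2 → ℝ) (f' : C2 → ℂ), f' ∈ S'.Th v α β ∧ ∀ z, f z = S'.gz v (A z) * f' (A z) := by
  have e1 : χ = fun x => (fun y => χ (A.symm y)) (A x) := by
    funext x
    simp only [LinearEquiv.symm_apply_apply]
  have e2 : f = fun z => (fun w => f (A.symm w)) (A z) := by
    funext z
    simp only [LinearEquiv.symm_apply_apply]
  have h1 : S'.SC ((v : ℂ) • S'.H0) (fun y => χ (A.symm y)) := by
    refine h.sc.1 ?_
    rw [← e1]
    exact hχ
  obtain ⟨α, β, h2⟩ := S'.exists_char h1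
  have h3 : (fun w => f (A.symm w)) ∈ S'.TH ((v : ℂ) • S'.H0) (fun y => χ (A.symm y)) := by
    refine h.mem.1 ?_
    rw [← e1, ← e2]
    exact hf
  refine ⟨α, β, fun w => (S'.gz v w)⁻¹ * f (A.symm w), (S'.gz_mem h2 _).2 ?_, fun z => ?_⟩
  · have e3 : (fun z => S'.gz v z * ((S'.gz v z)⁻¹ * f (A.symm z))) = fun w => f (A.symm w) := by
      funext w
      rw [mul_inv_cancel_left₀ (S'.gz_ne v w)]
    rw [e3]
    exact h3
  · show f z = S'.gz v (A z) * ((S'.gz v (A z))⁻¹ * f (A.symm (A z)))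
    rw [mul_inv_cancel_left₀ (S'.gz_ne v _), LinearEquiv.symm_apply_apply]

/-- Conversely. -/
theorem of_classical (h : S.NF H S' n A) {v : ℤ} {α β : Fin 2 → ℝ} {f' : C2 → ℂ} (hf : f' ∈ S'.Th v α β) :
    ∃ χ : C2 → ℂ, S.SC (pull A ((v : ℂ) • S'.H0)) χ ∧
      (fun z => S'.gz v (A z) * f' (A z)) ∈ S.TH (pull A ((v : ℂ) • S'.H0)) χ := by
  obtain ⟨χ, h1, h2⟩ := S'.exists_chi v α β
  exact ⟨fun x => χ (A x), h.sc.2 h2, (h.mem (f := fun z => S'.gz v z * f' z)).2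
    ((S'.gz_mem h1 f').1 hf)⟩

end NF

end PerData

end Q2T
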