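import Pool.Agent.H.MP_89f84f_ag.q3.ChB
import Pool.Agent.H.MP_89f84f_ag.q3.DiB

set_option autoImplicit false

open Complex Topology Filter Asymptotics Metric Set Module

namespace Q2T

private theorem PnB_par_mul {ε ε' : ℂ} {f g : C2 → ℂ} (hf : f ∈ Par ε) (hg : g ∈ Par ε') :
    f * g ∈ Par (ε * ε') := by
  intro z
  show f (-z) * g (-z) = ε * ε' * (f z * g z)
  rw [hf z, hg z]
  ring

private theorem PnB_par_pow {ε : ℂ} {f : C2 → ℂ} (hf : f ∈ Par ε) (i : ℕ) : f ^ i ∈ Par (ε ^ i) := by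
  intro z
  show f (-z) ^ i = ε ^ i * f z ^ i
  rw [hf z, mul_pow]

private theorem PnB_van_pow {N : ℕ} {p : C2} {f : C2 → ℂ} (hf : f ∈ Van N p) (i : ℕ) :
    f ^ i ∈ Van (i * N) p := by
  induction i with
  | zero =>
    rw [pow_zero, zero_mul]
    exact van_zero (f := (1 : C2 → ℂ)) continuous_const p
  | succ i ih =>
    rw [pow_succ, Nat.succ_mul]
    exact van_mul ih hf

namespace PerData

variable (S : PerData)

private theorem PnB_th_pow {u : ℤ} {f : C2 → ℂ} (hf : f ∈ S.Th u 0 0) (i : ℕ) :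
    f ^ i ∈ S.Th (i * u) 0 0 := by
  induction i with
  | zero =>
    have h := S.th_one
    rw [pow_zero]
    have e : ((0 : ℕ) : ℤ) * u = 0 := by simp
    rw [e]
    exact h
  | succ i ih =>
    rw [pow_succ]
    have h := S.th_mul ih hf
    rw [add_zero] at h
    have e : ((i + 1 : ℕ) : ℤ) * u = i * u + u := by push_cast; ring
    rw [e]
    exact h

private theorem PnB_th_mul {u v : ℤ} {f g : C2 → ℂ} (hf : f ∈ S.Th u 0 0)
    (hg : g ∈ S.Th v 0 0) : f * g ∈ S.Th (u + v) 0 0 := by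
  have h := S.th_mul hf hg
  rw [add_zero] at h
  exact h

/-- The pencil for the curve of the second type: two even functions. -/
structure Pen2 (a b x y : ℕ) (s t₁ t₂ : C2 → ℂ) : Prop where
  cur : S.Curve2 a b s
  num : 4 * a * S.d * x = b * y + 2
  ypos : 2 ≤ y
  m₁ : t₁ ∈ S.Th (2 * x) 0 0
  m₂ : t₂ ∈ S.Th (2 * x) 0 0
  p₁ : t₁ ∈ Par 1
  p₂ : t₂ ∈ Par 1
  v₁ : t₁ ∈ Van y 0
  v₂ : t₂ ∈ Van y 0
  indep : ∀ c₁ c₂ : ℂ, c₁ • t₁ + c₂ • t₂ ∈ Mult s → c₁ = 0 ∧ c₂ = 0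

variable {S}

theorem Pen2.x_pos {a b x y : ℕ} {s t₁ t₂ : C2 → ℂ} (P : S.Pen2 a b x y s t₁ t₂) : 1 ≤ x ∧ s 0 = 0 ∧ 3 ≤ b := by
  have hb : 3 ≤ b := P.cur.three_le.2
  refine ⟨?_, ?_, hb⟩
  · by_contra hc
    have h1 : x = 0 := by omega
    have h2 := P.num
    rw [h1] at h2
    omega
  · exact (van_one_iff P.cur.mem.1 0).1 (van_mono (by omega) 0 P.cur.van)

private theorem PnB_mem {a b x y : ℕ} {s t₁ t₂ : C2 → ℂ} (P : S.Pen2 a b x y s t₁ t₂) (c₁ c₂ : ℂ) :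
    c₁ • t₁ + c₂ • t₂ ∈ S.Th (2 * x) 0 0 ∧ c₁ • t₁ + c₂ • t₂ ∈ Par 1 ∧
      c₁ • t₁ + c₂ • t₂ ∈ Van y 0 :=
  ⟨add_mem (Submodule.smul_mem _ _ P.m₁) (Submodule.smul_mem _ _ P.m₂),
    add_mem (Submodule.smul_mem _ _ P.p₁) (Submodule.smul_mem _ _ P.p₂),
    add_mem (Submodule.smul_mem _ _ P.v₁) (Submodule.smul_mem _ _ P.v₂)⟩

private theorem PnB_member (t₁ t₂ : C2 → ℂ) (R : C2) :
    ∃ c₁ c₂ : ℂ, ¬ (c₁ = 0 ∧ c₂ = 0) ∧ c₁ * t₁ R + c₂ * t₂ R = 0 := by
  by_cases h : t₁ R = 0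
  · exact ⟨1, 0, fun h' => one_ne_zero h'.1, by rw [h]; ring⟩
  · exact ⟨t₂ R, -t₁ R, fun h' => h (neg_eq_zero.1 h'.2), by ring⟩

private theorem PnB_two {R : C2} (h : (2 : ℂ) • R ∉ S.Lat) : R ∉ S.Lat := fun h' => h (by
  rw [two_smul]
  exact add_mem h' h')

private theorem PnB_good {s : C2 → ℂ} {Q R : C2} (h2 : (2 : ℂ) • Q ∉ S.Lat) (hs : s Q = 0)
    (h2' : (2 : ℂ) • R ∉ S.Lat) (hs' : s R = 0) (h3 : Q - R ∉ S.Lat) (h4 : Q + R ∉ S.Lat) :
    S.GoodZ s (![Q, R] : Fin 2 → C2) := by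
  refine ⟨fun i => ?_, fun i => ?_, fun i j hij => ?_⟩
  · fin_cases i
    · exact hs
    · exact hs'
  · fin_cases i
    · exact h2
    · exact h2'
  · fin_cases i <;> fin_cases j
    · exact absurd rfl hij
    · exact ⟨h3, h4⟩
    · refine ⟨fun h => h3 ?_, fun h => h4 ?_⟩
      · have := neg_mem h
        change -(R - Q) ∈ S.Lat at this
        rwa [neg_sub] at this
      · change R + Q ∈ S.Lat at h
        rwa [add_comm] at h
    · exact absurd rfl hij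

/-- No member of the pencil vanishes at two pairs of zeros of `s`.
PROOF: `mult_of_zeros2` with `k = 2`, `l = 0`: `4 a d x = b y + 2 < b y + 4`. -/
theorem Pen2.two_zeros {a b x y : ℕ} {s t₁ t₂ : C2 → ℂ} (P : S.Pen2 a b x y s t₁ t₂) {z : Fin 2 → C2}
    (hz : S.GoodZ s z) {c₁ c₂ : ℂ} (h : ∀ i, c₁ * t₁ (z i) + c₂ * t₂ (z i) = 0) : c₁ = 0 ∧ c₂ = 0 := by
  have hx := P.x_pos.1
  have ha := P.cur.ha
  obtain ⟨h1, h2, h3⟩ := PnB_mem P c₁ c₂
  refine P.indep c₁ c₂ (S.mult_of_zeros2 (u := (a : ℤ)) (n := 2 * (x : ℤ)) (l := 0) (w := Fin.elim0)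
    (by omega) (by omega) P.cur.mem P.cur.ne P.cur.dich P.cur.odd P.cur.van h1 h2 h3 hz h
    ⟨fun i => i.elim0, fun i => i.elim0⟩ (fun i => i.elim0) ?_)
  have hnum : (4 * a * S.d * x : ℤ) = b * y + 2 := by exact_mod_cast P.num
  push_cast
  nlinarith [hnum]

/-- The pencil has no base point on the curve outside `Lat`.
PROOF: `2 Q ∉ Lat`: as `Pen.base_free` in q2/PenA.lean.  `2 Q ∈ Lat`: if `t₁ Q = t₂ Q = 0`, then all members are in `Van 2 Q`
(`half_even`, q2/PenA.lean).  Take a zero `R` of `s` with `2 R ∉ Lat` (`exists_goodZ`) and `(c₁, c₂) ≠ 0` with `f = c₁ t₁ + c₂ t₂` vanishing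
at `R`; `f` is not a multiple of `s` (`indep`), `Copr s f`.  `bezout` at `0, Q, R, - R`: `b y + 2 + 1 + 1 ≤ 4 a d x = b y + 2`,
contradiction. -/
theorem Pen2.base_free {a b x y : ℕ} {s t₁ t₂ : C2 → ℂ} (P : S.Pen2 a b x y s t₁ t₂) {Q : C2}
    (h1 : Q ∉ S.Lat) (hs : s Q = 0) : ¬ (t₁ Q = 0 ∧ t₂ Q = 0) := by
  rintro ⟨hQ1, hQ2⟩
  by_cases h2 : (2 : ℂ) • Q ∈ S.Lat
  · have hx := P.x_pos.1
    have ha := P.cur.ha
    obtain ⟨z, hz⟩ := S.exists_goodZ P.cur.mem.1 P.x_pos.2.1 1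
    set R := z 0 with hR
    have hsR : s R = 0 := hz.1 0
    have h2R : (2 : ℂ) • R ∉ S.Lat := hz.2.1 0
    have hRL : R ∉ S.Lat := PnB_two h2R
    obtain ⟨c₁, c₂, hc, hfR⟩ := PnB_member t₁ t₂ R
    obtain ⟨hfT, hfP, hfV⟩ := PnB_mem P c₁ c₂
    set f := c₁ • t₁ + c₂ • t₂ with hf
    have hfM : f ∉ Mult s := fun h => hc (P.indep c₁ c₂ h)
    have hf0 : f ≠ 0 := fun h => hfM (by rw [h]; exact Submodule.zero_mem _)
    have hC : Copr s f := (P.cur.dich _ _ _ f hfT hf0).resolve_left hfM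
    have hfQ : f Q = 0 := by
      rw [hf]
      show c₁ * t₁ Q + c₂ * t₂ Q = 0
      rw [hQ1, hQ2]
      ring
    have hfQ2 : f ∈ Van 2 Q := S.half_even hfT hfP h2 hfQ
    have hfR' : f R = 0 := hfR
    have hfnR : f (-R) = 0 := by
      rw [hfP R, hfR', mul_zero]
    have hsnR : s (-R) = 0 := by
      rw [P.cur.odd R, hsR, mul_zero]
    have hneg : ∀ v : C2, v ∉ S.Lat → -v ∉ S.Lat := fun v hv h => hv (by
      have := neg_mem h
      rwa [neg_neg] at this)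
    have k1 : Q - R ∉ S.Lat := fun h => h2R (by
      have h3 := add_mem h h
      have h4 := sub_mem h2 h3
      have e : (2 : ℂ) • R = (2 : ℂ) • Q - ((Q - R) + (Q - R)) := by
        rw [two_smul, two_smul]; abel
      rw [e]
      exact h4)
    have k2 : Q + R ∉ S.Lat := fun h => h2R (by
      have h3 := add_mem h h
      have h4 := sub_mem h3 h2
      have e : (2 : ℂ) • R = ((Q + R) + (Q + R)) - (2 : ℂ) • Q := by
        rw [two_smul, two_smul]; abel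
      rw [e]
      exact h4)
    have k3 : R + R ∉ S.Lat := by
      rw [← two_smul ℂ]
      exact h2R
    have hpair : ∀ i k : Fin 4, i ≠ k →
        (![0, Q, R, -R] : Fin 4 → C2) i - (![0, Q, R, -R] : Fin 4 → C2) k ∉ S.Lat := by
      intro i k hik
      fin_cases i <;> fin_cases k
      · exact absurd rfl hik
      · change (0 : C2) - Q ∉ S.Lat
        rw [zero_sub]
        exact hneg _ h1
      · change (0 : C2) - R ∉ S.Lat
        rw [zero_sub]
        exact hneg _ hRL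
      · change (0 : C2) - -R ∉ S.Lat
        rw [zero_sub, neg_neg]
        exact hRL
      · change Q - 0 ∉ S.Lat
        rw [sub_zero]
        exact h1
      · exact absurd rfl hik
      · exact k1
      · change Q - -R ∉ S.Lat
        rw [sub_neg_eq_add]
        exact k2
      · change R - 0 ∉ S.Lat
        rw [sub_zero]
        exact hRL
      · change R - Q ∉ S.Lat
        rw [← neg_sub]
        exact hneg _ k1
      · exact absurd rfl hik
      · change R - -R ∉ S.Lat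
        rw [sub_neg_eq_add]
        exact k3
      · change -R - 0 ∉ S.Lat
        rw [sub_zero]
        exact hneg _ hRL
      · change -R - Q ∉ S.Lat
        rw [show -R - Q = -(Q + R) by abel]
        exact hneg _ k2
      · change -R - R ∉ S.Lat
        rw [show -R - R = -(R + R) by abel]
        exact hneg _ k3
      · exact absurd rfl hik
    have hB := S.bezout (u := (a : ℤ)) (v := 2 * (x : ℤ)) (by omega) (by omega) P.cur.mem hfT
      P.cur.ne hf0 hC (![0, Q, R, -R] : Fin 4 → C2) hpair ![b, 1, 1, 1] ![y, 2, 1, 1] ?_ ?_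
    · have e : (∑ i : Fin 4, (![b, 1, 1, 1] : Fin 4 → ℕ) i * (![y, 2, 1, 1] : Fin 4 → ℕ) i) =
          b * y + 4 := by
        rw [Fin.sum_univ_four]
        change b * y + 1 * 2 + 1 * 1 + 1 * 1 = _
        ring
      rw [e] at hB
      have hnum : (4 * a * S.d * x : ℤ) = b * y + 2 := by exact_mod_cast P.num
      push_cast at hB
      nlinarith [hnum, hB]
    · intro i
      fin_cases i
      · exact P.cur.van
      · exact (van_one_iff P.cur.mem.1 Q).2 hs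
      · exact (van_one_iff P.cur.mem.1 R).2 hsR
      · exact (van_one_iff P.cur.mem.1 (-R)).2 hsnR
    · intro i
      fin_cases i
      · exact hfV
      · exact hfQ2
      · exact (van_one_iff hfT.1 R).2 hfR'
      · exact (van_one_iff hfT.1 (-R)).2 hfnR
  · obtain ⟨z, hz⟩ := S.exists_goodZ P.cur.mem.1 P.x_pos.2.1 2
    have key : ∀ i, Q - z i ∉ S.Lat → Q + z i ∉ S.Lat → False := by
      intro i h3 h4
      obtain ⟨c₁, c₂, hc, hfR⟩ := PnB_member t₁ t₂ (z i)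
      refine hc (P.two_zeros (PnB_good h2 hs (hz.2.1 i) (hz.1 i) h3 h4) fun j => ?_)
      fin_cases j
      · change c₁ * t₁ Q + c₂ * t₂ Q = 0
        rw [hQ1, hQ2]
        ring
      · exact hfR
    have hne := hz.2.2 0 1 (by decide)
    have bad : ∀ i, Q - z i ∈ S.Lat ∨ Q + z i ∈ S.Lat := by
      intro i
      by_contra hcon
      rw [not_or] at hcon
      exact key i hcon.1 hcon.2
    rcases bad 0 with h3 | h3 <;> rcases bad 1 with h4 | h4
    · apply hne.1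
      have := sub_mem h4 h3
      rwa [show Q - z 1 - (Q - z 0) = z 0 - z 1 by abel] at this
    · apply hne.2
      have := sub_mem h4 h3
      rwa [show Q + z 1 - (Q - z 0) = z 0 + z 1 by abel] at this
    · apply hne.2
      have := sub_mem h3 h4
      rwa [show Q + z 0 - (Q - z 1) = z 0 + z 1 by abel] at this
    · apply hne.1
      have := sub_mem h3 h4
      rwa [show Q + z 0 - (Q + z 1) = z 0 - z 1 by abel] at this

/-- The pencil separates pairs.  PROOF: as `Pen.separates`. -/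
theorem Pen2.separates {a b x y : ℕ} {s t₁ t₂ : C2 → ℂ} (P : S.Pen2 a b x y s t₁ t₂) {Q Q' : C2}
    (h2 : (2 : ℂ) • Q ∉ S.Lat) (hs : s Q = 0) (h2' : (2 : ℂ) • Q' ∉ S.Lat) (hs' : s Q' = 0)
    (h : t₁ Q * t₂ Q' = t₁ Q' * t₂ Q) : Q - Q' ∈ S.Lat ∨ Q + Q' ∈ S.Lat := by
  by_contra hcon
  rw [not_or] at hcon
  have h3 := P.two_zeros (c₁ := t₂ Q) (c₂ := -t₁ Q) (PnB_good h2 hs h2' hs' hcon.1 hcon.2)
    fun j => by
      fin_cases j
      · change t₂ Q * t₁ Q + -t₁ Q * t₂ Q = 0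
        ring
      · change t₂ Q * t₁ Q' + -t₁ Q * t₂ Q' = 0
        linear_combination -h
  exact P.base_free (PnB_two h2) hs ⟨neg_eq_zero.1 h3.2, h3.1⟩

/-- Many zeros with different finite ratios.  PROOF: as `Pen.exists_ratio`. -/
theorem Pen2.exists_ratio {a b x y : ℕ} {s t₁ t₂ : C2 → ℂ} (P : S.Pen2 a b x y s t₁ t₂) (k : ℕ) :
    ∃ z : Fin k → C2, S.GoodZ s z ∧ (∀ i, t₂ (z i) ≠ 0) ∧ Function.Injective fun i => t₁ (z i) / t₂ (z i) := by
  obtain ⟨z, hz⟩ := S.exists_goodZ P.cur.mem.1 P.x_pos.2.1 (k + 1)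
  have huniq : ∀ i j, t₂ (z i) = 0 → t₂ (z j) = 0 → i = j := by
    intro i j hi hj
    by_contra hij
    have h3 := P.two_zeros (c₁ := 0) (c₂ := 1) (PnB_good (hz.2.1 i) (hz.1 i) (hz.2.1 j) (hz.1 j)
      (hz.2.2 i j hij).1 (hz.2.2 i j hij).2) fun l => by
        fin_cases l
        · change 0 * t₁ (z i) + 1 * t₂ (z i) = 0
          rw [hi]; ring
        · change 0 * t₁ (z j) + 1 * t₂ (z j) = 0
          rw [hj]; ring
    exact one_ne_zero h3.2
  obtain ⟨i0, hi0⟩ : ∃ i0 : Fin (k + 1), ∀ i, i ≠ i0 → t₂ (z i) ≠ 0 := by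
    by_cases hex : ∃ i0, t₂ (z i0) = 0
    · obtain ⟨i0, h0⟩ := hex
      exact ⟨i0, fun i hi h => hi (huniq i i0 h h0)⟩
    · exact ⟨0, fun i _ h => hex ⟨i, h⟩⟩
  have hne : ∀ i : Fin k, t₂ (z (i0.succAbove i)) ≠ 0 := fun i => hi0 _ (Fin.succAbove_ne i0 i)
  refine ⟨fun i => z (i0.succAbove i), ⟨fun i => hz.1 _, fun i => hz.2.1 _, fun i j hij =>
    hz.2.2 _ _ fun h => hij (Fin.succAbove_right_injective h)⟩, hne, fun i j hij => ?_⟩
  simp only at hij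
  rw [div_eq_div_iff (hne i) (hne j)] at hij
  by_contra hne'
  have h3 := P.separates (hz.2.1 (i0.succAbove i)) (hz.1 _) (hz.2.1 (i0.succAbove j)) (hz.1 _) hij
  have h4 := hz.2.2 (i0.succAbove i) (i0.succAbove j)
    fun h => hne' (Fin.succAbove_right_injective h)
  rcases h3 with h3 | h3
  · exact h4.1 h3
  · exact h4.2 h3

/-- PROOF: the polynomial `∑ c i X^i` has infinitely many zeros (`exists_ratio`). -/
theorem Pen2.form_unique {a b x y : ℕ} {s t₁ t₂ : C2 → ℂ} (P : S.Pen2 a b x y s t₁ t₂) {L : ℕ}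
    {c : Fin (L + 1) → ℂ} (h : ∑ i, c i • (t₁ ^ (i : ℕ) * t₂ ^ (L - (i : ℕ))) ∈ Mult s) : c = 0 := by
  classical
  obtain ⟨z, hz, ht, hinj⟩ := P.exists_ratio (L + 1)
  obtain ⟨g, -, hg⟩ := h
  set r : Fin (L + 1) → ℂ := fun i => t₁ (z i) / t₂ (z i) with hr
  set Q : Polynomial ℂ := ∑ i : Fin (L + 1), Polynomial.C (c i) * Polynomial.X ^ (i : ℕ) with hQ
  have hdeg : Q.natDegree < Fintype.card (Fin (L + 1)) := by
    rw [Fintype.card_fin, Nat.lt_succ_iff]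
    refine Polynomial.natDegree_sum_le_of_forall_le _ _ fun i _ => ?_
    refine (Polynomial.natDegree_C_mul_X_pow_le _ _).trans ?_
    have := i.2
    omega
  have heval : ∀ j, Q.eval (r j) = 0 := by
    intro j
    have h1 := congrFun hg (z j)
    rw [Finset.sum_apply] at h1
    have h2 : (s * g) (z j) = 0 := by
      show s (z j) * g (z j) = 0
      rw [hz.1 j, zero_mul]
    rw [h2] at h1
    have h3 : Q.eval (r j) * t₂ (z j) ^ L = 0 := by
      rw [← h1, hQ, Polynomial.eval_finsetSum, Finset.sum_mul]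
      refine Finset.sum_congr rfl fun i _ => ?_
      show (Polynomial.C (c i) * Polynomial.X ^ (i : ℕ)).eval (r j) * t₂ (z j) ^ L =
        c i * (t₁ (z j) ^ (i : ℕ) * t₂ (z j) ^ (L - (i : ℕ)))
      rw [Polynomial.eval_mul, Polynomial.eval_C, Polynomial.eval_pow, Polynomial.eval_X]
      have hi : L = (i : ℕ) + (L - (i : ℕ)) := by
        have := i.2
        omega
      have h4 : t₂ (z j) ^ L = t₂ (z j) ^ (i : ℕ) * t₂ (z j) ^ (L - (i : ℕ)) := by
        rw [← pow_add, ← hi]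
      have h5 : r j ^ (i : ℕ) * t₂ (z j) ^ (i : ℕ) = t₁ (z j) ^ (i : ℕ) := by
        rw [← mul_pow]
        congr 1
        exact div_mul_cancel₀ _ (ht j)
      rw [h4, ← h5]
      ring
    rcases mul_eq_zero.1 h3 with h4 | h4
    · exact h4
    · exact absurd h4 (pow_ne_zero _ (ht j))
  have h0 := Polynomial.eq_zero_of_natDegree_lt_card_of_eval_eq_zero Q hinj heval hdeg
  funext i
  have h1 : Q.coeff (i : ℕ) = 0 := by rw [h0, Polynomial.coeff_zero]
  rw [hQ, Polynomial.finsetSum_coeff] at h1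
  simp only [Polynomial.coeff_C_mul, Polynomial.coeff_X_pow] at h1
  rw [Finset.sum_eq_single i] at h1
  · simpa using h1
  · intro j _ hj
    rw [if_neg (fun h => hj (Fin.ext h.symm)), mul_zero]
  · intro h
    exact absurd (Finset.mem_univ i) h

/-- Linear relations: for `K` linear conditions at zeros.  Even functions `f, g` of level `2 n` satisfy a relation
`f q (t₁, t₂) ≡ g p (t₁, t₂)` modulo `s` with forms `p, q` of degree `L = 2 d a n`, not both zero.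
PROOF: take `2 L + 1` good zeros `z i` of `s` (`exists_goodZ`); the `2 (L + 1)` unknown coefficients of `(q, p)` with
`f q - g p = 0` at the `z i`: a nonzero solution exists.  `F = f q - g p` is an even function of level `2 n + 2 L x` and order
`≥ L y`; `mult_of_zeros2` with `k = 2 L + 1`, `l = 0`: `2 d a (2 n + 2 L x) = 4 d a n + L (b y + 2) = 2 L + 2 L + L b y < b (L y) + 2 (2 L + 1)`. -/
theorem Pen2.exists_rel {a b x y : ℕ} {s t₁ t₂ : C2 → ℂ} (P : S.Pen2 a b x y s t₁ t₂) {n : ℕ} (hn : 1 ≤ n)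
    {f g : C2 → ℂ} (hf : f ∈ S.Th (2 * n) 0 0) (hfp : f ∈ Par 1) (hg : g ∈ S.Th (2 * n) 0 0) (hgp : g ∈ Par 1)
    {L : ℕ} (hL : L = 2 * S.d * a * n) :
    ∃ q p : Fin (L + 1) → ℂ, (q ≠ 0 ∨ p ≠ 0) ∧
      (f * ∑ i, q i • (t₁ ^ (i : ℕ) * t₂ ^ (L - (i : ℕ)))) - (g * ∑ i, p i • (t₁ ^ (i : ℕ) * t₂ ^ (L - (i : ℕ)))) ∈
        Mult s := by
  classical
  have hx := P.x_pos.1
  have ha := P.cur.ha
  obtain ⟨z, hz⟩ := S.exists_goodZ P.cur.mem.1 P.x_pos.2.1 (2 * L + 1)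
  obtain ⟨T, hT⟩ : ∃ T : Fin (L + 1) → C2 → ℂ, T = fun i : Fin (L + 1) => t₁ ^ (i : ℕ) * t₂ ^ (L - (i : ℕ)) :=
    ⟨_, rfl⟩
  obtain ⟨A, hA⟩ : ∃ A : ((Fin (L + 1) → ℂ) × (Fin (L + 1) → ℂ)) →ₗ[ℂ] (C2 → ℂ),
      ∀ c, A c = f * ∑ i, c.1 i • T i - g * ∑ i, c.2 i • T i := by
    refine ⟨(LinearMap.mulLeft ℂ f ∘ₗ (Fintype.linearCombination ℂ T) ∘ₗ LinearMap.fst ℂ _ _) -
      (LinearMap.mulLeft ℂ g ∘ₗ (Fintype.linearCombination ℂ T) ∘ₗ LinearMap.snd ℂ _ _),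
      fun c => ?_⟩
    rfl
  obtain ⟨B, hB⟩ : ∃ B : ((Fin (L + 1) → ℂ) × (Fin (L + 1) → ℂ)) →ₗ[ℂ] (Fin (2 * L + 1) → ℂ),
      ∀ c j, B c j = A c (z j) :=
    ⟨LinearMap.pi fun j => LinearMap.proj (z j) ∘ₗ A, fun c j => rfl⟩
  have hker : LinearMap.ker B ≠ ⊥ := by
    apply LinearMap.ker_ne_bot_of_finrank_lt
    rw [Module.finrank_prod, Module.finrank_fin_fun, Module.finrank_fin_fun]
    omega
  obtain ⟨c, hc, hc0⟩ := Submodule.exists_mem_ne_zero_of_ne_bot hker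
  have hc1 : ∀ j, A c (z j) = 0 := by
    intro j
    rw [← hB c j, LinearMap.mem_ker.1 hc]
    rfl
  have hne : c.1 ≠ 0 ∨ c.2 ≠ 0 := by
    by_contra hcon
    rw [not_or, not_not, not_not] at hcon
    exact hc0 (Prod.ext hcon.1 hcon.2)
  have hterm : ∀ i : Fin (L + 1), T i ∈ S.Th (L * (2 * x)) 0 0 ⊓ Par 1 ⊓ Van (L * y) 0 := by
    intro i
    rw [hT]
    have hi : (i : ℕ) + (L - (i : ℕ)) = L := by
      have := i.2
      omega
    refine ⟨⟨?_, ?_⟩, ?_⟩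
    · have h1 := S.PnB_th_mul (S.PnB_th_pow P.m₁ (i : ℕ)) (S.PnB_th_pow P.m₂ (L - (i : ℕ)))
      have e : ((i : ℕ) : ℤ) * (2 * (x : ℤ)) + ((L - (i : ℕ) : ℕ) : ℤ) * (2 * (x : ℤ)) =
          L * (2 * x) := by
        have h2 : ((i : ℕ) : ℤ) + ((L - (i : ℕ) : ℕ) : ℤ) = L := by exact_mod_cast hi
        linear_combination (2 * (x : ℤ)) * h2
      rw [e] at h1
      exact h1
    · have h1 := PnB_par_mul (PnB_par_pow P.p₁ (i : ℕ)) (PnB_par_pow P.p₂ (L - (i : ℕ)))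
      rw [one_pow, one_pow, one_mul] at h1
      exact h1
    · have h1 := van_mul (PnB_van_pow P.v₁ (i : ℕ)) (PnB_van_pow P.v₂ (L - (i : ℕ)))
      rw [← Nat.add_mul, hi] at h1
      exact h1
  have hsum : ∀ w : Fin (L + 1) → ℂ,
      ∑ i, w i • T i ∈ S.Th (L * (2 * x)) 0 0 ⊓ Par 1 ⊓ Van (L * y) 0 :=
    fun w => Submodule.sum_mem _ fun i _ => Submodule.smul_mem _ _ (hterm i)
  have hprod : ∀ (φ : C2 → ℂ), φ ∈ S.Th (2 * n) 0 0 → φ ∈ Par 1 → ∀ w : Fin (L + 1) → ℂ,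
      φ * ∑ i, w i • T i ∈ S.Th (2 * n + L * (2 * x)) 0 0 ⊓ Par 1 ⊓ Van (L * y) 0 := by
    intro φ hφ hφp w
    obtain ⟨⟨h1, h2⟩, h3⟩ := hsum w
    refine ⟨⟨S.PnB_th_mul hφ h1, ?_⟩, ?_⟩
    · have h4 := PnB_par_mul hφp h2
      rw [one_mul] at h4
      exact h4
    · have h4 := van_mul (van_zero hφ.1.continuous 0) h3
      rw [zero_add] at h4
      exact h4
  have hF : A c ∈ S.Th (2 * n + L * (2 * x)) 0 0 ⊓ Par 1 ⊓ Van (L * y) 0 := by
    rw [hA c]
    exact Submodule.sub_mem _ (hprod f hf hfp c.1) (hprod g hg hgp c.2)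
  refine ⟨c.1, c.2, hne, ?_⟩
  have hgoal : A c ∈ Mult s := by
    refine S.mult_of_zeros2 (u := (a : ℤ)) (n := 2 * n + L * (2 * x)) (m := b) (Y := L * y)
      (k := 2 * L + 1) (l := 0) (w := Fin.elim0) (by omega) ?_ P.cur.mem P.cur.ne P.cur.dich
      P.cur.odd P.cur.van hF.1.1 hF.1.2 hF.2 hz hc1 ⟨fun i => i.elim0, fun i => i.elim0⟩
      (fun i => i.elim0) ?_
    · have h1 : (1 : ℤ) ≤ n := by exact_mod_cast hn
      have h2 : (0 : ℤ) ≤ (L : ℤ) * (2 * x) := by positivity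
      linarith
    · have hnum : (4 * (a : ℤ) * S.d * x) = b * y + 2 := by exact_mod_cast P.num
      have hLz : (L : ℤ) = 2 * S.d * a * n := by exact_mod_cast hL
      have e : 2 * (S.d : ℤ) * (a : ℤ) * (2 * n + L * (2 * x)) =
          2 * (2 * S.d * a * n) + L * (4 * a * S.d * x) := by ring
      rw [e, hnum, ← hLz]
      push_cast
      nlinarith
  rw [hA c, hT] at hgoal
  exact hgoal

end PerData

end Q2T
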