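import Pool.Agent.H.MP_89f84f_ag.q2.ThG

set_option autoImplicit false

open Complex Topology Filter Asymptotics Metric Set Module

namespace Q2T

/-! ### Signs and the contribution of one coordinate -/

/-- The sign `(-1) ^ m`. -/
private def sg (m : ℤ) : ℤ := if Even m then 1 else -1

private theorem sg_add (m n : ℤ) : sg (m + n) = sg m * sg n := by
  unfold sg
  by_cases hm : Even m <;> by_cases hn : Even n <;> simp [hm, hn, Int.even_add]

private theorem sg_even {m : ℤ} (h : Even m) : sg m = 1 := if_pos h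

private theorem sg_odd {m : ℤ} (h : ¬ Even m) : sg m = -1 := if_neg h

private theorem abs_sg (m : ℤ) : |sg m| = 1 := by
  unfold sg
  split_ifs <;> simp

private theorem cexp_sg (m : ℤ) : cexp (Real.pi * I * m) = (sg m : ℂ) := by
  rcases Int.even_or_odd m with ⟨k, hk⟩ | ⟨k, hk⟩
  · rw [sg_even ⟨k, hk⟩]
    have h1 : (Real.pi : ℂ) * I * m = (k : ℂ) * (2 * Real.pi * I) := by
      rw [hk]; push_cast; ring
    rw [h1, Complex.exp_int_mul_two_pi_mul_I]
    simp
  · rw [sg_odd (Int.not_even_iff_odd.2 ⟨k, hk⟩)]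
    have h1 : (Real.pi : ℂ) * I * m = (k : ℂ) * (2 * Real.pi * I) + Real.pi * I := by
      rw [hk]; push_cast; ring
    rw [h1, Complex.exp_add, Complex.exp_int_mul_two_pi_mul_I, Complex.exp_pi_mul_I]
    simp

/-- One term. -/
private def g1 (M : ℕ) (a b : ℤ) (i : ℕ) : ℤ :=
  if (M : ℤ) ∣ 2 * i + a then sg (b * ((2 * i + a) / M)) else 0

/-- The contribution of one coordinate. -/
private def F1 (M : ℕ) (a b : ℤ) : ℤ := ∑ i : Fin M, g1 M a b i

private theorem F1_odd {M : ℕ} (hM : Odd M) (a b : ℤ) : |F1 M a b| ≤ 1 := by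
  classical
  unfold F1
  refine (Finset.abs_sum_le_sum_abs _ _).trans ?_
  have h1 : ∀ i : Fin M, |g1 M a b i| = if (M : ℤ) ∣ 2 * (i : ℕ) + a then 1 else 0 := by
    intro i
    unfold g1
    split_ifs
    · exact abs_sg _
    · exact abs_zero
  rw [Finset.sum_congr rfl fun i _ => h1 i, Finset.sum_boole]
  have h2 : (Finset.univ.filter fun i : Fin M => (M : ℤ) ∣ 2 * (i : ℕ) + a).card ≤ 1 := by
    rw [Finset.card_le_one]
    intro i hi j hj
    rw [Finset.mem_filter] at hi hj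
    have h3 : (M : ℤ) ∣ 2 * ((i : ℕ) - (j : ℕ) : ℤ) := by
      have := dvd_sub hi.2 hj.2
      have e : (2 * ((i : ℕ) : ℤ) + a) - (2 * ((j : ℕ) : ℤ) + a) =
        2 * (((i : ℕ) : ℤ) - ((j : ℕ) : ℤ)) := by ring
      rwa [e] at this
    have h4 : IsCoprime (M : ℤ) 2 := by
      have h5 : Nat.Coprime M 2 := hM.coprime_two_right
      exact_mod_cast Nat.isCoprime_iff_coprime.2 h5
    have h6 : (M : ℤ) ∣ ((i : ℕ) : ℤ) - ((j : ℕ) : ℤ) := h4.dvd_of_dvd_mul_left h3
    have h7 : ((i : ℕ) : ℤ) - ((j : ℕ) : ℤ) = 0 := by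
      refine Int.eq_zero_of_abs_lt_dvd h6 ?_
      have := i.2
      have := j.2
      rw [abs_lt]
      constructor <;> omega
    exact Fin.ext (by omega)
  exact_mod_cast h2

private theorem F1_two {H : ℕ} (hH : 0 < H) (a' b : ℤ) :
    F1 (H + H) (2 * a') b = if Even b then 2 else 0 := by
  have hH' : (0 : ℤ) < H := by exact_mod_cast hH
  unfold F1
  rw [← Finset.sum_range (fun i => g1 (H + H) (2 * a') b i), Finset.sum_range_add,
    ← Finset.sum_add_distrib]
  have h1 : ∀ i ∈ Finset.range H, g1 (H + H) (2 * a') b i + g1 (H + H) (2 * a') b (H + i) =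
      if (H : ℤ) ∣ i + a' then (if Even b then 2 else 0) else 0 := by
    intro i _
    have c1 : ((H + H : ℕ) : ℤ) ∣ 2 * (i : ℤ) + 2 * a' ↔ (H : ℤ) ∣ i + a' := by
      have e : 2 * (i : ℤ) + 2 * a' = 2 * (i + a') := by ring
      have e' : ((H + H : ℕ) : ℤ) = 2 * H := by push_cast; ring
      rw [e, e']
      exact mul_dvd_mul_iff_left two_ne_zero
    have c2 : ((H + H : ℕ) : ℤ) ∣ 2 * ((H + i : ℕ) : ℤ) + 2 * a' ↔ (H : ℤ) ∣ i + a' := by
      have e : 2 * ((H + i : ℕ) : ℤ) + 2 * a' = 2 * ((i + a') + H) := by push_cast; ring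
      have e' : ((H + H : ℕ) : ℤ) = 2 * H := by push_cast; ring
      rw [e, e', mul_dvd_mul_iff_left two_ne_zero]
      exact dvd_add_self_right
    unfold g1
    by_cases h : (H : ℤ) ∣ i + a'
    · rw [if_pos (c1.2 h), if_pos (c2.2 h), if_pos h]
      obtain ⟨q, hq⟩ := h
      have e1 : (2 * (i : ℤ) + 2 * a') / ((H + H : ℕ) : ℤ) = q := by
        refine Int.ediv_eq_of_eq_mul_right (by push_cast; omega) ?_
        push_cast
        linear_combination 2 * hq
      have e2 : (2 * ((H + i : ℕ) : ℤ) + 2 * a') / ((H + H : ℕ) : ℤ) = q + 1 := by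
        refine Int.ediv_eq_of_eq_mul_right (by push_cast; omega) ?_
        push_cast
        linear_combination 2 * hq
      rw [e1, e2, mul_add, mul_one, sg_add]
      by_cases hb : Even b
      · rw [sg_even hb, sg_even (hb.mul_right q), if_pos hb]
        norm_num
      · rw [sg_odd hb, if_neg hb]
        ring
    · rw [if_neg (fun h' => h (c1.1 h')), if_neg (fun h' => h (c2.1 h')), if_neg h, add_zero]
  rw [Finset.sum_congr rfl h1]
  obtain ⟨r, hr, hr'⟩ : ∃ r : ℕ, r < H ∧ (H : ℤ) ∣ r + a' := by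
    refine ⟨((-a') % (H : ℤ)).toNat, ?_, ?_⟩
    · have := Int.emod_lt_of_pos (-a') hH'
      have := Int.emod_nonneg (-a') hH'.ne'
      omega
    · rw [Int.toNat_of_nonneg (Int.emod_nonneg _ hH'.ne')]
      have h3 := Int.emod_add_mul_ediv (-a') H
      exact ⟨-((-a') / (H : ℤ)), by linear_combination h3⟩
  rw [Finset.sum_eq_single r]
  · rw [if_pos hr']
  · intro i hi hir
    rw [if_neg]
    intro hd
    have h4 : (H : ℤ) ∣ (i : ℤ) - r := by
      have := dvd_sub hd hr'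
      have e : ((i : ℤ) + a') - ((r : ℤ) + a') = (i : ℤ) - r := by ring
      rwa [e] at this
    have h5 : (i : ℤ) - r = 0 := by
      refine Int.eq_zero_of_abs_lt_dvd h4 ?_
      have := Finset.mem_range.1 hi
      rw [abs_lt]
      constructor <;> omega
    exact hir (by omega)
  · intro h
    exact absurd (Finset.mem_range.2 hr) h

private theorem F1_oddchar {M : ℕ} (hM : Even M) {a : ℤ} (ha : ¬ Even a) (b : ℤ) :
    F1 M a b = 0 := by
  unfold F1
  refine Finset.sum_eq_zero fun i _ => ?_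
  unfold g1
  rw [if_neg]
  intro hd
  obtain ⟨H, hH⟩ := hM
  apply ha
  have h1 : (2 : ℤ) ∣ 2 * ((i : ℕ) : ℤ) + a := by
    refine dvd_trans ?_ hd
    exact ⟨H, by rw [hH]; push_cast; ring⟩
  have h2 : (2 : ℤ) ∣ a := (Int.dvd_add_right (Dvd.intro _ rfl)).1 h1
  exact even_iff_two_dvd.2 h2

private theorem F1_even {M : ℕ} (hM : Even M) (hM0 : 0 < M) (a b : ℤ) :
    F1 M a b = if Even a ∧ Even b then 2 else 0 := by
  obtain ⟨H, rfl⟩ := hM
  by_cases ha : Even a
  · obtain ⟨a', rfl⟩ := ha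
    have h1 : a' + a' = 2 * a' := by ring
    have h2 : Even (2 * a') := even_two_mul a'
    rw [h1, F1_two (by omega) a' b]
    simp [h2]
  · rw [F1_oddchar ⟨H, rfl⟩ ha b]
    simp [ha]

private theorem F1_le {M : ℕ} (hM0 : 0 < M) (a b : ℤ) : |F1 M a b| ≤ 2 := by
  rcases Nat.even_or_odd M with h | h
  · rw [F1_even h hM0]
    split_ifs <;> norm_num
  · exact (F1_odd h a b).trans (by norm_num)

private theorem F1_odd_eq {M : ℕ} (hM : Odd M) (a b : ℤ) : F1 M a b = sg (a * b) := by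
  have hM0 : 0 < M := hM.pos
  have hM0' : (0 : ℤ) < M := by exact_mod_cast hM0
  obtain ⟨H, hH⟩ := hM
  -- the solution of `2 r + a ≡ 0`
  obtain ⟨r, hr, hr'⟩ : ∃ r : ℕ, r < M ∧ (M : ℤ) ∣ 2 * (r : ℤ) + a := by
    refine ⟨((a * H) % (M : ℤ)).toNat, ?_, ?_⟩
    · have := Int.emod_lt_of_pos (a * H) hM0'
      have := Int.emod_nonneg (a * H) hM0'.ne'
      omega
    · rw [Int.toNat_of_nonneg (Int.emod_nonneg _ hM0'.ne')]
      have h3 := Int.emod_add_mul_ediv (a * H) M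
      refine ⟨a - 2 * ((a * H) / (M : ℤ)), ?_⟩
      have hHz : (M : ℤ) = 2 * H + 1 := by exact_mod_cast hH
      linear_combination 2 * h3 - a * hHz
  unfold F1
  rw [Finset.sum_eq_single (⟨r, hr⟩ : Fin M)]
  · unfold g1
    rw [if_pos hr']
    obtain ⟨q, hq⟩ := hr'
    have e1 : (2 * (r : ℤ) + a) / (M : ℤ) = q := Int.ediv_eq_of_eq_mul_right hM0'.ne' hq
    show sg (b * ((2 * (r : ℤ) + a) / (M : ℤ))) = sg (a * b)
    rw [e1]
    have hHz : (M : ℤ) = 2 * H + 1 := by exact_mod_cast hH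
    have h4 : b * q = a * b + 2 * (b * (r - H * q)) := by
      rw [hHz] at hq
      linear_combination (-b) * hq
    rw [h4, sg_add, sg_even (even_two_mul _), mul_one]
  · intro i _ hir
    unfold g1
    rw [if_neg]
    intro hd
    apply hir
    have h3 : (M : ℤ) ∣ 2 * ((i : ℕ) - (r : ℕ) : ℤ) := by
      have := dvd_sub hd hr'
      have e : (2 * ((i : ℕ) : ℤ) + a) - (2 * ((r : ℕ) : ℤ) + a) =
        2 * (((i : ℕ) : ℤ) - ((r : ℕ) : ℤ)) := by ring
      rwa [e] at this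
    have h4 : IsCoprime (M : ℤ) 2 := by
      have h5' : Odd M := ⟨H, hH⟩
      have h5 : Nat.Coprime M 2 := h5'.coprime_two_right
      exact_mod_cast Nat.isCoprime_iff_coprime.2 h5
    have h6 : (M : ℤ) ∣ ((i : ℕ) : ℤ) - ((r : ℕ) : ℤ) := h4.dvd_of_dvd_mul_left h3
    have h7 : ((i : ℕ) : ℤ) - ((r : ℕ) : ℤ) = 0 := by
      refine Int.eq_zero_of_abs_lt_dvd h6 ?_
      have := i.2
      rw [abs_lt]
      constructor <;> omega
    exact Fin.ext (by show (i : ℕ) = r; omega)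
  · intro h
    exact absurd (Finset.mem_univ _) h

/-- Dimensions of the eigenspaces of an involution with a given trace. -/
private theorem invol_dim {V : Type*} [AddCommGroup V] [Module ℂ V] [FiniteDimensional ℂ V]
    (σ : V →ₗ[ℂ] V) (hσ : ∀ f, σ (σ f) = f) (ε : ℂ) (hε : ε * ε = 1) (E : Submodule ℂ V)
    (hE : ∀ f, f ∈ E ↔ σ f = ε • f) :
    2 * (finrank ℂ E : ℂ) = (finrank ℂ V : ℂ) + ε * LinearMap.trace ℂ V σ := by
  have hP : LinearMap.IsProj E ((1 / 2 : ℂ) • (LinearMap.id + ε • σ)) := by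
    refine ⟨fun x => ?_, fun x hx => ?_⟩
    · rw [hE]
      simp only [LinearMap.smul_apply, LinearMap.add_apply, LinearMap.id_apply, map_smul, map_add,
        hσ]
      have h1 : ε • ((1 / 2 : ℂ) • (x + ε • σ x)) = (1 / 2 : ℂ) • (ε • x + (ε * ε) • σ x) := by
        module
      rw [hε, one_smul] at h1
      rw [h1]
      module
    · have h1 := (hE x).1 hx
      simp only [LinearMap.smul_apply, LinearMap.add_apply, LinearMap.id_apply, h1]
      rw [smul_smul, hε, one_smul, ← two_smul ℂ x, smul_smul]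
      norm_num
  have h1 := hP.trace
  rw [← h1, map_smul, map_add, map_smul, LinearMap.trace_id, smul_eq_mul, smul_eq_mul]
  ring

namespace PerData

variable (S : PerData)

/-- The involution `f ↦ f (-z)` for half-integral characteristics. -/
private theorem exists_invol (u : ℤ) {α β : Fin 2 → ℝ} (hα : ∀ i, ∃ k : ℤ, 2 * α i = k)
    (hβ : ∀ i, ∃ k : ℤ, 2 * β i = k) :
    ∃ σ : S.Th u α β →ₗ[ℂ] S.Th u α β, ∀ f z, (σ f : C2 → ℂ) z = (f : C2 → ℂ) (-z) := by
  have hT : S.Th u (-α) (-β) = S.Th u α β := by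
    refine S.th_congr u (fun i => ?_) fun i => ?_
    · obtain ⟨k, hk⟩ := hα i
      exact ⟨-k, by rw [Pi.neg_apply]; push_cast; linarith⟩
    · obtain ⟨k, hk⟩ := hβ i
      exact ⟨-k, by rw [Pi.neg_apply]; push_cast; linarith⟩
  have hmem : ∀ g : C2 → ℂ, g ∈ S.Th u α β → (fun z => g (-z)) ∈ S.Th u α β := by
    intro g hg
    have h1 := S.th_neg_arg hg
    rw [hT] at h1
    exact h1
  exact ⟨{  toFun := fun f => ⟨fun z => (f : C2 → ℂ) (-z), hmem _ f.2⟩
            map_add' := fun f g => rfl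
            map_smul' := fun c f => rfl }, fun f z => rfl⟩

private theorem th_periodic {u : ℤ} {α β : Fin 2 → ℝ} {f : C2 → ℂ} (hf : f ∈ S.Th u α β)
    (q : Z2) (z : C2) : f (z + S.dv q) = cexp (2 * Real.pi * I * ((rdot α q : ℝ) : ℂ)) * f z := by
  have h := hf.2 0 q z
  rw [S.tv_zero, add_zero] at h
  rw [h]
  unfold J
  have e1 : rdot β (0 : Z2) = 0 := by simp [rdot]
  have e2 : dot (0 : Z2) (S.tv 0) = 0 := by simp [dot]
  have e3 : dot (0 : Z2) z = 0 := by simp [dot]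
  rw [e1, S.tv_zero] at *
  rw [add_zero]
  have e4 : dot (0 : Z2) (0 : C2) = 0 := by simp [dot]
  rw [e4, e3]
  simp

/-- The trace of the involution. -/
private theorem trace_invol {N : ℕ} (hN : 1 ≤ N) {α β : Fin 2 → ℝ} {a b : Z2}
    (ha : ∀ i, 2 * α i = a i) (hb : ∀ i, 2 * β i = b i)
    (σ : S.Th (N : ℤ) α β →ₗ[ℂ] S.Th (N : ℤ) α β)
    (hσ : ∀ f z, (σ f : C2 → ℂ) z = (f : C2 → ℂ) (-z)) :
    LinearMap.trace ℂ _ σ = ((F1 N (a 0) (b 0) * F1 (N * S.d) (a 1) (b 1) : ℤ) : ℂ) := by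
  classical
  obtain ⟨e, he⟩ := S.exists_equiv hN α β
  have hd0 : 0 < S.d := S.d_pos
  have hN' : (0 : ℤ) < N := by exact_mod_cast hN
  have hNd : (0 : ℤ) < N * S.d := by positivity
  have hσe : ∀ f i, e (σ f) i = S.fc α f (-S.rep N i - a) := by
    intro f i
    rw [he]
    have h1 : ((σ f : S.Th (N : ℤ) α β) : C2 → ℂ) = fun z => (f : C2 → ℂ) (-z) := funext (hσ f)
    rw [h1]
    exact S.fc_neg f.2.1.continuous (S.th_periodic f.2) ha _
  have hdiag : ∀ i, e (σ (e.symm (Pi.single i 1))) i =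
      ((g1 N (a 0) (b 0) i.1 * g1 (N * S.d) (a 1) (b 1) i.2 : ℤ) : ℂ) := by
    intro i
    obtain ⟨f, hf⟩ : ∃ f, f = e.symm (Pi.single i 1) := ⟨_, rfl⟩
    have hef : e f = Pi.single i 1 := by rw [hf, LinearEquiv.apply_symm_apply]
    rw [← hf, hσe]
    by_cases h01 : ((N : ℤ) ∣ 2 * ((i.1 : ℕ) : ℤ) + a 0) ∧
        ((N * S.d : ℕ) : ℤ) ∣ 2 * ((i.2 : ℕ) : ℤ) + a 1
    · obtain ⟨⟨k0, hk0⟩, k1, hk1⟩ := h01
      have hs : -S.rep N i - a = S.rep N i + S.sh N ![-k0, -k1] := by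
        funext j
        fin_cases j
        · show -((i.1 : ℕ) : ℤ) - a 0 = ((i.1 : ℕ) : ℤ) + (N : ℤ) * (-k0)
          linarith
        · show -((i.2 : ℕ) : ℤ) - a 1 = ((i.2 : ℕ) : ℤ) + (N : ℤ) * S.d * (-k1)
          push_cast at hk1
          linarith
      rw [hs, S.fc_rec f.2, ← he, hef, Pi.single_eq_same, mul_one]
      have hd : (S.d : ℂ) ≠ 0 := by exact_mod_cast hd0.ne'
      have hαc : ∀ j, (2 : ℂ) * (α j : ℂ) = (a j : ℂ) := fun j => by exact_mod_cast ha j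
      have hβc : ∀ j, (2 : ℂ) * (β j : ℂ) = (b j : ℂ) := fun j => by exact_mod_cast hb j
      have hk0c : (2 : ℂ) * ((i.1 : ℕ) : ℂ) + (a 0 : ℂ) = (N : ℂ) * k0 := by exact_mod_cast hk0
      have hk1c : (2 : ℂ) * ((i.2 : ℕ) : ℂ) + (a 1 : ℂ) = (N : ℂ) * S.d * k1 := by
        exact_mod_cast hk1
      have hexp : -(2 * Real.pi * I * ((rdot β ![-k0, -k1] : ℝ) : ℂ)) +
          Real.pi * I * (N : ℤ) * dot ![-k0, -k1] (S.tv ![-k0, -k1]) +
          2 * Real.pi * I * S.rz α (S.rep N i) (S.tv ![-k0, -k1]) =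
          Real.pi * I * ((b 0 * k0 + b 1 * k1 : ℤ) : ℂ) := by
        obtain ⟨w, hw⟩ : ∃ w, w = S.tv ![-k0, -k1] := ⟨_, rfl⟩
        rw [← hw]
        have e1 : ((rdot β ![-k0, -k1] : ℝ) : ℂ) = (β 0 : ℂ) * (-k0) + (β 1 : ℂ) * (-k1) := by
          simp [rdot]
        have e2 : dot ![-k0, -k1] w = -(k0 : ℂ) * w 0 + -(k1 : ℂ) * w 1 := by
          simp [dot]
        have e3 : S.rz α (S.rep N i) w = (((i.1 : ℕ) : ℂ) + α 0) * w 0 +
            (((i.2 : ℕ) : ℂ) + α 1) / (S.d : ℂ) * w 1 := by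
          simp [rz, rep]
        rw [e1, e2, e3]
        have e4 : (((i.2 : ℕ) : ℂ) + α 1) / (S.d : ℂ) = (N : ℂ) * k1 / 2 := by
          rw [div_eq_div_iff hd two_ne_zero]
          linear_combination hk1c + hαc 1
        have e5 : ((i.1 : ℕ) : ℂ) + α 0 = (N : ℂ) * k0 / 2 := by
          linear_combination (1 / 2 : ℂ) * hk0c + (1 / 2 : ℂ) * hαc 0
        rw [e4, e5]
        push_cast
        linear_combination (Real.pi * I * k0) * hβc 0 + (Real.pi * I * k1) * hβc 1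
      unfold rf
      rw [hexp, cexp_sg, sg_add]
      unfold g1
      rw [if_pos ⟨k0, hk0⟩, if_pos ⟨k1, hk1⟩, hk0, hk1, Int.mul_ediv_cancel_left _ hN'.ne',
        Int.mul_ediv_cancel_left _ (by push_cast; exact hNd.ne')]
    · have hg : g1 N (a 0) (b 0) i.1 * g1 (N * S.d) (a 1) (b 1) i.2 = 0 := by
        rcases not_and_or.1 h01 with h | h
        · have h2 : g1 N (a 0) (b 0) i.1 = 0 := if_neg h
          rw [h2, zero_mul]
        · have h2 : g1 (N * S.d) (a 1) (b 1) i.2 = 0 := if_neg h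
          rw [h2, mul_zero]
      rw [hg, Int.cast_zero]
      obtain ⟨m, hm⟩ : ∃ m, m = -S.rep N i - a := ⟨_, rfl⟩
      have m0 : m 0 = -((i.1 : ℕ) : ℤ) - a 0 := by rw [hm]; rfl
      have m1 : m 1 = -((i.2 : ℕ) : ℤ) - a 1 := by rw [hm]; rfl
      have r0 := Int.emod_nonneg (m 0) hN'.ne'
      have r0' := Int.emod_lt_of_pos (m 0) hN'
      have r1 := Int.emod_nonneg (m 1) hNd.ne'
      have r1' := Int.emod_lt_of_pos (m 1) hNd
      have q0 := Int.emod_add_mul_ediv (m 0) N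
      have q1 := Int.emod_add_mul_ediv (m 1) (N * S.d)
      obtain ⟨s0, hs0⟩ := Int.eq_ofNat_of_zero_le r0
      obtain ⟨s1, hs1⟩ := Int.eq_ofNat_of_zero_le r1
      rw [hs0] at r0' q0
      rw [hs1] at r1' q1
      obtain ⟨p0, hp0⟩ : ∃ p0, p0 = m 0 / (N : ℤ) := ⟨_, rfl⟩
      obtain ⟨p1, hp1⟩ : ∃ p1, p1 = m 1 / ((N : ℤ) * S.d) := ⟨_, rfl⟩
      rw [← hp0] at q0
      rw [← hp1] at q1
      have t0 : s0 < N := by exact_mod_cast r0'
      have t1 : s1 < N * S.d := by exact_mod_cast r1'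
      have hs : m = S.rep N (⟨s0, t0⟩, ⟨s1, t1⟩) + S.sh N ![p0, p1] := by
        funext j
        fin_cases j
        · show m 0 = (s0 : ℤ) + (N : ℤ) * p0
          exact q0.symm
        · show m 1 = (s1 : ℤ) + (N : ℤ) * S.d * p1
          exact q1.symm
      rw [← hm, hs, S.fc_rec f.2, ← he, hef, Pi.single_eq_of_ne, mul_zero]
      intro hEq
      apply h01
      have u0 : s0 = (i.1 : ℕ) := congrArg (fun x : Fin N × Fin (N * S.d) => (x.1 : ℕ)) hEq
      have u1 : s1 = (i.2 : ℕ) := congrArg (fun x : Fin N × Fin (N * S.d) => (x.2 : ℕ)) hEq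
      refine ⟨⟨-p0, ?_⟩, -p1, ?_⟩
      · rw [m0, u0] at q0
        linarith
      · rw [m1, u1] at q1
        push_cast
        linarith
  rw [← LinearMap.trace_conj' σ e, LinearMap.trace_eq_matrix_trace ℂ (Pi.basisFun ℂ _),
    LinearMap.toMatrix_eq_toMatrix']
  have h1 : Matrix.trace (LinearMap.toMatrix' (e.conj σ)) =
      ∑ i, e (σ (e.symm (Pi.single i 1))) i := by
    unfold Matrix.trace
    refine Finset.sum_congr rfl fun i _ => ?_
    rw [Matrix.diag_apply, LinearMap.toMatrix'_apply, LinearEquiv.conj_apply_apply]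
  rw [h1, Finset.sum_congr rfl fun i _ => hdiag i, ← Int.cast_sum]
  congr 1
  rw [Fintype.sum_prod_type]
  unfold F1
  rw [Finset.sum_mul_sum]

/-- The parity dimensions for odd level: when is the trace `-2`?
PROOF: in q2/ThG.lean (copy the private lemmas needed, with names beginning `PoB`) the trace is
`T = F1 u (2 α₀) (2 β₀) * F1 (u d) (2 α₁) (2 β₁)`, `F1 M a b` the sum of `(-1)^(b (2 i + a) / M)` over the `i mod M` with `M ∣ 2 i + a`.
For odd `M`, `F1 M a b = (-1)^(a b)` (one fixed point `i`, `(2 i + a) / M ≡ a mod 2`); for even `M`, `F1 M a b = 2` if `a, b` are even and `0`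
otherwise (`F1_even`).  So `T = -2` only if `u d` is even, `2 α₁, 2 β₁` are even and `2 α₀, 2 β₀` are odd. -/
theorem finrank_par_odd {u : ℤ} (hu : 1 ≤ u) (ho : Odd u) {α β : Fin 2 → ℝ} (hα : ∀ i, ∃ k : ℤ, 2 * α i = k)
    (hβ : ∀ i, ∃ k : ℤ, 2 * β i = k) :
    ∃ T : ℤ, (∀ ε : ℤ, (ε = 1 ∨ ε = -1) →
        2 * (finrank ℂ (S.Th u α β ⊓ Par (ε : ℂ) : Submodule ℂ (C2 → ℂ)) : ℤ) = u ^ 2 * S.d + ε * T) ∧
      |T| ≤ 2 ∧
      (T = -2 → Even S.d ∧ (∃ k : ℤ, α 1 = k) ∧ (∃ k : ℤ, β 1 = k) ∧ (¬ ∃ k : ℤ, α 0 = k) ∧ ¬ ∃ k : ℤ, β 0 = k) := by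
  obtain ⟨N, rfl⟩ := Int.eq_ofNat_of_zero_le (by omega : 0 ≤ u)
  have hN : 1 ≤ N := by omega
  choose a ha using hα
  choose b hb using hβ
  obtain ⟨σ, hσ⟩ := S.exists_invol (N : ℤ) (fun i => ⟨a i, ha i⟩) (fun i => ⟨b i, hb i⟩)
  have htr := S.trace_invol hN ha hb σ hσ
  have hα' : ∀ i, (∃ k : ℤ, α i = k) ↔ Even (a i) := by
    intro i
    constructor
    · rintro ⟨k, hk⟩
      refine ⟨k, ?_⟩
      have h1 := ha i
      rw [hk] at h1
      have h2 : ((k + k : ℤ) : ℝ) = a i := by rw [← h1]; push_cast; ring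
      exact_mod_cast h2.symm
    · rintro ⟨k, hk⟩
      refine ⟨k, ?_⟩
      have h1 := ha i
      rw [hk] at h1
      push_cast at h1
      linarith
  have hβ' : ∀ i, (∃ k : ℤ, β i = k) ↔ Even (b i) := by
    intro i
    constructor
    · rintro ⟨k, hk⟩
      refine ⟨k, ?_⟩
      have h1 := hb i
      rw [hk] at h1
      have h2 : ((k + k : ℤ) : ℝ) = b i := by rw [← h1]; push_cast; ring
      exact_mod_cast h2.symm
    · rintro ⟨k, hk⟩
      refine ⟨k, ?_⟩
      have h1 := hb i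
      rw [hk] at h1
      push_cast at h1
      linarith
  have hNd : 0 < N * S.d := Nat.mul_pos hN S.d_pos
  have hoN : Odd N := by exact_mod_cast ho
  refine ⟨F1 N (a 0) (b 0) * F1 (N * S.d) (a 1) (b 1), fun ε hε => ?_, ?_, fun hT => ?_⟩
  · have hfin := S.finite_th (N : ℤ) α β
    obtain ⟨E, hEdef⟩ : ∃ E, E = (Par (ε : ℂ)).comap (S.Th (N : ℤ) α β).subtype := ⟨_, rfl⟩
    have hσσ : ∀ f, σ (σ f) = f := by
      intro f
      refine Subtype.ext (funext fun z => ?_)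
      rw [hσ, hσ, neg_neg]
    have hE : ∀ f, f ∈ E ↔ σ f = (ε : ℂ) • f := by
      intro f
      rw [hEdef, Submodule.mem_comap]
      constructor
      · intro h
        refine Subtype.ext (funext fun z => ?_)
        rw [hσ]
        exact h z
      · intro h z
        have h1 := congrArg (fun g : S.Th (N : ℤ) α β => (g : C2 → ℂ) z) h
        simp only [hσ] at h1
        exact h1
    have h1 := invol_dim σ hσσ (ε : ℂ) (by rcases hε with rfl | rfl <;> norm_num) E hE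
    have h2 : finrank ℂ (S.Th (N : ℤ) α β ⊓ Par (ε : ℂ) : Submodule ℂ (C2 → ℂ)) = finrank ℂ E := by
      rw [← Submodule.map_comap_subtype, Submodule.finrank_map_subtype_eq, hEdef]
    have h3 := S.finrank_th (u := (N : ℤ)) (by omega) α β
    have h4 : (finrank ℂ (S.Th (N : ℤ) α β) : ℂ) = (((N : ℤ) ^ 2 * S.d : ℤ) : ℂ) := by
      rw [← h3]; push_cast; rfl
    rw [h4, htr] at h1
    rw [h2]
    exact_mod_cast h1
  · rw [abs_mul]
    have h0 := F1_odd hoN (a 0) (b 0)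
    have h1 := F1_le hNd (a 1) (b 1)
    calc |F1 N (a 0) (b 0)| * |F1 (N * S.d) (a 1) (b 1)| ≤ 1 * 2 :=
          mul_le_mul h0 h1 (abs_nonneg _) (by norm_num)
      _ = 2 := by norm_num
  · rw [F1_odd_eq hoN] at hT
    have heNd : Even (N * S.d) := by
      by_contra hodd
      rw [Nat.not_even_iff_odd] at hodd
      have h0 := abs_sg (a 0 * b 0)
      have h1 := F1_odd hodd (a 1) (b 1)
      have h2 : |sg (a 0 * b 0) * F1 (N * S.d) (a 1) (b 1)| = 2 := by
        rw [hT]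
        norm_num
      rw [abs_mul, h0, one_mul] at h2
      omega
    have hd : Even S.d := by
      rcases Nat.even_mul.1 heNd with h | h
      · exact absurd h (Nat.not_even_iff_odd.2 hoN)
      · exact h
    rw [F1_even heNd hNd] at hT
    have h1 : Even (a 1) ∧ Even (b 1) := by
      by_contra h
      rw [if_neg h, mul_zero] at hT
      norm_num at hT
    rw [if_pos h1] at hT
    have h0 : ¬ Even (a 0 * b 0) := by
      intro h
      rw [sg_even h] at hT
      norm_num at hT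
    rw [Int.even_mul, not_or] at h0
    exact ⟨hd, (hα' 1).2 h1.1, (hβ' 1).2 h1.2, fun h => h0.1 ((hα' 0).1 h),
      fun h => h0.2 ((hβ' 0).1 h)⟩

end PerData

end Q2T
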