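import Pool.Agent.H.MP_89f84f_ag.q2.KfB
import Pool.Agent.H.MP_89f84f_ag.q3.CuB
import Pool.Agent.H.MP_89f84f_ag.q3.DiB

set_option autoImplicit false

open Complex Topology Filter Asymptotics Metric Set Module

namespace Q2T

private abbrev RtBI (k : Subfield ℂ) := Basis.ofVectorSpaceIndex k ℂ

private noncomputable def rtBg (k : Subfield ℂ) : Basis (RtBI k) k ℂ := Basis.ofVectorSpace k ℂ

private theorem rtB_indep {k : Subfield ℂ} (F : Finset (RtBI k)) (c : RtBI k → ℂ)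
    (hc : ∀ s, c s ∈ k) (h : ∑ s ∈ F, rtBg k s * c s = 0) : ∀ s ∈ F, c s = 0 := by
  have h1 := linearIndependent_iff'.1 (rtBg k).linearIndependent F (fun s => ⟨c s, hc s⟩) (by
    rw [← h]
    refine Finset.sum_congr rfl fun s _ => ?_
    rw [mul_comm]
    rfl)
  intro s hs
  exact congrArg Subtype.val (h1 s hs)

namespace KForm

variable {S : PerData} {k : Subfield ℂ} {K : KForm S k}

private structure RtBDec (K : KForm S k) (m : ℕ) (f : C2 → ℂ) (g : RtBI k →₀ (C2 → ℂ)) :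
    Prop where
  mem : ∀ s, g s ∈ K.R m
  eq : g.sum (fun s v => rtBg k s • v) = f

private theorem rtB_add {m : ℕ} {f f' : C2 → ℂ} {g g' : RtBI k →₀ (C2 → ℂ)}
    (h : RtBDec K m f g) (h' : RtBDec K m f' g') : RtBDec K m (f + f') (g + g') where
  mem s := by rw [Finsupp.add_apply]; exact add_mem (h.mem s) (h'.mem s)
  eq := by
    rw [Finsupp.sum_add_index' (fun s => smul_zero _) (fun s a b => smul_add _ _ _), h.eq, h'.eq]

private theorem rtB_neg {m : ℕ} {f : C2 → ℂ} {g : RtBI k →₀ (C2 → ℂ)}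
    (h : RtBDec K m f g) : RtBDec K m (-f) (-g) where
  mem s := by rw [Finsupp.neg_apply]; exact neg_mem (h.mem s)
  eq := by
    rw [Finsupp.sum_neg_index (fun s => smul_zero _), ← h.eq]
    simp [Finsupp.sum]

private theorem rtB_zero (m : ℕ) : RtBDec K m 0 0 where
  mem s := zero_mem _
  eq := by simp

private theorem rtB_smul {m : ℕ} {A : Submodule k (C2 → ℂ)} (hA : A ≤ K.R m) {a : C2 → ℂ}
    (ha : a ∈ A) (c : ℂ) : ∃ g, RtBDec K m (c • a) g ∧ ∀ s, g s ∈ A := by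
  refine ⟨((rtBg k).repr c).mapRange (fun x => x • a) (zero_smul _ _), ⟨fun s => ?_, ?_⟩,
    fun s => ?_⟩
  · rw [Finsupp.mapRange_apply]
    exact hA (A.smul_mem _ ha)
  · rw [Finsupp.sum_mapRange_index (fun s => smul_zero _)]
    have h1 := (rtBg k).linearCombination_repr c
    rw [Finsupp.linearCombination_apply] at h1
    conv_rhs => rw [← h1]
    rw [Finsupp.sum, Finsupp.sum, Finset.sum_smul]
    refine Finset.sum_congr rfl fun s _ => ?_
    rw [smul_comm, smul_assoc]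
  · rw [Finsupp.mapRange_apply]
    exact A.smul_mem _ ha

private theorem rtB_span {m : ℕ} {A : Submodule k (C2 → ℂ)} (hA : A ≤ K.R m) {f : C2 → ℂ}
    (hf : f ∈ Submodule.span ℂ (A : Set (C2 → ℂ))) : ∃ g, RtBDec K m f g ∧ ∀ s, g s ∈ A := by
  rw [Submodule.mem_span_set'] at hf
  obtain ⟨n, c, a, rfl⟩ := hf
  have h1 : ∀ F : Finset (Fin n), ∃ g, RtBDec K m (∑ i ∈ F, c i • (a i : C2 → ℂ)) g ∧
      ∀ s, g s ∈ A := by
    intro F
    induction F using Finset.induction_on with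
    | empty => exact ⟨0, by simpa using rtB_zero m, fun s => zero_mem _⟩
    | insert i F hi ih =>
      obtain ⟨g, hg, hgA⟩ := ih
      obtain ⟨g', hg', hgA'⟩ := rtB_smul hA (a i).2 (c i)
      refine ⟨g' + g, ?_, fun s => ?_⟩
      · rw [Finset.sum_insert hi]
        exact rtB_add hg' hg
      · rw [Finsupp.add_apply]; exact add_mem (hgA' s) (hgA s)
  exact h1 Finset.univ

private theorem rtB_coord {N : ℕ} {T : Submodule ℂ (C2 → ℂ)} (b : Basis (Fin N) ℂ T) :
    ∀ f ∈ Submodule.span k (Set.range fun i => (b i : C2 → ℂ)),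
      ∃ h : f ∈ T, ∀ j, b.repr ⟨f, h⟩ j ∈ k := by
  intro f hf
  induction hf using Submodule.span_induction with
  | mem x hx =>
    obtain ⟨i, rfl⟩ := hx
    refine ⟨(b i).2, fun j => ?_⟩
    have h1 : (⟨(b i : C2 → ℂ), (b i).2⟩ : T) = b i := rfl
    rw [h1, b.repr_self, Finsupp.single_apply]
    split_ifs
    · exact one_mem k
    · exact zero_mem k
  | zero =>
    refine ⟨zero_mem T, fun j => ?_⟩
    have h1 : (⟨0, zero_mem T⟩ : T) = 0 := rfl
    rw [h1, map_zero, Finsupp.zero_apply]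
    exact zero_mem k
  | add x y _ _ hx hy =>
    obtain ⟨hx1, hx2⟩ := hx
    obtain ⟨hy1, hy2⟩ := hy
    refine ⟨add_mem hx1 hy1, fun j => ?_⟩
    have h1 : (⟨x + y, add_mem hx1 hy1⟩ : T) = ⟨x, hx1⟩ + ⟨y, hy1⟩ := rfl
    rw [h1, map_add, Finsupp.add_apply]
    exact add_mem (hx2 j) (hy2 j)
  | smul a x _ hx =>
    obtain ⟨hx1, hx2⟩ := hx
    have h0 : a • x = (a : ℂ) • x := rfl
    refine ⟨by rw [h0]; exact T.smul_mem _ hx1, fun j => ?_⟩
    have h1 : (⟨a • x, by rw [h0]; exact T.smul_mem _ hx1⟩ : T) = (a : ℂ) • ⟨x, hx1⟩ := rfl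
    rw [h1, map_smul, Finsupp.smul_apply, smul_eq_mul]
    exact mul_mem a.2 (hx2 j)

private theorem rtB_eq_zero {m : ℕ} {g : RtBI k →₀ (C2 → ℂ)} (h : RtBDec K m 0 g) : g = 0 := by
  obtain ⟨N, b, hb⟩ := K.form m
  have hm : ∀ s, ∃ h : g s ∈ S.Th (2 * m) 0 0, ∀ j, b.repr ⟨g s, h⟩ j ∈ k := fun s =>
    rtB_coord b (g s) (by rw [← hb]; exact h.mem s)
  choose hm1 hm2 using hm
  have h1 : ∑ s ∈ g.support, rtBg k s • (⟨g s, hm1 s⟩ : S.Th (2 * m) 0 0) = 0 := by
    apply Subtype.ext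
    rw [AddSubmonoidClass.coe_finsetSum]
    exact h.eq
  ext1 s
  by_cases hs : s ∈ g.support
  · have h2 : (⟨g s, hm1 s⟩ : S.Th (2 * m) 0 0) = 0 := by
      apply b.repr.injective
      rw [map_zero]
      ext j
      rw [Finsupp.zero_apply]
      refine rtB_indep g.support (fun s => b.repr ⟨g s, hm1 s⟩ j) (fun s => hm2 s j) ?_ s hs
      have h3 : ∑ s ∈ g.support, rtBg k s * b.repr ⟨g s, hm1 s⟩ j =
          b.repr (∑ s ∈ g.support, rtBg k s • (⟨g s, hm1 s⟩ : S.Th (2 * m) 0 0)) j := by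
        rw [map_sum, Finsupp.finsetSum_apply]
        exact Finset.sum_congr rfl fun s _ => by rw [map_smul]; rfl
      rw [h3, h1, map_zero]
      rfl
    exact congrArg Subtype.val h2
  · rw [Finsupp.notMem_support_iff.1 hs]
    rfl

private theorem rtB_unique {m : ℕ} {f : C2 → ℂ} {g g' : RtBI k →₀ (C2 → ℂ)}
    (h : RtBDec K m f g) (h' : RtBDec K m f g') : g = g' := by
  have h1 := rtB_add h (rtB_neg h')
  rw [add_neg_cancel] at h1
  have h2 := rtB_eq_zero h1
  rwa [← sub_eq_add_neg, sub_eq_zero] at h2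

variable (K)

private theorem rtB_rat_of {m : ℕ} {W : Submodule ℂ (C2 → ℂ)} (hW : W ≤ S.Th (2 * m) 0 0)
    (h : ∀ f ∈ W, ∀ g, RtBDec K m f g → ∀ s, g s ∈ W) : K.Rat m W := by
  refine ⟨hW, fun f hf => ?_⟩
  obtain ⟨g, hg, -⟩ := rtB_span (K := K) le_rfl (K.span m (hW hf))
  rw [← hg.eq]
  exact Submodule.sum_mem _ fun s _ => Submodule.smul_mem _ _
    (Submodule.subset_span ⟨h f hf g hg s, hg.mem s⟩)

variable {K}

private theorem rtB_of_rat {m : ℕ} {W : Submodule ℂ (C2 → ℂ)} (hW : K.Rat m W) {f : C2 → ℂ}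
    (hf : f ∈ W) {g : RtBI k →₀ (C2 → ℂ)} (hg : RtBDec K m f g) (s : RtBI k) : g s ∈ W := by
  obtain ⟨A, hA⟩ : ∃ A : Submodule k (C2 → ℂ), A = W.restrictScalars k ⊓ K.R m := ⟨_, rfl⟩
  have h1 : f ∈ Submodule.span ℂ (A : Set (C2 → ℂ)) := by
    rw [hA]
    exact hW.2 hf
  obtain ⟨g', hg', hgA⟩ := rtB_span (K := K) (A := A) (by rw [hA]; exact inf_le_right) h1
  rw [rtB_unique hg hg']
  have := hgA s
  rw [hA] at this
  exact this.1

variable (K)

/-- Preimages of rational subspaces under multiplication by a rational `r` are rational.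
PROOF: let `f ∈ Th (2 m)` with `f * r ∈ V`.  Write `f = ∑ g_i f_i` with `f_i ∈ R m` and `g_i ∈ ℂ` linearly independent over `k`
(`span`, a basis of the `k`-span of the coefficients), similarly `f r = ∑ h_j v_j` with `v_j ∈ V ∩ R (m + l)`, `h_j` linearly
independent over `k`.  `∑ g_i (f_i r) = ∑ h_j v_j` with `f_i r, v_j ∈ R (m + l)`: extend to a `k`-basis `e` of the `k`-span of all `g_i, h_j`
and compare coefficients (uniqueness of `∑ e_l u_l`, `u_l ∈ R`: `kfA_eq_zero` in q2/KfA.lean; copy it, names beginning `RtB`): the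
`f_i r` are `k`-combinations of the `v_j`, so in `V`.  Or: `V / ` linear forms: `rat_ker` with the linear forms given by a complement of
`V ∩ R` in `R (m + l)` (a `k`-basis of `R (m + l)` adapted to `V ∩ R (m + l)` is a `ℂ`-basis of `Th (2 (m + l))` adapted to `V`). -/
theorem rat_comap {m l : ℕ} {r : C2 → ℂ} (hr : r ∈ K.R l) {V : Submodule ℂ (C2 → ℂ)} (hV : K.Rat (m + l) V) :
    K.Rat m (Submodule.comap (LinearMap.mulRight ℂ r) V ⊓ S.Th (2 * m) 0 0) := by
  refine rtB_rat_of K inf_le_right ?_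
  rintro f ⟨hfV, hf⟩ g hg t
  refine ⟨?_, K.mem (hg.mem t)⟩
  have hfV' : f * r ∈ V := hfV
  have h1 : RtBDec K (m + l) (f * r) (g.mapRange (fun x => x * r) (zero_mul r)) := by
    refine ⟨fun t => ?_, ?_⟩
    · rw [Finsupp.mapRange_apply]
      exact K.mul m l (g t) r (hg.mem t) hr
    · rw [Finsupp.sum_mapRange_index (fun s => smul_zero _), ← hg.eq, Finsupp.sum, Finsupp.sum,
        Finset.sum_mul]
      exact Finset.sum_congr rfl fun t _ => (smul_mul_assoc _ _ _).symm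
  have h2 := rtB_of_rat hV hfV' h1 t
  rw [Finsupp.mapRange_apply] at h2
  exact h2

/-- Multiples of `s` are a rational subspace if `s * s` is rational.
PROOF: let `g ∈ R a` with `g 0 ≠ 0` (`KfB_exists`), `v, w` from `frame`.  `wro v (s s) g = (s s) D_v g - g 2 s D_v s = s r_v` with
`r_v = s D_v g - 2 g D_v s`, `r_v ∈ Th (3 a) hc hc` up to integral characteristics (`th_quot`).  If `r_v` and `r_w` were both multiples of `s`,
then `g D_v s` and `g D_w s` are multiples of `s`, so (as `g 0 ≠ 0`, `van_cancel`) `D_v s` and `D_w s` are in `Van b 0` and `s ∈ Van (b + 1) 0`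
(`KfB_van_of`), contradiction with `van'`.  Say `r = r_v ∉ Mult s`, `p = s r = wro v (s s) g ∈ R (2 a)`.  For `f ∈ Th (2 m)`: `f ∈ Mult s` iff
`f p ∈ Mult (s s)` (`f p = f s r ∈ Mult (s s)` iff `f r ∈ Mult s` (`ent_cancel`) iff `f ∈ Mult s` (`dich_prime`)).  `Th (2 (m + 2 a)) ⊓ Mult (s s)` is rational
(`rat_mult`), and `rat_comap`. -/
theorem rat_mult2 {m a b : ℕ} {s : C2 → ℂ} (C : S.Curve2 a b s) (hs : s * s ∈ K.R a) :
    K.Rat m (S.Th (2 * m) 0 0 ⊓ Mult s) := by
  obtain ⟨v, w, hli, hvw⟩ := K.frame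
  obtain ⟨g, hg, hg0⟩ := K.KfB_exists a
  have hsd : Differentiable ℂ s := C.mem.1
  have hgd : Differentiable ℂ g := (K.mem hg).1
  have hss0 : s * s ≠ 0 := mul_ne_zero_ent hsd hsd C.ne C.ne
  -- the factor
  obtain ⟨R, hR⟩ : ∃ R : C2 → C2 → ℂ, R = fun u => s * (fun z => fderiv ℂ g z u) -
      (2 : ℂ) • (g * fun z => fderiv ℂ s z u) := ⟨_, rfl⟩
  have hRd : ∀ u, Differentiable ℂ (R u) := by
    intro u
    rw [hR]
    exact (hsd.mul (KfB_diff hgd u)).sub ((hgd.mul (KfB_diff hsd u)).const_smul (2 : ℂ))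
  have hwro : ∀ u, wro u (s * s) g = s * R u := by
    intro u
    funext z
    have h1 : fderiv ℂ (s * s) z u = s z * fderiv ℂ s z u + s z * fderiv ℂ s z u := by
      rw [fderiv_mul (hsd z) (hsd z)]
      rfl
    have h2 : wro u (s * s) g z = (s * s) z * fderiv ℂ g z u - g z * fderiv ℂ (s * s) z u := rfl
    rw [h2, h1, hR]
    simp only [Pi.mul_apply, Pi.sub_apply, Pi.smul_apply, smul_eq_mul]
    ring
  have hb := (PerData.Curve2.three_le C).2
  have hvan : ∀ u, R u ∈ Mult s → (fun z => fderiv ℂ s z u) ∈ Van b 0 := by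
    rintro u ⟨h, hh, he⟩
    rw [← van_mul_unit hgd.continuous hg0]
    have h1 : g * (fun z => fderiv ℂ s z u) = (1 / 2 : ℂ) • (s * ((fun z => fderiv ℂ g z u) - h)) := by
      funext z
      have h2 := congrFun he z
      rw [hR] at h2
      simp only [Pi.mul_apply, Pi.sub_apply, Pi.smul_apply, smul_eq_mul] at h2 ⊢
      linear_combination (-(1 / 2 : ℂ)) * h2
    rw [h1]
    refine Submodule.smul_mem _ _ ?_
    have h2 := van_mul C.van (van_zero ((KfB_diff hgd u).sub hh).continuous 0)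
    exact h2
  have hs0 : s 0 = 0 := (van_one_iff hsd 0).1 (van_mono (by omega) 0 C.van)
  obtain ⟨r, hrd, hp, hr⟩ : ∃ r : C2 → ℂ, Differentiable ℂ r ∧ s * r ∈ K.R (2 * a) ∧ r ∉ Mult s := by
    by_contra hcon
    push Not at hcon
    have h1 := hcon (R v) (hRd v) (by rw [← hwro]; exact (hvw a (s * s) g hs hg).1)
    have h2 := hcon (R w) (hRd w) (by rw [← hwro]; exact (hvw a (s * s) g hs hg).2)
    exact C.van' (KfB_van_of hsd hli hs0 (hvan v h1) (hvan w h2))
  have hrT := S.th_quot C.mem C.ne (K.mem hp) hrd rfl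
  have key : ∀ f ∈ S.Th (2 * (m : ℤ)) 0 0, f * (s * r) ∈ Mult (s * s) → f ∈ Mult s := by
    rintro f hf ⟨h, hh, he⟩
    have h1 : s * (f * r) = s * (s * h) := by
      rw [← mul_assoc s s h, ← he]
      ring
    have h2 := ent_cancel hsd C.ne (hf.1.mul hrd) (hsd.mul hh) h1
    rcases PerData.dich_prime C.mem C.ne C.dich hf hrT ⟨h, hh, h2⟩ with h3 | h3
    · exact h3
    · exact absurd h3 hr
  have h1 := K.rat_comap (m := m) hp (K.rat_mult (m := m + 2 * a) hs hss0)
  have h2 : Submodule.comap (LinearMap.mulRight ℂ (s * r))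
      (S.Th (2 * ((m + 2 * a : ℕ) : ℤ)) 0 0 ⊓ Mult (s * s)) ⊓ S.Th (2 * (m : ℤ)) 0 0 =
      S.Th (2 * (m : ℤ)) 0 0 ⊓ Mult s := by
    ext f
    constructor
    · rintro ⟨h3, h4⟩
      exact ⟨h4, key f h4 h3.2⟩
    · rintro ⟨h3, h, hh, he⟩
      refine ⟨⟨?_, h * r, hh.mul hrd, ?_⟩, h3⟩
      · have h5 := S.th_mul h3 (K.mem hp)
        rw [add_zero] at h5
        have h6 : 2 * (m : ℤ) + 2 * ((2 * a : ℕ) : ℤ) = 2 * ((m + 2 * a : ℕ) : ℤ) := by
          push_cast
          ring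
        rw [h6] at h5
        exact h5
      · show f * (s * r) = s * s * (h * r)
        rw [he]
        ring
  rw [← h2]
  exact h1

end KForm

end Q2T
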