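import Pool.Agent.H.MP_89f84f_ag.q3.VlB
import Pool.Agent.H.MP_89f84f_ag.q2.Fld
import Pool.Agent.H.MP_89f84f_ag.P12Spec

set_option autoImplicit false

open Complex Topology Filter Asymptotics Metric Set Module Polynomial

namespace Q2T

namespace KForm

variable {S : PerData} {k : Subfield ℂ} [NumberField k] (K : KForm S k)

private theorem SqB_th_pow {u : ℤ} {f : C2 → ℂ} (hf : f ∈ S.Th u 0 0) (n : ℕ) :
    f ^ n ∈ S.Th (n * u) 0 0 := by
  induction n with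
  | zero =>
    rw [pow_zero, Nat.cast_zero, zero_mul]
    exact S.th_one
  | succ n ih =>
    have h1 := S.th_mul ih hf
    rw [add_zero, ← pow_succ] at h1
    have e : (n : ℤ) * u + u = ((n + 1 : ℕ) : ℤ) * u := by push_cast; ring
    rwa [e] at h1

/-- A theta function vanishing at points with infinitely many parameters is a multiple of `s`. -/
private theorem SqB_mult {a b x y : ℕ} {s t₁ t₂ : C2 → ℂ} (P : S.Pen2 a b x y s t₁ t₂) {v : ℤ}
    {α' β' : Fin 2 → ℝ} {f : C2 → ℂ} (hf : f ∈ S.Th v α' β')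
    (h : {c : ℂ | ∃ Q, S.At s t₁ t₂ c Q ∧ f Q = 0}.Infinite) : f ∈ Mult s := by
  have ha : (1 : ℤ) ≤ (a : ℤ) := by exact_mod_cast P.cur.ha
  refine S.dich_mult_of_many ha P.cur.mem P.cur.ne P.cur.dich hf fun n => ?_
  set e := h.natEmbedding with he
  have hc : ∀ i : Fin n, ∃ Q, S.At s t₁ t₂ ((e (i : ℕ)).1) Q ∧ f Q = 0 := fun i => (e (i : ℕ)).2
  choose z hz using hc
  refine ⟨z, fun i => ⟨(hz i).1.2.1, (hz i).2⟩, fun i j hij h1 => hij ?_⟩
  have h3 := val_ratio P.m₁ P.m₂ (hz i).1 (hz j).1 h1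
  have h2 := e.injective (Subtype.ext h3)
  exact Fin.ext h2

private theorem SqB_odd_part {s A R : C2 → ℂ} (hs : s ∈ Par (-1)) (hA : A ∈ Par (-1)) (hR : R ∈ Par 1)
    (h : A + R ∈ Mult s) : A ∈ Mult s := by
  obtain ⟨g, hg, e⟩ := h
  refine ⟨fun z => (g z + g (-z)) / 2, ?_, ?_⟩
  · have h1 : Differentiable ℂ fun z : C2 => g z + g (-z) := hg.add (hg.comp differentiable_id.neg)
    have h2 : Differentiable ℂ fun z : C2 => (g z + g (-z)) * (2⁻¹ : ℂ) := h1.mul_const 2⁻¹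
    have e : (fun z : C2 => (g z + g (-z)) / 2) = fun z : C2 => (g z + g (-z)) * (2⁻¹ : ℂ) := by
      funext z
      rw [div_eq_mul_inv]
    rw [e]
    exact h2
  · funext z
    have e1 : A z + R z = s z * g z := congrFun e z
    have e2 : A (-z) + R (-z) = s (-z) * g (-z) := congrFun e (-z)
    rw [hA z, hR z, hs z] at e2
    show A z = s z * ((g z + g (-z)) / 2)
    linear_combination (1 / 2 : ℂ) * e1 - (1 / 2 : ℂ) * e2

/-- The form with coefficients of `r`. -/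
private noncomputable def SqBForm (r : k[X]) (n : ℕ) (t₁ t₂ : C2 → ℂ) : C2 → ℂ :=
  ∑ i ∈ Finset.range (n + 1), ((r.coeff i : k) : ℂ) • (t₁ ^ i * t₂ ^ (n - i))

omit [NumberField k] in
private theorem SqBForm_eval {r : k[X]} {n : ℕ} (hr : r.natDegree ≤ n) {t₁ t₂ : C2 → ℂ} {c : ℂ} {Q : C2}
    (h : t₁ Q = c * t₂ Q) : SqBForm r n t₁ t₂ Q = t₂ Q ^ n * (r.map k.subtype).eval c := by
  rw [Polynomial.eval_map, Polynomial.eval₂_eq_sum_range' _ (Nat.lt_succ_of_le hr), Finset.mul_sum]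
  unfold SqBForm
  rw [Finset.sum_apply]
  refine Finset.sum_congr rfl fun i hi => ?_
  have hi' : i ≤ n := Nat.le_of_lt_succ (Finset.mem_range.1 hi)
  simp only [Pi.smul_apply, Pi.mul_apply, Pi.pow_apply, smul_eq_mul, h, mul_pow, Subfield.subtype_apply]
  have e : t₂ Q ^ n = t₂ Q ^ i * t₂ Q ^ (n - i) := by rw [← pow_add, Nat.add_sub_cancel' hi']
  rw [e]
  ring

omit [NumberField k] in
private theorem SqBForm_mem {r : k[X]} {n : ℕ} {u : ℤ} {t₁ t₂ : C2 → ℂ} (h₁ : t₁ ∈ S.Th u 0 0)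
    (h₂ : t₂ ∈ S.Th u 0 0) : SqBForm r n t₁ t₂ ∈ S.Th (n * u) 0 0 := by
  refine Submodule.sum_mem _ fun i hi => Submodule.smul_mem _ _ ?_
  have hi' : i ≤ n := Nat.le_of_lt_succ (Finset.mem_range.1 hi)
  have h3 := S.th_mul (SqB_th_pow h₁ i) (SqB_th_pow h₂ (n - i))
  rw [add_zero] at h3
  have e : (i : ℤ) * u + ((n - i : ℕ) : ℤ) * u = (n : ℤ) * u := by
    rw [← add_mul, ← Nat.cast_add, Nat.add_sub_cancel' hi']
  rwa [e] at h3

omit [NumberField k] in
private theorem SqBForm_par {r : k[X]} {n : ℕ} {t₁ t₂ : C2 → ℂ} (h₁ : t₁ ∈ Par 1)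
    (h₂ : t₂ ∈ Par 1) : SqBForm r n t₁ t₂ ∈ Par 1 := by
  refine Submodule.sum_mem _ fun i hi => Submodule.smul_mem _ _ fun z => ?_
  simp only [Pi.mul_apply, Pi.pow_apply, h₁ z, h₂ z, one_mul]

omit [NumberField k] in
private theorem SqBForm_zero {a b x y : ℕ} {s t₁ t₂ : C2 → ℂ} (P : S.Pen2 a b x y s t₁ t₂) {r : k[X]} {n : ℕ}
    (hr : r.natDegree ≤ n) (h : SqBForm r n t₁ t₂ ∈ Mult s) : r = 0 := by
  have h1 : ∑ i : Fin (n + 1), (fun i : Fin (n + 1) => ((r.coeff i : k) : ℂ)) i •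
      (t₁ ^ (i : ℕ) * t₂ ^ (n - (i : ℕ))) = SqBForm r n t₁ t₂ := by
    unfold SqBForm
    exact Fin.sum_univ_eq_sum_range (fun i => ((r.coeff i : k) : ℂ) • (t₁ ^ i * t₂ ^ (n - i))) (n + 1)
  rw [← h1] at h
  have h2 := P.form_unique h
  ext i
  rcases Nat.lt_or_ge n i with hi | hi
  · rw [Polynomial.coeff_eq_zero_of_natDegree_lt (lt_of_le_of_lt hr hi)]
    simp
  · have h3 := congrFun h2 ⟨i, Nat.lt_succ_of_le hi⟩
    simpa using h3

/-- Infinitely many parameters give points of degree two.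
PROOF: (compare q2/Sqr.lean.)  Let `z₀` be a zero of `s` with `2 z₀ ∉ Lat` (`exists_goodZ`) and `o, g₀ ∈ R m` odd and even, `m ≥ 1`, nonzero at `z₀`
(`exists_odd`), so `o, g₀ ∉ Mult s`.  `exists_poly2` for `f = o²`, `g = g₀²` in `R (2 m)`: coprime `q, p ∈ k[X]`, nonzero (`dich_prime`), of degree
`≤ L`, with `o(Q)² q(c) = g₀(Q)² p(c)` at attained `c`, `Q`.
Let `c ∈ k` be attained (`Pen2.cofinite`) at `Q`, with `g₀ Q ≠ 0` (all but finitely many `c`: otherwise `g₀ ∈ Mult s` by `dich_mult_of_many`; `Q`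
mod `Lat` determines `c`, `val_ratio`), `ω = o Q / g₀ Q`: `(ω q(c))² = p(c) q(c)`; if `ω ∈ k` then `p(c) q(c)` is a square in `k`.  If `p q` is not a square in `k[X]`,
`P12.spec` gives infinitely many `c ∈ k` with `p(c) q(c)` not a square: then `Half Q` (`exists_evK2`), done.
If `p q = r²`, `natDegree r ≤ L`: with `q(t₁, t₂) = ∑ q_i t₁^i t₂^(L-i)`, `r(t₁, t₂)` similarly (even functions), put `A = o q(t₁, t₂)` (odd),
`B = g₀ r(t₁, t₂)` (even), both in `Th (2 (m + L x))`.  At all attained points `(A - B)(A + B) = t₂^(2L) (o² q(c)² - g₀² p(c) q(c)) = 0`, so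
`(A - B)(A + B) ∈ Mult s` (`dich_mult_of_many`), so one factor is in `Mult s` (`dich_prime`), and so is its odd part `± A` (`s` is odd), hence
`o` or `q(t₁, t₂)`: contradiction (`form_unique`, `q ≠ 0`). -/
theorem infinite_half2 {a b x y : ℕ} {s t₁ t₂ : C2 → ℂ} (P : S.Pen2 a b x y s t₁ t₂) (hs : s * s ∈ K.R a)
    (h₁ : t₁ ∈ K.R x) (h₂ : t₂ ∈ K.R x) :
    {c : ℂ | c ∈ k ∧ ∃ Q, S.At s t₁ t₂ c Q ∧ K.Half Q}.Infinite := by
  classical
  obtain ⟨hx, hs0, -⟩ := P.x_pos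
  have C := P.cur
  obtain ⟨z, hz⟩ := S.exists_goodZ C.mem.1 hs0 1
  have hsz : s (z 0) = 0 := hz.1 0
  obtain ⟨m, o, g₀, hm, hoR, hgR, hop, hgp, hoz, hgz⟩ := K.exists_odd (hz.2.1 0)
  have hnot : ∀ f : C2 → ℂ, f (z 0) ≠ 0 → f ∉ Mult s := by
    rintro f hf ⟨u, -, hu⟩
    apply hf
    rw [hu]
    show s (z 0) * u (z 0) = 0
    rw [hsz, zero_mul]
  have hom : o ∉ Mult s := hnot o hoz
  have hgm : g₀ ∉ Mult s := hnot g₀ hgz
  have hoT := K.mem hoR
  have hgT := K.mem hgR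
  have hoom : o * o ∉ Mult s := hnot _ (mul_ne_zero hoz hoz)
  have hggm : g₀ * g₀ ∉ Mult s := hnot _ (mul_ne_zero hgz hgz)
  have hoop : o * o ∈ Par 1 := by
    intro w
    simp only [Pi.mul_apply, hop w]
    ring
  have hggp : g₀ * g₀ ∈ Par 1 := by
    intro w
    simp only [Pi.mul_apply, hgp w]
    ring
  obtain ⟨q, p, -, hqd, hpd, hq0, hp0, hpe⟩ := K.exists_poly2 P hs h₁ h₂ (n := m + m) (by omega)
    (K.mul m m o o hoR hoR) hoop (K.mul m m g₀ g₀ hgR hgR) hggp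
  have hq0 := hq0 hggm
  obtain ⟨L, hL⟩ : ∃ L, L = 2 * S.d * a * (m + m) := ⟨_, rfl⟩
  rw [← hL] at hqd hpd
  have hB₁ := P.cofinite
  by_cases hsq : IsSquare (p * q)
  · -- the square case is impossible
    exfalso
    obtain ⟨r, hr⟩ := hsq
    have hrd : r.natDegree ≤ L := by
      by_cases hr0 : r = 0
      · rw [hr0, natDegree_zero]
        exact Nat.zero_le _
      · have h1 : (r * r).natDegree = r.natDegree + r.natDegree := natDegree_mul hr0 hr0
        have h2 : (p * q).natDegree ≤ p.natDegree + q.natDegree := natDegree_mul_le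
        rw [hr] at h2
        omega
    obtain ⟨Fq, hFq⟩ : ∃ Fq, Fq = SqBForm q L t₁ t₂ := ⟨_, rfl⟩
    obtain ⟨Fr, hFr⟩ : ∃ Fr, Fr = SqBForm r L t₁ t₂ := ⟨_, rfl⟩
    have hFqT : Fq ∈ S.Th ((L : ℤ) * (2 * (x : ℤ))) 0 0 := by
      rw [hFq]
      exact SqBForm_mem P.m₁ P.m₂
    have hFrT : Fr ∈ S.Th ((L : ℤ) * (2 * (x : ℤ))) 0 0 := by
      rw [hFr]
      exact SqBForm_mem P.m₁ P.m₂
    have hFqp : Fq ∈ Par 1 := by
      rw [hFq]
      exact SqBForm_par P.p₁ P.p₂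
    have hFrp : Fr ∈ Par 1 := by
      rw [hFr]
      exact SqBForm_par P.p₁ P.p₂
    have hAp : o * Fq ∈ Par (-1) := by
      intro w
      simp only [Pi.mul_apply, hop w, hFqp w]
      ring
    have hBp : g₀ * Fr ∈ Par 1 := by
      intro w
      simp only [Pi.mul_apply, hgp w, hFrp w]
      ring
    have hAT := S.th_mul hoT hFqT
    have hBT := S.th_mul hgT hFrT
    have hprod : (o * Fq - g₀ * Fr) * (o * Fq + g₀ * Fr) ∈ Mult s := by
      have hT := S.th_mul (Submodule.sub_mem _ hAT hBT) (Submodule.add_mem _ hAT hBT)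
      refine SqB_mult P hT ?_
      have hsub : {c : ℂ | ¬ ∃ Q, S.At s t₁ t₂ c Q}ᶜ ⊆
          {c : ℂ | ∃ Q, S.At s t₁ t₂ c Q ∧ ((o * Fq - g₀ * Fr) * (o * Fq + g₀ * Fr)) Q = 0} := by
        intro c hc
        obtain ⟨Q, hQ⟩ := not_not.1 hc
        refine ⟨Q, hQ, ?_⟩
        have e1 : o Q * o Q * (q.map k.subtype).eval c = g₀ Q * g₀ Q * (p.map k.subtype).eval c := hpe c Q hQ
        have e2 : Fq Q = t₂ Q ^ L * (q.map k.subtype).eval c := by
          rw [hFq]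
          exact SqBForm_eval hqd hQ.2.2.2
        have e3 : Fr Q = t₂ Q ^ L * (r.map k.subtype).eval c := by
          rw [hFr]
          exact SqBForm_eval hrd hQ.2.2.2
        have e4 : (p.map k.subtype).eval c * (q.map k.subtype).eval c =
            (r.map k.subtype).eval c * (r.map k.subtype).eval c := by
          rw [← eval_mul, ← eval_mul, ← Polynomial.map_mul, ← Polynomial.map_mul, hr]
        show (o Q * Fq Q - g₀ Q * Fr Q) * (o Q * Fq Q + g₀ Q * Fr Q) = 0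
        rw [e2, e3]
        linear_combination (t₂ Q ^ L * t₂ Q ^ L * (q.map k.subtype).eval c) * e1 +
          (t₂ Q ^ L * t₂ Q ^ L * (g₀ Q * g₀ Q)) * e4
      exact (hB₁.infinite_compl).mono hsub
    have hAm : o * Fq ∈ Mult s := by
      rcases PerData.dich_prime C.mem C.ne C.dich (Submodule.sub_mem _ hAT hBT)
        (Submodule.add_mem _ hAT hBT) hprod with h1 | h1
      · refine SqB_odd_part C.odd hAp (Submodule.neg_mem _ hBp) ?_
        rwa [← sub_eq_add_neg]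
      · exact SqB_odd_part C.odd hAp hBp h1
    rcases PerData.dich_prime C.mem C.ne C.dich hoT hFqT hAm with h1 | h1
    · exact hom h1
    · rw [hFq] at h1
      exact hq0 (SqBForm_zero P hqd h1)
  · -- infinitely many values are not squares
    have hB₄ : {c : ℂ | ∃ Q, S.At s t₁ t₂ c Q ∧ g₀ Q = 0}.Finite := by
      by_contra h1
      exact hgm (SqB_mult P hgT h1)
    have hspec := P12.spec (p * q) hsq
    rw [Filter.frequently_cofinite_iff_infinite] at hspec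
    have hinj : Function.Injective ((↑) : k → ℂ) := Subtype.val_injective
    have hinf : (((↑) : k → ℂ) '' {t : k | ¬ IsSquare ((p * q).eval t)}).Infinite := hspec.image hinj.injOn
    refine (hinf.sdiff (hB₁.union hB₄)).mono ?_
    rintro c ⟨⟨t, ht, rfl⟩, hc⟩
    simp only [Set.mem_union, not_or] at hc
    obtain ⟨hc1, hc4⟩ := hc
    obtain ⟨Q, hQ⟩ := not_not.1 hc1
    have hgQ : g₀ Q ≠ 0 := fun h1 => hc4 ⟨Q, hQ, h1⟩
    have hev := K.exists_evK2 P hs h₁ h₂ t.2 hQ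
    refine ⟨t.2, Q, hQ, fun m f g hf hg hfp hgp hg0 => hev m f g hf hg hfp hgp hg0, ?_⟩
    refine ⟨m, o, g₀, hoR, hgR, hop, hgp, hgQ, fun hmem => ht ?_⟩
    have e1 : o Q * o Q * (q.map k.subtype).eval (t : ℂ) =
        g₀ Q * g₀ Q * (p.map k.subtype).eval (t : ℂ) := hpe t Q hQ
    have ep : (p.map k.subtype).eval (t : ℂ) = ((p.eval t : k) : ℂ) := eval_map_apply k.subtype t
    have eq : (q.map k.subtype).eval (t : ℂ) = ((q.eval t : k) : ℂ) := eval_map_apply k.subtype t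
    rw [ep, eq] at e1
    refine ⟨(⟨o Q / g₀ Q, hmem⟩ : k) * q.eval t, ?_⟩
    apply hinj
    rw [eval_mul]
    show ((p.eval t : k) : ℂ) * ((q.eval t : k) : ℂ) =
      (o Q / g₀ Q * ((q.eval t : k) : ℂ)) * (o Q / g₀ Q * ((q.eval t : k) : ℂ))
    have e5 : ((p.eval t : k) : ℂ) = o Q * o Q * ((q.eval t : k) : ℂ) / (g₀ Q * g₀ Q) := by
      rw [e1, mul_div_cancel_left₀ _ (mul_ne_zero hgQ hgQ)]
    rw [e5]
    field_simp

end KForm

end Q2T
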