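import Pool.Agent.H.MP_89f84f_ag.q3.CoB
import Pool.Agent.H.MP_89f84f_ag.q3.RtB
import Pool.Agent.H.MP_89f84f_ag.q2.Val

set_option autoImplicit false

open Complex Topology Filter Asymptotics Metric Set Module Polynomial

namespace Q2T

namespace KForm

variable {S : PerData} {k : Subfield ℂ} (K : KForm S k)

/-- The curve can be chosen such that `s * s` is rational.
PROOF: `W = Th (2 a) ⊓ Par 1 ⊓ Van (2 b) 0` is rational (`rat_par_van`) and contains `s s ≠ 0` (`sq_mem`).  Every `f ∈ W` is a multiple of `s`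
(else `Copr s f` and `bezout` at `0` gives `2 b² ≤ 2 d a (2 a) = 2 b² - 2`), `f = s h`, `h ∈ Th (2 a - a)` (`th_quot`), `h ∈ Van b 0` (`van_cancel`),
and again `h ∈ Mult s` (`b² ≤ 2 d a²` is false), so `h = c s` (`eq_smul_of_mult`) and `f = c (s s)`.  A nonzero element of `W ∩ R a` is `c (s s)`,
`c ≠ 0`; take `s' = √c s`. -/
theorem exists_rat_curve2 {a b : ℕ} {s : C2 → ℂ} (C : S.Curve2 a b s) :
    ∃ s' : C2 → ℂ, s' * s' ∈ K.R a ∧ S.Curve2 a b s' := by
  have hW := K.rat_par_van a (2 * b) (ε := 1) (Or.inl rfl)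
  have hss0 : s * s ≠ 0 := mul_ne_zero_ent C.mem.1 C.mem.1 C.ne C.ne
  have hssV : s * s ∈ Van (2 * b) 0 := by
    rw [two_mul]
    exact van_mul C.van C.van
  have hssP : s * s ∈ Par 1 := by
    intro z
    simp only [Pi.mul_apply, C.odd z]
    ring
  obtain ⟨t, htW, htR, ht0⟩ := K.exists_one hW (W' := ⊥) (fun h => by
    have h1 : s * s ∈ (⊥ : Submodule ℂ (C2 → ℂ)) := h ⟨⟨C.sq_mem, hssP⟩, hssV⟩
    exact hss0 ((Submodule.mem_bot ℂ).1 h1))
  have ht0' : t ≠ 0 := fun h => ht0 ((Submodule.mem_bot ℂ).2 h)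
  have ha := C.ha
  have h2z : (b : ℤ) ^ 2 = 2 * S.d * a ^ 2 + 1 := by exact_mod_cast C.pell
  have hmul : t ∈ Mult s := by
    rcases C.dich _ _ _ t htW.1.1 ht0' with h | h
    · exact h
    · exfalso
      have h1 := S.bezout (u := (a : ℤ)) (v := 2 * a) (by omega) (by omega) C.mem htW.1.1 C.ne ht0' h
        (r := 1) (fun _ => 0) (fun i k hik => absurd (Subsingleton.elim i k) hik) (fun _ => b)
        (fun _ => 2 * b) (fun _ => C.van) (fun _ => htW.2)
      rw [Fin.sum_univ_one] at h1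
      push_cast at h1
      nlinarith
  obtain ⟨h, hh, he⟩ := hmul
  have hhT : h ∈ S.Th (a : ℤ) (0 - hc) (0 - hc) := by
    have h1 := S.th_quot C.mem C.ne htW.1.1 hh he
    have e : (2 : ℤ) * (a : ℤ) - a = a := by ring
    rwa [e] at h1
  have hhV : h ∈ Van b 0 := by
    refine van_cancel C.mem.1 hh C.van' ?_
    rw [← he, ← two_mul]
    exact htW.2
  have hh0 : h ≠ 0 := by
    rintro rfl
    exact ht0' (by rw [he, mul_zero])
  have hmul2 : h ∈ Mult s := by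
    rcases C.dich _ _ _ h hhT hh0 with h1 | h1
    · exact h1
    · exfalso
      have h2 := S.bezout (u := (a : ℤ)) (v := (a : ℤ)) (by omega) (by omega) C.mem hhT C.ne hh0 h1
        (r := 1) (fun _ => 0) (fun i k hik => absurd (Subsingleton.elim i k) hik) (fun _ => b)
        (fun _ => b) (fun _ => C.van) (fun _ => hhV)
      rw [Fin.sum_univ_one] at h2
      push_cast at h2
      nlinarith
  obtain ⟨c, hc'⟩ := S.eq_smul_of_mult C.mem C.ne hhT hmul2
  have hc0 : c ≠ 0 := by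
    rintro rfl
    exact hh0 (by rw [hc', zero_smul])
  obtain ⟨r, hr⟩ := IsAlgClosed.exists_pow_nat_eq c (n := 2) (by norm_num)
  have hr0 : r ≠ 0 := by
    rintro rfl
    exact hc0 (by rw [← hr]; norm_num)
  have hss : (r • s) * (r • s) = t := by
    rw [he, hc', ← hr]
    funext z
    simp only [Pi.mul_apply, Pi.smul_apply, smul_eq_mul]
    ring
  have hsr : s = r⁻¹ • (r • s) := by rw [smul_smul, inv_mul_cancel₀ hr0, one_smul]
  refine ⟨r • s, by rw [hss]; exact htR, ⟨ha, C.pell, Submodule.smul_mem _ _ C.mem, ?_,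
    Submodule.smul_mem _ _ C.odd, Submodule.smul_mem _ _ C.van, fun hv => C.van' ?_, ?_⟩⟩
  · exact smul_ne_zero hr0 C.ne
  · rw [hsr]
    exact Submodule.smul_mem _ _ hv
  · intro v α' β' t' ht' ht'0
    rcases C.dich v α' β' t' ht' ht'0 with ⟨h, hh, e⟩ | h
    · left
      refine ⟨r⁻¹ • h, hh.const_smul _, ?_⟩
      rw [e]
      funext z
      simp only [Pi.mul_apply, Pi.smul_apply, smul_eq_mul]
      field_simp
    · right
      intro p
      filter_upwards [h p] with z hz hz'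
      refine hz ⟨?_, hz'.2⟩
      have h3 := hz'.1
      rw [Pi.smul_apply, smul_eq_mul] at h3
      exact (mul_eq_zero.1 h3).resolve_left hr0

/-- A rational pencil.
PROOF: `exists_numbers`, `pencil_space`, `rat_par_van`, `rat_mult2`, `rat_inf`, `exists_two` with `W' = W ⊓ Mult s`. -/
theorem exists_rat_pen2 {a b : ℕ} {s : C2 → ℂ} (C : S.Curve2 a b s) (hs : s * s ∈ K.R a) :
    ∃ (x y : ℕ) (t₁ t₂ : C2 → ℂ), S.Pen2 a b x y s t₁ t₂ ∧ t₁ ∈ K.R x ∧ t₂ ∈ K.R x := by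
  obtain ⟨j, x, y, hj, h1, hx, hy, hnum⟩ := C.exists_numbers
  have hW := K.rat_par_van x y (ε := 1) (Or.inl rfl)
  have hM := K.rat_mult2 (m := x) C hs
  have hW' := K.rat_inf hW hM
  have he : ((S.Th (2 * x) 0 0 ⊓ Par 1 ⊓ Van y 0) ⊓ (S.Th (2 * x) 0 0 ⊓ Mult s) :
      Submodule ℂ (C2 → ℂ)) = (S.Th (2 * x) 0 0 ⊓ Par 1 ⊓ Van y 0) ⊓ Mult s := by
    rw [← inf_assoc]
    congr 1
    exact inf_eq_left.2 (inf_le_left.trans inf_le_left)
  rw [he] at hW'
  obtain ⟨t₁, t₂, a₁, a₂, r₁, r₂, hi⟩ := K.exists_two hW hW' inf_le_left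
    (C.pencil_space hj h1 hx hy)
  refine ⟨x, y, t₁, t₂, ⟨C, hnum, by omega, a₁.1.1, a₂.1.1, a₁.1.2, a₂.1.2, a₁.2, a₂.2, ?_⟩, r₁, r₂⟩
  intro c₁ c₂ hc
  exact hi c₁ c₂ ⟨Submodule.add_mem _ (Submodule.smul_mem _ _ a₁) (Submodule.smul_mem _ _ a₂), hc⟩

/-! ### forms -/

omit K in
private theorem VlB_pow_th {u : ℤ} {f : C2 → ℂ} (hf : f ∈ S.Th u 0 0) (n : ℕ) :
    f ^ n ∈ S.Th (n * u) 0 0 := by
  induction n with
  | zero =>
    rw [pow_zero, Nat.cast_zero, zero_mul]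
    exact S.th_one
  | succ n ih =>
    have h1 := S.th_mul ih hf
    rw [add_zero, ← pow_succ] at h1
    have e : (n : ℤ) * u + u = ((n + 1 : ℕ) : ℤ) * u := by push_cast; ring
    rwa [e] at h1

/-- The form with coefficients of `r`. -/
private noncomputable def VlBForm (r : k[X]) (n : ℕ) (t₁ t₂ : C2 → ℂ) : C2 → ℂ :=
  ∑ i ∈ Finset.range (n + 1), ((r.coeff i : k) : ℂ) • (t₁ ^ i * t₂ ^ (n - i))

omit K in
private theorem VlBForm_eval {r : k[X]} {n : ℕ} (hr : r.natDegree ≤ n) {t₁ t₂ : C2 → ℂ} {c : ℂ} {Q : C2}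
    (h : t₁ Q = c * t₂ Q) : VlBForm r n t₁ t₂ Q = t₂ Q ^ n * (r.map k.subtype).eval c := by
  rw [Polynomial.eval_map, Polynomial.eval₂_eq_sum_range' _ (Nat.lt_succ_of_le hr), Finset.mul_sum]
  unfold VlBForm
  rw [Finset.sum_apply]
  refine Finset.sum_congr rfl fun i hi => ?_
  have hi' : i ≤ n := Nat.le_of_lt_succ (Finset.mem_range.1 hi)
  simp only [Pi.smul_apply, Pi.mul_apply, Pi.pow_apply, smul_eq_mul, h, mul_pow, Subfield.subtype_apply]
  have e : t₂ Q ^ n = t₂ Q ^ i * t₂ Q ^ (n - i) := by rw [← pow_add, Nat.add_sub_cancel' hi']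
  rw [e]
  ring

omit K in
private theorem VlBForm_zero {r : k[X]} {n : ℕ} {t₁ t₂ : C2 → ℂ} {Q : C2}
    (h : t₂ Q = 0) : VlBForm r n t₁ t₂ Q = ((r.coeff n : k) : ℂ) * t₁ Q ^ n := by
  unfold VlBForm
  rw [Finset.sum_apply, Finset.sum_eq_single n]
  · simp only [Pi.smul_apply, Pi.mul_apply, Pi.pow_apply, smul_eq_mul, Nat.sub_self, pow_zero, mul_one]
  · intro i hi hin
    have hi' : i < n := lt_of_le_of_ne (Nat.le_of_lt_succ (Finset.mem_range.1 hi)) hin
    simp only [Pi.smul_apply, Pi.mul_apply, Pi.pow_apply, smul_eq_mul, h]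
    rw [zero_pow (by omega), mul_zero, mul_zero]
  · intro h1
    exact absurd (Finset.mem_range.2 (Nat.lt_succ_self n)) h1

omit K in
private theorem VlBForm_mul {r r' : k[X]} {n n' : ℕ} (hr : r.natDegree ≤ n) (hr' : r'.natDegree ≤ n')
    (t₁ t₂ : C2 → ℂ) : VlBForm (r * r') (n + n') t₁ t₂ = VlBForm r n t₁ t₂ * VlBForm r' n' t₁ t₂ := by
  funext Q
  rw [Pi.mul_apply]
  by_cases h : t₂ Q = 0
  · rw [VlBForm_zero h, VlBForm_zero h, VlBForm_zero h, Polynomial.coeff_mul_add_eq_of_natDegree_le hr hr']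
    push_cast
    ring
  · have h1 : t₁ Q = (t₁ Q / t₂ Q) * t₂ Q := (div_mul_cancel₀ _ h).symm
    have h2 : (r * r').natDegree ≤ n + n' := natDegree_mul_le.trans (add_le_add hr hr')
    rw [VlBForm_eval h2 h1, VlBForm_eval hr h1, VlBForm_eval hr' h1, Polynomial.map_mul, eval_mul]
    ring

omit K in
private theorem VlBForm_mem {r : k[X]} {n : ℕ} {u : ℤ} {t₁ t₂ : C2 → ℂ} (h₁ : t₁ ∈ S.Th u 0 0)
    (h₂ : t₂ ∈ S.Th u 0 0) : VlBForm r n t₁ t₂ ∈ S.Th (n * u) 0 0 := by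
  refine Submodule.sum_mem _ fun i hi => Submodule.smul_mem _ _ ?_
  have hi' : i ≤ n := Nat.le_of_lt_succ (Finset.mem_range.1 hi)
  have h3 := S.th_mul (VlB_pow_th h₁ i) (VlB_pow_th h₂ (n - i))
  rw [add_zero] at h3
  have e : (i : ℤ) * u + ((n - i : ℕ) : ℤ) * u = (n : ℤ) * u := by
    rw [← add_mul, ← Nat.cast_add, Nat.add_sub_cancel' hi']
  rwa [e] at h3

omit K in
private theorem VlBForm_ne {a b x y : ℕ} {s t₁ t₂ : C2 → ℂ} (P : S.Pen2 a b x y s t₁ t₂) {r : k[X]} {n : ℕ}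
    (hr : r.natDegree ≤ n) (h : VlBForm r n t₁ t₂ ∈ Mult s) : r = 0 := by
  unfold VlBForm at h
  rw [Finset.sum_range] at h
  have h1 := P.form_unique h
  ext i
  rw [Polynomial.coeff_zero]
  rcases Nat.lt_or_ge i (n + 1) with hi | hi
  · exact congrFun h1 ⟨i, hi⟩
  · rw [Polynomial.coeff_eq_zero_of_natDegree_lt (by omega)]

/-- Independence over `k` in `R m` implies independence over `ℂ`. -/
private theorem VlB_indep {m : ℕ} {ι : Type} {E : ι → C2 → ℂ} (hE : ∀ j, E j ∈ K.R m)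
    (h : LinearIndependent k E) : LinearIndependent ℂ E := by
  rw [linearIndependent_iff_notMem_span] at h ⊢
  intro j hj
  refine h j (K.mem_of_mem_span (m := m) _ ?_ (hE j) ?_)
  · refine Submodule.span_le.2 ?_
    rintro _ ⟨i, -, rfl⟩
    exact hE i
  · exact Submodule.span_mono Submodule.subset_span hj

/-- A relation over `ℂ` modulo a rational subspace gives one over `k`. -/
private theorem VlB_rel {m : ℕ} {ι : Type} [Fintype ι] {E : ι → C2 → ℂ} (hE : ∀ j, E j ∈ K.R m)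
    {M : Submodule ℂ (C2 → ℂ)} (hM : K.Rat m M) {c : ι → ℂ} (hc0 : c ≠ 0) (hc : ∑ j, c j • E j ∈ M) :
    ∃ c' : ι → k, c' ≠ 0 ∧ ∑ j, c' j • E j ∈ M := by
  by_contra hcon
  push Not at hcon
  have hk : LinearIndependent k E := by
    rw [Fintype.linearIndependent_iff]
    intro g hg i
    by_contra hi
    have h1 : g ≠ 0 := fun h => hi (by rw [h]; rfl)
    exact hcon g h1 (by rw [hg]; exact zero_mem _)
  have hC := K.VlB_indep hE hk
  obtain ⟨A, hA⟩ : ∃ A : Submodule k (C2 → ℂ), A = Submodule.span k (Set.range E) := ⟨_, rfl⟩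
  have hAR : A ≤ K.R m := by
    rw [hA]
    refine Submodule.span_le.2 ?_
    rintro _ ⟨j, rfl⟩
    exact hE j
  have hW : K.Rat m (Submodule.span ℂ (A : Set (C2 → ℂ))) := by
    refine ⟨Submodule.span_le.2 fun f hf => K.mem (hAR hf), ?_⟩
    refine Submodule.span_le.2 fun f hf => Submodule.subset_span ⟨Submodule.subset_span hf, hAR hf⟩
  have hWM := K.rat_inf hW hM
  have hx0 : ∑ j, c j • E j ≠ 0 := by
    intro h0
    apply hc0
    funext j
    exact Fintype.linearIndependent_iff.1 hC c h0 j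
  have hxW : ∑ j, c j • E j ∈ Submodule.span ℂ (A : Set (C2 → ℂ)) := by
    refine Submodule.sum_mem _ fun j _ => Submodule.smul_mem _ _ (Submodule.subset_span ?_)
    rw [hA]
    exact Submodule.subset_span ⟨j, rfl⟩
  obtain ⟨t, ht1, ht2, ht3⟩ := K.exists_one hWM (W' := ⊥) (fun h => hx0 (by
    have h1 := h ⟨hxW, hc⟩
    exact (Submodule.mem_bot ℂ).1 h1))
  have htA := K.mem_of_mem_span A hAR ht2 ht1.1
  rw [hA] at htA
  obtain ⟨c', hc'⟩ := (Submodule.mem_span_range_iff_exists_fun k).1 htA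
  have h4 : c' ≠ 0 := by
    rintro rfl
    apply ht3
    rw [Submodule.mem_bot, ← hc']
    exact Finset.sum_eq_zero fun j _ => by rw [Pi.zero_apply, zero_smul]
  exact hcon c' h4 (by rw [hc']; exact ht1.2)

/-- Rational relations.
PROOF: (1) the coefficients of `exists_rel` can be taken in `k`: `E i = f t₁^i t₂^(L-i)` and `E' i = - g t₁^i t₂^(L-i)`, `i ≤ L`, are in
`R (n + L x)`.  If they are linearly dependent over `k`: a relation over `k` (with sum `0 ∈ Mult s`).  Otherwise let `A` be their `k`-span,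
`W = span ℂ A` (they are then linearly independent over `ℂ`, `R` being a `k`-form; this is not needed if one argues with nonzero elements of `W`:
if they are dependent over `ℂ` they are dependent over `k`).  `W ⊓ (Th (2 (n + L x)) ⊓ Mult s)` is rational (`rat_inf`, `rat_mult2`; `W` is rational by
definition) and not zero by `exists_rel`, so it contains a nonzero element of `R (n + L x)`, which is in `A` (`mem_of_mem_span`): a
`k`-combination, with coefficients not all zero.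
(2) So there are `q₀, p₀ ∈ k[X]` of degree `≤ L`, not both zero, with `f q₀(t₁, t₂) - g p₀(t₁, t₂) ∈ Mult s`, where for a polynomial `q` of degree
`≤ l`, `q(t₁, t₂) = ∑ q_i t₁^i t₂^(l-i)` (`l = L`).  Let `D = gcd (q₀, p₀)`, `q₀ = D q`, `p₀ = D p`, `q, p` coprime, `l = L - deg D`.  Then
`D(t₁, t₂) (f q(t₁, t₂) - g p(t₁, t₂)) ∈ Mult s` and `D(t₁, t₂) ∉ Mult s` (`form_unique`), so `f q(t₁, t₂) - g p(t₁, t₂) ∈ Mult s` (`dich_prime`).
(3) At an attained value `c`, `Q`: `s Q = 0`, `t₁ Q = c t₂ Q`, `t₂ Q ≠ 0`: divide by `t₂ Q ^ l`.  `g ∉ Mult s` implies `q ≠ 0`: otherwise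
`g p(t₁, t₂) ∈ Mult s`, so `p(t₁, t₂) ∈ Mult s` (`dich_prime`) and `p = 0` (`form_unique`).  Similarly `f ∉ Mult s` implies `p ≠ 0`. -/
theorem exists_poly2 {a b x y : ℕ} {s t₁ t₂ : C2 → ℂ} (P : S.Pen2 a b x y s t₁ t₂) (hs : s * s ∈ K.R a)
    (h₁ : t₁ ∈ K.R x) (h₂ : t₂ ∈ K.R x) {n : ℕ} (hn : 1 ≤ n) {f g : C2 → ℂ} (hf : f ∈ K.R n) (hfp : f ∈ Par 1)
    (hg : g ∈ K.R n) (hgp : g ∈ Par 1) :
    ∃ q p : k[X], IsCoprime q p ∧ q.natDegree ≤ 2 * S.d * a * n ∧ p.natDegree ≤ 2 * S.d * a * n ∧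
      (g ∉ Mult s → q ≠ 0) ∧ (f ∉ Mult s → p ≠ 0) ∧
      ∀ c Q, S.At s t₁ t₂ c Q → f Q * (q.map k.subtype).eval c = g Q * (p.map k.subtype).eval c := by
  classical
  obtain ⟨L, hL⟩ : ∃ L, L = 2 * S.d * a * n := ⟨_, rfl⟩
  have hL1 : 1 ≤ L := by
    rw [hL]
    have h1 := S.d_pos
    have h2 := P.cur.ha
    exact Nat.mul_pos (Nat.mul_pos (by omega) h2) hn
  rw [← hL]
  have hsT := P.cur.mem
  have hs0 := P.cur.ne
  have hD := P.cur.dich
  obtain ⟨q₁, p₁, hqp, hrel⟩ := P.exists_rel hn (K.mem hf) hfp (K.mem hg) hgp hL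
  -- the family
  obtain ⟨E, hE⟩ : ∃ E : Fin (L + 1) ⊕ Fin (L + 1) → C2 → ℂ, E = Sum.elim
    (fun i : Fin (L + 1) => f * (t₁ ^ (i : ℕ) * t₂ ^ (L - (i : ℕ))))
    (fun i : Fin (L + 1) => -(g * (t₁ ^ (i : ℕ) * t₂ ^ (L - (i : ℕ))))) := ⟨_, rfl⟩
  have hER : ∀ j, E j ∈ K.R (n + L * x) := by
    rw [hE]
    rintro (i | i)
    · exact K.mul _ _ _ _ hf (K.val_mono h₁ h₂ (by omega) hL1)
    · exact Submodule.neg_mem _ (K.mul _ _ _ _ hg (K.val_mono h₁ h₂ (by omega) hL1))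
  have hM := K.rat_mult2 (m := n + L * x) P.cur hs
  have hsum : ∑ j, (Sum.elim q₁ p₁ : Fin (L + 1) ⊕ Fin (L + 1) → ℂ) j • E j =
      (f * ∑ i, q₁ i • (t₁ ^ (i : ℕ) * t₂ ^ (L - (i : ℕ)))) - (g * ∑ i, p₁ i • (t₁ ^ (i : ℕ) * t₂ ^ (L - (i : ℕ)))) := by
    rw [Fintype.sum_sum_type, hE, Finset.mul_sum, Finset.mul_sum, sub_eq_add_neg, ← Finset.sum_neg_distrib]
    congr 1
    · refine Finset.sum_congr rfl fun i _ => ?_
      simp only [Sum.elim_inl]
      exact (mul_smul_comm _ _ _).symm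
    · refine Finset.sum_congr rfl fun i _ => ?_
      simp only [Sum.elim_inr]
      rw [mul_smul_comm, smul_neg]
  have hc0 : (Sum.elim q₁ p₁ : Fin (L + 1) ⊕ Fin (L + 1) → ℂ) ≠ 0 := by
    intro h
    rcases hqp with h1 | h1
    · exact h1 (funext fun i => congrFun h (Sum.inl i))
    · exact h1 (funext fun i => congrFun h (Sum.inr i))
  obtain ⟨c', hc', hc'M⟩ := K.VlB_rel hER hM hc0 (by
    refine ⟨?_, by rw [hsum]; exact hrel⟩
    exact Submodule.sum_mem _ fun j _ => Submodule.smul_mem _ _ (K.mem (hER j)))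
  -- the polynomials
  obtain ⟨q₀, hq₀⟩ : ∃ q₀ : k[X], q₀ = ∑ i : Fin (L + 1), Polynomial.monomial (i : ℕ) (c' (Sum.inl i)) := ⟨_, rfl⟩
  obtain ⟨p₀, hp₀⟩ : ∃ p₀ : k[X], p₀ = ∑ i : Fin (L + 1), Polynomial.monomial (i : ℕ) (c' (Sum.inr i)) := ⟨_, rfl⟩
  have hcoef : ∀ (e : Fin (L + 1) → k) (i : Fin (L + 1)),
      (∑ i : Fin (L + 1), Polynomial.monomial (i : ℕ) (e i)).coeff (i : ℕ) = e i := by
    intro e i
    rw [Polynomial.finsetSum_coeff]
    simp only [Polynomial.coeff_monomial]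
    rw [Finset.sum_eq_single i]
    · simp
    · intro j _ hj
      rw [if_neg]
      intro h
      exact hj (Fin.ext h)
    · intro h
      exact absurd (Finset.mem_univ i) h
  have hdeg : ∀ (e : Fin (L + 1) → k), (∑ i : Fin (L + 1), Polynomial.monomial (i : ℕ) (e i)).natDegree ≤ L := by
    intro e
    refine Polynomial.natDegree_sum_le_of_forall_le _ _ fun i _ => ?_
    exact (Polynomial.natDegree_monomial_le _).trans (by omega)
  have hq₀d : q₀.natDegree ≤ L := by rw [hq₀]; exact hdeg _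
  have hp₀d : p₀.natDegree ≤ L := by rw [hp₀]; exact hdeg _
  have hne : ¬ (q₀ = 0 ∧ p₀ = 0) := by
    rintro ⟨h1, h2⟩
    apply hc'
    funext j
    rcases j with i | i
    · rw [← hcoef (fun i => c' (Sum.inl i)) i, ← hq₀, h1, Polynomial.coeff_zero]
      rfl
    · rw [← hcoef (fun i => c' (Sum.inr i)) i, ← hp₀, h2, Polynomial.coeff_zero]
      rfl
  have hrel₀ : f * VlBForm q₀ L t₁ t₂ - g * VlBForm p₀ L t₁ t₂ ∈ Mult s := by
    have e : ∑ j, c' j • E j = f * VlBForm q₀ L t₁ t₂ - g * VlBForm p₀ L t₁ t₂ := by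
      unfold VlBForm
      rw [Fintype.sum_sum_type, hE, Finset.sum_range, Finset.sum_range, Finset.mul_sum, Finset.mul_sum,
        sub_eq_add_neg, ← Finset.sum_neg_distrib]
      congr 1
      · refine Finset.sum_congr rfl fun i _ => ?_
        simp only [Sum.elim_inl]
        rw [hq₀, hcoef (fun i => c' (Sum.inl i)) i, mul_smul_comm]
        rfl
      · refine Finset.sum_congr rfl fun i _ => ?_
        simp only [Sum.elim_inr]
        rw [hp₀, hcoef (fun i => c' (Sum.inr i)) i, mul_smul_comm, smul_neg]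
        rfl
    rw [← e]
    exact hc'M.2
  -- the greatest common divisor
  obtain ⟨G, hG⟩ : ∃ G : k[X], G = EuclideanDomain.gcd q₀ p₀ := ⟨_, rfl⟩
  have hG0 : G ≠ 0 := by
    intro h0
    rw [hG, EuclideanDomain.gcd_eq_zero_iff] at h0
    exact hne h0
  obtain ⟨q, hq⟩ : G ∣ q₀ := by rw [hG]; exact EuclideanDomain.gcd_dvd_left _ _
  obtain ⟨p, hp⟩ : G ∣ p₀ := by rw [hG]; exact EuclideanDomain.gcd_dvd_right _ _
  have hcop : IsCoprime q p := by
    have h1 := EuclideanDomain.gcd_eq_gcd_ab q₀ p₀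
    rw [← hG] at h1
    refine ⟨EuclideanDomain.gcdA q₀ p₀, EuclideanDomain.gcdB q₀ p₀, ?_⟩
    refine mul_left_cancel₀ hG0 ?_
    calc G * (EuclideanDomain.gcdA q₀ p₀ * q + EuclideanDomain.gcdB q₀ p₀ * p)
        = (G * q) * EuclideanDomain.gcdA q₀ p₀ + (G * p) * EuclideanDomain.gcdB q₀ p₀ := by ring
      _ = G * 1 := by rw [← hq, ← hp, ← h1, mul_one]
  have hGL : G.natDegree ≤ L := by
    by_cases h0 : q₀ = 0
    · have h1 : p₀ ≠ 0 := fun h => hne ⟨h0, h⟩
      exact (Polynomial.natDegree_le_of_dvd ⟨p, hp⟩ h1).trans hp₀d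
    · exact (Polynomial.natDegree_le_of_dvd ⟨q, hq⟩ h0).trans hq₀d
  obtain ⟨l, hl⟩ : ∃ l, L = G.natDegree + l := ⟨L - G.natDegree, by omega⟩
  have hdl : ∀ r r₀ : k[X], r₀ = G * r → r₀.natDegree ≤ L → r.natDegree ≤ l := by
    intro r r₀ e h
    by_cases h0 : r = 0
    · rw [h0, natDegree_zero]
      exact Nat.zero_le _
    · rw [e, natDegree_mul hG0 h0] at h
      omega
  have hqd := hdl q q₀ hq hq₀d
  have hpd := hdl p p₀ hp hp₀d
  have hTG : VlBForm G G.natDegree t₁ t₂ ∈ S.Th (((G.natDegree : ℕ) : ℤ) * (2 * x)) 0 0 :=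
    VlBForm_mem P.m₁ P.m₂
  have hTq : VlBForm q l t₁ t₂ ∈ S.Th ((l : ℤ) * (2 * x)) 0 0 := VlBForm_mem P.m₁ P.m₂
  have hTp : VlBForm p l t₁ t₂ ∈ S.Th ((l : ℤ) * (2 * x)) 0 0 := VlBForm_mem P.m₁ P.m₂
  have hTfq := S.th_mul (K.mem hf) hTq
  have hTgp := S.th_mul (K.mem hg) hTp
  have hrel₁ : f * VlBForm q l t₁ t₂ - g * VlBForm p l t₁ t₂ ∈ Mult s := by
    have h1 : VlBForm G G.natDegree t₁ t₂ * (f * VlBForm q l t₁ t₂ - g * VlBForm p l t₁ t₂) ∈ Mult s := by
      have e : VlBForm G G.natDegree t₁ t₂ * (f * VlBForm q l t₁ t₂ - g * VlBForm p l t₁ t₂) =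
          f * VlBForm q₀ L t₁ t₂ - g * VlBForm p₀ L t₁ t₂ := by
        rw [hq, hp, hl, VlBForm_mul le_rfl hqd, VlBForm_mul le_rfl hpd]
        ring
      rw [e]
      exact hrel₀
    rcases PerData.dich_prime hsT hs0 hD hTG (Submodule.sub_mem _ hTfq hTgp) h1 with h2 | h2
    · exact absurd (VlBForm_ne P le_rfl h2) hG0
    · exact h2
  refine ⟨q, p, hcop, by omega, by omega, ?_, ?_, ?_⟩
  · intro hgm hq0
    have h1 : g * VlBForm p l t₁ t₂ ∈ Mult s := by
      have h2 := Submodule.neg_mem _ hrel₁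
      have e : -(f * VlBForm q l t₁ t₂ - g * VlBForm p l t₁ t₂) = g * VlBForm p l t₁ t₂ := by
        have e1 : VlBForm q l t₁ t₂ = 0 := by
          unfold VlBForm
          rw [hq0]
          refine Finset.sum_eq_zero fun i _ => ?_
          rw [Polynomial.coeff_zero]
          exact zero_smul ℂ _
        rw [e1, mul_zero, zero_sub, neg_neg]
      rwa [e] at h2
    rcases PerData.dich_prime hsT hs0 hD (K.mem hg) hTp h1 with h2 | h2
    · exact hgm h2
    · have h3 := VlBForm_ne P hpd h2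
      rw [hq0, h3] at hcop
      obtain ⟨u, v, h4⟩ := hcop
      rw [mul_zero, mul_zero, add_zero] at h4
      exact zero_ne_one h4
  · intro hfm hp0
    have h1 : f * VlBForm q l t₁ t₂ ∈ Mult s := by
      have e : (f * VlBForm q l t₁ t₂ - g * VlBForm p l t₁ t₂) = f * VlBForm q l t₁ t₂ := by
        have e1 : VlBForm p l t₁ t₂ = 0 := by
          unfold VlBForm
          rw [hp0]
          refine Finset.sum_eq_zero fun i _ => ?_
          rw [Polynomial.coeff_zero]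
          exact zero_smul ℂ _
        rw [e1, mul_zero, sub_zero]
      rwa [e] at hrel₁
    rcases PerData.dich_prime hsT hs0 hD (K.mem hf) hTq h1 with h2 | h2
    · exact hfm h2
    · have h3 := VlBForm_ne P hqd h2
      rw [hp0, h3] at hcop
      obtain ⟨u, v, h4⟩ := hcop
      rw [mul_zero, mul_zero, add_zero] at h4
      exact zero_ne_one h4
  · intro c Q hQ
    obtain ⟨-, hsQ, ht2, htc⟩ := hQ
    obtain ⟨h, -, he⟩ := hrel₁
    have h1 := congrFun he Q
    rw [Pi.sub_apply, Pi.mul_apply, Pi.mul_apply, Pi.mul_apply, hsQ, zero_mul, VlBForm_eval hqd htc,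
      VlBForm_eval hpd htc] at h1
    refine mul_left_cancel₀ (pow_ne_zero l ht2) ?_
    linear_combination h1

/-- Values of even functions at the points of the curve with parameter in `k`.
PROOF: `m ≥ 1`: `exists_poly2`; if `q(c) = 0` then `g Q p(c) = 0`, so `p(c) = 0`, contradiction with `IsCoprime`.  So `f Q / g Q = p(c) / q(c) ∈ k`.
`m = 0`: `f, g` are constant (`th_level_zero`), with values in `k` (`zero`). -/
theorem exists_evK2 {a b x y : ℕ} {s t₁ t₂ : C2 → ℂ} (P : S.Pen2 a b x y s t₁ t₂) (hs : s * s ∈ K.R a)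
    (h₁ : t₁ ∈ K.R x) (h₂ : t₂ ∈ K.R x) {c : ℂ} (hc : c ∈ k) {Q : C2} (hQ : S.At s t₁ t₂ c Q) : K.EvK Q := by
  intro m f g hf hg hfp hgp hgQ
  rcases Nat.eq_zero_or_pos m with rfl | hm
  · have cst : ∀ u : C2 → ℂ, u ∈ K.R 0 → u Q ∈ k := by
      intro u hu
      have h1 := K.mem hu
      have h2 : u ∈ S.Th 0 0 0 := by
        have e : (2 * ((0 : ℕ) : ℤ)) = 0 := by norm_num
        rwa [e] at h1
      obtain ⟨d, hd⟩ := S.th_level_zero h2
      have h3 := K.zero 0 u hu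
      rw [hd] at h3 ⊢
      exact h3
    exact k.div_mem (cst f hf) (cst g hg)
  · obtain ⟨q, p, hcop, -, -, -, -, hqp⟩ := K.exists_poly2 P hs h₁ h₂ hm hf hfp hg hgp
    have h1 := hqp c Q hQ
    have hev : ∀ r : k[X], (r.map k.subtype).eval c = ((r.eval ⟨c, hc⟩ : k) : ℂ) := fun r =>
      eval_map_apply k.subtype ⟨c, hc⟩
    rw [hev, hev] at h1
    have hq0 : q.eval ⟨c, hc⟩ ≠ 0 := by
      intro h0
      rw [h0, ZeroMemClass.coe_zero, mul_zero] at h1
      have h2 : p.eval ⟨c, hc⟩ = 0 := by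
        rcases mul_eq_zero.1 h1.symm with h3 | h3
        · exact absurd h3 hgQ
        · exact Subtype.ext h3
      obtain ⟨u, v, h4⟩ := hcop
      have h5 := congrArg (fun r : k[X] => r.eval ⟨c, hc⟩) h4
      simp only [eval_add, eval_mul, eval_one, h0, h2, mul_zero, add_zero] at h5
      exact zero_ne_one h5
    have hq0' : ((q.eval ⟨c, hc⟩ : k) : ℂ) ≠ 0 := fun h => hq0 (Subtype.ext h)
    have e : f Q / g Q = ((p.eval ⟨c, hc⟩ : k) : ℂ) / ((q.eval ⟨c, hc⟩ : k) : ℂ) := by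
      rw [div_eq_div_iff hgQ hq0', h1]
      ring
    rw [e]
    exact k.div_mem (Subtype.coe_prop _) (Subtype.coe_prop _)

end KForm

end Q2T
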